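import Mathlib

set_option autoImplicit false

open Complex MeasureTheory Set Filter Topology

namespace Wg

/-- The Gaussian integers inside `ℂ`. -/
def Lam : AddSubgroup ℂ where
  carrier := {z | ∃ m n : ℤ, z = (m : ℂ) + (n : ℂ) * I}
  add_mem' := by
    rintro a b ⟨m, n, rfl⟩ ⟨m', n', rfl⟩
    exact ⟨m + m', n + n', by push_cast; ring⟩
  zero_mem' := ⟨0, 0, by simp⟩
  neg_mem' := by
    rintro a ⟨m, n, rfl⟩
    exact ⟨-m, -n, by push_cast; ring⟩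

/-- The elliptic data used in the construction: `P = ℘`, `Pd = ℘'` for the square lattice, and a
zero free function `g` on `ℂ \ Λ` with unitary multipliers and `g (-z) = 1 / g z`. -/
structure Kit where
  P : ℂ → ℂ
  Pd : ℂ → ℂ
  g : ℂ → ℂ
  g2 : ℂ
  g3 : ℂ
  hP : ∀ z ∉ Lam, HasDerivAt P (Pd z) z
  hPd : DifferentiableOn ℂ Pd (Lam : Set ℂ)ᶜ
  P_add : ∀ l ∈ Lam, ∀ z, P (z + l) = P z
  Pd_add : ∀ l ∈ Lam, ∀ z, Pd (z + l) = Pd z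
  P_neg : ∀ z, P (-z) = P z
  Pd_neg : ∀ z, Pd (-z) = - Pd z
  Pd_sq : ∀ z ∉ Lam, Pd z ^ 2 = 4 * P z ^ 3 - g2 * P z - g3
  Pd_ne : ∀ z, 2 * z ∉ Lam → Pd z ≠ 0
  Pd_zero : ∀ z, 2 * z ∈ Lam → Pd z = 0
  P_inj : ∀ z ∉ Lam, ∀ z' ∉ Lam, P z = P z' → z - z' ∈ Lam ∨ z + z' ∈ Lam
  P_surj : ∀ x, ∃ z ∉ Lam, P z = x
  hg : DifferentiableOn ℂ g (Lam : Set ℂ)ᶜ
  g_ne : ∀ z, g z ≠ 0
  g_neg : ∀ z, g (-z) = (g z)⁻¹
  g_add : ∀ l ∈ Lam, ∃ c : ℂ, ‖c‖ = 1 ∧ ∀ z ∉ Lam, g (z + l) = c * g z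
  g_one : ∀ z ∉ Lam, g (z + 1) = exp I * g z

/-- The cubic polynomial. -/
def q (k : Kit) (x : ℂ) : ℂ := 4 * x ^ 3 - k.g2 * x - k.g3

/-- A preimage of `x` under `℘`. -/
noncomputable def sec (k : Kit) (x : ℂ) : ℂ := Classical.choose (k.P_surj x)

/-- The `ℂ*`-coordinate on the semi-abelian surface. -/
noncomputable def E (k : Kit) (z y : ℂ) : ℂ := (k.Pd z + y) / (k.Pd z - y) * k.g z

/-- `|E| + 1/|E|`, a function on the `(x, y)`-plane. -/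
noncomputable def S (k : Kit) (x y : ℂ) : ℝ := ‖E k (sec k x) y‖ + ‖(E k (sec k x) y)⁻¹‖

/-- The domain, as a subset of `ℂ × ℂ`. -/
def Om (k : Kit) : Set (ℂ × ℂ) := {p | q k p.1 ≠ 0 ∧ q k p.1 ≠ p.2 ^ 2 ∧ S k p.1 p.2 < 5 / 2}

/-- The parametrisation `y = ψ_z(s)` of the fibre over `x = ℘(z)`. -/
noncomputable def psi (k : Kit) (z s : ℂ) : ℂ := k.Pd z * (s - k.g z) / (s + k.g z)

/-- The annulus `1/2 < |s| < 2`. -/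
def An : Set ℂ := {s | 1 / 2 < ‖s‖ ∧ ‖s‖ < 2}

/-- the pull back of the form `F dx dy` -/
noncomputable def HH (k : Kit) (F : ℂ × ℂ → ℂ) (z s : ℂ) : ℂ :=
  F (k.P z, psi k z s) * (4 * s * k.g z * (k.Pd z) ^ 2 / (s + k.g z) ^ 2)

end Wg
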