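import Mathlib

set_option autoImplicit false

namespace Pool.Agent.Helper620.RO

open Finset Classical

/-- `x` is a sum of at most `j` distinct elements of `A`. -/
def D (A : Set ℕ) (j x : ℕ) : Prop :=
  ∃ S : Finset ℕ, (↑S : Set ℕ) ⊆ A ∧ S.card ≤ j ∧ S.sum id = x

/-- `x` has, for each set `C` of at most `K` numbers, a representation as a sum of at most `t`
distinct elements of `A` avoiding `C`. -/
def Rob (A : Set ℕ) (K t x : ℕ) : Prop :=
  ∀ C : Finset ℕ, C.card ≤ K →
    ∃ S : Finset ℕ, (↑S : Set ℕ) ⊆ A ∧ Disjoint S C ∧ S.card ≤ t ∧ S.sum id = x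

/-- `x` is a sum of at most `h` elements of `A` with excess at most `s`. -/
def U (A : Set ℕ) (h s x : ℕ) : Prop :=
  ∃ M : Multiset ℕ, (∀ a ∈ M, a ∈ A) ∧ M.card ≤ h ∧ M.card ≤ M.toFinset.card + s ∧ M.sum = x

lemma U_mono {A : Set ℕ} {h s x : ℕ} (hx : U A h s x) : U A h (s + 1) x := by
  obtain ⟨M, h1, h2, h3, h4⟩ := hx
  exact ⟨M, h1, h2, by omega, h4⟩

lemma U_zero {A : Set ℕ} {h x : ℕ} (hx : U A h 0 x) : D A h x := by
  obtain ⟨M, h1, h2, h3, h4⟩ := hx
  have hnd : M.Nodup := by
    have : M.toFinset.card = M.card := le_antisymm (Multiset.toFinset_card_le M) (by omega)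
    exact Multiset.toFinset_card_eq_card_iff_nodup.mp this
  refine ⟨M.toFinset, ?_, ?_, ?_⟩
  · intro a ha
    exact h1 a (by simpa using ha)
  · exact (Multiset.toFinset_card_le M).trans h2
  · rw [← h4]
    have : M.toFinset.val = M := by
      rw [Multiset.toFinset_val, hnd.dedup]
    rw [Finset.sum, this, Multiset.map_id]

lemma U_split {A : Set ℕ} {h s x : ℕ} (hx : U A h (s + 1) x) (hn : ¬ U A h s x) :
    ∃ p : ℕ, ∃ M : Multiset ℕ, (∀ a ∈ M, a ∈ A) ∧ p ∈ M ∧ M.card + 1 ≤ h ∧
      M.card ≤ M.toFinset.card + s ∧ p + M.sum = x := by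
  obtain ⟨M, h1, h2, h3, h4⟩ := hx
  have h5 : M.card = M.toFinset.card + s + 1 := by
    by_contra hne
    exact hn ⟨M, h1, h2, by omega, h4⟩
  have h6 : ¬ M.Nodup := by
    intro hnd
    have := Multiset.toFinset_card_of_nodup hnd
    omega
  rw [Multiset.nodup_iff_count_le_one] at h6
  push Not at h6
  obtain ⟨p, hp⟩ := h6
  have hpM : p ∈ M := Multiset.count_pos.mp (by omega)
  have hcons : p ::ₘ M.erase p = M := Multiset.cons_erase hpM
  have hpM' : p ∈ M.erase p := by
    rw [← Multiset.count_pos, Multiset.count_erase_self]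
    omega
  have hcard : (M.erase p).card + 1 = M.card := by
    rw [← Multiset.card_cons, hcons]
  have htf : (M.erase p).toFinset = M.toFinset := by
    conv_rhs => rw [← hcons]
    rw [Multiset.toFinset_cons, Finset.insert_eq_of_mem (by simpa using hpM')]
  refine ⟨p, M.erase p, ?_, hpM', ?_, ?_, ?_⟩
  · intro a ha
    exact h1 a (Multiset.mem_of_mem_erase ha)
  · omega
  · rw [htf]; omega
  · rw [← h4]
    conv_rhs => rw [← hcons]
    rw [Multiset.sum_cons]

lemma U_step (A : Set ℕ) (h s X : ℕ) (hh : 1 ≤ h) :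
    ((range X).filter (U A h (s + 1))).card ≤ h * ((range X).filter (U A h s)).card := by
  set E := (range X).filter (fun x => U A h (s + 1) x ∧ ¬ U A h s x) with hE
  have key : ∀ x, (U A h (s + 1) x ∧ ¬ U A h s x) → ∃ p : ℕ, ∃ M : Multiset ℕ,
      (∀ a ∈ M, a ∈ A) ∧ p ∈ M ∧ M.card + 1 ≤ h ∧
      M.card ≤ M.toFinset.card + s ∧ p + M.sum = x := fun x hx => U_split hx.1 hx.2
  choose! p M hMA hpM hcard hexc hsum using key
  have hEmem : ∀ x ∈ E, x < X ∧ U A h (s + 1) x ∧ ¬ U A h s x := by
    intro x hx
    rw [hE, mem_filter, mem_range] at hx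
    exact hx
  have hfib : ∀ b ∈ image (fun x => x - p x) E, ({x ∈ E | x - p x = b}).card ≤ h - 1 := by
    intro b hb
    rw [mem_image] at hb
    obtain ⟨x1, hx1E, hx1b⟩ := hb
    have h1 := hEmem x1 hx1E
    have hs1 := hsum x1 h1.2
    have hc1 := hcard x1 h1.2
    have hle : ({x ∈ E | x - p x = b}).card ≤ ((M x1).toFinset).card := by
      apply Finset.card_le_card_of_injOn p
      · intro x hx
        rw [mem_coe, mem_filter] at hx
        obtain ⟨hxE, hxb⟩ := hx
        have h2 := hEmem x hxE
        have hs2 := hsum x h2.2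
        by_contra hnot
        apply h2.2.2
        refine ⟨p x ::ₘ M x1, ?_, ?_, ?_, ?_⟩
        · intro a ha
          rw [Multiset.mem_cons] at ha
          rcases ha with rfl | ha
          · exact hMA x h2.2 _ (hpM x h2.2)
          · exact hMA x1 h1.2 _ ha
        · rw [Multiset.card_cons]; exact hc1
        · rw [Multiset.card_cons, Multiset.toFinset_cons, Finset.card_insert_of_notMem
            (by simpa using hnot)]
          have := hexc x1 h1.2
          omega
        · rw [Multiset.sum_cons]
          omega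
      · intro x hx y hy hxy
        rw [mem_coe, mem_filter] at hx hy
        have h2 := hsum x (hEmem x hx.1).2
        have h3 := hsum y (hEmem y hy.1).2
        have h4 := hx.2
        have h5 := hy.2
        omega
    have := Multiset.toFinset_card_le (M x1)
    omega
  have hcardE := Finset.card_le_mul_card_image (f := fun x => x - p x) E (h - 1) hfib
  have himg : image (fun x => x - p x) E ⊆ (range X).filter (U A h s) := by
    intro b hb
    rw [mem_image] at hb
    obtain ⟨x, hxE, hxb⟩ := hb
    have h2 := hEmem x hxE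
    have hs2 := hsum x h2.2
    have hc2 := hcard x h2.2
    rw [mem_filter, mem_range]
    refine ⟨by omega, M x, hMA x h2.2, by omega, hexc x h2.2, by omega⟩
  have hcardimg := Finset.card_le_card himg
  have hsub : (range X).filter (U A h (s + 1)) ⊆ E ∪ (range X).filter (U A h s) := by
    intro x hx
    rw [mem_filter] at hx
    rw [mem_union, hE, mem_filter, mem_filter]
    by_cases hU : U A h s x
    · exact Or.inr ⟨hx.1, hU⟩
    · exact Or.inl ⟨hx.1, hx.2, hU⟩
  calc ((range X).filter (U A h (s + 1))).card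
      ≤ (E ∪ (range X).filter (U A h s)).card := Finset.card_le_card hsub
    _ ≤ E.card + ((range X).filter (U A h s)).card := Finset.card_union_le _ _
    _ ≤ (h - 1) * ((range X).filter (U A h s)).card + ((range X).filter (U A h s)).card := by
        gcongr
        exact hcardE.trans (Nat.mul_le_mul_left _ hcardimg)
    _ = h * ((range X).filter (U A h s)).card := by
        obtain ⟨h', rfl⟩ : ∃ h', h = h' + 1 := ⟨h - 1, by omega⟩
        simp only [Nat.add_sub_cancel]
        ring

lemma U_pow (A : Set ℕ) (h s X : ℕ) (hh : 1 ≤ h) :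
    ((range X).filter (U A h s)).card ≤ h ^ s * ((range X).filter (D A h)).card := by
  induction s with
  | zero =>
    rw [pow_zero, one_mul]
    apply Finset.card_le_card
    intro x hx
    rw [mem_filter] at hx ⊢
    exact ⟨hx.1, U_zero hx.2⟩
  | succ s ih =>
    calc ((range X).filter (U A h (s + 1))).card ≤ h * ((range X).filter (U A h s)).card :=
          U_step A h s X hh
      _ ≤ h * (h ^ s * ((range X).filter (D A h)).card) := Nat.mul_le_mul_left _ ih
      _ = h ^ (s + 1) * ((range X).filter (D A h)).card := by ring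

/-- The distinct sums of a basis of order `h` have positive lower density. -/
lemma D_dense (A : Set ℕ) (h N X : ℕ) (hh : 1 ≤ h)
    (hA : ∀ n ≥ N, ∃ M : Multiset ℕ, M.card ≤ h ∧ (∀ a ∈ M, a ∈ A) ∧ M.sum = n) :
    X - N ≤ h ^ h * ((range X).filter (D A h)).card := by
  have h1 : X - N ≤ ((range X).filter (U A h h)).card := by
    have : (Finset.Ico N X) ⊆ (range X).filter (U A h h) := by
      intro x hx
      rw [Finset.mem_Ico] at hx
      rw [mem_filter, mem_range]
      obtain ⟨M, h1, h2, h3⟩ := hA x hx.1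
      exact ⟨hx.2, M, h2, h1, by omega, h3⟩
    calc X - N = (Finset.Ico N X).card := by simp
      _ ≤ _ := Finset.card_le_card this
  exact h1.trans (U_pow A h h X hh)

end Pool.Agent.Helper620.RO
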