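import Mathlib
import Pool.Agent.Helper620.A1

set_option autoImplicit false

namespace Pool.Agent.Helper620.RO

open Finset Classical

lemma D_hit (A : Set ℕ) (j X : ℕ) (S : ℕ → Finset ℕ)
    (hS : ∀ x, D A (j + 1) x → (↑(S x) : Set ℕ) ⊆ A ∧ (S x).card ≤ j + 1 ∧ (S x).sum id = x)
    (c : ℕ) :
    (((range X).filter (D A (j + 1))).filter (fun u => c ∈ S u)).card
      ≤ ((range X).filter (D A j)).card := by
  apply Finset.card_le_card_of_injOn (fun u => u - c)
  · intro u hu
    simp only [coe_filter, mem_filter, mem_range, Set.mem_ofPred_eq] at hu ⊢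
    obtain ⟨⟨huX, huD⟩, huc⟩ := hu
    obtain ⟨h1, h2, h3⟩ := hS u huD
    refine ⟨by omega, (S u).erase c, ?_, ?_, ?_⟩
    · intro a ha
      exact h1 (Finset.mem_of_mem_erase (Finset.mem_coe.mp ha))
    · rw [Finset.card_erase_of_mem huc]; omega
    · have := Finset.add_sum_erase (S u) id huc
      simp only [id] at this h3 ⊢
      omega
  · intro u hu v hv huv
    simp only [coe_filter, mem_filter, mem_range, Set.mem_ofPred_eq] at hu hv huv
    have h1 : c ≤ u := by
      have h3 := (hS u hu.1.2).2.2
      have := Finset.single_le_sum (f := id) (fun i _ => Nat.zero_le _) hu.2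
      simp only [id] at this h3
      omega
    have h2 : c ≤ v := by
      have h3 := (hS v hv.1.2).2.2
      have := Finset.single_le_sum (f := id) (fun i _ => Nat.zero_le _) hv.2
      simp only [id] at this h3
      omega
    omega

lemma D_hits (A : Set ℕ) (j X : ℕ) (S : ℕ → Finset ℕ)
    (hS : ∀ x, D A (j + 1) x → (↑(S x) : Set ℕ) ⊆ A ∧ (S x).card ≤ j + 1 ∧ (S x).sum id = x)
    (C : Finset ℕ) :
    (((range X).filter (D A (j + 1))).filter (fun u => ¬ Disjoint (S u) C)).card
      ≤ C.card * ((range X).filter (D A j)).card := by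
  have hsub : (((range X).filter (D A (j + 1))).filter (fun u => ¬ Disjoint (S u) C)) ⊆
      C.biUnion (fun c => ((range X).filter (D A (j + 1))).filter (fun u => c ∈ S u)) := by
    intro u hu
    rw [mem_filter] at hu
    rw [mem_biUnion]
    obtain ⟨h1, h2⟩ := hu
    rw [Finset.not_disjoint_iff] at h2
    obtain ⟨c, hc1, hc2⟩ := h2
    exact ⟨c, hc2, by rw [mem_filter]; exact ⟨h1, hc1⟩⟩
  calc _ ≤ (C.biUnion (fun c => ((range X).filter (D A (j + 1))).filter (fun u => c ∈ S u))).card :=
        Finset.card_le_card hsub
    _ ≤ C.card * ((range X).filter (D A j)).card :=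
        Finset.card_biUnion_le_card_mul _ _ _ (fun c _ => D_hit A j X S hS c)

/-- Counting numbers with robust representations. -/
lemma rob_count (A : Set ℕ) (j X K : ℕ) :
    ((range X).filter (D A (j + 1))).card * ((range X).filter (D A (j + 1))).card ≤
      ((range X).filter (D A (j + 1))).card * ((j + 1) * ((range X).filter (D A j)).card)
      + ((range (2 * X)).filter (Rob A K (2 * (j + 1)))).card
          * ((range X).filter (D A (j + 1))).card
      + (2 * X) * (2 * K * ((range X).filter (D A j)).card) := by
  have key : ∀ x, D A (j + 1) x → ∃ S : Finset ℕ,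
      (↑S : Set ℕ) ⊆ A ∧ S.card ≤ j + 1 ∧ S.sum id = x := fun x hx => hx
  choose! S hS using key
  set a := ((range X).filter (D A (j + 1))).card with ha
  set b := ((range X).filter (D A j)).card with hb
  set T := (range X).filter (D A (j + 1)) with hT
  -- pairs with disjoint supports
  set P := (T ×ˢ T).filter (fun u => Disjoint (S u.2) (S u.1)) with hP
  have hTmem : ∀ u ∈ T, u < X ∧ D A (j + 1) u := by
    intro u hu
    rw [hT, mem_filter, mem_range] at hu
    exact hu
  -- the number of bad pairs
  have hbad : ((T ×ˢ T).filter (fun u => ¬ Disjoint (S u.2) (S u.1))).card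
      ≤ a * ((j + 1) * b) := by
    have hmaps : Set.MapsTo Prod.fst
        (↑((T ×ˢ T).filter (fun u => ¬ Disjoint (S u.2) (S u.1))) : Set (ℕ × ℕ)) (↑T) := by
      intro u hu
      simp only [coe_filter, mem_product, Set.mem_ofPred_eq] at hu
      exact hu.1.1
    rw [Finset.card_eq_sum_card_fiberwise hmaps]
    calc _ ≤ ∑ u1 ∈ T, (j + 1) * b := by
          apply Finset.sum_le_sum
          intro u1 hu1
          have h1 : ({u ∈ (T ×ˢ T).filter (fun u => ¬ Disjoint (S u.2) (S u.1)) |
              u.1 = u1}).card ≤ (T.filter (fun u => ¬ Disjoint (S u) (S u1))).card := by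
            apply Finset.card_le_card_of_injOn Prod.snd
            · intro u hu
              simp only [coe_filter, mem_filter, mem_product, Set.mem_ofPred_eq] at hu ⊢
              obtain ⟨⟨⟨h1, h2⟩, h3⟩, h4⟩ := hu
              rw [h4] at h3
              exact ⟨h2, h3⟩
            · intro u hu v hv huv
              simp only [coe_filter, mem_filter, mem_product, Set.mem_ofPred_eq] at hu hv
              exact Prod.ext (hu.2.trans hv.2.symm) huv
          have h2 := D_hits A j X S hS (S u1)
          have h3 : (S u1).card ≤ j + 1 := (hS u1 (hTmem u1 hu1).2).2.1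
          calc _ ≤ _ := h1
            _ ≤ (S u1).card * b := h2
            _ ≤ (j + 1) * b := Nat.mul_le_mul_right _ h3
      _ = a * ((j + 1) * b) := by rw [Finset.sum_const, smul_eq_mul]
  have hPcard : a * a ≤ a * ((j + 1) * b) + P.card := by
    have h1 := Finset.card_filter_add_card_filter_not (s := T ×ˢ T)
      (fun u : ℕ × ℕ => Disjoint (S u.2) (S u.1))
    rw [Finset.card_product, ← hP, ← ha] at h1
    omega
  -- fibers over the sum
  have hmapsP : Set.MapsTo (fun u : ℕ × ℕ => u.1 + u.2) (↑P : Set (ℕ × ℕ))
      (↑(range (2 * X)) : Set ℕ) := by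
    intro u hu
    simp only [hP, coe_filter, mem_product, Set.mem_ofPred_eq] at hu
    have h1 := (hTmem _ hu.1.1).1
    have h2 := (hTmem _ hu.1.2).1
    simp only [coe_range, Set.mem_Iio]
    omega
  have hPsum := Finset.card_eq_sum_card_fiberwise hmapsP
  set V := (range (2 * X)).filter (Rob A K (2 * (j + 1))) with hV
  -- if the fiber is large then the sum is robust
  have hrob : ∀ y, 2 * K * b < ({u ∈ P | u.1 + u.2 = y}).card → Rob A K (2 * (j + 1)) y := by
    intro y hy C hC
    by_contra hno
    push Not at hno
    have hcov : ({u ∈ P | u.1 + u.2 = y}) ⊆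
        ({u ∈ P | u.1 + u.2 = y}).filter (fun u => ¬ Disjoint (S u.1) C) ∪
        ({u ∈ P | u.1 + u.2 = y}).filter (fun u => ¬ Disjoint (S u.2) C) := by
      intro u hu
      by_contra hcon
      rw [mem_union, not_or] at hcon
      have h1 : Disjoint (S u.1) C := by
        by_contra hd
        exact hcon.1 (by rw [mem_filter]; exact ⟨hu, hd⟩)
      have h2 : Disjoint (S u.2) C := by
        by_contra hd
        exact hcon.2 (by rw [mem_filter]; exact ⟨hu, hd⟩)
      rw [mem_filter] at hu
      obtain ⟨huP, huy⟩ := hu
      rw [hP, mem_filter, mem_product] at huP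
      obtain ⟨⟨hu1, hu2⟩, hdis⟩ := huP
      obtain ⟨a1, a2, a3⟩ := hS _ (hTmem _ hu1).2
      obtain ⟨b1, b2, b3⟩ := hS _ (hTmem _ hu2).2
      refine hno (S u.1 ∪ S u.2) ?_ ?_ ?_ ?_
      · rw [coe_union]
        exact Set.union_subset a1 b1
      · rw [Finset.disjoint_union_left]
        exact ⟨h1, h2⟩
      · exact (Finset.card_union_le _ _).trans (by omega)
      · rw [Finset.sum_union hdis.symm, a3, b3, huy]
    have hc1 : (({u ∈ P | u.1 + u.2 = y}).filter (fun u => ¬ Disjoint (S u.1) C)).card
        ≤ K * b := by
      have h1 : (({u ∈ P | u.1 + u.2 = y}).filter (fun u => ¬ Disjoint (S u.1) C)).card ≤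
          (T.filter (fun u => ¬ Disjoint (S u) C)).card := by
        apply Finset.card_le_card_of_injOn Prod.fst
        · intro u hu
          simp only [hP, coe_filter, mem_filter, mem_product, Set.mem_ofPred_eq] at hu ⊢
          exact ⟨hu.1.1.1.1, hu.2⟩
        · intro u hu v hv huv
          simp only [coe_filter, mem_filter, Set.mem_ofPred_eq] at hu hv
          have h1 := hu.1.2
          have h2 := hv.1.2
          have huv' : u.1 = v.1 := huv
          exact Prod.ext huv' (by omega)
      calc _ ≤ _ := h1
        _ ≤ C.card * b := D_hits A j X S hS C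
        _ ≤ K * b := Nat.mul_le_mul_right _ hC
    have hc2 : (({u ∈ P | u.1 + u.2 = y}).filter (fun u => ¬ Disjoint (S u.2) C)).card
        ≤ K * b := by
      have h1 : (({u ∈ P | u.1 + u.2 = y}).filter (fun u => ¬ Disjoint (S u.2) C)).card ≤
          (T.filter (fun u => ¬ Disjoint (S u) C)).card := by
        apply Finset.card_le_card_of_injOn Prod.snd
        · intro u hu
          simp only [hP, coe_filter, mem_filter, mem_product, Set.mem_ofPred_eq] at hu ⊢
          exact ⟨hu.1.1.1.2, hu.2⟩
        · intro u hu v hv huv
          simp only [coe_filter, mem_filter, Set.mem_ofPred_eq] at hu hv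
          have h1 := hu.1.2
          have h2 := hv.1.2
          have huv' : u.2 = v.2 := huv
          exact Prod.ext (by omega) huv'
      calc _ ≤ _ := h1
        _ ≤ C.card * b := D_hits A j X S hS C
        _ ≤ K * b := Nat.mul_le_mul_right _ hC
    have h1 := Finset.card_le_card hcov
    have h2 := h1.trans (Finset.card_union_le _ _)
    have h3 : 2 * K * b = K * b + K * b := by ring
    omega
  have hfibbound : ∀ y ∈ range (2 * X), ({u ∈ P | u.1 + u.2 = y}).card ≤
      (if y ∈ V then a else 0) + 2 * K * b := by
    intro y hy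
    by_cases hyV : y ∈ V
    · rw [if_pos hyV]
      have : ({u ∈ P | u.1 + u.2 = y}).card ≤ T.card := by
        apply Finset.card_le_card_of_injOn Prod.fst
        · intro u hu
          simp only [hP, coe_filter, mem_filter, mem_product, Set.mem_ofPred_eq] at hu ⊢
          exact hu.1.1.1
        · intro u hu v hv huv
          simp only [coe_filter, Set.mem_ofPred_eq] at hu hv
          have h1 := hu.2
          have h2 := hv.2
          have huv' : u.1 = v.1 := huv
          exact Prod.ext huv' (by omega)
      omega
    · rw [if_neg hyV]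
      by_contra hcon
      apply hyV
      rw [hV, mem_filter]
      exact ⟨hy, hrob y (by omega)⟩
  have hPle : P.card ≤ V.card * a + (2 * X) * (2 * K * b) := by
    rw [hPsum]
    calc _ ≤ ∑ y ∈ range (2 * X), ((if y ∈ V then a else 0) + 2 * K * b) :=
          Finset.sum_le_sum hfibbound
      _ = V.card * a + (2 * X) * (2 * K * b) := by
          rw [Finset.sum_add_distrib, Finset.sum_const, card_range, smul_eq_mul]
          congr 1
          rw [← Finset.sum_filter]
          rw [Finset.sum_const, smul_eq_mul]
          congr 2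
          ext y
          rw [mem_filter]
          constructor
          · exact fun h => h.2
          · intro h
            refine ⟨?_, h⟩
            rw [hV, mem_filter] at h
            exact h.1
  omega

end Pool.Agent.Helper620.RO
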