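import Mathlib
import Pool.Agent.Helper620.A2

set_option autoImplicit false

namespace Pool.Agent.Helper620.RO

open Finset Classical

lemma rob_dense (A : Set ℕ) (j X K d d' : ℕ)
    (h1 : X ≤ d * ((range X).filter (D A (j + 1))).card)
    (h2 : d' * ((range X).filter (D A j)).card < X)
    (h3 : 2 * d * (j + 1 + 4 * d * K) ≤ d') :
    X < 2 * d * ((range (2 * X)).filter (Rob A K (2 * (j + 1)))).card := by
  have h := rob_count A j X K
  set a := ((range X).filter (D A (j + 1))).card
  set b := ((range X).filter (D A j)).card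
  set V := ((range (2 * X)).filter (Rob A K (2 * (j + 1)))).card
  have hX : 0 < X := by omega
  have ha : 0 < a := by
    rcases Nat.eq_zero_or_pos a with h0 | h0
    · rw [h0] at h1; omega
    · exact h0
  have hd : 0 < d := by
    rcases Nat.eq_zero_or_pos d with h0 | h0
    · rw [h0] at h1; omega
    · exact h0
  have e1 : a * a ≤ a * ((j + 1) * b + V + 4 * d * K * b) := by
    calc a * a ≤ a * ((j + 1) * b) + V * a + (2 * X) * (2 * K * b) := h
      _ ≤ a * ((j + 1) * b) + V * a + (2 * (d * a)) * (2 * K * b) := by gcongr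
      _ = a * ((j + 1) * b + V + 4 * d * K * b) := by ring
  have e2 : a ≤ (j + 1) * b + V + 4 * d * K * b := Nat.le_of_mul_le_mul_left e1 ha
  have e3 : d * (2 * ((j + 1 + 4 * d * K) * b)) < d * a := by
    calc d * (2 * ((j + 1 + 4 * d * K) * b)) = (2 * d * (j + 1 + 4 * d * K)) * b := by ring
      _ ≤ d' * b := Nat.mul_le_mul_right _ h3
      _ < X := h2
      _ ≤ d * a := h1
  have e4 : 2 * ((j + 1 + 4 * d * K) * b) < a := Nat.lt_of_mul_lt_mul_left e3
  have e5 : (j + 1) * b + 4 * d * K * b = (j + 1 + 4 * d * K) * b := by ring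
  have e6 : a < 2 * V := by omega
  calc X ≤ d * a := h1
    _ < d * (2 * V) := Nat.mul_lt_mul_of_pos_left e6 hd
    _ = 2 * d * V := by ring

lemma D_zero {A : Set ℕ} {x : ℕ} (hx : D A 0 x) : x = 0 := by
  obtain ⟨S, h1, h2, h3⟩ := hx
  have : S = ∅ := Finset.card_eq_zero.mp (by omega)
  rw [this, Finset.sum_empty] at h3
  exact h3.symm

lemma Rob_mono {A : Set ℕ} {K t t' x : ℕ} (h : t ≤ t') (hx : Rob A K t x) : Rob A K t' x := by
  intro C hC
  obtain ⟨S, h1, h2, h3, h4⟩ := hx C hC
  exact ⟨S, h1, h2, h3.trans h, h4⟩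

lemma exists_switch (P : ℕ → Prop) (h : ℕ) (h0 : P 0) (hh : ¬ P h) :
    ∃ i < h, P i ∧ ¬ P (i + 1) := by
  by_contra hcon
  push Not at hcon
  have : ∀ i, i ≤ h → P i := by
    intro i
    induction i with
    | zero => intro _; exact h0
    | succ i ih => intro hi; exact hcon i (by omega) (ih (by omega))
  exact hh (this h le_rfl)

/-- At each large scale one of the robust classes is dense. -/
lemma classes (A : Set ℕ) (h N : ℕ) (hh : 1 ≤ h)
    (hA : ∀ n ≥ N, ∃ M : Multiset ℕ, M.card ≤ h ∧ (∀ a ∈ M, a ∈ A) ∧ M.sum = n)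
    (d K : ℕ → ℕ) (hd0 : 2 * h ^ h ≤ d 0)
    (hd : ∀ i < h, 2 * d i * (h + 4 * d i * K i) ≤ d (i + 1)) :
    ∃ N1 : ℕ, ∀ x ≥ N1, ∃ i < h,
      x ≤ 8 * d i * Nat.count (fun t => Rob A (K i) (2 * h) (t + 1)) x := by
  refine ⟨4 * N + 2 * d h + 2 + ∑ i ∈ range h, 8 * d i, ?_⟩
  intro x hx
  have hxi : ∀ i < h, 8 * d i ≤ x := by
    intro i hi
    have := Finset.single_le_sum (f := fun i => 8 * d i) (fun i _ => Nat.zero_le _)
      (Finset.mem_range.mpr hi)
    omega
  set X := (x + 1) / 2 with hX
  have hX1 : 2 * X ≤ x + 1 := by omega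
  have hX2 : x ≤ 2 * X := by omega
  have hXN : 2 * N ≤ X := by omega
  have hXd : d h < X := by omega
  obtain ⟨i, hi, hP1, hP2⟩ := exists_switch
    (fun i => X ≤ d i * ((range X).filter (D A (h - i))).card) h (by
      have h1 := D_dense A h N X hh hA
      have h2 : X ≤ 2 * (X - N) := by omega
      calc X ≤ 2 * (X - N) := h2
        _ ≤ 2 * (h ^ h * ((range X).filter (D A h)).card) := by gcongr
        _ = 2 * h ^ h * ((range X).filter (D A h)).card := by ring
        _ ≤ d 0 * ((range X).filter (D A (h - 0))).card := by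
          rw [Nat.sub_zero]; gcongr) (by
      simp only [Nat.sub_self, not_le]
      have : ((range X).filter (D A 0)).card ≤ 1 := by
        rw [Finset.card_le_one]
        intro a ha b hb
        rw [mem_filter] at ha hb
        rw [D_zero ha.2, D_zero hb.2]
      calc d h * ((range X).filter (D A 0)).card ≤ d h * 1 := by gcongr
        _ < X := by omega)
  refine ⟨i, hi, ?_⟩
  obtain ⟨j, hj⟩ : ∃ j, h - i = j + 1 := ⟨h - i - 1, by omega⟩
  have hj' : h - (i + 1) = j := by omega
  simp only [hj, hj', not_le] at hP1 hP2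
  have hj1 : j + 1 ≤ h := by omega
  have h3 : 2 * d i * (j + 1 + 4 * d i * K i) ≤ d (i + 1) :=
    le_trans (by gcongr) (hd i hi)
  have h4 := rob_dense A j X (K i) (d i) (d (i + 1)) hP1 hP2 h3
  set V := (range (2 * X)).filter (Rob A (K i) (2 * (j + 1))) with hV
  have h5 : V.card ≤ Nat.count (fun t => Rob A (K i) (2 * h) (t + 1)) x + 1 := by
    rw [Nat.count_eq_card_filter_range]
    have h6 : (V.erase 0).card ≤
        (filter (fun t => Rob A (K i) (2 * h) (t + 1)) (range x)).card := by
      apply Finset.card_le_card_of_injOn (fun y => y - 1)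
      · intro y hy
        rw [mem_coe, mem_erase, hV, mem_filter, mem_range] at hy
        rw [mem_coe, mem_filter, mem_range]
        refine ⟨show y - 1 < x by omega, ?_⟩
        have : y - 1 + 1 = y := by omega
        rw [this]
        exact Rob_mono (by omega) hy.2.2
      · intro y hy z hz hyz
        rw [mem_coe, mem_erase] at hy hz
        have hyz' : y - 1 = z - 1 := hyz
        omega
    have h7 := Finset.pred_card_le_card_erase (s := V) (a := 0)
    omega
  set c := Nat.count (fun t => Rob A (K i) (2 * h) (t + 1)) x with hc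
  have h8 : X < 2 * d i * (c + 1) := lt_of_lt_of_le h4 (by gcongr)
  have h9 := hxi i hi
  have h10 : 2 * d i * (c + 1) = 2 * (d i * c) + 2 * d i := by ring
  have h11 : 8 * d i * c = 8 * (d i * c) := by ring
  rw [h10] at h8
  rw [h11]
  omega

end Pool.Agent.Helper620.RO
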