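import Mathlib
import Pool.Agent.Helper620.A3

set_option autoImplicit false

namespace Pool.Agent.Helper620.RO

open Finset Classical

lemma count_mono_imp' (p q : ℕ → Prop) [DecidablePred p] [DecidablePred q] (n : ℕ) (h : ∀ k < n, p k → q k) :
    Nat.count p n ≤ Nat.count q n := by
  rw [Nat.count_eq_card_filter_range, Nat.count_eq_card_filter_range]
  apply Finset.card_le_card
  intro x hx
  rw [mem_filter, mem_range] at hx ⊢
  exact ⟨hx.1, h x hx.1 hx.2⟩

lemma count_true' (p : ℕ → Prop) [DecidablePred p] (n : ℕ) (h : ∀ k < n, p k) : Nat.count p n = n := by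
  rw [Nat.count_eq_card_filter_range, Finset.filter_true_of_mem, card_range]
  intro x hx
  exact h x (Finset.mem_range.mp hx)

lemma count_false' (p : ℕ → Prop) [DecidablePred p] (n : ℕ) (h : ∀ k < n, ¬ p k) : Nat.count p n = 0 := by
  rw [Nat.count_eq_card_filter_range, Finset.filter_false_of_mem, card_empty]
  intro x hx
  exact h x (Finset.mem_range.mp hx)

lemma count_le' (p : ℕ → Prop) [DecidablePred p] (n : ℕ) : Nat.count p n ≤ n := by
  rw [Nat.count_eq_card_filter_range]
  calc _ ≤ (range n).card := Finset.card_filter_le _ _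
    _ = n := card_range n

/-- The gap lemma. -/
lemma gap (k N1 : ℕ) (hN1 : 1 ≤ N1) (S : ℕ → Prop) (h0 : S 0) (R : ℕ → ℕ → Prop) (q : ℕ → ℕ)
    (n : ℕ)
    (hR : ∀ l, N1 ≤ l → l < n → ∃ i < k, l ≤ q i * Nat.count (fun t => R i (t + 1)) l) :
    ∃ G : ℕ → ℕ,
      n ≤ Nat.count (fun y => ∃ s ≤ y, S s ∧ y < s + N1) n + ∑ i ∈ range k, G i ∧
      ∀ i < k, q i * Nat.count S n + G i ≤
        q i * Nat.count (fun y => S y ∨ ∃ s u, S s ∧ R i u ∧ y = s + u) n := by
  induction n using Nat.strong_induction_on with
  | _ n ih =>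
    rcases Nat.eq_zero_or_pos n with hn | hn
    · subst hn
      exact ⟨fun _ => 0, by simp, by simp⟩
    · -- the last element of S below n
      have hfg : S (Nat.findGreatest S (n - 1)) := Nat.findGreatest_spec (Nat.zero_le _) h0
      set s := Nat.findGreatest S (n - 1) with hs
      have hsle : s ≤ n - 1 := Nat.findGreatest_le _
      have hgap : ∀ y, s < y → y ≤ n - 1 → ¬ S y := by
        intro y h1 h2 h3
        have := Nat.le_findGreatest h2 h3
        omega
      obtain ⟨l, hl⟩ : ∃ l, n = s + 1 + l := ⟨n - 1 - s, by omega⟩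
      obtain ⟨G, hG1, hG2⟩ := ih s (by omega) (fun l' h1 h2 => hR l' h1 (by omega))
      have c1 : Nat.count S n = Nat.count S s + 1 := by
        rw [hl, Nat.count_add, Nat.count_succ, if_pos hfg]
        rw [count_false' (fun k => S (s + 1 + k)) l]
        intro k hk
        exact hgap _ (by omega) (by omega)
      have c2 : ∀ i, Nat.count (fun y => S y ∨ ∃ s u, S s ∧ R i u ∧ y = s + u) s + 1
          + Nat.count (fun t => R i (t + 1)) l
          ≤ Nat.count (fun y => S y ∨ ∃ s u, S s ∧ R i u ∧ y = s + u) n := by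
        intro i
        rw [hl, Nat.count_add, Nat.count_succ, if_pos (Or.inl hfg)]
        apply Nat.add_le_add_left
        apply count_mono_imp'
        intro t ht hRt
        exact Or.inr ⟨s, t + 1, hfg, hRt, by omega⟩
      by_cases hlN : l < N1
      · refine ⟨G, ?_, ?_⟩
        · have c3 : Nat.count (fun y => ∃ s ≤ y, S s ∧ y < s + N1) s + 1 + l ≤
            Nat.count (fun y => ∃ s ≤ y, S s ∧ y < s + N1) n := by
            rw [hl, Nat.count_add, Nat.count_succ, if_pos ⟨s, le_rfl, hfg, by omega⟩]
            apply Nat.add_le_add_left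
            apply le_of_eq
            symm
            apply count_true'
            intro t ht
            exact ⟨s, by omega, hfg, by omega⟩
          omega
        · intro i hi
          have h1 := hG2 i hi
          have h2 := c2 i
          rw [c1]
          calc q i * (Nat.count S s + 1) + G i = (q i * Nat.count S s + G i) + q i := by ring
            _ ≤ q i * Nat.count (fun y => S y ∨ ∃ s u, S s ∧ R i u ∧ y = s + u) s + q i := by
                gcongr
            _ = q i * (Nat.count (fun y => S y ∨ ∃ s u, S s ∧ R i u ∧ y = s + u) s + 1) := by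
                ring
            _ ≤ _ := by
                apply Nat.mul_le_mul_left
                omega
      · obtain ⟨i0, hi0, hRi0⟩ := hR l (by omega) (by omega)
        refine ⟨Function.update G i0 (G i0 + l), ?_, ?_⟩
        · have c3 : Nat.count (fun y => ∃ s ≤ y, S s ∧ y < s + N1) s + 1 ≤
            Nat.count (fun y => ∃ s ≤ y, S s ∧ y < s + N1) n := by
            rw [hl, Nat.count_add, Nat.count_succ, if_pos ⟨s, le_rfl, hfg, by omega⟩]
            omega
          have c4 : ∑ i ∈ range k, Function.update G i0 (G i0 + l) i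
              = ∑ i ∈ range k, G i + l := by
            rw [Finset.sum_update_of_mem (Finset.mem_range.mpr hi0)]
            rw [← Finset.add_sum_erase (range k) G (Finset.mem_range.mpr hi0)]
            rw [Finset.sdiff_singleton_eq_erase]
            ring
          omega
        · intro i hi
          have h1 := hG2 i hi
          have h2 := c2 i
          rw [c1]
          by_cases hii : i = i0
          · subst hii
            rw [Function.update_self]
            calc q i * (Nat.count S s + 1) + (G i + l)
                = (q i * Nat.count S s + G i) + q i + l := by ring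
              _ ≤ q i * Nat.count (fun y => S y ∨ ∃ s u, S s ∧ R i u ∧ y = s + u) s + q i
                  + q i * Nat.count (fun t => R i (t + 1)) l := by
                  gcongr
              _ = q i * (Nat.count (fun y => S y ∨ ∃ s u, S s ∧ R i u ∧ y = s + u) s + 1
                  + Nat.count (fun t => R i (t + 1)) l) := by
                  ring
              _ ≤ _ := Nat.mul_le_mul_left _ h2
          · rw [Function.update_of_ne hii]
            calc q i * (Nat.count S s + 1) + G i = (q i * Nat.count S s + G i) + q i := by ring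
              _ ≤ q i * Nat.count (fun y => S y ∨ ∃ s u, S s ∧ R i u ∧ y = s + u) s + q i := by
                  gcongr
              _ = q i * (Nat.count (fun y => S y ∨ ∃ s u, S s ∧ R i u ∧ y = s + u) s + 1) := by
                  ring
              _ ≤ _ := by
                  apply Nat.mul_le_mul_left
                  omega

/-- `x` is a sum of elements of the sets `R i`, `i < k`, at most `m i` from `R i`. -/
def Bud (k : ℕ) (R : ℕ → ℕ → Prop) (m : ℕ → ℕ) (x : ℕ) : Prop :=
  ∃ f : ℕ → Multiset ℕ, (∀ i < k, (f i).card ≤ m i ∧ ∀ v ∈ f i, R i v) ∧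
    ∑ i ∈ range k, (f i).sum = x

lemma Bud_zero (k : ℕ) (R : ℕ → ℕ → Prop) (m : ℕ → ℕ) : Bud k R m 0 :=
  ⟨fun _ => 0, by simp, by simp⟩

lemma Bud_mono {k : ℕ} {R : ℕ → ℕ → Prop} {m m' : ℕ → ℕ} (h : ∀ i < k, m i ≤ m' i) {x : ℕ}
    (hx : Bud k R m x) : Bud k R m' x := by
  obtain ⟨f, h1, h2⟩ := hx
  exact ⟨f, fun i hi => ⟨(h1 i hi).1.trans (h i hi), (h1 i hi).2⟩, h2⟩

lemma Bud_add {k : ℕ} {R : ℕ → ℕ → Prop} {m m' : ℕ → ℕ} {x y : ℕ}
    (hx : Bud k R m x) (hy : Bud k R m' y) : Bud k R (fun i => m i + m' i) (x + y) := by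
  obtain ⟨f, h1, h2⟩ := hx
  obtain ⟨g, h3, h4⟩ := hy
  refine ⟨fun i => f i + g i, ?_, ?_⟩
  · intro i hi
    refine ⟨?_, ?_⟩
    · rw [Multiset.card_add]
      exact Nat.add_le_add (h1 i hi).1 (h3 i hi).1
    · intro v hv
      rw [Multiset.mem_add] at hv
      rcases hv with hv | hv
      · exact (h1 i hi).2 v hv
      · exact (h3 i hi).2 v hv
  · simp only [Multiset.sum_add]
    rw [Finset.sum_add_distrib, h2, h4]

lemma Bud_single {k : ℕ} {R : ℕ → ℕ → Prop} {i : ℕ} (hi : i < k) {y : ℕ} (hy : R i y) :
    Bud k R (fun j => if j = i then 1 else 0) y := by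
  refine ⟨fun j => if j = i then {y} else 0, ?_, ?_⟩
  · intro j hj
    by_cases hji : j = i
    · subst hji
      simp [hy]
    · simp [hji]
  · rw [Finset.sum_eq_single i]
    · simp
    · intro b _ hb
      simp [hb]
    · intro h
      exact absurd (Finset.mem_range.mpr hi) h

lemma pigeon (p : ℕ → Prop) [DecidablePred p] (x : ℕ) (h : x + 1 < 2 * Nat.count p (x + 1)) :
    ∃ b b', p b ∧ p b' ∧ b + b' = x := by
  rw [Nat.count_eq_card_filter_range] at h
  set T := filter p (range (x + 1)) with hT
  have hinj : (T.image (fun y => x - y)).card = T.card := by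
    apply Finset.card_image_of_injOn
    intro a ha b hb hab
    rw [mem_coe, hT, mem_filter, mem_range] at ha hb
    have : x - a = x - b := hab
    omega
  have hsub : T ∪ T.image (fun y => x - y) ⊆ range (x + 1) := by
    intro y hy
    rw [mem_union, mem_image] at hy
    rcases hy with hy | ⟨a, ha, hay⟩
    · rw [hT, mem_filter] at hy; exact hy.1
    · rw [mem_range]; omega
  have hnd : ¬ Disjoint T (T.image (fun y => x - y)) := by
    intro hd
    have h1 := Finset.card_le_card hsub
    rw [Finset.card_union_of_disjoint hd, card_range] at h1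
    omega
  rw [Finset.not_disjoint_iff] at hnd
  obtain ⟨b, hb1, hb2⟩ := hnd
  rw [mem_image] at hb2
  obtain ⟨b', hb', hbb'⟩ := hb2
  rw [hT, mem_filter, mem_range] at hb1 hb'
  exact ⟨b, b', hb1.2, hb'.2, by omega⟩

/-- The mixture lemma. -/
lemma mix_count (k N1 : ℕ) (hN1 : 1 ≤ N1) (R : ℕ → ℕ → Prop) (q : ℕ → ℕ)
    (hq : ∀ i < k, 1 ≤ q i) (n : ℕ) (hn : 0 < n)
    (hR : ∀ l, N1 ≤ l → l < n → ∃ i < k, l ≤ q i * Nat.count (fun t => R i (t + 1)) l) :
    n < 2 * Nat.count
      (fun y => ∃ s ≤ y, Bud k R (fun i => 2 * k * q i + 1) s ∧ y < s + N1) n := by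
  by_contra hcon
  push Not at hcon
  set r : ℕ → ℕ := fun i => 2 * k * q i + 1 with hr
  have key : ∀ T : ℕ, ∃ m : ℕ → ℕ, ∑ i ∈ range k, m i = T ∧
      (n : ℚ) * ∑ i ∈ range k, (m i : ℚ) / (2 * k * q i) ≤ Nat.count (Bud k R m) n := by
    intro T
    induction T with
    | zero => exact ⟨fun _ => 0, by simp, by simp⟩
    | succ T ih =>
      obtain ⟨m, hm1, hm2⟩ := ih
      have hmr : ∀ i < k, m i ≤ 2 * k * q i := by
        intro i hi
        have hqi := hq i hi
        have hkpos : (0 : ℚ) < 2 * k * q i := by
          have : 0 < 2 * k * q i := by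
            have : 0 < k := by omega
            positivity
          exact_mod_cast this
        have h1 : (m i : ℚ) / (2 * k * q i) ≤ ∑ i ∈ range k, (m i : ℚ) / (2 * k * q i) :=
          Finset.single_le_sum (f := fun i => (m i : ℚ) / (2 * k * q i))
            (fun i _ => by positivity) (Finset.mem_range.mpr hi)
        have h2 : (Nat.count (Bud k R m) n : ℚ) ≤ n := by
          exact_mod_cast count_le' _ n
        have hn' : (0 : ℚ) < n := by exact_mod_cast hn
        have h3 : (n : ℚ) * ((m i : ℚ) / (2 * k * q i)) ≤ n * 1 := by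
          calc (n : ℚ) * ((m i : ℚ) / (2 * k * q i)) ≤
                n * ∑ i ∈ range k, (m i : ℚ) / (2 * k * q i) := by gcongr
            _ ≤ Nat.count (Bud k R m) n := hm2
            _ ≤ n := h2
            _ = n * 1 := by ring
        have h4 : (m i : ℚ) / (2 * k * q i) ≤ 1 := le_of_mul_le_mul_left h3 hn'
        rw [div_le_one hkpos] at h4
        exact_mod_cast h4
      obtain ⟨G, hG1, hG2⟩ := gap k N1 hN1 (Bud k R m) (Bud_zero k R m) R q n hR
      have h5 : Nat.count (fun y => ∃ s ≤ y, Bud k R m s ∧ y < s + N1) n ≤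
          Nat.count (fun y => ∃ s ≤ y, Bud k R r s ∧ y < s + N1) n := by
        apply count_mono_imp'
        rintro y _ ⟨s, h1, h2, h3⟩
        refine ⟨s, h1, Bud_mono (fun i hi => ?_) h2, h3⟩
        have := hmr i hi
        show m i ≤ 2 * k * q i + 1
        omega
      have h6 : n ≤ 2 * ∑ i ∈ range k, G i := by omega
      obtain ⟨i, hi, hGi⟩ : ∃ i < k, n ≤ 2 * k * G i := by
        by_contra hc
        push Not at hc
        have hkpos : 0 < k := by
          rcases Nat.eq_zero_or_pos k with h0 | h0
          · subst h0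
            simp at h6
            omega
          · exact h0
        have h7 : ∑ i ∈ range k, (2 * k * G i) < ∑ i ∈ range k, n := by
          apply Finset.sum_lt_sum_of_nonempty
          · exact ⟨0, Finset.mem_range.mpr hkpos⟩
          · intro i hi
            exact hc i (Finset.mem_range.mp hi)
        rw [← Finset.mul_sum, Finset.sum_const, card_range, smul_eq_mul] at h7
        have h8 : k * n ≤ k * (2 * ∑ i ∈ range k, G i) := Nat.mul_le_mul_left _ h6
        have h9 : k * (2 * ∑ i ∈ range k, G i) = 2 * k * ∑ i ∈ range k, G i := by ring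
        omega
      refine ⟨fun j => m j + if j = i then 1 else 0, ?_, ?_⟩
      · rw [Finset.sum_add_distrib, hm1, Finset.sum_ite_eq' (range k) i]
        simp [hi]
      · have h10 := hG2 i hi
        have h11 : Nat.count (fun y => Bud k R m y ∨ ∃ s u, Bud k R m s ∧ R i u ∧ y = s + u) n ≤
            Nat.count (Bud k R (fun j => m j + if j = i then 1 else 0)) n := by
          apply count_mono_imp'
          rintro y _ (h | ⟨s, u, hs, hu, rfl⟩)
          · exact Bud_mono (fun j _ => by simp) h
          · exact Bud_add hs (Bud_single hi hu)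
        have h12 : q i * Nat.count (Bud k R m) n + G i ≤
            q i * Nat.count (Bud k R (fun j => m j + if j = i then 1 else 0)) n :=
          h10.trans (Nat.mul_le_mul_left _ h11)
        have hqi := hq i hi
        have hk0 : 0 < k := by omega
        have hqQ : (0 : ℚ) < q i := by exact_mod_cast hqi
        have hkQ : (0 : ℚ) < k := by exact_mod_cast hk0
        have h13 : (q i : ℚ) * Nat.count (Bud k R m) n + G i ≤
            q i * Nat.count (Bud k R (fun j => m j + if j = i then 1 else 0)) n := by
          exact_mod_cast h12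
        have h14 : (n : ℚ) ≤ 2 * k * G i := by exact_mod_cast hGi
        have h15 : ∑ j ∈ range k, (((m j + if j = i then 1 else 0 : ℕ) : ℚ)) / (2 * k * q j) =
            ∑ j ∈ range k, (m j : ℚ) / (2 * k * q j) + 1 / (2 * k * q i) := by
          have : ∀ j ∈ range k, (((m j + if j = i then 1 else 0 : ℕ) : ℚ)) / (2 * k * q j) =
              (m j : ℚ) / (2 * k * q j) + if j = i then 1 / (2 * k * q i : ℚ) else 0 := by
            intro j _
            by_cases hji : j = i
            · subst hji
              simp [add_div]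
            · simp [hji]
          rw [Finset.sum_congr rfl this, Finset.sum_add_distrib, Finset.sum_ite_eq' (range k) i]
          simp [hi]
        rw [h15, mul_add]
        have h16 : (n : ℚ) * (1 / (2 * k * q i)) ≤ G i / q i := by
          rw [mul_one_div, div_le_div_iff₀ (by positivity) hqQ]
          calc (n : ℚ) * q i ≤ (2 * k * G i) * q i := by gcongr
            _ = G i * (2 * k * q i) := by ring
        have h17 : (G i : ℚ) / q i ≤
            Nat.count (Bud k R (fun j => m j + if j = i then 1 else 0)) n
              - Nat.count (Bud k R m) n := by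
          rw [div_le_iff₀ hqQ]
          linarith
        linarith
  obtain ⟨m, hm1, hm2⟩ := key (∑ i ∈ range k, 2 * k * q i + 1)
  have hmr : ∀ i ∈ range k, m i ≤ 2 * k * q i := by
    intro i hi'
    have hi := Finset.mem_range.mp hi'
    have hqi := hq i hi
    have hkpos : (0 : ℚ) < 2 * k * q i := by
      have : 0 < 2 * k * q i := by
        have : 0 < k := by omega
        positivity
      exact_mod_cast this
    have h1 : (m i : ℚ) / (2 * k * q i) ≤ ∑ i ∈ range k, (m i : ℚ) / (2 * k * q i) :=
      Finset.single_le_sum (f := fun i => (m i : ℚ) / (2 * k * q i))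
        (fun i _ => by positivity) (Finset.mem_range.mpr hi)
    have h2 : (Nat.count (Bud k R m) n : ℚ) ≤ n := by
      exact_mod_cast count_le' _ n
    have hn' : (0 : ℚ) < n := by exact_mod_cast hn
    have h3 : (n : ℚ) * ((m i : ℚ) / (2 * k * q i)) ≤ n * 1 := by
      calc (n : ℚ) * ((m i : ℚ) / (2 * k * q i)) ≤
            n * ∑ i ∈ range k, (m i : ℚ) / (2 * k * q i) := by gcongr
        _ ≤ Nat.count (Bud k R m) n := hm2
        _ ≤ n := h2
        _ = n * 1 := by ring
    have h4 : (m i : ℚ) / (2 * k * q i) ≤ 1 := le_of_mul_le_mul_left h3 hn'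
    rw [div_le_one hkpos] at h4
    exact_mod_cast h4
  have := Finset.sum_le_sum hmr
  omega

/-- Each number is a bounded mixture sum plus a small error. -/
lemma mix (k N1 : ℕ) (hN1 : 1 ≤ N1) (R : ℕ → ℕ → Prop) (q : ℕ → ℕ)
    (hq : ∀ i < k, 1 ≤ q i) (x : ℕ)
    (hR : ∀ l, N1 ≤ l → l ≤ x → ∃ i < k, l ≤ q i * Nat.count (fun t => R i (t + 1)) l) :
    ∃ s δ, Bud k R (fun i => 2 * (2 * k * q i + 1)) s ∧ δ < 2 * N1 - 1 ∧ s + δ = x := by
  have h1 := mix_count k N1 hN1 R q hq (x + 1) (by omega)
    (fun l h1 h2 => hR l h1 (by omega))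
  obtain ⟨b, b', ⟨s, hs1, hs2, hs3⟩, ⟨s', hs1', hs2', hs3'⟩, hbb⟩ := pigeon _ _ h1
  refine ⟨s + s', (b - s) + (b' - s'), ?_, by omega, by omega⟩
  have := Bud_add hs2 hs2'
  apply Bud_mono _ this
  intro i _
  show 2 * k * q i + 1 + (2 * k * q i + 1) ≤ 2 * (2 * k * q i + 1)
  omega

end Pool.Agent.Helper620.RO
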