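import Mathlib
import Pool.Agent.Helper620.A4

set_option autoImplicit false

namespace Pool.Agent.Helper620.RO

open Finset Classical Filter

/-- Rising sun lemma: a set of positive upper density has a point from which it is dense on all
scales up to `L`. -/
lemma rising (p : ℕ → Prop) (q : ℕ) (hp : ∃ᶠ x in atTop, x ≤ q * Nat.count p x) (L : ℕ) :
    ∃ y, ∀ l ≤ L, l ≤ 2 * q * Nat.count (fun t => p (y + t)) l := by
  by_contra hcon
  push Not at hcon
  have key : ∀ x y, 2 * q * Nat.count (fun t => p (y + t)) x ≤ x + 2 * q * L := by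
    intro x
    induction x using Nat.strong_induction_on with
    | _ x ih =>
      intro y
      by_cases hxL : x ≤ L
      · have := count_le' (fun t => p (y + t)) x
        calc 2 * q * Nat.count (fun t => p (y + t)) x ≤ 2 * q * L := by gcongr; omega
          _ ≤ x + 2 * q * L := by omega
      · obtain ⟨l, hlL, hl⟩ := hcon y
        have hl0 : 0 < l := by omega
        have h1 := ih (x - l) (by omega) (y + l)
        have h2 : Nat.count (fun t => p (y + t)) x =
            Nat.count (fun t => p (y + t)) l + Nat.count (fun t => p (y + l + t)) (x - l) := by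
          have hx : x = l + (x - l) := by omega
          conv_lhs => rw [hx, Nat.count_add]
          simp only [add_assoc]
        rw [h2, mul_add]
        omega
  rw [Filter.frequently_atTop] at hp
  obtain ⟨x, hx1, hx2⟩ := hp (2 * q * L + 1)
  have h1 : 2 * q * Nat.count p x ≤ x + 2 * q * L := by
    have := key x 0
    simp only [zero_add] at this
    exact this
  have h2 : 2 * x ≤ 2 * q * Nat.count p x := by
    calc 2 * x ≤ 2 * (q * Nat.count p x) := by omega
      _ = 2 * q * Nat.count p x := by ring
  omega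

/-- Scaled density of the multiples of `z` that are sums of `z` elements of `W`. -/
lemma scaled (W : ℕ → Prop) (Q z : ℕ) (hz : 1 ≤ z) (hzQ : z ≤ Q) (l : ℕ) (hl : 1 ≤ l)
    (h : l ≤ Q * Nat.count W l) :
    l ≤ Q * Q * Nat.count
      (fun k => ∃ g : Multiset ℕ, (∀ w ∈ g, W w) ∧ g.card = z ∧ g.sum = z * k) l := by
  rw [Nat.count_eq_card_filter_range] at h ⊢
  set T := filter W (range l) with hT
  -- popular residue class
  obtain ⟨ρ, hρ, hpop⟩ : ∃ ρ < z, T.card ≤ z * (T.filter (fun w => w % z = ρ)).card := by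
    by_contra hc
    push Not at hc
    have hmaps : Set.MapsTo (fun w => w % z) (↑T : Set ℕ) (↑(range z) : Set ℕ) := by
      intro w _
      simp only [coe_range, Set.mem_Iio]
      exact Nat.mod_lt _ hz
    have h1 := Finset.card_eq_sum_card_fiberwise hmaps
    have h2 : ∑ ρ ∈ range z, z * (T.filter (fun w => w % z = ρ)).card < ∑ ρ ∈ range z, T.card := by
      apply Finset.sum_lt_sum_of_nonempty
      · exact ⟨0, Finset.mem_range.mpr hz⟩
      · intro ρ hρ
        exact hc ρ (Finset.mem_range.mp hρ)
    rw [← Finset.mul_sum, ← h1, Finset.sum_const, card_range, smul_eq_mul] at h2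
    exact lt_irrefl _ h2
  set C := T.filter (fun w => w % z = ρ) with hC
  have hCne : C.Nonempty := by
    rw [← Finset.card_pos]
    by_contra h0
    have h0' : C.card = 0 := by omega
    rw [h0', mul_zero] at hpop
    have : T.card = 0 := by omega
    rw [this, mul_zero] at h
    omega
  obtain ⟨v, hv⟩ := hCne
  have hCmem : ∀ w ∈ C, w < l ∧ W w ∧ w % z = ρ := by
    intro w hw
    rw [hC, mem_filter, hT, mem_filter, mem_range] at hw
    exact ⟨hw.1.1, hw.1.2, hw.2⟩
  have hv' := hCmem v hv
  have hinj : C.card ≤ (filter (fun k => ∃ g : Multiset ℕ, (∀ w ∈ g, W w) ∧ g.card = z ∧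
      g.sum = z * k) (range l)).card := by
    apply Finset.card_le_card_of_injOn (fun w => ((z - 1) * v + w) / z)
    · intro w hw
      have hw' := hCmem w hw
      have hdvd : z ∣ (z - 1) * v + w := by
        rw [Nat.dvd_iff_mod_eq_zero]
        have e1 : ((z - 1) * v + w) % z = ((z - 1) * v + v) % z := by
          rw [Nat.add_mod, hw'.2.2, ← hv'.2.2, ← Nat.add_mod]
        rw [e1]
        have e2 : (z - 1) * v + v = z * v := by
          obtain ⟨z', rfl⟩ : ∃ z', z = z' + 1 := ⟨z - 1, by omega⟩
          simp only [Nat.add_sub_cancel]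
          ring
        rw [e2, Nat.mul_mod_right]
      rw [mem_coe, mem_filter, mem_range]
      constructor
      · show ((z - 1) * v + w) / z < l
        rw [Nat.div_lt_iff_lt_mul hz]
        obtain ⟨z', rfl⟩ : ∃ z', z = z' + 1 := ⟨z - 1, by omega⟩
        simp only [Nat.add_sub_cancel]
        have : z' * v ≤ z' * l := Nat.mul_le_mul_left _ hv'.1.le
        have e3 : l * (z' + 1) = z' * l + l := by ring
        have := hw'.1
        omega
      · refine ⟨w ::ₘ Multiset.replicate (z - 1) v, ?_, ?_, ?_⟩
        · intro u hu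
          rw [Multiset.mem_cons] at hu
          rcases hu with rfl | hu
          · exact hw'.2.1
          · rw [Multiset.eq_of_mem_replicate hu]; exact hv'.2.1
        · rw [Multiset.card_cons, Multiset.card_replicate]; omega
        · rw [Multiset.sum_cons, Multiset.sum_replicate, smul_eq_mul]
          show w + (z - 1) * v = z * (((z - 1) * v + w) / z)
          rw [Nat.mul_div_cancel' hdvd]
          ring
    · intro w hw w' hw' hww
      have h1 := hCmem w hw
      have h2 := hCmem w' hw'
      have h3 : ((z - 1) * v + w) / z = ((z - 1) * v + w') / z := hww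
      have h4 : ((z - 1) * v + w) % z = ((z - 1) * v + w') % z := by
        rw [Nat.add_mod, h1.2.2, ← h2.2.2, ← Nat.add_mod]
      have h5 := Nat.div_add_mod ((z - 1) * v + w) z
      have h6 := Nat.div_add_mod ((z - 1) * v + w') z
      rw [h3, h4] at h5
      omega
  calc l ≤ Q * T.card := h
    _ ≤ Q * (z * C.card) := by gcongr
    _ ≤ Q * (Q * (filter (fun k => ∃ g : Multiset ℕ, (∀ w ∈ g, W w) ∧ g.card = z ∧
      g.sum = z * k) (range l)).card) := by gcongr
    _ = _ := by ring

/-- Number of summands in the progression lemma. -/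
def rE (q : ℕ) : ℕ := 2 * (2 * (2 * ((2 * q) * (2 * q))) + 1) * (2 * q)

lemma rE_mono {q q' : ℕ} (h : q ≤ q') : rE q ≤ rE q' := by
  unfold rE
  gcongr

/-- A set of positive upper density has long homogeneous progressions in a bounded sumset. -/
lemma prog (R : ℕ → Prop) (q : ℕ)
    (hR : ∃ᶠ x in atTop, x ≤ q * Nat.count (fun t => R (t + 1)) x) (L : ℕ) :
    ∃ z M, 1 ≤ z ∧ z ≤ 2 * q ∧ ∀ i ≤ L, ∃ g : Multiset ℕ, (∀ v ∈ g, R v) ∧
      g.card ≤ rE q ∧ g.sum = M + z * i := by
  obtain ⟨y, hy⟩ := rising (fun t => R (t + 1)) q hR (L + 2 * q + 2)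
  set W : ℕ → Prop := fun w => R (y + w + 1) with hW
  have hW1 := hy 1 (by omega)
  have hq : 1 ≤ q := by
    rcases Nat.eq_zero_or_pos q with h0 | h0
    · subst h0; simp at hW1
    · exact h0
  have hW0 : W 0 := by
    by_contra h0
    have : Nat.count W 1 = 0 := by
      apply count_false'
      intro k hk
      have : k = 0 := by omega
      rw [this]; exact h0
    rw [this] at hW1
    omega
  -- the difference z
  obtain ⟨z, hz1, hz2, hWz⟩ : ∃ z, 1 ≤ z ∧ z ≤ 2 * q ∧ W z := by
    have h1 := hy (2 * q + 1) (by omega)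
    change 2 * q + 1 ≤ 2 * q * Nat.count W (2 * q + 1) at h1
    have h2 : 1 < Nat.count W (2 * q + 1) := by
      by_contra hle
      have h3 : Nat.count W (2 * q + 1) ≤ 1 := by omega
      have h4 : 2 * q * Nat.count W (2 * q + 1) ≤ 2 * q * 1 :=
        Nat.mul_le_mul_left _ h3
      omega
    rw [Nat.count_eq_card_filter_range] at h2
    obtain ⟨z, hz, hz0⟩ := Finset.exists_mem_ne h2 0
    rw [mem_filter, mem_range] at hz
    exact ⟨z, by omega, by omega, hz.2⟩
  refine ⟨z, (2 * (2 * (2 * ((2 * q) * (2 * q))) + 1) * z) * (y + 1), hz1, hz2, ?_⟩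
  intro i hi
  -- multiples of z in the z-fold sumset
  set Y : ℕ → Prop := fun k => ∃ g : Multiset ℕ, (∀ w ∈ g, W w) ∧ g.card = z ∧ g.sum = z * k
    with hY
  have hYdense : ∀ l, 1 ≤ l → l ≤ L + 2 * q + 2 → l ≤ (2 * q) * (2 * q) * Nat.count Y l := by
    intro l h1 h2
    exact scaled W (2 * q) z hz1 hz2 l h1 (hy l h2)
  have hY1 : Y 1 := by
    refine ⟨z ::ₘ Multiset.replicate (z - 1) 0, ?_, ?_, ?_⟩
    · intro u hu
      rw [Multiset.mem_cons] at hu
      rcases hu with rfl | hu
      · exact hWz
      · rw [Multiset.eq_of_mem_replicate hu]; exact hW0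
    · rw [Multiset.card_cons, Multiset.card_replicate]; omega
    · rw [Multiset.sum_cons, Multiset.sum_replicate]; simp
  have hYsh : ∀ l, 1 ≤ l → l ≤ i →
      ∃ j < 1, l ≤ (fun _ => 2 * ((2 * q) * (2 * q))) j *
        Nat.count (fun t => (fun (_ : ℕ) => Y) j (t + 1)) l := by
    intro l h1 h2
    refine ⟨0, by omega, ?_⟩
    have h3 := hYdense (l + 1) (by omega) (by omega)
    have h4 : Nat.count Y (l + 1) ≤ 1 + Nat.count (fun t => Y (t + 1)) l := by
      rw [Nat.count_succ']
      split_ifs <;> omega
    have h8 : 1 ≤ Nat.count (fun t => Y (t + 1)) l := by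
      rw [Nat.count_eq_card_filter_range, Nat.one_le_iff_ne_zero, ← Nat.pos_iff_ne_zero,
        Finset.card_pos]
      exact ⟨0, by rw [mem_filter, mem_range]; exact ⟨by omega, hY1⟩⟩
    show l ≤ 2 * ((2 * q) * (2 * q)) * Nat.count (fun t => Y (t + 1)) l
    calc l ≤ (2 * q) * (2 * q) * Nat.count Y (l + 1) := by omega
      _ ≤ (2 * q) * (2 * q) * (2 * Nat.count (fun t => Y (t + 1)) l) := by
          apply Nat.mul_le_mul_left
          omega
      _ = _ := by ring
  obtain ⟨s, δ, hs, hδ, hsδ⟩ := mix 1 1 le_rfl (fun _ => Y) (fun _ => 2 * ((2 * q) * (2 * q)))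
    (fun _ _ => by
      have : 1 ≤ q * q := Nat.mul_le_mul hq hq
      nlinarith) i (fun l h1 h2 => hYsh l h1 h2)
  have hδ0 : δ = 0 := by omega
  subst hδ0
  rw [add_zero] at hsδ
  subst hsδ
  obtain ⟨f, hf1, hf2⟩ := hs
  have hf1' := hf1 0 (by omega)
  simp only [Finset.range_one, Finset.sum_singleton] at hf2
  -- expand the elements of f 0
  have hexp : ∀ F : Multiset ℕ, (∀ v ∈ F, Y v) → ∃ g : Multiset ℕ, (∀ w ∈ g, W w) ∧
      g.card = z * F.card ∧ g.sum = z * F.sum := by
    intro F
    induction F using Multiset.induction_on with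
    | empty => intro _; exact ⟨0, by simp, by simp, by simp⟩
    | cons a F ih =>
      intro hF
      obtain ⟨g, hg1, hg2, hg3⟩ := ih (fun v hv => hF v (Multiset.mem_cons_of_mem hv))
      obtain ⟨g', hg1', hg2', hg3'⟩ := hF a (Multiset.mem_cons_self a F)
      refine ⟨g' + g, ?_, ?_, ?_⟩
      · intro w hw
        rw [Multiset.mem_add] at hw
        rcases hw with hw | hw
        · exact hg1' w hw
        · exact hg1 w hw
      · rw [Multiset.card_add, hg2, hg2', Multiset.card_cons]; ring
      · rw [Multiset.sum_add, hg3, hg3', Multiset.sum_cons]; ring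
  obtain ⟨g, hg1, hg2, hg3⟩ := hexp (f 0) hf1'.2
  set r := 2 * (2 * (2 * ((2 * q) * (2 * q))) + 1) with hr
  have hfr : (f 0).card ≤ r := by
    have := hf1'.1
    simp only at this
    rw [hr]
    exact this
  have hgr : g.card ≤ r * z := by
    rw [hg2, mul_comm]
    exact Nat.mul_le_mul_right _ hfr
  refine ⟨(g + Multiset.replicate (r * z - g.card) 0).map (fun w => y + w + 1), ?_, ?_, ?_⟩
  · intro v hv
    rw [Multiset.mem_map] at hv
    obtain ⟨w, hw, rfl⟩ := hv
    rw [Multiset.mem_add] at hw
    rcases hw with hw | hw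
    · exact hg1 w hw
    · rw [Multiset.eq_of_mem_replicate hw]; exact hW0
  · rw [Multiset.card_map, Multiset.card_add, Multiset.card_replicate]
    have : g.card + (r * z - g.card) = r * z := by omega
    rw [this]
    unfold rE
    rw [← hr]
    exact Nat.mul_le_mul_left _ hz2
  · have e1 : ∀ G : Multiset ℕ, (G.map (fun w => y + w + 1)).sum = G.card * (y + 1) + G.sum := by
      intro G
      induction G using Multiset.induction_on with
      | empty => simp
      | cons a G ih =>
        rw [Multiset.map_cons, Multiset.sum_cons, ih, Multiset.card_cons, Multiset.sum_cons]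
        ring
    rw [e1, Multiset.card_add, Multiset.card_replicate, Multiset.sum_add,
      Multiset.sum_replicate, smul_zero, add_zero, hg3, hf2]
    have : g.card + (r * z - g.card) = r * z := by omega
    rw [this]

end Pool.Agent.Helper620.RO
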