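import Mathlib
import Pool.Agent.Helper620.A5

set_option autoImplicit false

namespace Pool.Agent.Helper620.RO

open Finset Classical Filter

/-- Residues: a bounded subset of a fixed finite pool, avoiding the elements of `Q` that lie in
infinite classes, realises each residue class. -/
lemma resid (A : Set ℕ) (z : ℕ) (hz : 1 ≤ z) (R' : ℕ)
    (hA : ∀ s : ℕ, ∃ T : Finset ℕ, (↑T : Set ℕ) ⊆ A ∧ T.sum id ≡ s [MOD z]) :
    ∃ P : Finset ℕ, ∀ Q : Finset ℕ, (↑Q : Set ℕ) ⊆ A → Q.card ≤ R' →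
      ∃ Q0 ⊆ Q, (Q \ Q0 ⊆ P) ∧ ∀ s : ℕ, ∃ S : Finset ℕ, S ⊆ P ∧ (↑S : Set ℕ) ⊆ A ∧
        Disjoint S Q0 ∧ S.card ≤ z * z ∧ S.sum id ≡ s [MOD z] := by
  set cl : ℕ → Set ℕ := fun ρ => {a | a ∈ A ∧ a % z = ρ} with hcl
  have hPex : ∀ ρ : ℕ, ∃ P : Finset ℕ, (↑P : Set ℕ) ⊆ cl ρ ∧
      ((cl ρ).Finite → cl ρ ⊆ ↑P) ∧ (¬ (cl ρ).Finite → R' + z ≤ P.card) := by
    intro ρ
    by_cases hfin : (cl ρ).Finite
    · refine ⟨hfin.toFinset, ?_, ?_, ?_⟩
      · simp
      · intro _; simp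
      · intro h; exact absurd hfin h
    · obtain ⟨P, hP1, hP2⟩ := Set.Infinite.exists_subset_card_eq hfin (R' + z)
      exact ⟨P, hP1, fun h => absurd h hfin, fun _ => hP2.ge⟩
  choose P hP1 hP2 hP3 using hPex
  refine ⟨(range z).biUnion P, ?_⟩
  intro Q hQA hQcard
  refine ⟨Q.filter (fun a => ¬ (cl (a % z)).Finite), Finset.filter_subset _ _, ?_, ?_⟩
  · intro a ha
    obtain ⟨haQ, hna⟩ := Finset.mem_sdiff.mp ha
    rw [mem_biUnion]
    have hfin : (cl (a % z)).Finite := by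
      by_contra hn
      exact hna (Finset.mem_filter.mpr ⟨haQ, hn⟩)
    refine ⟨a % z, Finset.mem_range.mpr (Nat.mod_lt _ hz), ?_⟩
    have := hP2 (a % z) hfin
    exact this ⟨hQA haQ, rfl⟩
  · intro s
    set Q0 := Q.filter (fun a => ¬ (cl (a % z)).Finite) with hQ0
    have hQ0card : Q0.card ≤ R' := (Finset.card_le_card (Finset.filter_subset _ _)).trans hQcard
    obtain ⟨T, hTA, hTs⟩ := hA s
    set τ : ℕ → ℕ := fun ρ => (T.filter (fun a => a % z = ρ)).card % z with hτ
    have hτlt : ∀ ρ, τ ρ < z := fun ρ => Nat.mod_lt _ hz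
    have hSex : ∀ ρ : ℕ, ∃ S : Finset ℕ, S ⊆ P ρ ∧ Disjoint S Q0 ∧ S.card = τ ρ := by
      intro ρ
      by_cases hfin : (cl ρ).Finite
      · have h1 : τ ρ ≤ (T.filter (fun a => a % z = ρ)).card := Nat.mod_le _ _
        obtain ⟨S, hS1, hS2⟩ := Finset.exists_subset_card_eq h1
        have hScl : ∀ a ∈ S, a ∈ cl ρ := by
          intro a ha
          have := hS1 ha
          rw [mem_filter] at this
          exact ⟨hTA this.1, this.2⟩
        refine ⟨S, ?_, ?_, hS2⟩
        · intro a ha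
          exact hP2 ρ hfin (hScl a ha)
        · rw [Finset.disjoint_left]
          intro a ha haQ
          rw [hQ0, mem_filter] at haQ
          have h2 := (hScl a ha).2
          rw [h2] at haQ
          exact haQ.2 hfin
      · have h1 : τ ρ ≤ (P ρ \ Q0).card := by
          have h2 := Finset.le_card_sdiff Q0 (P ρ)
          have h3 := hP3 ρ hfin
          have h4 := hτlt ρ
          omega
        obtain ⟨S, hS1, hS2⟩ := Finset.exists_subset_card_eq h1
        refine ⟨S, hS1.trans Finset.sdiff_subset, ?_, hS2⟩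
        exact Finset.disjoint_of_subset_left hS1 Finset.sdiff_disjoint
    choose Sf hS1 hS2 hS3 using hSex
    have hScl : ∀ ρ, ∀ a ∈ Sf ρ, a ∈ A ∧ a % z = ρ := by
      intro ρ a ha
      exact hP1 ρ (hS1 ρ ha)
    have hdisj : Set.PairwiseDisjoint (↑(range z) : Set ℕ) Sf := by
      intro i _ j _ hij
      rw [Function.onFun, Finset.disjoint_left]
      intro a ha ha'
      exact hij ((hScl i a ha).2.symm.trans (hScl j a ha').2)
    refine ⟨(range z).biUnion Sf, ?_, ?_, ?_, ?_, ?_⟩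
    · exact Finset.biUnion_mono (fun ρ _ => hS1 ρ)
    · intro a ha
      rw [mem_coe, mem_biUnion] at ha
      obtain ⟨ρ, _, h2⟩ := ha
      exact (hScl ρ a h2).1
    · rw [Finset.disjoint_biUnion_left]
      intro ρ _
      exact hS2 ρ
    · calc ((range z).biUnion Sf).card ≤ (range z).card * z :=
            Finset.card_biUnion_le_card_mul _ _ _ (fun ρ _ => by rw [hS3 ρ]; exact (hτlt ρ).le)
        _ = z * z := by rw [card_range]
    · refine Nat.ModEq.trans ?_ hTs
      rw [← ZMod.natCast_eq_natCast_iff]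
      rw [Finset.sum_biUnion hdisj]
      have hTsum : T.sum id = ∑ ρ ∈ range z, (T.filter (fun a => a % z = ρ)).sum id := by
        symm
        apply Finset.sum_fiberwise_of_maps_to
        intro a _
        exact Finset.mem_range.mpr (Nat.mod_lt _ hz)
      rw [hTsum]
      push_cast
      apply Finset.sum_congr rfl
      intro ρ _
      have e1 : ∀ G : Finset ℕ, (∀ a ∈ G, a % z = ρ) →
          (∑ x ∈ G, ((id x : ℕ) : ZMod z)) = (G.card : ZMod z) * (ρ : ZMod z) := by
        intro G hG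
        have : ∀ a ∈ G, ((id a : ℕ) : ZMod z) = (ρ : ZMod z) := by
          intro a ha
          rw [← hG a ha, id, ZMod.natCast_mod]
        rw [Finset.sum_congr rfl this, Finset.sum_const, nsmul_eq_mul]
      rw [e1 _ (fun a ha => (hScl ρ a ha).2), e1 _ (fun a ha => (Finset.mem_filter.mp ha).2),
        hS3 ρ, hτ]
      simp only [ZMod.natCast_mod]

/-- Realising a multiset of robust numbers. -/
lemma real (A : Set ℕ) (K t : ℕ) (F : Multiset ℕ) (hF : ∀ v ∈ F, Rob A K t v) (C : Finset ℕ)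
    (hC : C.card + t * F.card ≤ K) :
    ∃ S : Finset ℕ, (↑S : Set ℕ) ⊆ A ∧ Disjoint S C ∧ S.card ≤ t * F.card ∧
      S.sum id = F.sum := by
  induction F using Multiset.induction_on with
  | empty => exact ⟨∅, by simp, by simp, by simp, by simp⟩
  | cons a F ih =>
    rw [Multiset.card_cons, Nat.mul_add, Nat.mul_one] at hC
    obtain ⟨S, h1, h2, h3, h4⟩ := ih (fun v hv => hF v (Multiset.mem_cons_of_mem hv)) (by omega)
    obtain ⟨S', h1', h2', h3', h4'⟩ := hF a (Multiset.mem_cons_self a F) (C ∪ S)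
      ((Finset.card_union_le _ _).trans (by omega))
    rw [Finset.disjoint_union_right] at h2'
    refine ⟨S' ∪ S, ?_, ?_, ?_, ?_⟩
    · rw [coe_union]; exact Set.union_subset h1' h1
    · rw [Finset.disjoint_union_left]; exact ⟨h2'.1, h2⟩
    · rw [Multiset.card_cons, Nat.mul_add, Nat.mul_one]
      exact (Finset.card_union_le _ _).trans (by omega)
    · rw [Finset.sum_union h2'.2, h4, h4', Multiset.sum_cons]

lemma realRange (A : Set ℕ) (K : ℕ → ℕ) (t : ℕ) (f : ℕ → Multiset ℕ) (lo l : ℕ)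
    (hf : ∀ i, lo ≤ i → i < lo + l → ∀ v ∈ f i, Rob A (K i) t v) (C : Finset ℕ)
    (hC : ∀ i, lo ≤ i → i < lo + l →
      C.card + t * ∑ j ∈ Finset.Ico lo (i + 1), (f j).card ≤ K i) :
    ∃ S : Finset ℕ, (↑S : Set ℕ) ⊆ A ∧ Disjoint S C ∧
      S.card ≤ t * ∑ j ∈ Finset.Ico lo (lo + l), (f j).card ∧
      S.sum id = ∑ j ∈ Finset.Ico lo (lo + l), (f j).sum := by
  induction l with
  | zero => exact ⟨∅, by simp, by simp, by simp, by simp⟩
  | succ l ih =>
    obtain ⟨S, h1, h2, h3, h4⟩ := ih (fun i hi1 hi2 => hf i hi1 (by omega))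
      (fun i hi1 hi2 => hC i hi1 (by omega))
    have hC' := hC (lo + l) (by omega) (by omega)
    rw [Finset.sum_Ico_succ_top (by omega), Nat.mul_add] at hC'
    obtain ⟨S', h1', h2', h3', h4'⟩ := real A (K (lo + l)) t (f (lo + l))
      (hf (lo + l) (by omega) (by omega)) (C ∪ S) (by
        have := Finset.card_union_le C S
        omega)
    rw [Finset.disjoint_union_right] at h2'
    rw [← Nat.add_assoc, Finset.sum_Ico_succ_top (by omega), Finset.sum_Ico_succ_top (by omega)]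
    refine ⟨S ∪ S', ?_, ?_, ?_, ?_⟩
    · rw [coe_union]; exact Set.union_subset h1 h1'
    · rw [Finset.disjoint_union_left]; exact ⟨h2, h2'.1⟩
    · rw [Nat.mul_add]
      exact (Finset.card_union_le _ _).trans (by omega)
    · rw [Finset.sum_union h2'.2.symm, h4, h4']

/-- Bound for the number of summands used. -/
def kap (h q : ℕ) : ℕ := 2 * h * (h * (2 * (2 * h * q + 1))) + (2 * q) * (2 * q) + 2 * h * rE q

lemma kap_mono {h q q' : ℕ} (hq : q ≤ q') : kap h q ≤ kap h q' := by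
  unfold kap
  have := rE_mono hq
  gcongr

/-- The sequence of inverse densities. -/
def dd (h : ℕ) : ℕ → ℕ
  | 0 => 2 * h ^ h
  | (i + 1) => 2 * dd h i * (h + 4 * dd h i * kap h (8 * dd h i))

lemma dd_pos (h : ℕ) (hh : 1 ≤ h) (i : ℕ) : 1 ≤ dd h i := by
  induction i with
  | zero =>
    have : 1 ≤ h ^ h := Nat.one_le_pow _ _ hh
    simp only [dd]
    omega
  | succ i ih =>
    simp only [dd]
    have h1 : 1 ≤ h + 4 * dd h i * kap h (8 * dd h i) := by omega
    have h2 : 1 ≤ 2 * dd h i := by omega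
    exact Nat.mul_le_mul h2 h1

lemma dd_step (h : ℕ) (hh : 1 ≤ h) (i : ℕ) : dd h i ≤ dd h (i + 1) := by
  simp only [dd]
  have h1 : 1 ≤ h + 4 * dd h i * kap h (8 * dd h i) := by omega
  calc dd h i ≤ 2 * dd h i * 1 := by omega
    _ ≤ _ := Nat.mul_le_mul_left _ h1

lemma dd_mono (h : ℕ) (hh : 1 ≤ h) : Monotone (dd h) :=
  monotone_nat_of_le_succ (dd_step h hh)

/-- Main theorem: if `A` is a basis of order `h` and each residue class is hit by finite subset
sums of `A`, then each large integer is a sum of at most `F` distinct elements of `A`, where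
`F` depends only on `h`. -/
theorem main (h : ℕ) (hh : 1 ≤ h) (A : Set ℕ)
    (hA : ∃ N : ℕ, ∀ n ≥ N, ∃ M : Multiset ℕ, M.card ≤ h ∧ (∀ a ∈ M, a ∈ A) ∧ M.sum = n)
    (hres : ∀ z : ℕ, 1 ≤ z → ∀ s : ℕ, ∃ T : Finset ℕ, (↑T : Set ℕ) ⊆ A ∧ T.sum id ≡ s [MOD z]) :
    ∃ N : ℕ, ∀ n ≥ N, D A (kap h (8 * dd h h)) n := by
  obtain ⟨N, hN⟩ := hA
  set K : ℕ → ℕ := fun i => kap h (8 * dd h i) with hK
  set q : ℕ → ℕ := fun i => 8 * dd h i with hq
  set R : ℕ → ℕ → Prop := fun i => Rob A (K i) (2 * h) with hR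
  have hqmono : ∀ i j, i ≤ j → q i ≤ q j := by
    intro i j hij
    exact Nat.mul_le_mul_left _ (dd_mono h hh hij)
  obtain ⟨N1, hN1⟩ := classes A h N hh hN (dd h) K le_rfl (fun i _ => le_rfl)
  -- a class that is dense at infinitely many scales
  obtain ⟨i0, hi0, hfreq⟩ : ∃ i0 < h, ∃ᶠ x in atTop,
      x ≤ q i0 * Nat.count (fun t => R i0 (t + 1)) x := by
    by_contra hcon
    push Not at hcon
    have h1 : ∀ i ∈ range h, ∀ᶠ x in atTop,
        ¬ (x ≤ q i * Nat.count (fun t => R i (t + 1)) x) := by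
      intro i hi
      exact (hcon i (Finset.mem_range.mp hi)).mono (fun x hx => not_le.mpr hx)
    have h2 := (Filter.eventually_all_finset (range h)).mpr h1
    obtain ⟨x, hx1, hx2⟩ := (h2.and (Filter.eventually_ge_atTop N1)).exists
    obtain ⟨i, hi, hix⟩ := hN1 x hx2
    exact hx1 i (Finset.mem_range.mpr hi) hix
  -- pools for residues
  have hPex : ∀ z : ℕ, ∃ P : Finset ℕ, 1 ≤ z → ∀ Q : Finset ℕ, (↑Q : Set ℕ) ⊆ A →
      Q.card ≤ K i0 → ∃ Q0 ⊆ Q, (Q \ Q0 ⊆ P) ∧ ∀ s : ℕ, ∃ S : Finset ℕ, S ⊆ P ∧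
        (↑S : Set ℕ) ⊆ A ∧ Disjoint S Q0 ∧ S.card ≤ z * z ∧ S.sum id ≡ s [MOD z] := by
    intro z
    by_cases hz : 1 ≤ z
    · obtain ⟨P, hP⟩ := resid A z hz (K i0) (hres z hz)
      exact ⟨P, fun _ => hP⟩
    · exact ⟨∅, fun h => absurd h hz⟩
  choose P hP using hPex
  set CA := ∑ z ∈ range (2 * q i0 + 1), (P z).sum id with hCA
  set N2 := max N1 1 with hN2
  obtain ⟨z, M, hz1, hz2, hprog⟩ := prog (R i0) (q i0) hfreq (2 * N2 + 2 * CA)
  refine ⟨M + CA, ?_⟩
  intro n hn
  obtain ⟨x, hx⟩ : ∃ x, n = M + CA + x := ⟨n - (M + CA), by omega⟩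
  obtain ⟨s, δ, hs, hδ, hsδ⟩ := mix h N2 (by omega) R q
    (fun i _ => by have := dd_pos h hh i; show 1 ≤ 8 * dd h i; omega) x
    (fun l h1 _ => hN1 l (by omega))
  obtain ⟨f, hf1, hf2⟩ := hs
  have hPz : (P z).sum id ≤ CA := by
    rw [hCA]
    exact Finset.single_le_sum (f := fun z => (P z).sum id) (fun _ _ => Nat.zero_le _)
      (Finset.mem_range.mpr (by omega))
  have hfcard : ∀ i < h, ∀ j ≤ i, (f j).card ≤ 2 * (2 * h * q i + 1) := by
    intro i hi j hj
    have h1 := (hf1 j (by omega)).1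
    have h2 := hqmono j i hj
    calc (f j).card ≤ 2 * (2 * h * q j + 1) := h1
      _ ≤ 2 * (2 * h * q i + 1) := by gcongr
  -- the dense classes
  obtain ⟨Q, hQ1, _, hQ3, hQ4⟩ := realRange A K (2 * h) f 0 i0
    (fun i _ hi => (hf1 i (by omega)).2) ∅ (by
      intro i _ hi
      rw [Finset.card_empty, Nat.zero_add]
      have h1 : ∑ j ∈ Finset.Ico 0 (i + 1), (f j).card ≤ h * (2 * (2 * h * q i + 1)) := by
        calc ∑ j ∈ Finset.Ico 0 (i + 1), (f j).card
            ≤ ∑ j ∈ Finset.Ico 0 (i + 1), 2 * (2 * h * q i + 1) := by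
              apply Finset.sum_le_sum
              intro j hj
              rw [Finset.mem_Ico] at hj
              exact hfcard i (by omega) j (by omega)
          _ = (i + 1) * (2 * (2 * h * q i + 1)) := by simp
          _ ≤ _ := Nat.mul_le_mul_right _ (by omega)
      calc 2 * h * ∑ j ∈ Finset.Ico 0 (i + 1), (f j).card
          ≤ 2 * h * (h * (2 * (2 * h * q i + 1))) := Nat.mul_le_mul_left _ h1
        _ ≤ K i := by
          show _ ≤ kap h (q i)
          unfold kap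
          omega)
  rw [Nat.zero_add] at hQ3 hQ4
  have hsumlt : ∀ i < h, i0 ≤ i →
      ∑ j ∈ Finset.Ico 0 i0, (f j).card + ∑ j ∈ Finset.Ico i0 (i + 1), (f j).card
        ≤ h * (2 * (2 * h * q i + 1)) := by
    intro i hi hii
    rw [Finset.sum_Ico_consecutive _ (Nat.zero_le _) (by omega)]
    calc ∑ j ∈ Finset.Ico 0 (i + 1), (f j).card
        ≤ ∑ j ∈ Finset.Ico 0 (i + 1), 2 * (2 * h * q i + 1) := by
          apply Finset.sum_le_sum
          intro j hj
          rw [Finset.mem_Ico] at hj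
          exact hfcard i (by omega) j (by omega)
      _ = (i + 1) * (2 * (2 * h * q i + 1)) := by simp
      _ ≤ _ := Nat.mul_le_mul_right _ (by omega)
  have hQK : Q.card ≤ K i0 := by
    have h1 := hsumlt i0 hi0 le_rfl
    calc Q.card ≤ 2 * h * ∑ j ∈ Finset.Ico 0 i0, (f j).card := hQ3
      _ ≤ 2 * h * (h * (2 * (2 * h * q i0 + 1))) := Nat.mul_le_mul_left _ (by omega)
      _ ≤ K i0 := by
          show _ ≤ kap h (q i0)
          unfold kap
          omega
  obtain ⟨Q0, hQ0sub, hQ1P, hSex⟩ := hP z hz1 Q hQ1 hQK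
  obtain ⟨S, hSP, hSA, hSQ0, hScard, hSmod⟩ := hSex (δ + CA + (Q \ Q0).sum id)
  have hSsum : S.sum id ≤ CA :=
    (Finset.sum_le_sum_of_subset hSP).trans hPz
  have hQ1sum : (Q \ Q0).sum id ≤ CA :=
    (Finset.sum_le_sum_of_subset hQ1P).trans hPz
  obtain ⟨i, hi⟩ : ∃ i, δ + CA + (Q \ Q0).sum id - S.sum id = z * i := by
    have h1 : S.sum id ≤ δ + CA + (Q \ Q0).sum id := by omega
    exact (Nat.modEq_iff_dvd' h1).mp hSmod
  have hiL : i ≤ 2 * N2 + 2 * CA := by
    have h1 : i ≤ z * i := Nat.le_mul_of_pos_left _ hz1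
    omega
  obtain ⟨g, hg1, hg2, hg3⟩ := hprog i hiL
  set f' : ℕ → Multiset ℕ := Function.update f i0 (f i0 + g) with hf'
  have hf'mem : ∀ i, i0 ≤ i → i < i0 + (h - i0) → ∀ v ∈ f' i, Rob A (K i) (2 * h) v := by
    intro i h1 h2 v hv
    by_cases hii : i = i0
    · subst hii
      rw [hf', Function.update_self, Multiset.mem_add] at hv
      rcases hv with hv | hv
      · exact (hf1 i (by omega)).2 v hv
      · exact hg1 v hv
    · rw [hf', Function.update_of_ne hii] at hv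
      exact (hf1 i (by omega)).2 v hv
  have hf'card : ∀ i, i0 ≤ i → ∑ j ∈ Finset.Ico i0 (i + 1), (f' j).card =
      ∑ j ∈ Finset.Ico i0 (i + 1), (f j).card + g.card := by
    intro i h1
    rw [Finset.sum_eq_sum_Ico_succ_bot (show i0 < i + 1 by omega) (fun j => (f' j).card),
      Finset.sum_eq_sum_Ico_succ_bot (show i0 < i + 1 by omega) (fun j => (f j).card)]
    rw [hf', Function.update_self, Multiset.card_add]
    have : ∑ j ∈ Finset.Ico (i0 + 1) (i + 1), (Function.update f i0 (f i0 + g) j).card =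
        ∑ j ∈ Finset.Ico (i0 + 1) (i + 1), (f j).card := by
      apply Finset.sum_congr rfl
      intro j hj
      rw [Finset.mem_Ico] at hj
      rw [Function.update_of_ne (by omega)]
    rw [this]
    ring
  have hf'sum : ∑ j ∈ Finset.Ico i0 h, (f' j).sum =
      ∑ j ∈ Finset.Ico i0 h, (f j).sum + g.sum := by
    rw [Finset.sum_eq_sum_Ico_succ_bot hi0 (fun j => (f' j).sum),
      Finset.sum_eq_sum_Ico_succ_bot hi0 (fun j => (f j).sum)]
    rw [hf', Function.update_self, Multiset.sum_add]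
    have : ∑ j ∈ Finset.Ico (i0 + 1) h, (Function.update f i0 (f i0 + g) j).sum =
        ∑ j ∈ Finset.Ico (i0 + 1) h, (f j).sum := by
      apply Finset.sum_congr rfl
      intro j hj
      rw [Finset.mem_Ico] at hj
      rw [Function.update_of_ne (by omega)]
    rw [this]
    ring
  have hzz : z * z ≤ (2 * q i0) * (2 * q i0) := Nat.mul_le_mul hz2 hz2
  have hbound : ∀ i, i0 ≤ i → i < h →
      (Q0 ∪ S).card + 2 * h * ∑ j ∈ Finset.Ico i0 (i + 1), (f' j).card ≤ kap h (q i) := by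
    intro i h1 h2
    have h3 := hsumlt i h2 h1
    have h4 : (Q0 ∪ S).card ≤ 2 * h * ∑ j ∈ Finset.Ico 0 i0, (f j).card + z * z :=
      (Finset.card_union_le _ _).trans (Nat.add_le_add
        ((Finset.card_le_card hQ0sub).trans hQ3) hScard)
    have h5 : (2 * q i0) * (2 * q i0) ≤ (2 * q i) * (2 * q i) := by
      have := hqmono i0 i h1
      gcongr
    have h6 : rE (q i0) ≤ rE (q i) := rE_mono (hqmono i0 i h1)
    rw [hf'card i h1]
    have h7 : 2 * h * (∑ j ∈ Finset.Ico 0 i0, (f j).card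
        + ∑ j ∈ Finset.Ico i0 (i + 1), (f j).card)
        ≤ 2 * h * (h * (2 * (2 * h * q i + 1))) := Nat.mul_le_mul_left _ h3
    have h8 : 2 * h * g.card ≤ 2 * h * rE (q i) := Nat.mul_le_mul_left _ (hg2.trans h6)
    unfold kap
    rw [Nat.mul_add] at h7
    rw [Nat.mul_add]
    omega
  obtain ⟨S', hS'A, hS'C, hS'card, hS'sum⟩ := realRange A K (2 * h) f' i0 (h - i0) hf'mem
    (Q0 ∪ S) (fun i h1 h2 => hbound i h1 (by omega))
  have hi0h : i0 + (h - i0) = h := by omega
  rw [hi0h] at hS'card hS'sum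
  rw [Finset.disjoint_union_right] at hS'C
  refine ⟨S' ∪ (Q0 ∪ S), ?_, ?_, ?_⟩
  · rw [coe_union, coe_union]
    refine Set.union_subset hS'A (Set.union_subset ?_ hSA)
    exact fun a ha => hQ1 (hQ0sub ha)
  · have h1 := hbound (h - 1) (by omega) (by omega)
    have h2 : h - 1 + 1 = h := by omega
    rw [h2] at h1
    have h3 : kap h (q (h - 1)) ≤ kap h (8 * dd h h) := kap_mono (hqmono (h - 1) h (by omega))
    have h4 := Finset.card_union_le S' (Q0 ∪ S)
    omega
  · have hd1 : Disjoint S' (Q0 ∪ S) := by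
      rw [Finset.disjoint_union_right]; exact hS'C
    have e0 : (S' ∪ (Q0 ∪ S)).sum id = S'.sum id + (Q0.sum id + S.sum id) := by
      rw [Finset.sum_union hd1, Finset.sum_union hSQ0.symm]
    rw [e0, hS'sum, hf'sum, hg3]
    have e1 : ∑ j ∈ range h, (f j).sum =
        ∑ j ∈ Finset.Ico 0 i0, (f j).sum + ∑ j ∈ Finset.Ico i0 h, (f j).sum := by
      rw [Finset.sum_Ico_consecutive _ (Nat.zero_le _) hi0.le, Finset.range_eq_Ico]
    have e2 : (Q \ Q0).sum id + Q0.sum id = Q.sum id := Finset.sum_sdiff hQ0sub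
    omega

end Pool.Agent.Helper620.RO
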