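import Mathlib
import Pool.Agent.Helper620.A6

set_option autoImplicit false

namespace Pool.Agent.Helper620.RO

open Finset Classical Filter

/-- If a set represents all large integers as sums of distinct elements, each residue class is a
finite subset sum. -/
lemma res_of_restricted (A : Set ℕ)
    (hA : ∃ N : ℕ, ∀ n ≥ N, ∃ S : Finset ℕ, (↑S : Set ℕ) ⊆ A ∧ S.sum id = n) :
    ∀ z : ℕ, 1 ≤ z → ∀ s : ℕ, ∃ T : Finset ℕ, (↑T : Set ℕ) ⊆ A ∧ T.sum id ≡ s [MOD z] := by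
  intro z hz s
  obtain ⟨N, hN⟩ := hA
  have h1 : N ≤ s + z * N := by
    have : N ≤ z * N := Nat.le_mul_of_pos_left _ hz
    omega
  obtain ⟨S, hS1, hS2⟩ := hN (s + z * N) h1
  refine ⟨S, hS1, ?_⟩
  rw [hS2]
  unfold Nat.ModEq
  rw [Nat.add_mul_mod_self_left]

/-- If removing finite sets keeps the property of being a basis, each residue class is a finite
subset sum. -/
lemma res_of_stable (A : Set ℕ)
    (hA : ∀ F : Finset ℕ, ∃ N : ℕ, ∀ n ≥ N, ∃ M : Multiset ℕ,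
      (∀ x ∈ M, x ∈ A ∧ x ∉ F) ∧ M.sum = n) :
    ∀ z : ℕ, 1 ≤ z → ∀ s : ℕ, ∃ T : Finset ℕ, (↑T : Set ℕ) ⊆ A ∧ T.sum id ≡ s [MOD z] := by
  intro z hz s
  set cl : ℕ → Set ℕ := fun ρ => {a | a ∈ A ∧ a % z = ρ} with hcl
  -- the finite classes
  have hFex : ∀ ρ : ℕ, ∃ F : Finset ℕ, ((cl ρ).Finite → cl ρ ⊆ ↑F) := by
    intro ρ
    by_cases hfin : (cl ρ).Finite
    · exact ⟨hfin.toFinset, fun _ => by simp⟩
    · exact ⟨∅, fun h => absurd h hfin⟩
  choose F hF using hFex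
  obtain ⟨N, hN⟩ := hA ((range z).biUnion F)
  have h1 : N ≤ s + z * N := by
    have : N ≤ z * N := Nat.le_mul_of_pos_left _ hz
    omega
  obtain ⟨M, hM1, hM2⟩ := hN (s + z * N) h1
  have hMinf : ∀ a ∈ M, a ∈ A ∧ ¬ (cl (a % z)).Finite := by
    intro a ha
    refine ⟨(hM1 a ha).1, ?_⟩
    intro hfin
    apply (hM1 a ha).2
    rw [Finset.mem_biUnion]
    exact ⟨a % z, Finset.mem_range.mpr (Nat.mod_lt _ hz), hF _ hfin ⟨(hM1 a ha).1, rfl⟩⟩
  have key : ∀ M : Multiset ℕ, (∀ a ∈ M, a ∈ A ∧ ¬ (cl (a % z)).Finite) →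
      ∃ T : Finset ℕ, (↑T : Set ℕ) ⊆ A ∧ T.sum id ≡ M.sum [MOD z] := by
    intro M
    induction M using Multiset.induction_on with
    | empty => intro _; exact ⟨∅, by simp, by simp [Nat.ModEq]⟩
    | cons a M ih =>
      intro hM
      obtain ⟨T, hT1, hT2⟩ := ih (fun b hb => hM b (Multiset.mem_cons_of_mem hb))
      have hinf := (hM a (Multiset.mem_cons_self a M)).2
      obtain ⟨b, hb1, hb2⟩ := Set.Infinite.exists_notMem_finset hinf T
      refine ⟨insert b T, ?_, ?_⟩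
      · rw [coe_insert]
        exact Set.insert_subset hb1.1 hT1
      · rw [Finset.sum_insert hb2, Multiset.sum_cons]
        exact Nat.ModEq.add hb1.2 hT2
  obtain ⟨T, hT1, hT2⟩ := key M hMinf
  refine ⟨T, hT1, hT2.trans ?_⟩
  rw [hM2]
  unfold Nat.ModEq
  rw [Nat.add_mul_mod_self_left]

/-- No set is a basis of order zero. -/
lemma basis_pos {A : Set ℕ} {h : ℕ}
    (hA : ∃ N : ℕ, ∀ n ≥ N, ∃ M : Multiset ℕ, M.card ≤ h ∧ (∀ a ∈ M, a ∈ A) ∧ M.sum = n) :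
    1 ≤ h := by
  obtain ⟨N, hN⟩ := hA
  obtain ⟨M, h1, _, h3⟩ := hN (N + 1) (by omega)
  by_contra hh
  have h4 : M.card = 0 := by omega
  rw [Multiset.card_eq_zero] at h4
  rw [h4, Multiset.sum_zero] at h3
  omega

end Pool.Agent.Helper620.RO
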