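import Pool.Agent.Helper998.VecMatroid

set_option autoImplicit false

/-!
# A counterexample to the Aharoni–Berger–Ziv covering statement (MP_633b85_co)

Ground set `S = Fin 13`: the element `0` and the edge sets `{1..6}`, `{7..12}` of two copies of
`K_4` (opposite edges are `(1,2), (3,4), (5,6)`, and `+6`).  `M₁` (vectors `u`) is the binary
matroid in which `0` together with any triangle of either `K_4` is a circuit (two copies of the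
dual Fano matroid glued at `0`).  `M₂` (vectors `w`) is the graphic matroid in which `0` forms a
triangle with each of the six opposite pairs.  Both have rank 7.  Thirteen common bases cover every
element exactly seven times, so the fractional cover number is at most `13/7`, but `S` is not a
union of two common independent sets.
-/

namespace Pool.Agent.Helper620.ABZ

open Pool.Agent.Helper998.VecMatroid

/-- The vectors representing the first matroid. -/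
def u : Fin 13 → Fin 7 → ZMod 2 := ![![1,0,0,0,0,0,0], ![1,1,1,0,0,0,0], ![1,0,0,1,0,0,0], ![1,1,0,1,0,0,0], ![1,0,1,0,0,0,0], ![1,1,0,0,0,0,0], ![1,0,1,1,0,0,0], ![1,0,0,0,1,1,0], ![1,0,0,0,0,0,1], ![1,0,0,0,1,0,1], ![1,0,0,0,0,1,0], ![1,0,0,0,1,0,0], ![1,0,0,0,0,1,1]]

/-- The vectors representing the second matroid. -/
def w : Fin 13 → Fin 7 → ZMod 2 := ![![1,0,0,0,0,0,0], ![0,1,0,0,0,0,0], ![1,1,0,0,0,0,0], ![0,0,1,0,0,0,0], ![1,0,1,0,0,0,0], ![0,0,0,1,0,0,0], ![1,0,0,1,0,0,0], ![0,0,0,0,1,0,0], ![1,0,0,0,1,0,0], ![0,0,0,0,0,1,0], ![1,0,0,0,0,1,0], ![0,0,0,0,0,0,1], ![1,0,0,0,0,0,1]]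

/-- The thirteen common bases of the fractional cover. -/
def A : Fin 13 → Finset (Fin 13) := ![{0, 1, 3, 5, 7, 9, 11}, {0, 1, 4, 6, 7, 10, 12}, {0, 2, 3, 6, 8, 9, 12}, {0, 1, 3, 5, 7, 10, 12}, {0, 1, 4, 6, 8, 9, 12}, {0, 2, 3, 6, 7, 9, 11}, {0, 2, 4, 5, 8, 10, 11}, {2, 4, 5, 6, 7, 9, 11}, {2, 3, 4, 5, 7, 10, 12}, {1, 2, 4, 5, 8, 9, 12}, {1, 3, 5, 8, 10, 11, 12}, {1, 4, 6, 8, 9, 10, 11}, {2, 3, 6, 7, 8, 10, 11}]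

/-- Dual vectors for the bases `A i` (first matroid). -/
def Y1 : Fin 13 → Fin 13 → Fin 7 → ZMod 2 := ![![![1,1,0,0,1,0,0], ![0,0,1,0,0,0,0], ![0,0,0,0,0,0,0], ![0,0,0,1,0,0,0], ![0,0,0,0,0,0,0], ![0,1,1,1,0,0,0], ![0,0,0,0,0,0,0], ![0,0,0,0,0,1,0], ![0,0,0,0,0,0,0], ![0,0,0,0,0,0,1], ![0,0,0,0,0,0,0], ![0,0,0,0,1,1,1], ![0,0,0,0,0,0,0]],
  ![![1,0,1,0,0,1,0], ![0,1,0,0,0,0,0], ![0,0,0,0,0,0,0], ![0,0,0,0,0,0,0], ![0,1,1,1,0,0,0], ![0,0,0,0,0,0,0], ![0,0,0,1,0,0,0], ![0,0,0,0,1,0,0], ![0,0,0,0,0,0,0], ![0,0,0,0,0,0,0], ![0,0,0,0,1,1,1], ![0,0,0,0,0,0,0], ![0,0,0,0,0,0,1]],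
  ![![1,0,0,1,0,0,1], ![0,0,0,0,0,0,0], ![0,1,1,1,0,0,0], ![0,1,0,0,0,0,0], ![0,0,0,0,0,0,0], ![0,0,0,0,0,0,0], ![0,0,1,0,0,0,0], ![0,0,0,0,0,0,0], ![0,0,0,0,1,1,1], ![0,0,0,0,1,0,0], ![0,0,0,0,0,0,0], ![0,0,0,0,0,0,0], ![0,0,0,0,0,1,0]],
  ![![1,1,0,0,0,1,0], ![0,0,1,0,0,0,0], ![0,0,0,0,0,0,0], ![0,0,0,1,0,0,0], ![0,0,0,0,0,0,0], ![0,1,1,1,0,0,0], ![0,0,0,0,0,0,0], ![0,0,0,0,1,0,0], ![0,0,0,0,0,0,0], ![0,0,0,0,0,0,0], ![0,0,0,0,1,1,1], ![0,0,0,0,0,0,0], ![0,0,0,0,0,0,1]],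
  ![![1,0,1,0,0,0,1], ![0,1,0,0,0,0,0], ![0,0,0,0,0,0,0], ![0,0,0,0,0,0,0], ![0,1,1,1,0,0,0], ![0,0,0,0,0,0,0], ![0,0,0,1,0,0,0], ![0,0,0,0,0,0,0], ![0,0,0,0,1,1,1], ![0,0,0,0,1,0,0], ![0,0,0,0,0,0,0], ![0,0,0,0,0,0,0], ![0,0,0,0,0,1,0]],
  ![![1,0,0,1,1,0,0], ![0,0,0,0,0,0,0], ![0,1,1,1,0,0,0], ![0,1,0,0,0,0,0], ![0,0,0,0,0,0,0], ![0,0,0,0,0,0,0], ![0,0,1,0,0,0,0], ![0,0,0,0,0,1,0], ![0,0,0,0,0,0,0], ![0,0,0,0,0,0,1], ![0,0,0,0,0,0,0], ![0,0,0,0,1,1,1], ![0,0,0,0,0,0,0]],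
  ![![1,1,1,1,1,1,1], ![0,0,0,0,0,0,0], ![0,0,0,1,0,0,0], ![0,0,0,0,0,0,0], ![0,0,1,0,0,0,0], ![0,1,0,0,0,0,0], ![0,0,0,0,0,0,0], ![0,0,0,0,0,0,0], ![0,0,0,0,0,0,1], ![0,0,0,0,0,0,0], ![0,0,0,0,0,1,0], ![0,0,0,0,1,0,0], ![0,0,0,0,0,0,0]],
  ![![0,0,0,0,0,0,0], ![0,0,0,0,0,0,0], ![1,1,1,0,1,0,0], ![0,0,0,0,0,0,0], ![1,1,0,1,1,0,0], ![0,1,0,0,0,0,0], ![1,1,1,1,1,0,0], ![0,0,0,0,0,1,0], ![0,0,0,0,0,0,0], ![0,0,0,0,0,0,1], ![0,0,0,0,0,0,0], ![0,0,0,0,1,1,1], ![0,0,0,0,0,0,0]],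
  ![![0,0,0,0,0,0,0], ![0,0,0,0,0,0,0], ![1,1,1,0,0,1,0], ![1,1,1,1,0,1,0], ![0,0,1,0,0,0,0], ![1,0,1,1,0,1,0], ![0,0,0,0,0,0,0], ![0,0,0,0,1,0,0], ![0,0,0,0,0,0,0], ![0,0,0,0,0,0,0], ![0,0,0,0,1,1,1], ![0,0,0,0,0,0,0], ![0,0,0,0,0,0,1]],
  ![![0,0,0,0,0,0,0], ![1,1,1,1,0,0,1], ![0,0,0,1,0,0,0], ![0,0,0,0,0,0,0], ![1,1,0,1,0,0,1], ![1,0,1,1,0,0,1], ![0,0,0,0,0,0,0], ![0,0,0,0,0,0,0], ![0,0,0,0,1,1,1], ![0,0,0,0,1,0,0], ![0,0,0,0,0,0,0], ![0,0,0,0,0,0,0], ![0,0,0,0,0,1,0]],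
  ![![0,0,0,0,0,0,0], ![0,0,1,0,0,0,0], ![0,0,0,0,0,0,0], ![0,0,0,1,0,0,0], ![0,0,0,0,0,0,0], ![0,1,1,1,0,0,0], ![0,0,0,0,0,0,0], ![0,0,0,0,0,0,0], ![1,1,0,0,1,1,0], ![0,0,0,0,0,0,0], ![1,1,0,0,1,0,1], ![0,0,0,0,1,0,0], ![1,1,0,0,1,1,1]],
  ![![0,0,0,0,0,0,0], ![0,1,0,0,0,0,0], ![0,0,0,0,0,0,0], ![0,0,0,0,0,0,0], ![0,1,1,1,0,0,0], ![0,0,0,0,0,0,0], ![0,0,0,1,0,0,0], ![0,0,0,0,0,0,0], ![1,0,1,0,1,1,0], ![1,0,1,0,1,1,1], ![0,0,0,0,0,1,0], ![1,0,1,0,0,1,1], ![0,0,0,0,0,0,0]],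
  ![![0,0,0,0,0,0,0], ![0,0,0,0,0,0,0], ![0,1,1,1,0,0,0], ![0,1,0,0,0,0,0], ![0,0,0,0,0,0,0], ![0,0,0,0,0,0,0], ![0,0,1,0,0,0,0], ![1,0,0,1,1,1,1], ![0,0,0,0,0,0,1], ![0,0,0,0,0,0,0], ![1,0,0,1,1,0,1], ![1,0,0,1,0,1,1], ![0,0,0,0,0,0,0]]]

/-- Dual vectors for the bases `A i` (second matroid). -/
def Y2 : Fin 13 → Fin 13 → Fin 7 → ZMod 2 := ![![![1,0,0,0,0,0,0], ![0,1,0,0,0,0,0], ![0,0,0,0,0,0,0], ![0,0,1,0,0,0,0], ![0,0,0,0,0,0,0], ![0,0,0,1,0,0,0], ![0,0,0,0,0,0,0], ![0,0,0,0,1,0,0], ![0,0,0,0,0,0,0], ![0,0,0,0,0,1,0], ![0,0,0,0,0,0,0], ![0,0,0,0,0,0,1], ![0,0,0,0,0,0,0]],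
  ![![1,0,1,1,0,1,1], ![0,1,0,0,0,0,0], ![0,0,0,0,0,0,0], ![0,0,0,0,0,0,0], ![0,0,1,0,0,0,0], ![0,0,0,0,0,0,0], ![0,0,0,1,0,0,0], ![0,0,0,0,1,0,0], ![0,0,0,0,0,0,0], ![0,0,0,0,0,0,0], ![0,0,0,0,0,1,0], ![0,0,0,0,0,0,0], ![0,0,0,0,0,0,1]],
  ![![1,1,0,1,1,0,1], ![0,0,0,0,0,0,0], ![0,1,0,0,0,0,0], ![0,0,1,0,0,0,0], ![0,0,0,0,0,0,0], ![0,0,0,0,0,0,0], ![0,0,0,1,0,0,0], ![0,0,0,0,0,0,0], ![0,0,0,0,1,0,0], ![0,0,0,0,0,1,0], ![0,0,0,0,0,0,0], ![0,0,0,0,0,0,0], ![0,0,0,0,0,0,1]],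
  ![![1,0,0,0,0,1,1], ![0,1,0,0,0,0,0], ![0,0,0,0,0,0,0], ![0,0,1,0,0,0,0], ![0,0,0,0,0,0,0], ![0,0,0,1,0,0,0], ![0,0,0,0,0,0,0], ![0,0,0,0,1,0,0], ![0,0,0,0,0,0,0], ![0,0,0,0,0,0,0], ![0,0,0,0,0,1,0], ![0,0,0,0,0,0,0], ![0,0,0,0,0,0,1]],
  ![![1,0,1,1,1,0,1], ![0,1,0,0,0,0,0], ![0,0,0,0,0,0,0], ![0,0,0,0,0,0,0], ![0,0,1,0,0,0,0], ![0,0,0,0,0,0,0], ![0,0,0,1,0,0,0], ![0,0,0,0,0,0,0], ![0,0,0,0,1,0,0], ![0,0,0,0,0,1,0], ![0,0,0,0,0,0,0], ![0,0,0,0,0,0,0], ![0,0,0,0,0,0,1]],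
  ![![1,1,0,1,0,0,0], ![0,0,0,0,0,0,0], ![0,1,0,0,0,0,0], ![0,0,1,0,0,0,0], ![0,0,0,0,0,0,0], ![0,0,0,0,0,0,0], ![0,0,0,1,0,0,0], ![0,0,0,0,1,0,0], ![0,0,0,0,0,0,0], ![0,0,0,0,0,1,0], ![0,0,0,0,0,0,0], ![0,0,0,0,0,0,1], ![0,0,0,0,0,0,0]],
  ![![1,1,1,0,1,1,0], ![0,0,0,0,0,0,0], ![0,1,0,0,0,0,0], ![0,0,0,0,0,0,0], ![0,0,1,0,0,0,0], ![0,0,0,1,0,0,0], ![0,0,0,0,0,0,0], ![0,0,0,0,0,0,0], ![0,0,0,0,1,0,0], ![0,0,0,0,0,0,0], ![0,0,0,0,0,1,0], ![0,0,0,0,0,0,1], ![0,0,0,0,0,0,0]],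
  ![![0,0,0,0,0,0,0], ![0,0,0,0,0,0,0], ![0,1,0,0,0,0,0], ![0,0,0,0,0,0,0], ![0,0,1,0,0,0,0], ![1,1,1,1,0,0,0], ![1,1,1,0,0,0,0], ![0,0,0,0,1,0,0], ![0,0,0,0,0,0,0], ![0,0,0,0,0,1,0], ![0,0,0,0,0,0,0], ![0,0,0,0,0,0,1], ![0,0,0,0,0,0,0]],
  ![![0,0,0,0,0,0,0], ![0,0,0,0,0,0,0], ![0,1,0,0,0,0,0], ![1,1,1,0,0,1,1], ![1,1,0,0,0,1,1], ![0,0,0,1,0,0,0], ![0,0,0,0,0,0,0], ![0,0,0,0,1,0,0], ![0,0,0,0,0,0,0], ![0,0,0,0,0,0,0], ![0,0,0,0,0,1,0], ![0,0,0,0,0,0,0], ![0,0,0,0,0,0,1]],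
  ![![0,0,0,0,0,0,0], ![1,1,1,0,1,0,1], ![1,0,1,0,1,0,1], ![0,0,0,0,0,0,0], ![0,0,1,0,0,0,0], ![0,0,0,1,0,0,0], ![0,0,0,0,0,0,0], ![0,0,0,0,0,0,0], ![0,0,0,0,1,0,0], ![0,0,0,0,0,1,0], ![0,0,0,0,0,0,0], ![0,0,0,0,0,0,0], ![0,0,0,0,0,0,1]],
  ![![0,0,0,0,0,0,0], ![0,1,0,0,0,0,0], ![0,0,0,0,0,0,0], ![0,0,1,0,0,0,0], ![0,0,0,0,0,0,0], ![0,0,0,1,0,0,0], ![0,0,0,0,0,0,0], ![0,0,0,0,0,0,0], ![0,0,0,0,1,0,0], ![0,0,0,0,0,0,0], ![0,0,0,0,0,1,0], ![1,0,0,0,1,1,1], ![1,0,0,0,1,1,0]],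
  ![![0,0,0,0,0,0,0], ![0,1,0,0,0,0,0], ![0,0,0,0,0,0,0], ![0,0,0,0,0,0,0], ![0,0,1,0,0,0,0], ![0,0,0,0,0,0,0], ![0,0,0,1,0,0,0], ![0,0,0,0,0,0,0], ![0,0,0,0,1,0,0], ![1,0,1,1,1,1,0], ![1,0,1,1,1,0,0], ![0,0,0,0,0,0,1], ![0,0,0,0,0,0,0]],
  ![![0,0,0,0,0,0,0], ![0,0,0,0,0,0,0], ![0,1,0,0,0,0,0], ![0,0,1,0,0,0,0], ![0,0,0,0,0,0,0], ![0,0,0,0,0,0,0], ![0,0,0,1,0,0,0], ![1,1,0,1,1,1,0], ![1,1,0,1,0,1,0], ![0,0,0,0,0,0,0], ![0,0,0,0,0,1,0], ![0,0,0,0,0,0,1], ![0,0,0,0,0,0,0]]]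


set_option maxRecDepth 100000 in
theorem dual1 : ∀ i : Fin 13, ∀ s ∈ A i, ∀ t ∈ A i,
    ∑ k, Y1 i s k * u t k = if t = s then 1 else 0 := by
  decide

set_option maxRecDepth 100000 in
theorem dual2 : ∀ i : Fin 13, ∀ s ∈ A i, ∀ t ∈ A i,
    ∑ k, Y2 i s k * w t k = if t = s then 1 else 0 := by
  decide

theorem count7 : ∀ e : Fin 13, (Finset.univ.filter (fun i => e ∈ A i)).card = 7 := by
  decide

/-- The combined family on `S × Fin 2`. -/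
def phi (x : Fin 13 × Fin 2) : (Fin 7 → ZMod 2) × (Fin 7 → ZMod 2) :=
  if x.2 = 0 then (u x.1, 0) else (0, w x.1)

theorem phi0 (s : Fin 13) : phi (s, 0) = (u s, 0) := by simp [phi]

theorem phi1 (s : Fin 13) : phi (s, 1) = (0, w s) := by simp [phi]

/-- The matroid on `S × Fin 2`. -/
noncomputable def M : Matroid (Fin 13 × Fin 2) := vecMatroid (ZMod 2) phi

theorem rel_iff (c : Fin 13 × Fin 2 → ZMod 2) :
    IsRel phi c ↔ (∑ s, c (s, 0) • u s = 0) ∧ (∑ s, c (s, 1) • w s = 0) := by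
  unfold IsRel
  rw [Fintype.sum_prod_type]
  simp only [Fin.sum_univ_two, phi0, phi1]
  rw [Finset.sum_add_distrib, Prod.ext_iff]
  simp [Prod.fst_sum, Prod.snd_sum]

theorem circuit_cond (C : Set (Fin 13 × Fin 2)) (hC : M.IsCircuit C) (e : Fin 13) :
    ¬ ((e, 0) ∈ C ∧ (e, 1) ∈ C) := by
  rintro ⟨h0, h1⟩
  obtain ⟨c, hc, hrel, hs⟩ := exists_of_isCircuit phi hC
  rw [rel_iff] at hrel
  have hc0 : c (e, 0) ≠ 0 := by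
    have : (e, (0 : Fin 2)) ∈ Function.support c := by rw [hs]; exact h0
    exact this
  let c' : Fin 13 × Fin 2 → ZMod 2 := fun x => if x.2 = 0 then c x else 0
  have hdep : M.Dep (Function.support c') := by
    refine (dep_iff phi).2 ⟨c', ?_, ?_, subset_rfl⟩
    · intro h
      apply hc0
      have := congrFun h (e, 0)
      simpa [c'] using this
    · rw [rel_iff]
      refine ⟨?_, ?_⟩
      · simpa [c'] using hrel.1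
      · simp [c']
  have hsub : Function.support c' ⊆ C := by
    intro x hx
    rw [← hs]
    simp only [Function.mem_support, c'] at hx ⊢
    intro h
    apply hx
    simp [h]
  have heq := hC.eq_of_dep_subset hdep hsub
  have : (e, (1 : Fin 2)) ∈ Function.support c' := by rw [heq]; exact h1
  simp [c'] at this

theorem match_iff (X : Finset (Fin 13)) :
    M.eRk ((↑X : Set (Fin 13)) ×ˢ (Set.univ : Set (Fin 2))) = ((2 * X.card : ℕ) : ℕ∞) ↔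
      M.Indep ((↑X : Set (Fin 13)) ×ˢ (Set.univ : Set (Fin 2))) := by
  have hcard : ((↑X : Set (Fin 13)) ×ˢ (Set.univ : Set (Fin 2))).encard
      = ((2 * X.card : ℕ) : ℕ∞) := by
    have : ((↑X : Set (Fin 13)) ×ˢ (Set.univ : Set (Fin 2)))
        = ((X ×ˢ (Finset.univ : Finset (Fin 2)) : Finset (Fin 13 × Fin 2)) : Set _) := by
      simp
    rw [this, Set.encard_coe_eq_coe_finsetCard, Finset.card_product]
    simp [mul_comm]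
  rw [← hcard, Matroid.indep_iff_eRk_eq_encard_of_finite (Set.toFinite _)]

/-- A set with dual vectors in both matroids is a matching. -/
theorem matching_A (i : Fin 13) :
    M.Indep ((↑(A i) : Set (Fin 13)) ×ˢ (Set.univ : Set (Fin 2))) := by
  by_contra hcon
  have hdep : M.Dep ((↑(A i) : Set (Fin 13)) ×ˢ (Set.univ : Set (Fin 2))) := by
    rw [Matroid.dep_iff]
    exact ⟨hcon, Set.subset_univ _⟩
  obtain ⟨c, hc, hrel, hs⟩ := (dep_iff phi).1 hdep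
  rw [rel_iff] at hrel
  have hsupp : ∀ s : Fin 13, ∀ j : Fin 2, s ∉ A i → c (s, j) = 0 := by
    intro s j hsA
    by_contra hne
    have := hs (show (s, j) ∈ Function.support c from hne)
    simp at this
    exact hsA this
  apply hc
  have key : ∀ (v : Fin 13 → Fin 7 → ZMod 2) (Y : Fin 13 → Fin 7 → ZMod 2) (j : Fin 2),
      (∀ s ∈ A i, ∀ t ∈ A i, ∑ k, Y s k * v t k = if t = s then 1 else 0) →
      (∑ s, c (s, j) • v s = 0) → ∀ s, c (s, j) = 0 := by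
    intro v Y j hY hr s
    by_cases hsA : s ∈ A i
    · have h1 : ∑ k, Y s k * (∑ t, c (t, j) • v t) k = 0 := by
        rw [hr]; simp
      have h2 : ∑ k, Y s k * (∑ t, c (t, j) • v t) k
          = ∑ t, c (t, j) * ∑ k, Y s k * v t k := by
        simp only [Finset.sum_apply, Pi.smul_apply, smul_eq_mul, Finset.mul_sum]
        rw [Finset.sum_comm]
        refine Finset.sum_congr rfl fun t _ => Finset.sum_congr rfl fun k _ => by ring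
      have h3 : ∑ t, c (t, j) * ∑ k, Y s k * v t k = c (s, j) := by
        rw [Finset.sum_eq_single s]
        · rw [hY s hsA s hsA]; simp
        · intro t _ hts
          by_cases htA : t ∈ A i
          · rw [hY s hsA t htA]; simp [hts]
          · rw [hsupp t j htA]; simp
        · simp
      rw [← h3, ← h2, h1]
    · exact hsupp s j hsA
  funext ⟨s, j⟩
  fin_cases j
  · exact key u (Y1 i) 0 (dual1 i) hrel.1 s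
  · exact key w (Y2 i) 1 (dual2 i) hrel.2 s

/-- Dependent sets give obstructions to being a matching. -/
theorem not_dep (P : Finset (Fin 13))
    (hP : M.Indep ((↑P : Set (Fin 13)) ×ˢ (Set.univ : Set (Fin 2)))) (D : Finset (Fin 13))
    (hD : D ⊆ P) (hne : D.Nonempty) : (∑ s ∈ D, u s ≠ 0) ∧ (∑ s ∈ D, w s ≠ 0) := by
  have main : ∀ j : Fin 2, (∀ c : Fin 13 × Fin 2 → ZMod 2,
      c = (fun x => if x.2 = j ∧ x.1 ∈ D then 1 else 0) → ¬ IsRel phi c) := by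
    intro j c hc hrel
    apply hP.not_dep
    obtain ⟨d, hd⟩ := hne
    refine (dep_iff phi).2 ⟨c, ?_, hrel, ?_⟩
    · intro h
      have := congrFun h (d, j)
      rw [hc] at this
      simp [hd] at this
    · intro x hx
      rw [hc] at hx
      simp only [Function.mem_support, ne_eq, ite_eq_right_iff, one_ne_zero, imp_false,
        not_not] at hx
      simp only [Set.mem_prod, Finset.mem_coe, Set.mem_univ, and_true]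
      exact hD hx.2
  constructor
  · intro h
    refine main 0 _ rfl ?_
    rw [rel_iff]
    refine ⟨?_, by simp⟩
    simpa [Finset.sum_ite_mem] using h
  · intro h
    refine main 1 _ rfl ?_
    rw [rel_iff]
    refine ⟨by simp, ?_⟩
    simpa [Finset.sum_ite_mem] using h

theorem gad (p1 p2 p3 p4 p5 p6 : Prop) :
    (p1 ∧ p2) ∨ (p3 ∧ p4) ∨ (p5 ∧ p6) ∨ (p1 ∧ p3 ∧ p6) ∨ (p1 ∧ p4 ∧ p5) ∨ (p2 ∧ p3 ∧ p5) ∨
      (p2 ∧ p4 ∧ p6) ∨ (¬p1 ∧ ¬p3 ∧ ¬p6) ∨ (¬p1 ∧ ¬p4 ∧ ¬p5) ∨ (¬p2 ∧ ¬p3 ∧ ¬p5) ∨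
      (¬p2 ∧ ¬p4 ∧ ¬p6) := by
  by_cases h1 : p1 <;> by_cases h2 : p2 <;> by_cases h3 : p3 <;> by_cases h4 : p4 <;>
    by_cases h5 : p5 <;> by_cases h6 : p6 <;> simp [h1, h2, h3, h4, h5, h6]

/-- The four triangles of the first `K_4`. -/
def T1 : Fin 4 → Finset (Fin 13) := ![{1, 3, 6}, {1, 4, 5}, {2, 3, 5}, {2, 4, 6}]

/-- The four triangles of the second `K_4`. -/
def T2 : Fin 4 → Finset (Fin 13) := ![{7, 9, 12}, {7, 10, 11}, {8, 9, 11}, {8, 10, 12}]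

theorem tri_pair : ∀ i j : Fin 4, ∑ s ∈ T1 i ∪ T2 j, u s = 0 := by decide

theorem tri1 : ∀ i : Fin 4, ∑ s ∈ insert 0 (T1 i), u s = 0 := by decide

theorem tri2 : ∀ i : Fin 4, ∑ s ∈ insert 0 (T2 i), u s = 0 := by decide

/-- No two matchings cover the ground set. -/
theorem no_two (P Q : Finset (Fin 13))
    (hP : M.Indep ((↑P : Set (Fin 13)) ×ˢ (Set.univ : Set (Fin 2))))
    (hQ : M.Indep ((↑Q : Set (Fin 13)) ×ˢ (Set.univ : Set (Fin 2))))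
    (hcov : ∀ e, e ∈ P ∨ e ∈ Q) (h0 : (0 : Fin 13) ∈ P) : False := by
  have nP := not_dep P hP
  have nQ := not_dep Q hQ
  have hQ' : ∀ e, e ∉ P → e ∈ Q := fun e he => (hcov e).resolve_left he
  -- the first gadget gives a triangle in `Q`
  have g1 : ∃ i, T1 i ⊆ Q := by
    have := gad (1 ∈ P) (2 ∈ P) (3 ∈ P) (4 ∈ P) (5 ∈ P) (6 ∈ P)
    rcases this with ⟨a, b⟩ | ⟨a, b⟩ | ⟨a, b⟩ | ⟨a, b, c⟩ | ⟨a, b, c⟩ | ⟨a, b, c⟩ | ⟨a, b, c⟩ |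
      ⟨a, b, c⟩ | ⟨a, b, c⟩ | ⟨a, b, c⟩ | ⟨a, b, c⟩
    · exact absurd (by decide) (nP {0, 1, 2} (by simp [Finset.insert_subset_iff, *]) (by simp)).2
    · exact absurd (by decide) (nP {0, 3, 4} (by simp [Finset.insert_subset_iff, *]) (by simp)).2
    · exact absurd (by decide) (nP {0, 5, 6} (by simp [Finset.insert_subset_iff, *]) (by simp)).2
    · exact absurd (tri1 0) (nP _ (by simp [T1, Finset.insert_subset_iff, *]) (by simp)).1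
    · exact absurd (tri1 1) (nP _ (by simp [T1, Finset.insert_subset_iff, *]) (by simp)).1
    · exact absurd (tri1 2) (nP _ (by simp [T1, Finset.insert_subset_iff, *]) (by simp)).1
    · exact absurd (tri1 3) (nP _ (by simp [T1, Finset.insert_subset_iff, *]) (by simp)).1
    · exact ⟨0, by simp [T1, Finset.insert_subset_iff, hQ' _ a, hQ' _ b, hQ' _ c]⟩
    · exact ⟨1, by simp [T1, Finset.insert_subset_iff, hQ' _ a, hQ' _ b, hQ' _ c]⟩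
    · exact ⟨2, by simp [T1, Finset.insert_subset_iff, hQ' _ a, hQ' _ b, hQ' _ c]⟩
    · exact ⟨3, by simp [T1, Finset.insert_subset_iff, hQ' _ a, hQ' _ b, hQ' _ c]⟩
  have g2 : ∃ i, T2 i ⊆ Q := by
    have := gad (7 ∈ P) (8 ∈ P) (9 ∈ P) (10 ∈ P) (11 ∈ P) (12 ∈ P)
    rcases this with ⟨a, b⟩ | ⟨a, b⟩ | ⟨a, b⟩ | ⟨a, b, c⟩ | ⟨a, b, c⟩ | ⟨a, b, c⟩ | ⟨a, b, c⟩ |
      ⟨a, b, c⟩ | ⟨a, b, c⟩ | ⟨a, b, c⟩ | ⟨a, b, c⟩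
    · exact absurd (by decide) (nP {0, 7, 8} (by simp [Finset.insert_subset_iff, *]) (by simp)).2
    · exact absurd (by decide) (nP {0, 9, 10} (by simp [Finset.insert_subset_iff, *]) (by simp)).2
    · exact absurd (by decide) (nP {0, 11, 12} (by simp [Finset.insert_subset_iff, *]) (by simp)).2
    · exact absurd (tri2 0) (nP _ (by simp [T2, Finset.insert_subset_iff, *]) (by simp)).1
    · exact absurd (tri2 1) (nP _ (by simp [T2, Finset.insert_subset_iff, *]) (by simp)).1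
    · exact absurd (tri2 2) (nP _ (by simp [T2, Finset.insert_subset_iff, *]) (by simp)).1
    · exact absurd (tri2 3) (nP _ (by simp [T2, Finset.insert_subset_iff, *]) (by simp)).1
    · exact ⟨0, by simp [T2, Finset.insert_subset_iff, hQ' _ a, hQ' _ b, hQ' _ c]⟩
    · exact ⟨1, by simp [T2, Finset.insert_subset_iff, hQ' _ a, hQ' _ b, hQ' _ c]⟩
    · exact ⟨2, by simp [T2, Finset.insert_subset_iff, hQ' _ a, hQ' _ b, hQ' _ c]⟩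
    · exact ⟨3, by simp [T2, Finset.insert_subset_iff, hQ' _ a, hQ' _ b, hQ' _ c]⟩
  obtain ⟨i, hi⟩ := g1
  obtain ⟨j, hj⟩ := g2
  have hne' : ∀ i j : Fin 4, (T1 i ∪ T2 j).Nonempty := by decide
  have hne := hne' i j
  exact (nQ (T1 i ∪ T2 j) (Finset.union_subset hi hj) hne).1 (tri_pair i j)

end Pool.Agent.Helper620.ABZ
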