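import Mathlib

namespace Helper620.CMD
open Polynomial

variable {p : ℕ} [Fact p.Prime]

/-- `det (u, v)` for `u, v ∈ R²` -/
def det2 {R : Type} [CommRing R] (u v : R × R) : R := u.1 * v.2 - u.2 * v.1

/-- The group `G` has form `(f, l)`: with `R = F_p[x]/(f)`, there are a surjective homomorphism
`r : G → R²` with kernel `Z(G)` and a map `k` restricting to an isomorphism `Z(G) → F_p²` with
`k [x, y] = (l (det (r x, r y)), l (x det (r x, r y)))` and `k (x^p) = (l (r x)₂, - l (r x)₁)`. -/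
def HasForm (G : Type) [Group G] (f : (ZMod p)[X]) (l : AdjoinRoot f →ₗ[ZMod p] ZMod p) : Prop :=
  ∃ (r : G → AdjoinRoot f × AdjoinRoot f) (k : G → ZMod p × ZMod p),
    Function.Surjective r ∧ (∀ x y, r (x * y) = r x + r y) ∧
    (∀ x, r x = 0 ↔ x ∈ Subgroup.center G) ∧
    (∀ z ∈ Subgroup.center G, ∀ w ∈ Subgroup.center G, k (z * w) = k z + k w) ∧
    Set.BijOn k (Subgroup.center G) Set.univ ∧
    (∀ x y, k (x * y * x⁻¹ * y⁻¹) =
      (l (det2 (r x) (r y)), l (AdjoinRoot.root f * det2 (r x) (r y)))) ∧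
    (∀ x, k (x ^ p) = (l (r x).2, - l (r x).1))

/-- `(a b; c d) ∈ GL₂(F_p)` and the algebra isomorphism `s` carry `(f, l)` to `(f', l')`. -/
def Equi (f : (ZMod p)[X]) (l : AdjoinRoot f →ₗ[ZMod p] ZMod p)
    (f' : (ZMod p)[X]) (l' : AdjoinRoot f' →ₗ[ZMod p] ZMod p)
    (a b c d : ZMod p) (s : AdjoinRoot f ≃ₐ[ZMod p] AdjoinRoot f') : Prop :=
  a * d - b * c ≠ 0 ∧
    AdjoinRoot.root f' * (algebraMap _ _ a + algebraMap _ _ b * s (AdjoinRoot.root f))
      = algebraMap _ _ c + algebraMap _ _ d * s (AdjoinRoot.root f) ∧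
    (∀ r, l' (s r * (algebraMap _ _ a + algebraMap _ _ b * s (AdjoinRoot.root f)))
      = (a * d - b * c) * l r)

/-- Admissible pairs: `f` monic without roots in `F_p`, `l` nondegenerate, trivial stabiliser. -/
def Adm (f : (ZMod p)[X]) (l : AdjoinRoot f →ₗ[ZMod p] ZMod p) : Prop :=
  f.Monic ∧ (∀ c : ZMod p, ¬ f.IsRoot c) ∧ (∀ r, (∀ s, l (r * s) = 0) → r = 0) ∧
    ∀ (a b c d : ZMod p) (s : AdjoinRoot f ≃ₐ[ZMod p] AdjoinRoot f),
      Equi f l f l a b c d s → a = 1 ∧ b = 0 ∧ c = 0 ∧ d = 1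

end Helper620.CMD
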