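import Mathlib

namespace Helper620.CM

/-- `G` is a Camina group: the conjugacy class of every `x ∉ G'` is the coset `xG'`. -/
def IsCamina (G : Type) [Group G] : Prop :=
  ∀ x : G, x ∉ commutator G → ∀ y : G, IsConj x y ↔ x⁻¹ * y ∈ commutator G

/-- `G` is a Miller group: nonabelian with abelian automorphism group. -/
def IsMiller (G : Type) [Group G] : Prop :=
  (∃ a b : G, a * b ≠ b * a) ∧ ∀ f g : MulAut G, f * g = g * f

section
variable {V Z E : Type} [AddCommGroup V] [AddCommGroup Z] [AddCommGroup E]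

/-- Data of a central extension: abelian groups `V, Z, E` (written additively), an exact sequence
`0 → Z → E → V → 0` (maps `j`, `r`) and a bilinear map `b : V × V → Z`. -/
structure Dat (V Z E : Type) [AddCommGroup V] [AddCommGroup Z] [AddCommGroup E] where
  r : E →+ V
  j : Z →+ E
  b : V →+ V →+ Z
  rj : ∀ z, r (j z) = 0
  ex : ∀ e, r e = 0 → ∃ z, j z = e
  rs : Function.Surjective r
  ji : Function.Injective j

/-- The group attached to the data `D`: the underlying set is `E`, the product is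
`a * b = a + b + j (b (r a, r b))` (see the instance `Mul` below). -/
structure Gp (D : Dat V Z E) where
  val : E

namespace Gp
variable {D : Dat V Z E}

@[ext] theorem ext' {a b : Gp D} (h : a.val = b.val) : a = b := by
  cases a; cases b; simp_all

instance : Mul (Gp D) := ⟨fun a b => ⟨a.val + b.val + D.j (D.b (D.r a.val) (D.r b.val))⟩⟩
instance : One (Gp D) := ⟨⟨0⟩⟩
instance : Inv (Gp D) := ⟨fun a => ⟨-a.val + D.j (D.b (D.r a.val) (D.r a.val))⟩⟩

theorem mul_val (a b : Gp D) : (a * b).val = a.val + b.val + D.j (D.b (D.r a.val) (D.r b.val)) := rfl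
theorem one_val : (1 : Gp D).val = 0 := rfl
theorem inv_val (a : Gp D) : (a⁻¹).val = -a.val + D.j (D.b (D.r a.val) (D.r a.val)) := rfl

instance : Group (Gp D) := Group.ofLeftAxioms
  (by
    intro a b c
    ext
    simp only [mul_val, map_add, D.rj, add_zero, AddMonoidHom.add_apply]
    abel)
  (by
    intro a
    ext
    simp [mul_val, one_val])
  (by
    intro a
    ext
    simp only [mul_val, one_val, inv_val, map_add, D.rj, add_zero, map_neg, AddMonoidHom.neg_apply]
    abel)

/-- projection -/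
def pr (D : Dat V Z E) : Gp D →* Multiplicative V where
  toFun a := Multiplicative.ofAdd (D.r a.val)
  map_one' := by simp [one_val]
  map_mul' := by
    intro a b
    simp [mul_val, D.rj]

/-- the commutator form -/
def om (D : Dat V Z E) (u v : V) : Z := D.b u v - D.b v u

theorem om_zero_right (u : V) : om D u 0 = 0 := by simp [om]
theorem om_zero_left (u : V) : om D 0 u = 0 := by simp [om]

/-- central elements -/
def c (D : Dat V Z E) (z : Z) : Gp D := ⟨D.j z⟩

theorem mul_c (a : Gp D) (z : Z) : (a * c D z).val = a.val + D.j z := by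
  simp [mul_val, c, D.rj]
theorem c_mul (a : Gp D) (z : Z) : (c D z * a).val = a.val + D.j z := by
  simp [mul_val, c, D.rj, add_comm]

theorem c_comm (a : Gp D) (z : Z) : a * c D z = c D z * a := by
  ext; rw [mul_c, c_mul]

theorem c_add (z w : Z) : c D (z + w) = c D z * c D w := by
  ext; rw [mul_c]; simp [c]

theorem mul_eq (a b : Gp D) : a * b = (b * a) * c D (om D (D.r a.val) (D.r b.val)) := by
  ext
  rw [mul_c]
  simp only [mul_val, om, map_sub]
  abel

theorem conj_eq (a b : Gp D) : b * a * b⁻¹ = a * c D (om D (D.r b.val) (D.r a.val)) := by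
  rw [mul_eq b a, mul_assoc, ← c_comm, ← mul_assoc]
  simp

theorem eq_of_r (a b : Gp D) (h : D.r a.val = D.r b.val) : ∃ z, b = a * c D z := by
  obtain ⟨z, hz⟩ := D.ex (b.val - a.val) (by rw [map_sub, h, sub_self])
  refine ⟨z, ?_⟩
  ext
  rw [mul_c, hz]
  abel

end Gp

open Gp
open scoped commutatorElement

variable (D : Dat V Z E)

theorem mem_comm_iff (H1 : ∀ v : V, v ≠ 0 → ∀ z : Z, ∃ u, om D u v = z) (hV : ∃ v : V, v ≠ 0)
    (x : Gp D) : x ∈ commutator (Gp D) ↔ D.r x.val = 0 := by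
  constructor
  · intro h
    have := Abelianization.commutator_subset_ker (pr D) h
    simpa [pr, MonoidHom.mem_ker] using this
  · intro h
    obtain ⟨v, hv⟩ := hV
    obtain ⟨z, hz⟩ := D.ex x.val h
    obtain ⟨u, hu⟩ := H1 v hv z
    obtain ⟨eu, heu⟩ := D.rs u
    obtain ⟨ev, hev⟩ := D.rs v
    have : x = ⁅(⟨eu⟩ : Gp D), (⟨ev⟩ : Gp D)⁆ := by
      rw [commutatorElement_def, conj_eq]
      ext
      have h2 : ((⟨ev⟩ : Gp D) * c D (om D (D.r eu) (D.r ev)) * (⟨ev⟩ : Gp D)⁻¹)
          = c D (om D (D.r eu) (D.r ev)) := by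
        rw [c_comm, mul_assoc]; simp
      rw [h2, heu, hev, hu]
      exact hz.symm
    rw [this, commutator_def]
    exact Subgroup.commutator_mem_commutator (Subgroup.mem_top _) (Subgroup.mem_top _)

theorem camina (H1 : ∀ v : V, v ≠ 0 → ∀ z : Z, ∃ u, om D u v = z) (hV : ∃ v : V, v ≠ 0) :
    IsCamina (Gp D) := by
  intro x hx y
  rw [mem_comm_iff D H1 hV] at hx
  rw [isConj_iff, mem_comm_iff D H1 hV]
  constructor
  · rintro ⟨b, rfl⟩
    rw [conj_eq, ← mul_assoc]
    simp [c, D.rj]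
  · intro h
    have h1 : D.r x.val = D.r y.val := by
      have : D.r ((x⁻¹ * y).val) = - D.r x.val + D.r y.val := by
        simp [mul_val, inv_val, D.rj]
      rw [this] at h
      exact (neg_add_eq_zero.mp h)
    obtain ⟨z, hz⟩ := eq_of_r x y h1
    obtain ⟨u, hu⟩ := H1 _ hx z
    obtain ⟨eu, heu⟩ := D.rs u
    refine ⟨⟨eu⟩, ?_⟩
    rw [conj_eq, hz]
    simp only [heu, hu]

theorem mem_center_iff (H1 : ∀ v : V, v ≠ 0 → ∀ z : Z, ∃ u, om D u v = z) (hZ : ∃ z : Z, z ≠ 0)
    (x : Gp D) : x ∈ Subgroup.center (Gp D) ↔ D.r x.val = 0 := by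
  rw [Subgroup.mem_center_iff]
  constructor
  · intro h
    by_contra hx
    obtain ⟨z, hz⟩ := hZ
    obtain ⟨u, hu⟩ := H1 _ hx z
    obtain ⟨eu, heu⟩ := D.rs u
    have h1 := h ⟨eu⟩
    rw [mul_eq] at h1
    have h2 : c D (om D (D.r (⟨eu⟩ : Gp D).val) (D.r x.val)) = 1 := by
      simpa using h1
    simp only [heu, hu] at h2
    have h3 : D.j z = 0 := congrArg Gp.val h2
    exact hz (D.ji (by rw [h3, map_zero]))
  · intro h g
    obtain ⟨z, hz⟩ := D.ex x.val h
    have : x = c D z := by ext; exact hz.symm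
    rw [this, c_comm]

theorem c_inj {z w : Z} (h : c D z = c D w) : z = w := D.ji (congrArg Gp.val h)

theorem rigid (H1 : ∀ v : V, v ≠ 0 → ∀ z : Z, ∃ u, om D u v = z) (hZ : ∃ z : Z, z ≠ 0)
    (p : ℕ) (P : V → Z) (hP : ∀ e : Gp D, e ^ p = c D (P (D.r e.val)))
    (H2 : ∀ (g : V →+ V) (h : Z →+ Z), Function.Surjective g → Function.Injective h →
      (∀ u v, om D (g u) (g v) = h (om D u v)) → (∀ v, P (g v) = h (P v)) →
      (∀ v, g v = v) ∧ (∀ z, h z = z))
    (φ : MulAut (Gp D)) :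
    (∀ e, D.r (φ e).val = D.r e.val) ∧ ∀ z, φ (c D z) = c D z := by
  have hc : ∀ z, ∃ z', φ (c D z) = c D z' := by
    intro z
    have : φ (c D z) ∈ Subgroup.center (Gp D) := by
      rw [Subgroup.mem_center_iff]
      intro g
      have h1 : φ.symm g * c D z = c D z * φ.symm g := c_comm _ _
      have h2 := congrArg φ h1
      simpa using h2
    rw [mem_center_iff D H1 hZ] at this
    obtain ⟨z', hz'⟩ := D.ex _ this
    exact ⟨z', by ext; exact hz'.symm⟩
  choose h hh using hc
  have hadd : ∀ z w, h (z + w) = h z + h w := by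
    intro z w
    apply c_inj D
    rw [c_add, ← hh, ← hh, ← hh, c_add, map_mul]
  choose s0 hs0 using D.rs
  let s : V → Gp D := fun v => ⟨s0 v⟩
  have hs : ∀ v, D.r (s v).val = v := hs0
  have hR : ∀ e e' : Gp D, D.r (φ (e * e')).val = D.r (φ e).val + D.r (φ e').val := by
    intro e e'
    rw [map_mul, mul_val]
    simp [D.rj]
  have hRc : ∀ z, D.r (φ (c D z)).val = 0 := by
    intro z; rw [hh]; exact D.rj _
  have hRe : ∀ e e' : Gp D, D.r e.val = D.r e'.val → D.r (φ e).val = D.r (φ e').val := by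
    intro e e' he
    obtain ⟨z, hz⟩ := eq_of_r e e' he
    rw [hz, hR, hRc, add_zero]
  have gadd : ∀ u v, D.r (φ (s (u + v))).val = D.r (φ (s u)).val + D.r (φ (s v)).val := by
    intro u v
    rw [← hR]
    apply hRe
    rw [hs, mul_val]
    simp [D.rj, hs]
  let g : V →+ V := AddMonoidHom.mk' (fun v => D.r (φ (s v)).val) gadd
  let h' : Z →+ Z := AddMonoidHom.mk' h hadd
  have hg : ∀ v, g v = D.r (φ (s v)).val := fun _ => rfl
  have hge : ∀ e : Gp D, g (D.r e.val) = D.r (φ e).val := by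
    intro e
    rw [hg]
    exact hRe _ _ (hs _)
  have hh' : ∀ z, h' z = h z := fun _ => rfl
  obtain ⟨k1, k2⟩ := H2 g h' (by
      intro v
      refine ⟨D.r (φ.symm (s v)).val, ?_⟩
      rw [hge, MulEquiv.apply_symm_apply, hs]) (by
      intro z w hzw
      rw [hh', hh'] at hzw
      have : φ (c D z) = φ (c D w) := by rw [hh, hh, hzw]
      exact c_inj D (φ.injective this)) (by
      intro u v
      apply c_inj D
      have h1 := congrArg φ (mul_eq (s u) (s v))
      rw [map_mul, map_mul, map_mul, hh, mul_eq (φ (s u)) (φ (s v)), hs, hs] at h1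
      exact mul_left_cancel h1) (by
      intro v
      apply c_inj D
      have h1 := congrArg φ (hP (s v))
      rw [map_pow, hP, hh, hs] at h1
      exact h1)
  refine ⟨fun e => ?_, fun z => ?_⟩
  · rw [← hge, k1]
  · rw [hh, ← hh', k2]

theorem miller (H1 : ∀ v : V, v ≠ 0 → ∀ z : Z, ∃ u, om D u v = z) (hZ : ∃ z : Z, z ≠ 0)
    (hV : ∃ v : V, v ≠ 0)
    (p : ℕ) (P : V → Z) (hP : ∀ e : Gp D, e ^ p = c D (P (D.r e.val)))
    (H2 : ∀ (g : V →+ V) (h : Z →+ Z), Function.Surjective g → Function.Injective h →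
      (∀ u v, om D (g u) (g v) = h (om D u v)) → (∀ v, P (g v) = h (P v)) →
      (∀ v, g v = v) ∧ (∀ z, h z = z)) :
    IsMiller (Gp D) := by
  constructor
  · obtain ⟨v, hv⟩ := hV
    obtain ⟨z, hz⟩ := hZ
    obtain ⟨u, hu⟩ := H1 v hv z
    obtain ⟨eu, heu⟩ := D.rs u
    obtain ⟨ev, hev⟩ := D.rs v
    refine ⟨⟨eu⟩, ⟨ev⟩, fun hab => ?_⟩
    rw [mul_eq] at hab
    have h2 : c D (om D (D.r eu) (D.r ev)) = 1 := by simpa using hab
    rw [heu, hev, hu] at h2
    have h3 : D.j z = 0 := congrArg Gp.val h2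
    exact hz (D.ji (by rw [h3, map_zero]))
  · intro φ ψ
    obtain ⟨a1, a2⟩ := rigid D H1 hZ p P hP H2 φ
    obtain ⟨b1, b2⟩ := rigid D H1 hZ p P hP H2 ψ
    ext e
    obtain ⟨z, hz⟩ := eq_of_r e (φ e) (a1 e).symm
    obtain ⟨w, hw⟩ := eq_of_r e (ψ e) (b1 e).symm
    rw [MulAut.mul_apply, MulAut.mul_apply]
    rw [hw, hz, map_mul, map_mul, a2, b2, hw, hz, mul_assoc, mul_assoc, c_comm (c D z)]

theorem card_gp [Finite V] [Finite Z] : Nat.card (Gp D) = Nat.card V * Nat.card Z := by
  classical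
  choose s0 hs0 using D.rs
  let f : V × Z → Gp D := fun x => ⟨s0 x.1 + D.j x.2⟩
  have hf : Function.Bijective f := by
    constructor
    · rintro ⟨v, z⟩ ⟨v', z'⟩ h
      have h0 : s0 v + D.j z = s0 v' + D.j z' := congrArg Gp.val h
      have h1 := congrArg D.r h0
      simp only [map_add, hs0, D.rj, add_zero] at h1
      subst h1
      have h2 := D.ji (add_left_cancel h0)
      rw [h2]
    · intro e
      obtain ⟨z, hz⟩ := D.ex (e.val - s0 (D.r e.val)) (by rw [map_sub, hs0, sub_self])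
      refine ⟨⟨D.r e.val, z⟩, ?_⟩
      ext
      change s0 (D.r e.val) + D.j z = e.val
      rw [hz]; abel
  rw [← Nat.card_prod, Nat.card_congr (Equiv.ofBijective f hf)]

theorem card_center (H1 : ∀ v : V, v ≠ 0 → ∀ z : Z, ∃ u, om D u v = z) (hZ : ∃ z : Z, z ≠ 0) :
    Nat.card (Subgroup.center (Gp D)) = Nat.card Z := by
  let f : Z → Subgroup.center (Gp D) := fun z => ⟨c D z, by
    rw [mem_center_iff D H1 hZ]; exact D.rj z⟩
  have hf : Function.Bijective f := by
    constructor
    · intro z w h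
      exact c_inj D (congrArg Subtype.val h)
    · rintro ⟨x, hx⟩
      rw [mem_center_iff D H1 hZ] at hx
      obtain ⟨z, hz⟩ := D.ex _ hx
      exact ⟨z, Subtype.ext (by ext; exact hz)⟩
  exact (Nat.card_congr (Equiv.ofBijective f hf)).symm

end
end Helper620.CM
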