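import Mathlib
import Pool.Agent.Helper620.CamMilGroup

namespace Helper620.CM
open Polynomial

section
variable {p : ℕ} [Fact p.Prime] {K : Type} [Field K] [Finite K] [Algebra (ZMod p) K]

noncomputable abbrev Tr (p : ℕ) [Fact p.Prime] (K : Type) [Field K] [Algebra (ZMod p) K] : K →ₗ[ZMod p] ZMod p :=
  Algebra.trace (ZMod p) K

def dt (u v : K × K) : K := u.1 * v.2 - u.2 * v.1

omit [Finite K] in
theorem dt_smul_left (k : K) (u v : K × K) : dt (k • u) v = k * dt u v := by
  simp [dt]; ring

omit [Finite K] in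
theorem dt_sub_left (u u' v : K × K) : dt (u - u') v = dt u v - dt u' v := by
  simp [dt]; ring

theorem tr_nondeg {x : K} (h : ∀ y, Tr p K (y * x) = 0) : x = 0 := by
  have htr := (traceForm_nondegenerate (ZMod p) K).1 x
  simp_rw [Algebra.traceForm_apply] at htr
  exact htr (fun y => by rw [mul_comm]; exact h y)

theorem dt_nondeg {x : K × K} (h : ∀ w, Tr p K (dt x w) = 0) : x = 0 := by
  have h1 : x.1 = 0 := tr_nondeg (p := p) (fun y => by
    have := h (0, y)
    simpa [dt, mul_comm] using this)
  have h2 : x.2 = 0 := tr_nondeg (p := p) (fun y => by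
    have := h (-y, 0)
    simpa [dt, mul_comm] using this)
  exact Prod.ext h1 h2

/-- evaluation `(x, y) ↦ x + y t` -/
def ev (t : K) (z : Fin 2 → ZMod p) : K :=
  algebraMap (ZMod p) K (z 0) + algebraMap (ZMod p) K (z 1) * t

theorem core (t : K) (hgen : Algebra.adjoin (ZMod p) {t} = ⊤)
    (hdeg : (minpoly (ZMod p) t).natDegree = Module.finrank (ZMod p) K)
    (hn : 2 < Module.finrank (ZMod p) K)
    (hco : Nat.Coprime (Module.finrank (ZMod p) K) (p * (p ^ 2 - 1)))
    (g : K × K →+ K × K) (h : ZMod p × ZMod p →+ ZMod p × ZMod p)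
    (hg : Function.Surjective g) (hh : Function.Injective h)
    (hom : ∀ u v, (Tr p K (dt (g u) (g v)), Tr p K (t * dt (g u) (g v)))
      = h (Tr p K (dt u v), Tr p K (t * dt u v))) :
    ∃ a : ZMod p, a ≠ 0 ∧ (∀ z, h z = a • z) ∧ (∀ (k : K) v, g (k • v) = k • g v) ∧
      (∀ u v, dt (g u) (g v) = algebraMap (ZMod p) K a * dt u v) := by
  set a := (h (1, 0)).1 with ha
  set c := (h (1, 0)).2 with hc
  set b := (h (0, 1)).1 with hb
  set d := (h (0, 1)).2 with hd
  have hform : ∀ x y : ZMod p, h (x, y) = (a * x + b * y, c * x + d * y) := by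
    intro x y
    have h1 : ((x, y) : ZMod p × ZMod p) = x • (1, 0) + y • (0, 1) := by simp
    rw [h1, map_add, ZMod.map_smul, ZMod.map_smul]
    ext
    · simp [ha, hb]; ring
    · simp [hc, hd]; ring
  set A : K := algebraMap (ZMod p) K a + algebraMap (ZMod p) K b * t with hA
  set C : K := algebraMap (ZMod p) K c + algebraMap (ZMod p) K d * t with hC
  have htr : ∀ (x y : ZMod p) (D : K), Tr p K ((algebraMap (ZMod p) K x + algebraMap (ZMod p) K y * t) * D)
      = x * Tr p K D + y * Tr p K (t * D) := by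
    intro x y D
    have : (algebraMap (ZMod p) K x + algebraMap (ZMod p) K y * t) * D = x • D + y • (t * D) := by
      rw [Algebra.smul_def, Algebra.smul_def]; ring
    rw [this, map_add, map_smul, map_smul]; simp
  have e1 : ∀ u v, Tr p K (dt (g u) (g v)) = Tr p K (A * dt u v) := by
    intro u v
    have := congrArg Prod.fst (hom u v)
    rw [hform] at this
    rw [hA, htr]; exact this
  have e2 : ∀ u v, Tr p K (t * dt (g u) (g v)) = Tr p K (C * dt u v) := by
    intro u v
    have := congrArg Prod.snd (hom u v)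
    rw [hform] at this
    rw [hC, htr]; exact this
  have hA0 : A ≠ 0 := by
    intro h0
    have h1 : ((1, 0) : K × K) = 0 := dt_nondeg (p := p) (fun w => by
      obtain ⟨v, hv⟩ := hg w
      obtain ⟨u, hu⟩ := hg (1, 0)
      rw [← hv, ← hu, e1, h0]; simp)
    exact one_ne_zero (congrArg Prod.fst h1)
  have hginj : Function.Injective g := Finite.injective_iff_surjective.mpr hg
  -- g (s v) = t g v
  have hst : ∀ u, g ((C / A) • u) = t • g u := by
    intro u
    rw [← sub_eq_zero]
    apply dt_nondeg (p := p)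
    intro w
    obtain ⟨v, hv⟩ := hg w
    rw [← hv, dt_sub_left, dt_smul_left, map_sub, e1, e2, dt_smul_left, ← mul_assoc,
      mul_div_cancel₀ _ hA0, sub_self]
  have hex : ∀ k : K, ∃ k' : K, ∀ v, g (k' • v) = k • g v := by
    intro k
    have hk : k ∈ Algebra.adjoin (ZMod p) {t} := by rw [hgen]; trivial
    induction hk using Algebra.adjoin_induction with
    | mem x hx =>
      rw [Set.mem_singleton_iff] at hx
      subst hx
      exact ⟨_, hst⟩
    | algebraMap r =>
      refine ⟨algebraMap (ZMod p) K r, fun v => ?_⟩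
      rw [algebraMap_smul, algebraMap_smul, ZMod.map_smul]
    | add x y _ _ hx hy =>
      obtain ⟨x', hx'⟩ := hx
      obtain ⟨y', hy'⟩ := hy
      exact ⟨x' + y', fun v => by rw [add_smul, map_add, hx', hy', add_smul]⟩
    | mul x y _ _ hx hy =>
      obtain ⟨x', hx'⟩ := hx
      obtain ⟨y', hy'⟩ := hy
      exact ⟨x' * y', fun v => by rw [mul_smul, hx', hy', mul_smul]⟩
  choose τ hτ using hex
  have huniq : ∀ k1 k2 : K, (∀ v, g (k1 • v) = g (k2 • v)) → k1 = k2 := by
    intro k1 k2 h12
    have h1 := hginj (h12 (1, 0))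
    simpa using congrArg Prod.fst h1
  let τr : K →+* K :=
    { toFun := τ
      map_one' := huniq _ _ (fun v => by rw [hτ]; simp)
      map_zero' := huniq _ _ (fun v => by rw [hτ]; simp)
      map_add' := fun x y => huniq _ _ (fun v => by
        rw [hτ, add_smul (τ x), map_add, hτ, hτ, add_smul])
      map_mul' := fun x y => huniq _ _ (fun v => by
        rw [hτ, mul_smul (τ x), hτ, hτ, mul_smul]) }
  let τA : K →ₐ[ZMod p] K :=
    { τr with
      commutes' := fun r => RingHom.congr_fun
        (Subsingleton.elim (τr.comp (algebraMap (ZMod p) K)) (algebraMap (ZMod p) K)) r }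
  let T : K ≃ₐ[ZMod p] K := AlgEquiv.ofBijective τA
    ⟨τA.toRingHom.injective, Finite.surjective_of_injective τA.toRingHom.injective⟩
  have hT : ∀ k v, g (T k • v) = k • g v := hτ
  have hTt : T t = C / A := huniq _ _ (fun v => by rw [hT, hst])
  have hdet : (!![a, b; c, d] : Matrix (Fin 2) (Fin 2) (ZMod p)).det ≠ 0 := by
    rw [Matrix.det_fin_two_of]
    intro h0
    have k1 : h (d, -c) = h (0, 0) := by
      rw [hform, hform]
      ext
      · simp; linear_combination h0
      · simp; ring
    have k2 : h (b, -a) = h (0, 0) := by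
      rw [hform, hform]
      ext
      · simp; ring
      · simp; linear_combination -h0
    have k1' := hh k1
    have k2' := hh k2
    have ha0 : a = 0 := by simpa using congrArg Prod.snd k2'
    have hc0 : c = 0 := by simpa using congrArg Prod.snd k1'
    have : h (1, 0) = h (0, 0) := by
      rw [hform, hform, ha0, hc0]; simp
    have := congrArg Prod.fst (hh this)
    exact one_ne_zero this
  let M : GL (Fin 2) (ZMod p) := Matrix.GeneralLinearGroup.mkOfDetNeZero _ hdet
  have hM : (M : Matrix (Fin 2) (Fin 2) (ZMod p)) = !![a, b; c, d] := rfl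
  have hTa : ∀ r : ZMod p, T (algebraMap (ZMod p) K r) = algebraMap (ZMod p) K r := T.commutes
  have hstep : ∀ z : Fin 2 → ZMod p, A * T (ev t z) = ev t (Matrix.vecMul z (M : Matrix (Fin 2) (Fin 2) (ZMod p))) := by
    intro z
    rw [hM]
    simp only [ev, map_add, map_mul, hTa, hTt, Matrix.vecMul, dotProduct, Fin.sum_univ_two,
      Matrix.of_apply, Matrix.cons_val_zero, Matrix.cons_val_one, Matrix.cons_val', 
      Matrix.cons_val_fin_one]
    rw [mul_add]
    have : A * (algebraMap (ZMod p) K (z 1) * (C / A)) = algebraMap (ZMod p) K (z 1) * C := by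
      field_simp
    rw [this, hA, hC]
    ring
  have hiter : ∀ k : ℕ, ∃ B : K, B ≠ 0 ∧ ∀ z : Fin 2 → ZMod p,
      B * (T ^ k) (ev t z) = ev t (Matrix.vecMul z ((M ^ k : GL (Fin 2) (ZMod p)) : Matrix (Fin 2) (Fin 2) (ZMod p))) := by
    intro k
    induction k with
    | zero => exact ⟨1, one_ne_zero, fun z => by simp⟩
    | succ k ih =>
      obtain ⟨B, hB, hBz⟩ := ih
      refine ⟨B * (T ^ k) A, mul_ne_zero hB (fun h0 => hA0 ((T ^ k).injective (by rw [h0, map_zero]))), fun z => ?_⟩
      rw [pow_succ (T : K ≃ₐ[ZMod p] K) k, AlgEquiv.mul_apply, mul_assoc, ← map_mul, hstep, hBz,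
        pow_succ' M k, Units.val_mul, Matrix.vecMul_vecMul]
  set N := Nat.card (GL (Fin 2) (ZMod p)) with hN
  have hMN : M ^ N = 1 := pow_card_eq_one'
  obtain ⟨B, hB, hBz⟩ := hiter N
  rw [hMN] at hBz
  have b1 := hBz ![1, 0]
  have b2 := hBz ![0, 1]
  simp [ev] at b1 b2
  have hTN : T ^ N = 1 := by
    have h1 : (T ^ N) t = t := by
      rw [b1, one_mul] at b2; simpa using b2
    have h2 : (((T ^ N : K ≃ₐ[ZMod p] K) : K →ₐ[ZMod p] K)) = AlgHom.id (ZMod p) K := by
      apply AlgHom.ext_of_adjoin_eq_top hgen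
      intro x hx
      rw [Set.mem_singleton_iff] at hx
      subst hx
      simpa using h1
    ext x
    exact DFunLike.congr_fun h2 x
  have hTn : T ^ (Module.finrank (ZMod p) K) = 1 := by
    rw [← IsGalois.card_aut_eq_finrank (ZMod p) K]
    exact pow_card_eq_one'
  have hcoN : Nat.Coprime (Module.finrank (ZMod p) K) N := by
    rw [hN, Matrix.card_GL_field, Fin.prod_univ_two]
    have hp1 : 1 ≤ p := (Fact.out : p.Prime).one_lt.le
    have c1 : Nat.Coprime (Module.finrank (ZMod p) K) p := hco.coprime_mul_right_right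
    have c2 : Nat.Coprime (Module.finrank (ZMod p) K) (p ^ 2 - 1) := hco.coprime_mul_left_right
    have c3 : Nat.Coprime (Module.finrank (ZMod p) K) (p - 1) := by
      refine Nat.Coprime.coprime_dvd_right ⟨p + 1, ?_⟩ c2
      rw [mul_comm, ← Nat.sq_sub_sq]
    have e3 : Fintype.card (ZMod p) ^ 2 - Fintype.card (ZMod p) ^ ((1 : Fin 2) : ℕ) = p * (p - 1) := by
      rw [ZMod.card]
      simp only [Fin.val_one, pow_one]
      rw [Nat.mul_sub, mul_one, pow_two]
    have e4 : Fintype.card (ZMod p) ^ 2 - Fintype.card (ZMod p) ^ ((0 : Fin 2) : ℕ) = p ^ 2 - 1 := by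
      rw [ZMod.card]
      simp
    rw [e3, e4]
    exact c2.mul_right (c1.mul_right c3)
  have hT1 : T = 1 := by
    rw [← orderOf_eq_one_iff, ← Nat.dvd_one, ← hcoN]
    exact Nat.dvd_gcd (orderOf_dvd_of_pow_eq_one hTn) (orderOf_dvd_of_pow_eq_one hTN)
  have hlin : ∀ (k : K) v, g (k • v) = k • g v := by
    intro k v
    have := hT k v
    rwa [hT1, AlgEquiv.one_apply] at this
  have hCA : C = t * A := by
    have : t = C / A := by rw [← hTt, hT1, AlgEquiv.one_apply]
    rw [eq_div_iff hA0] at this
    exact this.symm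
  have hpoly : (Polynomial.C b * X ^ 2 + Polynomial.C (a - d) * X + Polynomial.C (-c) : (ZMod p)[X]) = 0 := by
    by_contra hne
    have h1 : aeval t (Polynomial.C b * X ^ 2 + Polynomial.C (a - d) * X + Polynomial.C (-c) : (ZMod p)[X]) = 0 := by
      simp only [map_add, map_mul, aeval_C, map_pow, aeval_X, map_sub, map_neg]
      rw [hA, hC] at hCA
      linear_combination -hCA
    have h2 := natDegree_le_natDegree (minpoly.degree_le_of_ne_zero (ZMod p) t hne h1)
    have h3 : (Polynomial.C b * X ^ 2 + Polynomial.C (a - d) * X + Polynomial.C (-c) : (ZMod p)[X]).natDegree ≤ 2 :=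
      natDegree_quadratic_le
    omega
  have hb0 : b = 0 := by
    have := congrArg (fun q => q.coeff 2) hpoly
    simpa [coeff_X, coeff_C] using this
  have had : a = d := by
    have := congrArg (fun q => q.coeff 1) hpoly
    simp [coeff_X_pow, coeff_C] at this
    exact sub_eq_zero.mp this
  have hc0 : c = 0 := by
    have := congrArg (fun q => q.coeff 0) hpoly
    simpa using this
  refine ⟨a, ?_, ?_, hlin, ?_⟩
  · intro h0
    apply hA0
    rw [hA, h0, hb0]; simp
  · rintro ⟨x, y⟩
    rw [hform, hb0, hc0, ← had]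
    ext <;> simp
  · intro u v
    rw [← sub_eq_zero]
    apply tr_nondeg (p := p)
    intro y
    rw [mul_sub, map_sub, ← dt_smul_left, ← hlin, e1, dt_smul_left, sub_eq_zero, hA, hb0]
    congr 1
    simp
    ring

omit [Finite K] in
theorem gen_indep (t : K)
    (hdeg : (minpoly (ZMod p) t).natDegree = Module.finrank (ZMod p) K)
    (hn : 2 < Module.finrank (ZMod p) K) (x y : ZMod p)
    (h : algebraMap (ZMod p) K x + algebraMap (ZMod p) K y * t = 0) : x = 0 ∧ y = 0 := by
  have hpoly : (Polynomial.C y * X + Polynomial.C x : (ZMod p)[X]) = 0 := by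
    by_contra hne
    have h1 : aeval t (Polynomial.C y * X + Polynomial.C x : (ZMod p)[X]) = 0 := by
      simp only [map_add, map_mul, aeval_C, aeval_X]
      rw [← h]; ring
    have h2 := natDegree_le_natDegree (minpoly.degree_le_of_ne_zero (ZMod p) t hne h1)
    have h3 : (Polynomial.C y * X + Polynomial.C x : (ZMod p)[X]).natDegree ≤ 1 :=
      natDegree_linear_le
    omega
  constructor
  · have := congrArg (fun q => q.coeff 0) hpoly
    simpa using this
  · have := congrArg (fun q => q.coeff 1) hpoly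
    simpa [coeff_C] using this

theorem surj (t : K)
    (hdeg : (minpoly (ZMod p) t).natDegree = Module.finrank (ZMod p) K)
    (hn : 2 < Module.finrank (ZMod p) K) (z : ZMod p × ZMod p) :
    ∃ D : K, (Tr p K D, Tr p K (t * D)) = z := by
  let L : K →ₗ[ZMod p] ZMod p × ZMod p :=
    LinearMap.prod (Tr p K) ((Tr p K).comp (LinearMap.mulLeft (ZMod p) t))
  have hL : LinearMap.range L = ⊤ := by
    by_contra hne
    obtain ⟨f, hf0, hf⟩ := Submodule.exists_le_ker_of_lt_top _ (lt_top_iff_ne_top.mpr hne)
    have hfz : ∀ x y : ZMod p, f (x, y) = x * f (1, 0) + y * f (0, 1) := by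
      intro x y
      have h1 : ((x, y) : ZMod p × ZMod p) = x • (1, 0) + y • (0, 1) := by simp
      rw [h1, map_add, map_smul, map_smul]; simp
    have hall : ∀ D : K, Tr p K D * f (1, 0) + Tr p K (t * D) * f (0, 1) = 0 := by
      intro D
      have h1 : L D ∈ LinearMap.ker f := hf ⟨D, rfl⟩
      rw [LinearMap.mem_ker] at h1
      have h2 : L D = (Tr p K D, Tr p K (t * D)) := rfl
      rw [h2, hfz] at h1
      exact h1
    have h0 : algebraMap (ZMod p) K (f (1, 0)) + algebraMap (ZMod p) K (f (0, 1)) * t = 0 := by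
      apply tr_nondeg (p := p)
      intro y
      have : y * (algebraMap (ZMod p) K (f (1, 0)) + algebraMap (ZMod p) K (f (0, 1)) * t)
          = f (1, 0) • y + f (0, 1) • (t * y) := by
        rw [Algebra.smul_def, Algebra.smul_def]; ring
      rw [this, map_add, map_smul, map_smul, smul_eq_mul, smul_eq_mul]
      linear_combination hall y
    obtain ⟨q1, q2⟩ := gen_indep t hdeg hn _ _ h0
    apply hf0
    ext
    · simpa using q1
    · simpa using q2
  have hz : z ∈ LinearMap.range L := by rw [hL]; trivial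
  obtain ⟨D, hD⟩ := hz
  exact ⟨D, hD⟩

theorem surj2 (t : K)
    (hdeg : (minpoly (ZMod p) t).natDegree = Module.finrank (ZMod p) K)
    (hn : 2 < Module.finrank (ZMod p) K) (v : K × K) (hv : v ≠ 0) (z : ZMod p × ZMod p) :
    ∃ u : K × K, (Tr p K (dt u v), Tr p K (t * dt u v)) = z := by
  obtain ⟨D, hD⟩ := surj t hdeg hn z
  by_cases h1 : v.1 = 0
  · have h2 : v.2 ≠ 0 := fun h2 => hv (Prod.ext h1 h2)
    refine ⟨(D / v.2, 0), ?_⟩
    have : dt (D / v.2, 0) v = D := by simp [dt]; field_simp
    rw [this, hD]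
  · refine ⟨(0, -(D / v.1)), ?_⟩
    have : dt (0, -(D / v.1)) v = D := by simp [dt]; field_simp
    rw [this, hD]

end
end Helper620.CM
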