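import Mathlib
import Pool.Agent.Helper620.CamMilGroup
import Pool.Agent.Helper620.CamMilCore

namespace Helper620.CM
open Polynomial

section
variable {K : Type} [Field K] [Finite K] [Algebra (ZMod 2) K]

/-- the bilinear cocycle for `p = 2` -/
noncomputable def b2 (t : K) : K × K →+ K × K →+ ZMod 2 × ZMod 2 :=
  AddMonoidHom.mk' (fun u => AddMonoidHom.mk'
    (fun v => (Tr 2 K (u.1 * v.2), Tr 2 K (t * (u.1 * v.2)) + Tr 2 K (u.2 * v.2)))
    (by
      intro v w
      ext
      · simp [mul_add]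
      · simp only [Prod.snd_add, mul_add, map_add]; ring))
    (by
      intro u u'
      ext v
      · simp [add_mul]
      · simp [add_mul, mul_add]; ring)

omit [Finite K] in
theorem b2_apply (t : K) (u v : K × K) :
    b2 t u v = (Tr 2 K (u.1 * v.2), Tr 2 K (t * (u.1 * v.2)) + Tr 2 K (u.2 * v.2)) := rfl

noncomputable def D2 (t : K) : Dat (K × K) (ZMod 2 × ZMod 2) ((K × K) × (ZMod 2 × ZMod 2)) where
  r := AddMonoidHom.fst _ _
  j := AddMonoidHom.inr _ _
  b := b2 t
  rj := fun _ => rfl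
  ex := by
    rintro ⟨v, z⟩ h
    exact ⟨z, by simpa using h.symm⟩
  rs := fun v => ⟨(v, 0), rfl⟩
  ji := fun z w h => by simpa using h

omit [Finite K] in
theorem om2 (t : K) (u v : K × K) :
    Gp.om (D2 t) u v = (Tr 2 K (dt u v), Tr 2 K (t * dt u v)) := by
  unfold Gp.om
  change b2 t u v - b2 t v u = _
  rw [b2_apply, b2_apply]
  ext
  · simp only [Prod.fst_sub]
    rw [← map_sub]
    congr 1
    simp only [dt]; ring
  · simp only [Prod.snd_sub]
    have e1 : t * dt u v = t * (u.1 * v.2) - t * (v.1 * u.2) := by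
      simp only [dt]; ring
    have e2 : v.2 * u.2 = u.2 * v.2 := mul_comm _ _
    rw [e1, e2, map_sub]
    ring

/-- squaring map -/
noncomputable def P2 (t : K) (v : K × K) : ZMod 2 × ZMod 2 := b2 t v v

omit [Finite K] in
theorem hP2 (t : K) (e : Gp (D2 t)) : e ^ 2 = Gp.c (D2 t) (P2 t ((D2 t).r e.val)) := by
  have : CharP K 2 := charP_of_injective_algebraMap (algebraMap (ZMod 2) K).injective 2
  rw [pow_two]
  apply Gp.ext'
  rw [Gp.mul_val]
  have h1 : e.val + e.val = 0 := by
    have h2 : e.val.1 + e.val.1 = 0 := by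
      ext
      · exact CharTwo.add_self_eq_zero _
      · exact CharTwo.add_self_eq_zero _
    have h3 : e.val.2 + e.val.2 = 0 := by
      ext
      · exact CharTwo.add_self_eq_zero _
      · exact CharTwo.add_self_eq_zero _
    exact Prod.ext h2 h3
  rw [h1, zero_add]
  rfl

theorem sq_surj (t : K) (y : K) : ∃ x : K, x ^ 2 = y := by
  have : CharP K 2 := charP_of_injective_algebraMap (algebraMap (ZMod 2) K).injective 2
  obtain ⟨x, hx⟩ := FiniteField.isSquare_of_char_two (F := K) (ringChar.eq K 2) y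
  exact ⟨x, by rw [hx, pow_two]⟩

theorem rigid2 (t : K) (hgen : Algebra.adjoin (ZMod 2) {t} = ⊤)
    (hdeg : (minpoly (ZMod 2) t).natDegree = Module.finrank (ZMod 2) K)
    (hn : 2 < Module.finrank (ZMod 2) K)
    (hco : Nat.Coprime (Module.finrank (ZMod 2) K) (2 * (2 ^ 2 - 1)))
    (g : K × K →+ K × K) (h : ZMod 2 × ZMod 2 →+ ZMod 2 × ZMod 2)
    (hg : Function.Surjective g) (hh : Function.Injective h)
    (hom : ∀ u v, Gp.om (D2 t) (g u) (g v) = h (Gp.om (D2 t) u v))
    (hP : ∀ v, P2 t (g v) = h (P2 t v)) :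
    (∀ v, g v = v) ∧ (∀ z, h z = z) := by
  have : CharP K 2 := charP_of_injective_algebraMap (algebraMap (ZMod 2) K).injective 2
  simp only [om2] at hom
  obtain ⟨a, ha0, ha, hlin, hdt⟩ := core t hgen hdeg hn hco g h hg hh hom
  have ha1 : a = 1 := by
    revert ha0
    clear ha hdt
    revert a
    decide
  subst ha1
  have hz : ∀ z, h z = z := fun z => by rw [ha, one_smul]
  refine ⟨?_, hz⟩
  have hdt' : ∀ u v, dt (g u) (g v) = dt u v := fun u v => by rw [hdt]; simp
  have hg' : ∀ x y : K, g (x, y) = x • g (1, 0) + y • g (0, 1) := by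
    intro x y
    rw [← hlin, ← hlin, ← map_add]
    simp
  set α := (g (1, 0)).1 with hα
  set γ := (g (1, 0)).2 with hγ
  set β := (g (0, 1)).1 with hβ
  set δ := (g (0, 1)).2 with hδ
  have hg1 : ∀ x y : K, g (x, y) = (x * α + y * β, x * γ + y * δ) := by
    intro x y
    rw [hg']
    ext <;> simp [hα, hβ, hγ, hδ]
  have hP' : ∀ x y : K, P2 t (x * α + y * β, x * γ + y * δ) = P2 t (x, y) := by
    intro x y
    rw [← hg1, hP, hz]
  have hPx : ∀ x : K, P2 t (x * α, x * γ) = 0 := by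
    intro x
    have := hP' x 0
    simp only [zero_mul, add_zero] at this
    rw [this]
    simp [P2, b2_apply]
  have hPy : ∀ y : K, P2 t (y * β, y * δ) = P2 t (0, y) := by
    intro y
    have := hP' 0 y
    simpa only [zero_mul, zero_add] using this
  have hαγ : α * γ = 0 := by
    apply tr_nondeg (p := 2)
    intro y
    obtain ⟨x, rfl⟩ := sq_surj t y
    have h1 := congrArg Prod.fst (hPx x)
    rw [P2, b2_apply] at h1
    simp only [Prod.fst_zero] at h1
    rw [← h1]
    congr 1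
    ring
  have hγ0 : γ = 0 := by
    have h2 : γ ^ 2 = 0 := by
      apply tr_nondeg (p := 2)
      intro y
      obtain ⟨x, rfl⟩ := sq_surj t y
      have h1 := congrArg Prod.snd (hPx x)
      rw [P2, b2_apply] at h1
      simp only [Prod.snd_zero] at h1
      have h3 : x * α * (x * γ) = 0 := by
        linear_combination x ^ 2 * hαγ
      rw [h3, mul_zero, map_zero, zero_add] at h1
      rw [← h1]
      congr 1
      ring
    exact pow_eq_zero_iff (two_ne_zero) |>.mp h2
  have hβδ : β * δ = 0 := by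
    apply tr_nondeg (p := 2)
    intro y
    obtain ⟨x, rfl⟩ := sq_surj t y
    have h1 := congrArg Prod.fst (hPy x)
    rw [P2, P2, b2_apply, b2_apply] at h1
    simp only [zero_mul, map_zero] at h1
    rw [← h1]
    congr 1
    ring
  have hδ1 : δ = 1 := by
    have h2 : δ ^ 2 - 1 = 0 := by
      apply tr_nondeg (p := 2)
      intro y
      obtain ⟨x, rfl⟩ := sq_surj t y
      have h1 := congrArg Prod.snd (hPy x)
      rw [P2, P2, b2_apply, b2_apply] at h1
      simp only [zero_mul, mul_zero, map_zero, zero_add] at h1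
      have h3 : x * β * (x * δ) = 0 := by
        linear_combination x ^ 2 * hβδ
      rw [h3, mul_zero, map_zero, zero_add] at h1
      have h4 : x ^ 2 * (δ ^ 2 - 1) = x * δ * (x * δ) - x * x := by ring
      rw [h4, map_sub, h1, sub_self]
    have h3 : (δ - 1) ^ 2 = 0 := by
      have h4 : (2 : K) = 0 := CharTwo.two_eq_zero
      linear_combination h2 + (1 - δ) * h4
    exact sub_eq_zero.mp (pow_eq_zero_iff (two_ne_zero) |>.mp h3)
  have hβ0 : β = 0 := by rw [hδ1, mul_one] at hβδ; exact hβδ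
  have hα1 : α = 1 := by
    have h1 := hdt' (1, 0) (0, 1)
    rw [hg1, hg1] at h1
    simp only [dt, hγ0, hβ0, hδ1] at h1
    simpa using h1
  rintro ⟨x, y⟩
  rw [hg1, hα1, hβ0, hγ0, hδ1]
  simp

theorem main2 (t : K) (hgen : Algebra.adjoin (ZMod 2) {t} = ⊤)
    (hdeg : (minpoly (ZMod 2) t).natDegree = Module.finrank (ZMod 2) K)
    (hn : 2 < Module.finrank (ZMod 2) K)
    (hco : Nat.Coprime (Module.finrank (ZMod 2) K) (2 * (2 ^ 2 - 1))) :
    IsCamina (Gp (D2 t)) ∧ IsMiller (Gp (D2 t)) ∧ 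
      Nat.card (Gp (D2 t)) = (Nat.card K * Nat.card K) * 4 ∧
      Nat.card (Subgroup.center (Gp (D2 t))) = 4 := by
  have H1 : ∀ v : K × K, v ≠ 0 → ∀ z, ∃ u, Gp.om (D2 t) u v = z := by
    intro v hv z
    obtain ⟨u, hu⟩ := surj2 t hdeg hn v hv z
    exact ⟨u, by rw [om2, hu]⟩
  have hV : ∃ v : K × K, v ≠ 0 := ⟨(1, 0), fun h => one_ne_zero (congrArg Prod.fst h)⟩
  have hZ : ∃ z : ZMod 2 × ZMod 2, z ≠ 0 := ⟨(1, 0), by decide⟩
  have hc4 : Nat.card (ZMod 2 × ZMod 2) = 4 := by
    rw [Nat.card_prod, Nat.card_zmod]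
  refine ⟨camina _ H1 hV, miller _ H1 hZ hV 2 (P2 t) (hP2 t)
    (fun g h hg hh hom hP => rigid2 t hgen hdeg hn hco g h hg hh hom hP), ?_, ?_⟩
  · rw [card_gp, Nat.card_prod, hc4]
  · rw [card_center _ H1 hZ, hc4]

end

theorem exists_gen (p : ℕ) [Fact p.Prime] (n : ℕ) (hn : n ≠ 0) :
    ∃ t : GaloisField p n, Algebra.adjoin (ZMod p) {t} = ⊤ ∧
      (minpoly (ZMod p) t).natDegree = Module.finrank (ZMod p) (GaloisField p n) := by
  obtain ⟨t, ht⟩ := Field.exists_primitive_element (ZMod p) (GaloisField p n)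
  refine ⟨t, ?_, (Field.primitive_element_iff_minpoly_natDegree_eq _ _).mp ht⟩
  have h1 := IntermediateField.adjoin_simple_toSubalgebra_of_isAlgebraic
    (F := ZMod p) (α := t) (Algebra.IsAlgebraic.isAlgebraic t)
  rw [← h1, ht]
  rfl

theorem two_main (n : ℕ) (hn : 1 < n) (h6 : Nat.Coprime n 6) :
    ∃ (G : Type) (_ : Group G), Nat.card G = 2 ^ (2 * n + 2) ∧
      Nat.card (Subgroup.center G) = 4 ∧ IsCamina G ∧ IsMiller G := by
  obtain ⟨t, h1, h2⟩ := exists_gen 2 n (by omega)
  have hf : Module.finrank (ZMod 2) (GaloisField 2 n) = n := GaloisField.finrank 2 (by omega)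
  have hn2 : 2 < n := by
    rcases Nat.lt_or_ge 2 n with h | h
    · exact h
    · have : n = 2 := by omega
      subst this
      exact absurd h6 (by decide)
  obtain ⟨q1, q2, q3, q4⟩ := main2 t h1 h2 (by rw [hf]; exact hn2) (by rw [hf]; exact h6)
  refine ⟨Gp (D2 t), inferInstance, ?_, q4, q1, q2⟩
  rw [q3, GaloisField.card 2 n (by omega)]
  ring

end Helper620.CM
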