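import Mathlib
import Pool.Agent.Helper620.CamMilGroup
import Pool.Agent.Helper620.CamMilCore
import Pool.Agent.Helper620.CamMilTwo

namespace Helper620.CM
open Polynomial

section arith
variable (p : ℕ) [hp : Fact p.Prime]

/-- reduction `ℤ/p² → ℤ/p` -/
noncomputable def cst : ZMod (p ^ 2) →+* ZMod p :=
  ZMod.castHom (dvd_pow_self p two_ne_zero) (ZMod p)

/-- multiplication by `p`, as a map `ℤ/p → ℤ/p²` -/
noncomputable def mulp : ZMod p →+ ZMod (p ^ 2) :=
  ZMod.lift p ⟨zmultiplesHom (ZMod (p ^ 2)) (p : ZMod (p ^ 2)), by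
    simp only [zmultiplesHom_apply]
    have : ((p : ℤ) • (p : ZMod (p ^ 2))) = ((p ^ 2 : ℕ) : ZMod (p ^ 2)) := by
      rw [zsmul_eq_mul]
      push_cast
      ring
    rw [this, ZMod.natCast_self]⟩

theorem mulp_nat (k : ℕ) : mulp p (k : ZMod p) = ((k * p : ℕ) : ZMod (p ^ 2)) := by
  have h1 : ((k : ZMod p)) = (((k : ℤ)) : ZMod p) := by simp
  unfold mulp
  rw [h1, ZMod.lift_coe]
  simp

theorem cst_nat (k : ℕ) : cst p (k : ZMod (p ^ 2)) = (k : ZMod p) := by simp [cst]

theorem p_smul (w : ZMod (p ^ 2)) : p • w = mulp p (cst p w) := by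
  have : NeZero (p ^ 2) := ⟨pow_ne_zero 2 hp.out.ne_zero⟩
  obtain ⟨k, rfl⟩ := ZMod.natCast_zmod_surjective w
  rw [cst_nat, mulp_nat]
  push_cast
  rw [nsmul_eq_mul, mul_comm]

theorem cst_mulp (z : ZMod p) : cst p (mulp p z) = 0 := by
  obtain ⟨k, rfl⟩ := ZMod.natCast_zmod_surjective z
  rw [mulp_nat, cst_nat]
  simp

theorem mulp_inj (z : ZMod p) (h : mulp p z = 0) : z = 0 := by
  obtain ⟨k, rfl⟩ := ZMod.natCast_zmod_surjective z
  rw [mulp_nat, ZMod.natCast_eq_zero_iff, pow_two] at h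
  rw [ZMod.natCast_eq_zero_iff]
  exact Nat.dvd_of_mul_dvd_mul_right hp.out.pos h

theorem cst_ker (w : ZMod (p ^ 2)) (h : cst p w = 0) : ∃ z, mulp p z = w := by
  have : NeZero (p ^ 2) := ⟨pow_ne_zero 2 hp.out.ne_zero⟩
  obtain ⟨k, rfl⟩ := ZMod.natCast_zmod_surjective w
  rw [cst_nat, ZMod.natCast_eq_zero_iff] at h
  obtain ⟨l, rfl⟩ := h
  exact ⟨l, by rw [mulp_nat, mul_comm]⟩

theorem cst_surj (z : ZMod p) : ∃ w, cst p w = z := by
  obtain ⟨k, rfl⟩ := ZMod.natCast_zmod_surjective z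
  exact ⟨k, cst_nat p k⟩

end arith

section
variable {p : ℕ} [Fact p.Prime] {K : Type} [Field K] [Finite K] [Algebra (ZMod p) K]

/-- the bilinear cocycle -/
noncomputable def bo (p : ℕ) [Fact p.Prime] {K : Type} [Field K] [Algebra (ZMod p) K] (t : K) :
    K × K →+ K × K →+ ZMod p × ZMod p :=
  AddMonoidHom.mk' (fun u => AddMonoidHom.mk'
    (fun v => (Tr p K (u.1 * v.2), Tr p K (t * (u.1 * v.2))))
    (by
      intro v w
      ext
      · simp [mul_add]
      · simp [mul_add]))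
    (by
      intro u u'
      ext v
      · simp [add_mul]
      · simp [add_mul, mul_add])

/-- the `p`-power map -/
noncomputable def Po (p : ℕ) [Fact p.Prime] (K : Type) [Field K] [Algebra (ZMod p) K] :
    K × K →+ ZMod p × ZMod p :=
  AddMonoidHom.mk' (fun v => (Tr p K v.2, Tr p K v.1)) (by intro u v; ext <;> simp)

/-- reduction mod `p` in both coordinates, `(ℤ/p²)² → (ℤ/p)²` -/
noncomputable def red (p : ℕ) [Fact p.Prime] : ZMod (p ^ 2) × ZMod (p ^ 2) →+ ZMod p × ZMod p :=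
  AddMonoidHom.prodMap (cst p).toAddMonoidHom (cst p).toAddMonoidHom

noncomputable abbrev Ex (p : ℕ) [Fact p.Prime] (K : Type) [Field K] [Algebra (ZMod p) K] :
    AddSubgroup ((K × K) × (ZMod (p ^ 2) × ZMod (p ^ 2))) :=
  AddMonoidHom.eqLocus ((red p).comp (AddMonoidHom.snd _ _)) ((Po p K).comp (AddMonoidHom.fst _ _))

noncomputable def jo (p : ℕ) [Fact p.Prime] (K : Type) [Field K] [Algebra (ZMod p) K] :
    ZMod p × ZMod p →+ Ex p K :=
  AddMonoidHom.mk' (fun z => ⟨(0, (mulp p z.1, mulp p z.2)), by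
      change red p (mulp p z.1, mulp p z.2) = Po p K 0
      rw [map_zero]
      change (cst p (mulp p z.1), cst p (mulp p z.2)) = 0
      rw [cst_mulp, cst_mulp]; rfl⟩)
    (by
      intro z w
      apply Subtype.ext
      apply Prod.ext
      · change (0 : K × K) = 0 + 0
        rw [add_zero]
      · change (mulp p (z.1 + w.1), mulp p (z.2 + w.2)) = (mulp p z.1 + mulp p w.1, mulp p z.2 + mulp p w.2)
        rw [map_add, map_add])

noncomputable def Do (p : ℕ) [Fact p.Prime] {K : Type} [Field K] [Algebra (ZMod p) K] (t : K) :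
    Dat (K × K) (ZMod p × ZMod p) (Ex p K) where
  r := (AddMonoidHom.fst _ _).comp (Ex p K).subtype
  j := jo p K
  b := bo p t
  rj := fun _ => rfl
  ex := by
    rintro ⟨⟨v, w⟩, hw⟩ h
    have hv : v = 0 := h
    subst hv
    have hw' : (cst p w.1, cst p w.2) = Po p K 0 := hw
    rw [map_zero] at hw'
    obtain ⟨z1, hz1⟩ := cst_ker p w.1 (congrArg Prod.fst hw')
    obtain ⟨z2, hz2⟩ := cst_ker p w.2 (congrArg Prod.snd hw')
    refine ⟨(z1, z2), ?_⟩
    apply Subtype.ext
    apply Prod.ext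
    · rfl
    · exact Prod.ext hz1 hz2
  rs := by
    intro v
    obtain ⟨w1, hw1⟩ := cst_surj p (Tr p K v.2)
    obtain ⟨w2, hw2⟩ := cst_surj p (Tr p K v.1)
    refine ⟨⟨(v, (w1, w2)), ?_⟩, rfl⟩
    change (cst p w1, cst p w2) = (Tr p K v.2, Tr p K v.1)
    rw [hw1, hw2]
  ji := by
    rw [injective_iff_map_eq_zero]
    intro z hz
    have h1 : ((0 : K × K), (mulp p z.1, mulp p z.2)) = 0 := congrArg Subtype.val hz
    have h2 := congrArg Prod.snd h1
    exact Prod.ext (mulp_inj p _ (congrArg Prod.fst h2)) (mulp_inj p _ (congrArg Prod.snd h2))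

omit [Finite K] in
theorem omo (t : K) (u v : K × K) :
    Gp.om (Do p t) u v = (Tr p K (dt u v), Tr p K (t * dt u v)) := by
  unfold Gp.om
  change bo p t u v - bo p t v u = _
  have hb : ∀ u v, bo p t u v = (Tr p K (u.1 * v.2), Tr p K (t * (u.1 * v.2))) := fun _ _ => rfl
  rw [hb, hb]
  ext
  · simp only [Prod.fst_sub]
    rw [← map_sub]
    congr 1
    simp only [dt]; ring
  · simp only [Prod.snd_sub]
    rw [← map_sub]
    congr 1
    simp only [dt]; ring

theorem pow_val {V Z E : Type} [AddCommGroup V] [AddCommGroup Z] [AddCommGroup E] (D : Dat V Z E)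
    (e : Gp D) (k : ℕ) :
    (e ^ k).val = k • e.val + (k.choose 2) • D.j (D.b (D.r e.val) (D.r e.val)) := by
  induction k with
  | zero => simp [Gp.one_val]
  | succ k ih =>
    rw [pow_succ, Gp.mul_val, ih]
    have h1 : D.r (k • e.val + (k.choose 2) • D.j (D.b (D.r e.val) (D.r e.val))) = k • D.r e.val := by
      rw [map_add, map_nsmul, map_nsmul, D.rj, smul_zero, add_zero]
    rw [h1, map_nsmul, AddMonoidHom.nsmul_apply, map_nsmul]
    have h2 : (k + 1).choose 2 = k + k.choose 2 := by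
      rw [Nat.choose_succ_succ' k 1, Nat.choose_one_right]
    rw [h2, add_smul k (k.choose 2), succ_nsmul]
    abel

omit [Finite K] in
theorem hPo (hp2 : p ≠ 2) (t : K) (e : Gp (Do p t)) :
    e ^ p = Gp.c (Do p t) (Po p K ((Do p t).r e.val)) := by
  have hpr : p.Prime := Fact.out
  apply Gp.ext'
  rw [pow_val]
  have hch : p ∣ p.choose 2 := hpr.dvd_choose_self (by norm_num)
    (lt_of_le_of_ne hpr.two_le (Ne.symm hp2))
  obtain ⟨m, hm⟩ := hch
  have h1 : (p.choose 2) • (Do p t).j ((Do p t).b ((Do p t).r e.val) ((Do p t).r e.val)) = 0 := by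
    rw [← map_nsmul]
    have : (p.choose 2) • ((Do p t).b ((Do p t).r e.val) ((Do p t).r e.val)) = 0 := by
      rw [hm]
      ext
      · simp
      · simp
    rw [this, map_zero]
  rw [h1, add_zero]
  have : CharP K p := charP_of_injective_algebraMap (algebraMap (ZMod p) K).injective p
  obtain ⟨⟨⟨v, w⟩, hw⟩⟩ := e
  apply Subtype.ext
  apply Prod.ext
  · change p • v = 0
    ext
    · simp
    · simp
  · have hw' : (cst p w.1, cst p w.2) = Po p K v := hw
    change p • w = (mulp p (Po p K v).1, mulp p (Po p K v).2)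
    rw [← hw']
    ext1
    · exact p_smul p w.1
    · exact p_smul p w.2

theorem rigido (t : K) (hgen : Algebra.adjoin (ZMod p) {t} = ⊤)
    (hdeg : (minpoly (ZMod p) t).natDegree = Module.finrank (ZMod p) K)
    (hn : 2 < Module.finrank (ZMod p) K)
    (hco : Nat.Coprime (Module.finrank (ZMod p) K) (p * (p ^ 2 - 1)))
    (g : K × K →+ K × K) (h : ZMod p × ZMod p →+ ZMod p × ZMod p)
    (hg : Function.Surjective g) (hh : Function.Injective h)
    (hom : ∀ u v, Gp.om (Do p t) (g u) (g v) = h (Gp.om (Do p t) u v))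
    (hP : ∀ v, Po p K (g v) = h (Po p K v)) :
    (∀ v, g v = v) ∧ (∀ z, h z = z) := by
  simp only [omo] at hom
  obtain ⟨a, ha0, ha, hlin, hdt⟩ := core t hgen hdeg hn hco g h hg hh hom
  have hg' : ∀ x y : K, g (x, y) = x • g (1, 0) + y • g (0, 1) := by
    intro x y
    rw [← hlin, ← hlin, ← map_add]
    simp
  set α := (g (1, 0)).1 with hα
  set γ := (g (1, 0)).2 with hγ
  set β := (g (0, 1)).1 with hβ
  set δ := (g (0, 1)).2 with hδ
  have hg1 : ∀ x y : K, g (x, y) = (x * α + y * β, x * γ + y * δ) := by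
    intro x y
    rw [hg']
    ext <;> simp [hα, hβ, hγ, hδ]
  have hP' : ∀ x y : K, (Tr p K (x * γ + y * δ), Tr p K (x * α + y * β)) = (a * Tr p K y, a * Tr p K x) := by
    intro x y
    have h1 := hP (x, y)
    rw [hg1, ha] at h1
    exact h1
  have hat : ∀ y : K, a * Tr p K y = Tr p K (y * algebraMap (ZMod p) K a) := by
    intro y
    have : y * algebraMap (ZMod p) K a = a • y := by rw [Algebra.smul_def, mul_comm]
    rw [this, map_smul, smul_eq_mul]
  have hγ0 : γ = 0 := tr_nondeg (p := p) (fun x => by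
    have := congrArg Prod.fst (hP' x 0)
    simpa using this)
  have hα1 : α = algebraMap (ZMod p) K a := by
    rw [← sub_eq_zero]
    apply tr_nondeg (p := p)
    intro x
    have := congrArg Prod.snd (hP' x 0)
    simp only [zero_mul, add_zero] at this
    rw [mul_sub, map_sub, this, hat, sub_self]
  have hδ1 : δ = algebraMap (ZMod p) K a := by
    rw [← sub_eq_zero]
    apply tr_nondeg (p := p)
    intro x
    have := congrArg Prod.fst (hP' 0 x)
    simp only [zero_mul, zero_add] at this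
    rw [mul_sub, map_sub, this, hat, sub_self]
  have hβ0 : β = 0 := tr_nondeg (p := p) (fun x => by
    have := congrArg Prod.snd (hP' 0 x)
    simpa using this)
  have ha1 : a = 1 := by
    have h1 := hdt (1, 0) (0, 1)
    rw [hg1, hg1] at h1
    simp only [dt, hγ0, hβ0, hδ1, hα1] at h1
    simp at h1
    have h2 : algebraMap (ZMod p) K (a * a) = algebraMap (ZMod p) K a := by
      rw [map_mul]; simpa using h1
    have h3 := (algebraMap (ZMod p) K).injective h2
    exact mul_left_cancel₀ ha0 (by rw [h3, mul_one])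
  refine ⟨?_, fun z => by rw [ha, ha1, one_smul]⟩
  rintro ⟨x, y⟩
  rw [hg1, hα1, hβ0, hγ0, hδ1, ha1]
  simp

theorem maino (hp2 : p ≠ 2) (t : K) (hgen : Algebra.adjoin (ZMod p) {t} = ⊤)
    (hdeg : (minpoly (ZMod p) t).natDegree = Module.finrank (ZMod p) K)
    (hn : 2 < Module.finrank (ZMod p) K)
    (hco : Nat.Coprime (Module.finrank (ZMod p) K) (p * (p ^ 2 - 1))) :
    IsCamina (Gp (Do p t)) ∧ IsMiller (Gp (Do p t)) ∧
      Nat.card (Gp (Do p t)) = (Nat.card K * Nat.card K) * (p * p) ∧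
      Nat.card (Subgroup.center (Gp (Do p t))) = p * p := by
  have H1 : ∀ v : K × K, v ≠ 0 → ∀ z, ∃ u, Gp.om (Do p t) u v = z := by
    intro v hv z
    obtain ⟨u, hu⟩ := surj2 t hdeg hn v hv z
    exact ⟨u, by rw [omo, hu]⟩
  have hV : ∃ v : K × K, v ≠ 0 := ⟨(1, 0), fun h => one_ne_zero (congrArg Prod.fst h)⟩
  have hZ : ∃ z : ZMod p × ZMod p, z ≠ 0 := ⟨(1, 0), fun h => one_ne_zero (congrArg Prod.fst h)⟩
  have hc4 : Nat.card (ZMod p × ZMod p) = p * p := by
    rw [Nat.card_prod, Nat.card_zmod]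
  refine ⟨camina _ H1 hV, miller _ H1 hZ hV p (Po p K) (hPo hp2 t)
    (fun g h hg hh hom hP => rigido t hgen hdeg hn hco g h hg hh hom hP), ?_, ?_⟩
  · rw [card_gp, Nat.card_prod, hc4]
  · rw [card_center _ H1 hZ, hc4]

end

theorem all_main (p : ℕ) (hp : p.Prime) (n : ℕ) (hn : 1 < n) (hco : Nat.Coprime n (p * (p ^ 2 - 1))) :
    ∃ (G : Type) (_ : Group G), Nat.card G = p ^ (2 * n + 2) ∧
      Nat.card (Subgroup.center G) = p ^ 2 ∧ IsCamina G ∧ IsMiller G := by
  have : Fact p.Prime := ⟨hp⟩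
  by_cases hp2 : p = 2
  · subst hp2
    exact two_main n hn hco
  obtain ⟨t, h1, h2⟩ := exists_gen p n (by omega)
  have hf : Module.finrank (ZMod p) (GaloisField p n) = n := GaloisField.finrank p (by omega)
  have hn2 : 2 < n := by
    rcases Nat.lt_or_ge 2 n with h | h
    · exact h
    · have hn2 : n = 2 := by omega
      subst hn2
      have hodd : p % 2 = 1 := by
        rcases hp.eq_two_or_odd with h | h
        · exact absurd h hp2
        · exact h
      have h2 : 2 ∣ p * (p ^ 2 - 1) := by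
        apply Dvd.dvd.mul_left
        have : p ^ 2 % 2 = 1 := by rw [Nat.pow_mod, hodd]
        omega
      have := Nat.Coprime.eq_one_of_dvd hco h2
      omega
  obtain ⟨q1, q2, q3, q4⟩ := maino hp2 t h1 h2 (by rw [hf]; exact hn2) (by rw [hf]; exact hco)
  refine ⟨Gp (Do p t), inferInstance, ?_, ?_, q1, q2⟩
  · rw [q3, GaloisField.card p n (by omega)]
    ring
  · rw [q4, pow_two]

end Helper620.CM

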