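import Mathlib
import Pool.Agent.Helper620.CamMilGroup
import Pool.Agent.Helper620.CamMilCore
import Pool.Agent.Helper620.CamMilTwo
import Pool.Agent.Helper620.CamMilOdd

namespace Helper620.CM
open Polynomial

section model
variable (p : ℕ) [Fact p.Prime] {V : Type} [AddCommGroup V]

/-- the abelian group `{(v, w) ∈ V × (ℤ/p²)² : w mod p = P v}` -/
noncomputable abbrev ExG (P : V →+ ZMod p × ZMod p) :
    AddSubgroup (V × (ZMod (p ^ 2) × ZMod (p ^ 2))) :=
  AddMonoidHom.eqLocus ((red p).comp (AddMonoidHom.snd _ _)) (P.comp (AddMonoidHom.fst _ _))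

/-- the embedding `z ↦ (0, p z)` of `(ℤ/p)²` (here `mulp : ℤ/p → ℤ/p²` is multiplication by `p`) -/
noncomputable def jG (P : V →+ ZMod p × ZMod p) : ZMod p × ZMod p →+ ExG p P :=
  AddMonoidHom.mk' (fun z => ⟨(0, (mulp p z.1, mulp p z.2)), by
      change red p (mulp p z.1, mulp p z.2) = P 0
      rw [map_zero]
      change (cst p (mulp p z.1), cst p (mulp p z.2)) = 0
      rw [cst_mulp, cst_mulp]; rfl⟩)
    (by
      intro z w
      apply Subtype.ext
      apply Prod.ext
      · change (0 : V) = 0 + 0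
        rw [add_zero]
      · change (mulp p (z.1 + w.1), mulp p (z.2 + w.2)) = (mulp p z.1 + mulp p w.1, mulp p z.2 + mulp p w.2)
        rw [map_add, map_add])

/-- The extension data with `E = {(v, w) ∈ V × (ℤ/p²)² : w mod p = P v}`, `r (v, w) = v`,
`j z = (0, p z)` and bilinear map `b`. The group `Gp (DG p P b)` has the product
`(v, w) * (v', w') = (v + v', w + w' + p b(v, v'))`. -/
noncomputable def DG (P : V →+ ZMod p × ZMod p) (b : V →+ V →+ ZMod p × ZMod p) :
    Dat V (ZMod p × ZMod p) (ExG p P) where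
  r := (AddMonoidHom.fst _ _).comp (ExG p P).subtype
  j := jG p P
  b := b
  rj := fun _ => rfl
  ex := by
    rintro ⟨⟨v, w⟩, hw⟩ h
    have hv : v = 0 := h
    subst hv
    have hw' : (cst p w.1, cst p w.2) = P 0 := hw
    rw [map_zero] at hw'
    obtain ⟨z1, hz1⟩ := cst_ker p w.1 (congrArg Prod.fst hw')
    obtain ⟨z2, hz2⟩ := cst_ker p w.2 (congrArg Prod.snd hw')
    refine ⟨(z1, z2), ?_⟩
    apply Subtype.ext
    apply Prod.ext
    · rfl
    · exact Prod.ext hz1 hz2
  rs := by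
    intro v
    obtain ⟨w1, hw1⟩ := cst_surj p (P v).1
    obtain ⟨w2, hw2⟩ := cst_surj p (P v).2
    refine ⟨⟨(v, (w1, w2)), ?_⟩, rfl⟩
    change (cst p w1, cst p w2) = P v
    rw [hw1, hw2]
  ji := by
    rw [injective_iff_map_eq_zero]
    intro z hz
    have h1 : ((0 : V), (mulp p z.1, mulp p z.2)) = 0 := congrArg Subtype.val hz
    have h2 := congrArg Prod.snd h1
    exact Prod.ext (mulp_inj p _ (congrArg Prod.fst h2)) (mulp_inj p _ (congrArg Prod.snd h2))

variable (hV : ∀ v : V, p • v = 0)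

include hV in
theorem p_smul_G (P : V →+ ZMod p × ZMod p) (b : V →+ V →+ ZMod p × ZMod p) (e : ExG p P) :
    p • e = (DG p P b).j (P ((DG p P b).r e)) := by
  obtain ⟨⟨v, w⟩, hw⟩ := e
  apply Subtype.ext
  apply Prod.ext
  · exact hV v
  · have hw' : (cst p w.1, cst p w.2) = P v := hw
    change p • w = (mulp p (P v).1, mulp p (P v).2)
    rw [← hw']
    ext1
    · exact p_smul p w.1
    · exact p_smul p w.2

include hV in
theorem pow_G (hp2 : p ≠ 2) (P : V →+ ZMod p × ZMod p) (b : V →+ V →+ ZMod p × ZMod p)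
    (e : Gp (DG p P b)) : e ^ p = Gp.c (DG p P b) (P ((DG p P b).r e.val)) := by
  have hpr : p.Prime := Fact.out
  apply Gp.ext'
  rw [pow_val]
  have hch : p ∣ p.choose 2 := hpr.dvd_choose_self (by norm_num)
    (lt_of_le_of_ne hpr.two_le (Ne.symm hp2))
  obtain ⟨m, hm⟩ := hch
  have h1 : (p.choose 2) • (DG p P b).j ((DG p P b).b ((DG p P b).r e.val) ((DG p P b).r e.val)) = 0 := by
    rw [← map_nsmul]
    have : (p.choose 2) • ((DG p P b).b ((DG p P b).r e.val) ((DG p P b).r e.val)) = 0 := by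
      rw [hm]
      ext
      · simp
      · simp
    rw [this, map_zero]
  rw [h1, add_zero]
  exact p_smul_G p hV P b e.val

end model

section adj
variable {p : ℕ} [Fact p.Prime] {f : (ZMod p)[X]} 

/-- determinant of two vectors of `R²`, `R = F_p[x]/(f)` -/
def dR {R : Type} [CommRing R] (u v : R × R) : R := u.1 * v.2 - u.2 * v.1

/-- the form `(u, v) ↦ (l (det (u,v)), l (x det (u,v)))` on `R²` -/
noncomputable def bM (f : (ZMod p)[X]) (l : AdjoinRoot f →ₗ[ZMod p] ZMod p) :
    AdjoinRoot f × AdjoinRoot f →+ AdjoinRoot f × AdjoinRoot f →+ ZMod p × ZMod p :=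
  AddMonoidHom.mk' (fun u => AddMonoidHom.mk'
    (fun v => (l (dR u v), l (AdjoinRoot.root f * dR u v)))
    (by
      intro v w
      have : dR u (v + w) = dR u v + dR u w := by simp only [dR, Prod.fst_add, Prod.snd_add]; ring
      rw [this, mul_add, map_add, map_add]; rfl))
    (by
      intro u u'
      ext v : 1
      have : dR (u + u') v = dR u v + dR u' v := by simp only [dR, Prod.fst_add, Prod.snd_add]; ring
      change (l (dR (u + u') v), l (AdjoinRoot.root f * dR (u + u') v)) = _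
      rw [this, mul_add, map_add, map_add]; rfl)

/-- the `p`-power map `(r, s) ↦ (l s, - l r)` on `R²` -/
noncomputable def PM (f : (ZMod p)[X]) (l : AdjoinRoot f →ₗ[ZMod p] ZMod p) :
    AdjoinRoot f × AdjoinRoot f →+ ZMod p × ZMod p :=
  AddMonoidHom.mk' (fun v => (l v.2, - l v.1)) (by intro u v; ext <;> simp [add_comm])

/-- The group `G(f, l)`, where `R = F_p[x]/(f)` and `l : R → F_p` is linear: the set of all
`(v, w) ∈ R² × (ℤ/p²)²` with `w mod p = (l v₂, - l v₁)`, with the product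
`(v, w) * (v', w') = (v + v', w + w' + p (l (det (v, v')), l (x det (v, v'))))`,
`det (v, v') = v₁ v'₂ - v₂ v'₁`. -/
abbrev GM (f : (ZMod p)[X]) (l : AdjoinRoot f →ₗ[ZMod p] ZMod p) : Type :=
  Gp (DG p (PM f l) (bM f l))

/-- `l` is nondegenerate -/
def Nondeg (f : (ZMod p)[X]) (l : AdjoinRoot f →ₗ[ZMod p] ZMod p) : Prop :=
  ∀ r, (∀ s, l (r * s) = 0) → r = 0

/-- the pair `(f, l)` has trivial stabiliser in `GL₂(F_p)` -/
def Rigid (f : (ZMod p)[X]) (l : AdjoinRoot f →ₗ[ZMod p] ZMod p) : Prop :=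
  ∀ (a b c d : ZMod p) (s : AdjoinRoot f ≃ₐ[ZMod p] AdjoinRoot f), a * d - b * c ≠ 0 →
    AdjoinRoot.root f * (algebraMap _ _ a + algebraMap _ _ b * s (AdjoinRoot.root f))
      = algebraMap _ _ c + algebraMap _ _ d * s (AdjoinRoot.root f) →
    (∀ r, l (s r * (algebraMap _ _ a + algebraMap _ _ b * s (AdjoinRoot.root f)))
      = (a * d - b * c) * l r) →
    a = 1 ∧ b = 0 ∧ c = 0 ∧ d = 1

theorem bM_apply (l : AdjoinRoot f →ₗ[ZMod p] ZMod p) (u v : AdjoinRoot f × AdjoinRoot f) :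
    bM f l u v = (l (dR u v), l (AdjoinRoot.root f * dR u v)) := rfl

theorem PM_apply (l : AdjoinRoot f →ₗ[ZMod p] ZMod p) (v : AdjoinRoot f × AdjoinRoot f) :
    PM f l v = (l v.2, - l v.1) := rfl

theorem dR_smul {R : Type} [CommRing R] (k : R) (u v : R × R) : dR (k • u) v = k * dR u v := by
  simp only [dR, Prod.smul_fst, Prod.smul_snd, smul_eq_mul]; ring

theorem dR_nondeg (l : AdjoinRoot f →ₗ[ZMod p] ZMod p) (hl : Nondeg f l)
    {x : AdjoinRoot f × AdjoinRoot f} (h : ∀ w, l (dR x w) = 0) : x = 0 := by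
  have h1 : x.1 = 0 := hl _ (fun y => by
    have := h (0, y)
    simpa [dR, mul_comm] using this)
  have h2 : x.2 = 0 := hl _ (fun y => by
    have := h (-y, 0)
    simpa [dR, mul_comm] using this)
  exact Prod.ext h1 h2

/-- form of an additive endomorphism of `F_p²` -/
theorem h_form (h : ZMod p × ZMod p →+ ZMod p × ZMod p) (x y : ZMod p) :
    h (x, y) = ((h (1, 0)).1 * x + (h (0, 1)).1 * y, (h (1, 0)).2 * x + (h (0, 1)).2 * y) := by
  have h1 : ((x, y) : ZMod p × ZMod p) = x • (1, 0) + y • (0, 1) := by simp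
  rw [h1, map_add, ZMod.map_smul, ZMod.map_smul]
  ext
  · simp; ring
  · simp; ring

theorem l_lin (l : AdjoinRoot f →ₗ[ZMod p] ZMod p) (x y : ZMod p) (t D : AdjoinRoot f) :
    l ((algebraMap (ZMod p) _ x + algebraMap (ZMod p) _ y * t) * D) = x * l D + y * l (t * D) := by
  have : (algebraMap (ZMod p) _ x + algebraMap (ZMod p) _ y * t) * D = x • D + y • (t * D) := by
    rw [Algebra.smul_def, Algebra.smul_def]; ring
  rw [this, map_add, map_smul, map_smul]; simp

theorem unit_of_noroot (hroot : ∀ c : ZMod p, ¬ f.IsRoot c) (c : ZMod p) :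
    IsUnit (AdjoinRoot.root f - algebraMap (ZMod p) _ c) := by
  have h1 : (X - C c) * (f /ₘ (X - C c)) + C (f.eval c) = f := by
    have := mul_divByMonic_eq_iff_isRoot (p := f) (a := c)
    have h2 := modByMonic_add_div f (X - C c)
    rw [modByMonic_X_sub_C_eq_C_eval] at h2
    rw [add_comm]; exact h2
  have h2 := congrArg (AdjoinRoot.mk f) h1
  rw [map_add, map_mul, AdjoinRoot.mk_self, map_sub, AdjoinRoot.mk_X, AdjoinRoot.mk_C,
    AdjoinRoot.mk_C] at h2
  have hc : f.eval c ≠ 0 := hroot c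
  have h3 : (AdjoinRoot.root f - algebraMap (ZMod p) _ c) *
      (AdjoinRoot.mk f (f /ₘ (X - C c)) * algebraMap (ZMod p) _ (-(f.eval c)⁻¹)) = 1 := by
    have e1 : algebraMap (ZMod p) (AdjoinRoot f) (-(f.eval c)⁻¹) * algebraMap (ZMod p) (AdjoinRoot f) (f.eval c) = -1 := by
      rw [← map_mul, neg_mul, inv_mul_cancel₀ hc]; simp
    have e2 : AdjoinRoot.of f c = algebraMap (ZMod p) _ c := rfl
    have e3 : AdjoinRoot.of f (f.eval c) = algebraMap (ZMod p) _ (f.eval c) := rfl
    rw [e2, e3] at h2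
    linear_combination algebraMap (ZMod p) (AdjoinRoot f) (-(f.eval c)⁻¹) * h2 - e1
  exact IsUnit.of_mul_eq_one _ h3

theorem unit_lin (hroot : ∀ c : ZMod p, ¬ f.IsRoot c) (a b : ZMod p) (hab : ¬ (a = 0 ∧ b = 0)) :
    IsUnit (algebraMap (ZMod p) (AdjoinRoot f) a + algebraMap (ZMod p) _ b * AdjoinRoot.root f) := by
  by_cases hb : b = 0
  · subst hb
    have ha : a ≠ 0 := fun h => hab ⟨h, rfl⟩
    simp only [map_zero, zero_mul, add_zero]
    exact (IsUnit.mk0 a ha).map (algebraMap (ZMod p) (AdjoinRoot f))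
  · have h1 := unit_of_noroot hroot (-(a / b))
    have h2 : algebraMap (ZMod p) (AdjoinRoot f) a + algebraMap (ZMod p) _ b * AdjoinRoot.root f
        = algebraMap (ZMod p) _ b * (AdjoinRoot.root f - algebraMap (ZMod p) _ (-(a / b))) := by
      have : algebraMap (ZMod p) (AdjoinRoot f) a = algebraMap (ZMod p) _ b * algebraMap (ZMod p) _ (a / b) := by
        rw [← map_mul, mul_div_cancel₀ _ hb]
      rw [this, map_neg]; ring
    rw [h2]
    exact ((IsUnit.mk0 b hb).map (algebraMap (ZMod p) (AdjoinRoot f))).mul h1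

end adj
end Helper620.CM
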