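import Mathlib
import Pool.Agent.Helper620.CamMilModel

set_option autoImplicit false

namespace Helper620.CM
open Polynomial



/-- no rigid pair in degree 2 -/
theorem not_rigid_two {p : ℕ} [Fact p.Prime] (hp2 : p ≠ 2) (f : (ZMod p)[X]) (hf : f.Monic)
    (hdeg : f.natDegree = 2) (hroot : ∀ c : ZMod p, ¬ f.IsRoot c)
    (l : AdjoinRoot f →ₗ[ZMod p] ZMod p) (hl : Nondeg f l) : ¬ Rigid f l := by
  intro hR
  obtain ⟨u, hu⟩ : ∃ u, u = f.coeff 1 := ⟨_, rfl⟩
  obtain ⟨v, hv⟩ : ∃ v, v = f.coeff 0 := ⟨_, rfl⟩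
  have hquad : f = X ^ 2 + C u * X + C v := by
    have h1 : f.degree ≤ 2 := by
      rw [Polynomial.degree_eq_natDegree hf.ne_zero, hdeg]; rfl
    have h2 := Polynomial.eq_quadratic_of_degree_le_two h1
    have h3 : f.coeff 2 = 1 := by
      have := hf.coeff_natDegree
      rwa [hdeg] at this
    rw [h3, ← hu, ← hv] at h2
    simpa using h2
  have hdeg' : f.degree ≠ 0 := by
    rw [Polynomial.degree_eq_natDegree hf.ne_zero, hdeg]; decide
  have hnt : Nontrivial (AdjoinRoot f) := AdjoinRoot.nontrivial f hdeg'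
  have hinj : Function.Injective (algebraMap (ZMod p) (AdjoinRoot f)) :=
    (algebraMap (ZMod p) (AdjoinRoot f)).injective
  have key : ∀ y : AdjoinRoot f, Polynomial.aeval y f =
      y ^ 2 + algebraMap (ZMod p) (AdjoinRoot f) u * y
      + algebraMap (ZMod p) (AdjoinRoot f) v := by
    intro y
    have h : ∀ g : (ZMod p)[X], g = X ^ 2 + C u * X + C v → Polynomial.aeval y g =
      y ^ 2 + algebraMap (ZMod p) (AdjoinRoot f) u * y
      + algebraMap (ZMod p) (AdjoinRoot f) v := by
      intro g hg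
      rw [hg]
      simp only [map_add, map_mul, map_pow, aeval_X, aeval_C]
    exact h f hquad
  obtain ⟨x, hx⟩ : ∃ x, x = AdjoinRoot.root f := ⟨_, rfl⟩
  have hxe : x ^ 2 + algebraMap (ZMod p) (AdjoinRoot f) u * x
      + algebraMap (ZMod p) (AdjoinRoot f) v = 0 := by
    rw [← key, hx, AdjoinRoot.aeval_eq, AdjoinRoot.mk_self]
  obtain ⟨x', hx'⟩ : ∃ x', x' = - algebraMap (ZMod p) (AdjoinRoot f) u - x := ⟨_, rfl⟩
  have hx'e : Polynomial.aeval x' f = 0 := by
    rw [key, hx']
    linear_combination hxe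
  have hx'e2 : f.eval₂ ((Algebra.ofId (ZMod p) (AdjoinRoot f) : ZMod p →ₐ[ZMod p] AdjoinRoot f) :
      ZMod p →+* AdjoinRoot f) x' = 0 := hx'e
  let σ : AdjoinRoot f →ₐ[ZMod p] AdjoinRoot f :=
    AdjoinRoot.liftAlgHom f (Algebra.ofId (ZMod p) (AdjoinRoot f)) x' hx'e2
  have hσx : σ x = x' := by
    rw [hx]; exact AdjoinRoot.liftAlgHom_root f _ x' hx'e2
  have hσx' : σ x' = x := by
    rw [hx', map_sub, map_neg, hσx, AlgHom.commutes, hx']; ring
  have hσσ : σ.comp σ = AlgHom.id (ZMod p) (AdjoinRoot f) := by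
    apply AdjoinRoot.algHom_ext
    rw [← hx]
    change σ (σ x) = x
    rw [hσx, hσx']
  let s : AdjoinRoot f ≃ₐ[ZMod p] AdjoinRoot f := AlgEquiv.ofAlgHom σ σ hσσ hσσ
  have hsx : s x = x' := hσx
  have hss : ∀ r, s (s r) = r := fun r => by
    have := congrArg (fun t => t r) hσσ
    exact this
  -- nondegeneracy
  have hfin : Module.Finite (ZMod p) (AdjoinRoot f) := hf.finite_adjoinRoot
  let Φ : AdjoinRoot f →ₗ[ZMod p] Module.Dual (ZMod p) (AdjoinRoot f) :=
    { toFun := fun θ => l ∘ₗ LinearMap.mulLeft (ZMod p) θ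
      map_add' := by
        intro a b; ext r; simp [add_mul]
      map_smul' := by
        intro a b; ext r; simp }
  have hΦinj : Function.Injective Φ := by
    rw [← LinearMap.ker_eq_bot, LinearMap.ker_eq_bot']
    intro θ hθ
    apply hl
    intro r
    exact congrArg (fun t => t r) hθ
  have hΦsurj : Function.Surjective Φ :=
    (LinearMap.injective_iff_surjective_of_finrank_eq_finrank
      (Subspace.dual_finrank_eq).symm).1 hΦinj
  obtain ⟨θ, hθ⟩ := hΦsurj (l ∘ₗ s.toLinearMap)
  have hθ' : ∀ r, l (s r) = l (θ * r) := fun r => (congrArg (fun t => t r) hθ).symm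
  have hθθ : θ * s θ = 1 := by
    have : θ * s θ - 1 = 0 := by
      apply hl
      intro r
      have h1 : l r = l (θ * s r) := by rw [← hθ', hss]
      have h2 : l (θ * s r) = l (θ * (s θ * r)) := by
        have h3 : s (s θ * r) = θ * s r := by rw [map_mul, hss]
        rw [← hθ' (s θ * r), h3]
      rw [sub_mul, one_mul, map_sub, mul_assoc, ← h2, ← h1, sub_self]
    exact sub_eq_zero.1 this
  -- coordinates
  obtain ⟨a, b, hab⟩ : ∃ a b : ZMod p, θ = algebraMap _ _ a + algebraMap _ _ b * x' := by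
    obtain ⟨g, hg⟩ := AdjoinRoot.mk_surjective (g := f) θ
    have h1 : AdjoinRoot.mk f (g %ₘ f) = θ := by
      rw [← hg, AdjoinRoot.mk_eq_mk]
      exact ⟨-(g /ₘ f), by rw [modByMonic_eq_sub_mul_div _ f]; ring⟩
    have h2 : (g %ₘ f).degree ≤ 1 := by
      have := Polynomial.degree_modByMonic_lt g hf
      rw [Polynomial.degree_eq_natDegree hf.ne_zero, hdeg] at this
      have h4 : (g %ₘ f).degree < ((2 : ℕ) : WithBot ℕ) := this
      have h5 := (Polynomial.degree_lt_iff_coeff_zero _ _).1 h4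
      rw [Polynomial.degree_le_iff_coeff_zero]
      intro m hm
      apply h5
      have : (1 : ℕ) < m := by exact_mod_cast hm
      omega
    have h3 := Polynomial.eq_X_add_C_of_degree_le_one h2
    rw [h3] at h1
    refine ⟨(g %ₘ f).coeff 0 - (g %ₘ f).coeff 1 * u, - (g %ₘ f).coeff 1, ?_⟩
    rw [← h1, hx', hx]
    simp only [map_add, map_mul, AdjoinRoot.mk_C, AdjoinRoot.mk_X, map_sub, map_neg,
      AdjoinRoot.algebraMap_eq]
    ring
  have hxx' : x * x' = algebraMap _ _ v := by
    rw [hx']; linear_combination -hxe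
  have hsx' : s x' = x := hσx'
  have hnorm : a ^ 2 - a * b * u + b ^ 2 * v = 1 := by
    apply hinj
    have h1 : s θ = algebraMap _ _ a + algebraMap _ _ b * x := by
      rw [hab, map_add, map_mul, hsx', AlgEquiv.commutes, AlgEquiv.commutes]
    rw [h1, hab] at hθθ
    simp only [map_add, map_mul, map_sub, map_pow, map_one]
    rw [← hθθ]
    have h2 : algebraMap (ZMod p) (AdjoinRoot f) u = - x - x' := by rw [hx']; ring
    rw [← hxx', h2]
    ring
  have hdet : (-a) * a - (-b) * (a * u - b * v) = -1 := by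
    linear_combination -hnorm
  have := hR (-a) (-b) (a * u - b * v) a s (by rw [hdet]; exact neg_ne_zero.2 one_ne_zero) (by
      rw [← hx, hsx]
      simp only [map_add, map_mul, map_sub, map_neg]
      have h2 : algebraMap (ZMod p) (AdjoinRoot f) u = - x - x' := by rw [hx']; ring
      rw [← hxx', h2]
      ring) (by
      intro r
      rw [← hx, hsx, hdet]
      have h3 : algebraMap (ZMod p) (AdjoinRoot f) (-a) + algebraMap _ _ (-b) * x' = -θ := by
        rw [hab, map_neg, map_neg]; ring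
      rw [h3]
      have h1 : l r = l (θ * s r) := by rw [← hθ', hss]
      rw [mul_neg, map_neg, mul_comm, ← h1]; ring)
  obtain ⟨ha1, -, -, ha2⟩ := this
  have h2 : (2 : ZMod p) = 0 := by linear_combination -ha1 - ha2
  have hp : p.Prime := Fact.out
  have h3 : (p : ℕ) ∣ 2 := by
    have : ((2 : ℕ) : ZMod p) = 0 := by exact_mod_cast h2
    exact (ZMod.natCast_eq_zero_iff 2 p).1 this
  exact hp2 ((Nat.prime_dvd_prime_iff_eq hp Nat.prime_two).1 h3)

end Helper620.CM
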