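import Mathlib
import Pool.Agent.Helper620.CamMilGroup

set_option autoImplicit false

namespace Helper620.CM

section Baer
variable {G : Type} [Group G]

/-- commutator -/
def cw (x y : G) : G := x * y * x⁻¹ * y⁻¹

theorem cw_inv (x y : G) : (cw x y)⁻¹ = cw y x := by unfold cw; group

theorem cw_self (x : G) : cw x x = 1 := by unfold cw; group

theorem cw_cl {z : G} (hz : z ∈ Subgroup.center G) (x : G) : cw z x = 1 := by
  unfold cw
  have h := Subgroup.mem_center_iff.1 hz x
  rw [← h]; group

theorem cw_cr {z : G} (hz : z ∈ Subgroup.center G) (x : G) : cw x z = 1 := by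
  unfold cw
  have h := Subgroup.mem_center_iff.1 hz x
  rw [h]; group

theorem mul_eq_cw (x y : G) : x * y = cw x y * (y * x) := by unfold cw; group

theorem cw_mem (hc : ∀ x y : G, x * y * x⁻¹ * y⁻¹ ∈ Subgroup.center G) (x y : G) :
    cw x y ∈ Subgroup.center G := hc x y

theorem cw_mul_left (hc : ∀ x y : G, x * y * x⁻¹ * y⁻¹ ∈ Subgroup.center G) (x y z : G) :
    cw (x * y) z = cw x z * cw y z := by
  unfold cw
  have h := Subgroup.mem_center_iff.1 (hc y z)
  calc x * y * z * (x * y)⁻¹ * z⁻¹ = x * ((y * z * y⁻¹ * z⁻¹) * (z * x⁻¹ * z⁻¹)) := by group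
    _ = x * ((z * x⁻¹ * z⁻¹) * (y * z * y⁻¹ * z⁻¹)) := by rw [h]
    _ = _ := by group

theorem cw_mul_right (hc : ∀ x y : G, x * y * x⁻¹ * y⁻¹ ∈ Subgroup.center G) (x y z : G) :
    cw x (y * z) = cw x y * cw x z := by
  rw [← cw_inv (y * z) x, cw_mul_left hc, mul_inv_rev, cw_inv, cw_inv]
  exact Subgroup.mem_center_iff.1 (cw_mem hc x y) _

/-- the Baer sum -/
def pl (q : ℕ) (x y : G) : G := x * y * (cw y x) ^ q

theorem pl_central_right (q : ℕ) {z : G} (hz : z ∈ Subgroup.center G) (x : G) :
    pl q x z = x * z := by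
  unfold pl; rw [cw_cl hz, one_pow, mul_one]

theorem cw_pow_center (hc : ∀ x y : G, x * y * x⁻¹ * y⁻¹ ∈ Subgroup.center G) (x y : G) (q : ℕ) :
    (cw x y) ^ q ∈ Subgroup.center G := Subgroup.pow_mem _ (cw_mem hc x y) q

theorem cw_pl_left (hc : ∀ x y : G, x * y * x⁻¹ * y⁻¹ ∈ Subgroup.center G) (q : ℕ) (x y z : G) :
    cw (pl q x y) z = cw x z * cw y z := by
  unfold pl
  rw [cw_mul_left hc, cw_cl (cw_pow_center hc y x q), mul_one, cw_mul_left hc]

theorem cw_pl_right (hc : ∀ x y : G, x * y * x⁻¹ * y⁻¹ ∈ Subgroup.center G) (q : ℕ) (x y z : G) :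
    cw x (pl q y z) = cw x y * cw x z := by
  unfold pl
  rw [cw_mul_right hc, cw_cr (cw_pow_center hc z y q), mul_one, cw_mul_right hc]

/-- commuting of a central element -/
theorem cc {z : G} (hz : z ∈ Subgroup.center G) (x : G) : Commute z x :=
  (Subgroup.mem_center_iff.1 hz x).symm

theorem pl_assoc (hc : ∀ x y : G, x * y * x⁻¹ * y⁻¹ ∈ Subgroup.center G) (q : ℕ) (x y z : G) :
    pl q (pl q x y) z = pl q x (pl q y z) := by
  have e1 : pl q (pl q x y) z = x * y * (cw y x) ^ q * z * (cw z x * cw z y) ^ q := by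
    conv_lhs => unfold pl
    have : cw z (x * y * cw y x ^ q) = cw z x * cw z y := cw_pl_right hc q z x y
    rw [this]
  have e2 : pl q x (pl q y z) = x * (y * z * (cw z y) ^ q) * (cw y x * cw z x) ^ q := by
    conv_lhs => unfold pl
    have : cw (y * z * cw z y ^ q) x = cw y x * cw z x := cw_pl_left hc q y z x
    rw [this]
  rw [e1, e2]
  have c1 : Commute (cw z x) (cw z y) := cc (cw_mem hc z x) _
  have c2 : Commute (cw y x) (cw z x) := cc (cw_mem hc y x) _
  rw [c1.mul_pow, c2.mul_pow]
  have h1 := cc (cw_pow_center hc y x q)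
  have h2 := cc (cw_pow_center hc z x q)
  have h3 := cc (cw_pow_center hc z y q)
  generalize (cw y x) ^ q = a at *
  generalize (cw z x) ^ q = b at *
  generalize (cw z y) ^ q = c at *
  calc x * y * a * z * (b * c) = x * y * (a * z) * (b * c) := by group
    _ = x * y * (z * a) * (b * c) := by rw [(h1 z).eq]
    _ = x * y * z * (a * b * c) := by group
    _ = x * y * z * (c * (a * b)) := by rw [(h3 (a * b)).eq]
    _ = _ := by group

theorem pl_comm (hc : ∀ x y : G, x * y * x⁻¹ * y⁻¹ ∈ Subgroup.center G) (p q : ℕ)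
    (hq : 2 * q = p + 1) (hp : ∀ x y : G, (cw x y) ^ p = 1) (x y : G) : pl q x y = pl q y x := by
  unfold pl
  rw [mul_eq_cw x y, ← cw_inv x y]
  have h1 := cc (cw_mem hc x y)
  have e : cw x y * (y * x) * (cw x y)⁻¹ ^ q = (y * x) * (cw x y * ((cw x y)⁻¹) ^ q) := by
    rw [(h1 (y * x)).eq, mul_assoc]
  rw [e]
  congr 1
  have h2 : (cw x y) ^ (2 * q) = cw x y := by rw [hq, pow_succ, hp, one_mul]
  rw [inv_pow, mul_inv_eq_iff_eq_mul, ← pow_add, ← two_mul, h2]

/-- the additive group -/
@[reducible] noncomputable def addG (hc : ∀ x y : G, x * y * x⁻¹ * y⁻¹ ∈ Subgroup.center G)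
    (p q : ℕ) (hq : 2 * q = p + 1) (hp : ∀ x y : G, (cw x y) ^ p = 1) : AddCommGroup G :=
  letI : Add G := ⟨pl q⟩
  letI : Zero G := ⟨1⟩
  letI : Neg G := ⟨fun x => x⁻¹⟩
  { AddGroup.ofLeftAxioms (G := G) (fun x y z => pl_assoc hc q x y z)
      (by
        intro x
        change pl q 1 x = x
        unfold pl; rw [one_mul, cw_cr (Subgroup.one_mem _), one_pow, mul_one])
      (by
        intro x
        change pl q x⁻¹ x = 1
        unfold pl
        have : cw x x⁻¹ = 1 := by unfold cw; group
        rw [this, one_pow, mul_one, inv_mul_cancel]) with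
    add_comm := fun x y => pl_comm hc p q hq hp x y }

end Baer

/-- BAER: a group of class 2 (p odd) is one of the groups `Gp D` with `D.b` alternating. -/
theorem baer (p : ℕ) [Fact p.Prime] (hp2 : p ≠ 2) (G : Type) [Group G] [Finite G]
    (hcomm : ∀ x y : G, x * y * x⁻¹ * y⁻¹ ∈ Subgroup.center G)
    (hpow : ∀ x : G, x ^ p ∈ Subgroup.center G)
    (hZp : ∀ z ∈ Subgroup.center G, z ^ p = 1) :
    ∃ (V Z E : Type) (_ : AddCommGroup V) (_ : AddCommGroup Z) (_ : AddCommGroup E)
      (D : Dat V Z E) (π : V →+ Z) (φ : G ≃* Gp D),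
      Finite V ∧ Finite Z ∧ (∀ v : V, p • v = 0) ∧ (∀ z : Z, p • z = 0) ∧
      (∀ e, p • e = D.j (π (D.r e))) ∧ (∀ u v, D.b u v = - D.b v u) ∧
      (∀ x : G, x ∈ Subgroup.center G ↔ D.r (φ x).val = 0) ∧
      Nat.card Z = Nat.card (Subgroup.center G) := by
  classical
  obtain ⟨Z, _instZ, ez, hez⟩ : ∃ (Z : Type) (_ : AddCommGroup Z) (ez : Z ≃ Subgroup.center G),
      ∀ a b : Z, ez (a + b) = ez a * ez b :=
    ⟨Additive (Subgroup.center G), @Additive.addCommGroup _
      { (inferInstance : Group (Subgroup.center G)) with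
        mul_comm := fun a b => Subtype.ext (Subgroup.mem_center_iff.1 b.2 a) },
      Additive.toMul, fun _ _ => rfl⟩
  have hpp : p.Prime := Fact.out
  obtain ⟨q, hq⟩ : ∃ q, 2 * q = p + 1 := by
    have := hpp.odd_of_ne_two hp2
    obtain ⟨k, hk⟩ := this
    exact ⟨k + 1, by omega⟩
  have hwp : ∀ x y : G, (cw x y) ^ p = 1 := fun x y => hZp _ (cw_mem hcomm x y)
  letI instE : AddCommGroup G := addG hcomm p q hq hwp
  have hadd : ∀ x y : G, x + y = pl q x y := fun _ _ => rfl
  have hzero : (0 : G) = 1 := rfl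
  have hneg : ∀ x : G, -x = x⁻¹ := fun _ => rfl
  have haddc : ∀ (x : G) {z : G}, z ∈ Subgroup.center G → x + z = x * z := fun x z hz =>
    pl_central_right q hz x
  have hns : ∀ (k : ℕ) (x : G), k • x = x ^ k := by
    intro k x
    induction k with
    | zero => rw [zero_smul, pow_zero]; rfl
    | succ k ih =>
      rw [succ_nsmul, ih, hadd, pow_succ]
      unfold pl
      have : cw x (x ^ k) = 1 := by
        unfold cw
        rw [← pow_succ', pow_succ]
        group
      rw [this, one_pow, mul_one]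
  let N : AddSubgroup G :=
    { carrier := (Subgroup.center G : Set G)
      add_mem' := by
        intro a b ha hb
        have : a + b = a * b := haddc a hb
        rw [this]
        exact Subgroup.mul_mem _ ha hb
      zero_mem' := Subgroup.one_mem _
      neg_mem' := by
        intro a ha
        exact Subgroup.inv_mem _ ha }
  have hN : ∀ x : G, x ∈ N ↔ x ∈ Subgroup.center G := fun _ => Iff.rfl
  have hez0 : ez 0 = 1 := by
    have h := hez 0 0
    rw [add_zero] at h
    exact (mul_eq_left.1 h.symm)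
  let jj : Z →+ G :=
    { toFun := fun z => ((ez z : Subgroup.center G) : G)
      map_zero' := by rw [hez0]; rfl
      map_add' := by
        intro a b
        have : ((ez a : Subgroup.center G) : G) + ((ez b : Subgroup.center G) : G) =
            ((ez a : Subgroup.center G) : G) * ((ez b : Subgroup.center G) : G) :=
          haddc _ (ez b).2
        rw [this, hez]
        rfl }
  have hjj : ∀ z, jj z = ((ez z : Subgroup.center G) : G) := fun _ => rfl
  -- the bilinear map on G
  let B0 : G → G → Z := fun x y =>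
    ez.symm ((⟨cw x y, cw_mem hcomm x y⟩ : Subgroup.center G) ^ q)
  have hB0val : ∀ x y, jj (B0 x y) = (cw x y) ^ q := by
    intro x y
    rw [hjj, Equiv.apply_symm_apply]; rfl
  have hjinj : Function.Injective jj := by
    intro a b hab
    apply ez.injective
    exact Subtype.ext hab
  have hjadd : ∀ a b : Z, jj (a + b) = jj a * jj b := by
    intro a b
    rw [hjj, hez]; rfl
  have hB0l : ∀ x x' y, B0 (x + x') y = B0 x y + B0 x' y := by
    intro x x' y
    apply hjinj
    rw [hjadd, hB0val, hB0val, hB0val, hadd, cw_pl_left hcomm]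
    exact (cc (cw_mem hcomm x y) _).mul_pow q
  have hB0r : ∀ x y y', B0 x (y + y') = B0 x y + B0 x y' := by
    intro x y y'
    apply hjinj
    rw [hjadd, hB0val, hB0val, hB0val, hadd, cw_pl_right hcomm]
    exact (cc (cw_mem hcomm x y) _).mul_pow q
  have hB0cl : ∀ z ∈ Subgroup.center G, ∀ y, B0 z y = 0 := by
    intro z hz y
    apply hjinj
    rw [hB0val, cw_cl hz, one_pow, map_zero]; rfl
  have hB0cr : ∀ z ∈ Subgroup.center G, ∀ y, B0 y z = 0 := by
    intro z hz y
    apply hjinj
    rw [hB0val, cw_cr hz, one_pow, map_zero]; rfl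
  let B1 : G → (G ⧸ N →+ Z) := fun x =>
    QuotientAddGroup.lift N (AddMonoidHom.mk' (B0 x) (hB0r x)) (by
      intro z hz
      exact hB0cr z hz x)
  have hB1 : ∀ x y, B1 x (QuotientAddGroup.mk y) = B0 x y := fun x y => rfl
  let B2 : G →+ (G ⧸ N →+ Z) := AddMonoidHom.mk' B1 (by
    intro x x'
    ext y
    exact hB0l x x' y)
  let bb : G ⧸ N →+ G ⧸ N →+ Z :=
    QuotientAddGroup.lift N B2 (by
      intro z hz
      change B2 z = 0
      ext y
      exact hB0cl z hz y)
  have hbb : ∀ x y : G, bb (QuotientAddGroup.mk x) (QuotientAddGroup.mk y) = B0 x y :=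
    fun _ _ => rfl
  let D : Dat (G ⧸ N) Z G :=
    { r := QuotientAddGroup.mk' N
      j := jj
      b := bb
      rj := by
        intro z
        exact (QuotientAddGroup.eq_zero_iff _).2 (ez z).2
      ex := by
        intro e he
        have : e ∈ N := (QuotientAddGroup.eq_zero_iff _).1 he
        exact ⟨ez.symm ⟨e, this⟩, by rw [hjj, Equiv.apply_symm_apply]⟩
      rs := QuotientAddGroup.mk'_surjective N
      ji := hjinj }
  have hpN : ∀ x : G, p • x ∈ Subgroup.center G := by
    intro x; rw [hns]; exact hpow x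
  have hjs : ∀ c : Subgroup.center G, jj (ez.symm c) = (c : G) := by
    intro c
    rw [hjj, Equiv.apply_symm_apply]
  let P0 : G →+ Z := AddMonoidHom.mk'
    (fun x => ez.symm (⟨p • x, hpN x⟩ : Subgroup.center G)) (by
      intro x y
      apply hjinj
      rw [hjadd, hjs, hjs, hjs]
      change p • (x + y) = (p • x) * (p • y)
      rw [smul_add]
      exact haddc _ (hpN y))
  let π : G ⧸ N →+ Z := QuotientAddGroup.lift N P0 (by
    intro z hz
    change P0 z = 0
    apply hjinj
    change jj (ez.symm (⟨p • z, hpN z⟩ : Subgroup.center G)) = jj 0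
    rw [hjs, map_zero]
    change p • z = 0
    rw [hns, hZp z hz]; rfl)
  have hmul : ∀ x y : G, x * y = x + y + jj (bb (QuotientAddGroup.mk x) (QuotientAddGroup.mk y)) := by
    intro x y
    rw [hbb, hB0val, haddc _ (cw_pow_center hcomm x y q), hadd]
    unfold pl
    rw [← cw_inv x y, inv_pow]
    group
  let φ : G ≃* Gp D :=
    { toFun := fun x => ⟨x⟩
      invFun := fun a => a.val
      left_inv := fun _ => rfl
      right_inv := fun _ => rfl
      map_mul' := by
        intro x y
        apply Gp.ext'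
        rw [Gp.mul_val]
        exact hmul x y }
  refine ⟨G ⧸ N, Z, G, inferInstance, inferInstance, instE, D, π, φ,
    ?_, ?_, ?_, ?_, ?_, ?_, ?_, ?_⟩
  · exact Quotient.finite _
  · exact Finite.of_equiv _ ez.symm
  · intro v
    obtain ⟨x, rfl⟩ := QuotientAddGroup.mk'_surjective N v
    rw [← map_nsmul]
    exact (QuotientAddGroup.eq_zero_iff _).2 (hpN x)
  · intro z
    apply hjinj
    rw [map_nsmul, hns, map_zero]
    exact hZp _ (ez z).2
  · intro e
    exact (hjs ⟨p • e, hpN e⟩).symm
  · intro u v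
    obtain ⟨x, rfl⟩ := QuotientAddGroup.mk'_surjective N u
    obtain ⟨y, rfl⟩ := QuotientAddGroup.mk'_surjective N v
    change B0 x y = - B0 y x
    rw [eq_neg_iff_add_eq_zero]
    apply hjinj
    rw [hjadd, hB0val, hB0val, ← cw_inv x y, inv_pow, mul_inv_cancel, map_zero]; rfl
  · intro x
    change x ∈ Subgroup.center G ↔ (QuotientAddGroup.mk' N) x = 0
    exact (QuotientAddGroup.eq_zero_iff (N := N) x).symm
  · exact Nat.card_congr ez

end Helper620.CM
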