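import Mathlib

namespace Helper620.CM

/-- CLASS 2 FACTS for a finite p-group that is Camina and Miller. -/
theorem cm_facts (p : ℕ) [Fact p.Prime] (G : Type) [Group G] [Finite G] (hG : IsPGroup p G)
    (hcam : ∀ x : G, x ∉ commutator G → ∀ y : G, IsConj x y ↔ x⁻¹ * y ∈ commutator G)
    (hna : ∃ a b : G, a * b ≠ b * a)
    (hmil : ∀ f g : MulAut G, f * g = g * f) :
    (∀ x y : G, x * y * x⁻¹ * y⁻¹ ∈ Subgroup.center G) ∧
    (∀ x : G, x ^ p ∈ Subgroup.center G) ∧
    (∀ z ∈ Subgroup.center G, z ^ p = 1) ∧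
    (commutator G = Subgroup.center G) ∧
    (∀ x : G, x ∉ Subgroup.center G → ∀ z ∈ Subgroup.center G, ∃ y : G, y * x * y⁻¹ = x * z) ∧
    (∀ φ : MulAut G, ∀ z ∈ Subgroup.center G, φ z = z) := by
  have hcen : ∀ c : G, MulAut.conj c = 1 → c ∈ Subgroup.center G := by
    intro c hc
    rw [Subgroup.mem_center_iff]
    intro g
    have := congrArg (fun f : MulAut G => f g) hc
    simp only [MulAut.conj_apply, MulAut.one_apply] at this
    calc g * c = (c * g * c⁻¹) * c := by rw [this]
      _ = c * g := by group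
  have h1 : ∀ x y : G, x * y * x⁻¹ * y⁻¹ ∈ Subgroup.center G := by
    intro x y
    apply hcen
    have e := hmil (MulAut.conj x) (MulAut.conj y)
    rw [map_mul, map_mul, map_mul, e, map_inv, map_inv]
    group
  obtain ⟨a, b, hab⟩ := hna
  have hle : commutator G ≤ Subgroup.center G := by
    rw [commutator_def, Subgroup.commutator_le]
    intro g₁ _ g₂ _
    rw [commutatorElement_def]
    exact h1 g₁ g₂
  have hw : a * b * a⁻¹ * b⁻¹ ≠ 1 := by
    intro h
    apply hab
    calc a * b = (a * b * a⁻¹ * b⁻¹) * (b * a) := by group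
      _ = b * a := by rw [h, one_mul]
  have hwc : a * b * a⁻¹ * b⁻¹ ∈ commutator G := by
    rw [← commutatorElement_def, commutator_def]
    exact Subgroup.commutator_mem_commutator (Subgroup.mem_top a) (Subgroup.mem_top b)
  have h4 : commutator G = Subgroup.center G := by
    refine le_antisymm hle ?_
    intro z hz
    by_contra hzc
    have h := (hcam z hzc (z * (a * b * a⁻¹ * b⁻¹))).2 (by simpa using hwc)
    rw [isConj_iff] at h
    obtain ⟨c, hc⟩ := h
    have e : c * z * c⁻¹ = z := by
      rw [Subgroup.mem_center_iff.1 hz c]; group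
    rw [e] at hc
    apply hw
    exact (mul_eq_left.1 hc.symm)
  have h5 : ∀ x : G, x ∉ Subgroup.center G → ∀ z ∈ Subgroup.center G,
      ∃ y : G, y * x * y⁻¹ = x * z := by
    intro x hx z hz
    rw [← h4] at hx hz
    have h := (hcam x hx (x * z)).2 (by simpa using hz)
    rw [isConj_iff] at h
    exact h
  have hcomm : ∀ c ∈ Subgroup.center G, ∀ g : G, Commute g c := by
    intro c hc g
    exact Subgroup.mem_center_iff.1 hc g
  have h2 : ∀ x : G, x ^ p ∈ Subgroup.center G := by
    intro x
    by_contra hx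
    have hnot : ¬ Function.Surjective (fun z : Subgroup.center G => z ^ p) := by
      intro hs
      have hi := Finite.injective_iff_surjective.2 hs
      obtain ⟨k, hk⟩ := hG (a * b * a⁻¹ * b⁻¹)
      have hk' : ∀ (k : ℕ) (w : Subgroup.center G), w ^ p ^ k = 1 → w = 1 := by
        intro k
        induction k with
        | zero => intro w hw; simpa using hw
        | succ k ih =>
          intro w hw
          apply ih
          apply hi
          simp only
          rw [one_pow, ← pow_mul, ← pow_succ]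
          exact hw
      have := hk' k ⟨a * b * a⁻¹ * b⁻¹, h1 a b⟩ (by
        apply Subtype.ext
        simpa using hk)
      exact hw (congrArg Subtype.val this)
    simp only [Function.Surjective, not_forall, not_exists] at hnot
    obtain ⟨z, hz⟩ := hnot
    obtain ⟨y, hy⟩ := h5 (x ^ p) hx z z.2
    have hwc' : x⁻¹ * y * x⁻¹⁻¹ * y⁻¹ ∈ Subgroup.center G := h1 x⁻¹ y
    rw [inv_inv] at hwc'
    have e : y * x * y⁻¹ = x * (x⁻¹ * y * x * y⁻¹) := by group
    have e2 : y * x ^ p * y⁻¹ = x ^ p * (x⁻¹ * y * x * y⁻¹) ^ p := by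
      rw [← conj_pow, e, (hcomm _ hwc' x).mul_pow]
    rw [e2] at hy
    have := mul_left_cancel hy
    exact hz ⟨_, hwc'⟩ (Subtype.ext (by simpa using this))
  have hac : a ∉ Subgroup.center G := by
    intro h
    exact hab (Subgroup.mem_center_iff.1 h b).symm
  refine ⟨h1, h2, ?_, h4, h5, ?_⟩
  · intro z hz
    obtain ⟨y, hy⟩ := h5 a hac z hz
    have e2 : y * a ^ p * y⁻¹ = a ^ p * z ^ p := by
      rw [← conj_pow, hy, (hcomm _ hz a).mul_pow]
    have e3 : y * a ^ p * y⁻¹ = a ^ p := by
      rw [Subgroup.mem_center_iff.1 (h2 a) y]; group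
    rw [e3] at e2
    exact mul_eq_left.1 e2.symm
  · intro φ z hz
    have hconj : ∀ g : G, MulAut.conj (φ g) = MulAut.conj g := by
      intro g
      have e := hmil φ (MulAut.conj g)
      have e' : φ * MulAut.conj g = MulAut.conj (φ g) * φ := by
        ext t
        simp
      rw [e'] at e
      exact mul_right_cancel e
    obtain ⟨y, hy⟩ := h5 a hac z hz
    have hc : a⁻¹ * φ a ∈ Subgroup.center G := by
      apply hcen
      rw [map_mul, map_inv, hconj]
      group
    have e1 : φ y * φ a * (φ y)⁻¹ = φ a * φ z := by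
      rw [← map_inv, ← map_mul, ← map_mul, hy, map_mul]
    have e2 : φ y * φ a * (φ y)⁻¹ = y * φ a * y⁻¹ := by
      have := congrArg (fun f : MulAut G => f (φ a)) (hconj y)
      simpa using this
    have e3 : y * φ a * y⁻¹ = φ a * z := by
      have h6 : y * φ a * y⁻¹ = (y * a * y⁻¹) * (y * (a⁻¹ * φ a) * y⁻¹) := by group
      have h7 : y * (a⁻¹ * φ a) * y⁻¹ = a⁻¹ * φ a := by
        rw [Subgroup.mem_center_iff.1 hc y]; group
      have h8 : z * (a⁻¹ * φ a) = (a⁻¹ * φ a) * z := Subgroup.mem_center_iff.1 hc z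
      rw [h6, h7, hy, mul_assoc, h8]
      group
    rw [e2, e3] at e1
    exact (mul_left_cancel e1).symm

end Helper620.CM
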