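import Mathlib
import Pool.Agent.Helper620.CamMilGroup

set_option autoImplicit false

namespace Helper620.CM

theorem lift_iso_psi {V1 Z1 E1 V2 Z2 E2 : Type} [AddCommGroup V1] [AddCommGroup Z1] [AddCommGroup E1]
    [AddCommGroup V2] [AddCommGroup Z2] [AddCommGroup E2] (D1 : Dat V1 Z1 E1) (D2 : Dat V2 Z2 E2)
    (p : ℕ) [Fact p.Prime] [Finite V1] (hV1 : ∀ v : V1, p • v = 0)
    (π1 : V1 →+ Z1) (π2 : V2 →+ Z2)
    (h1 : ∀ e, p • e = D1.j (π1 (D1.r e))) (h2 : ∀ e, p • e = D2.j (π2 (D2.r e)))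
    (g : V1 ≃+ V2) (h : Z1 ≃+ Z2)
    (hπ : ∀ v, π2 (g v) = h (π1 v)) :
    ∃ ψ : E1 →+ E2, (∀ e, D2.r (ψ e) = g (D1.r e)) ∧ ∀ z, ψ (D1.j z) = D2.j (h z) := by
  obtain ⟨inst⟩ : Nonempty (Module (ZMod p) V1) := ⟨AddCommGroup.zmodModule hV1⟩
  have hfin : Module.Finite (ZMod p) V1 := Module.Finite.of_finite
  let bs : Module.Basis (Fin (Module.finrank (ZMod p) V1)) (ZMod p) V1 :=
    Module.finBasis (ZMod p) V1
  choose e he using fun i => D1.rs (bs i)
  choose e' he' using fun i => D2.rs (g (bs i))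
  let Φ1 : ((Fin (Module.finrank (ZMod p) V1) → ℤ) × Z1) →+ E1 :=
    { toFun := fun x => ∑ i, x.1 i • e i + D1.j x.2
      map_zero' := by simp
      map_add' := fun x y => by
        simp only [Prod.fst_add, Prod.snd_add, Pi.add_apply, add_smul, Finset.sum_add_distrib,
          map_add]
        abel }
  let Φ2 : ((Fin (Module.finrank (ZMod p) V1) → ℤ) × Z1) →+ E2 :=
    { toFun := fun x => ∑ i, x.1 i • e' i + D2.j (h x.2)
      map_zero' := by simp
      map_add' := fun x y => by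
        simp only [Prod.fst_add, Prod.snd_add, Pi.add_apply, add_smul, Finset.sum_add_distrib,
          map_add]
        abel }
  have hΦ1 : ∀ x, Φ1 x = ∑ i, x.1 i • e i + D1.j x.2 := fun x => rfl
  have hΦ2 : ∀ x, Φ2 x = ∑ i, x.1 i • e' i + D2.j (h x.2) := fun x => rfl
  have hr1 : ∀ x, D1.r (Φ1 x) = ∑ i, x.1 i • bs i := by
    intro x
    rw [hΦ1, map_add, D1.rj, add_zero, map_sum]
    refine Finset.sum_congr rfl (fun i _ => ?_)
    rw [map_zsmul, he]
  have hr2 : ∀ x, D2.r (Φ2 x) = g (∑ i, x.1 i • bs i) := by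
    intro x
    rw [hΦ2, map_add, D2.rj, add_zero, map_sum, map_sum]
    refine Finset.sum_congr rfl (fun i _ => ?_)
    rw [map_zsmul, he', map_zsmul]
  have hs : Function.Surjective Φ1 := by
    intro a
    have h3 : D1.r (a - Φ1 (fun i => ((bs.repr (D1.r a) i).val : ℤ), 0)) = 0 := by
      rw [map_sub, hr1, sub_eq_zero]
      conv_lhs => rw [← bs.sum_repr (D1.r a)]
      refine Finset.sum_congr rfl (fun i _ => ?_)
      show bs.repr (D1.r a) i • bs i = (((bs.repr (D1.r a) i).val : ℕ) : ℤ) • bs i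
      rw [natCast_zsmul, ← Nat.cast_smul_eq_nsmul (ZMod p), ZMod.natCast_zmod_val]
    obtain ⟨z, hz⟩ := D1.ex _ h3
    refine ⟨(fun i => ((bs.repr (D1.r a) i).val : ℤ), z), ?_⟩
    have h4 : Φ1 (fun i => ((bs.repr (D1.r a) i).val : ℤ), z) =
        Φ1 (fun i => ((bs.repr (D1.r a) i).val : ℤ), 0) + D1.j z := by
      rw [hΦ1, hΦ1]
      simp
    rw [h4, hz]
    abel
  have hker : Φ1.ker ≤ Φ2.ker := by
    intro x hx
    rw [AddMonoidHom.mem_ker] at hx ⊢
    have h3 : ∑ i, x.1 i • bs i = 0 := by rw [← hr1, hx, map_zero]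
    have h4 : ∑ i, ((x.1 i : ℤ) : ZMod p) • bs i = 0 := by
      rw [← h3]
      refine Finset.sum_congr rfl (fun i _ => ?_)
      rw [Int.cast_smul_eq_zsmul]
    have h5 := Fintype.linearIndependent_iff.1 bs.linearIndependent _ h4
    have h6 : ∀ i, ∃ m : ℤ, x.1 i = p * m := fun i =>
      (ZMod.intCast_zmod_eq_zero_iff_dvd (x.1 i) p).1 (h5 i)
    choose m hm using h6
    have h7 : ∑ i, x.1 i • e i = D1.j (∑ i, m i • π1 (bs i)) := by
      rw [map_sum]
      refine Finset.sum_congr rfl (fun i _ => ?_)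
      rw [hm i, mul_comm, mul_zsmul, natCast_zsmul, h1, he, map_zsmul]
    have h8 : ∑ i, x.1 i • e' i = D2.j (h (∑ i, m i • π1 (bs i))) := by
      rw [map_sum, map_sum]
      refine Finset.sum_congr rfl (fun i _ => ?_)
      rw [hm i, mul_comm, mul_zsmul, natCast_zsmul, h2, he', map_zsmul, map_zsmul, hπ]
    rw [hΦ1, h7, ← map_add] at hx
    have h9 : ∑ i, m i • π1 (bs i) + x.2 = 0 := by
      apply D1.ji
      rw [hx, map_zero]
    rw [hΦ2, h8, ← map_add, ← map_add, h9, map_zero, map_zero]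
  let ψ : E1 →+ E2 := Φ1.liftOfSurjective hs ⟨Φ2, hker⟩
  have hψ : ∀ x, ψ (Φ1 x) = Φ2 x := fun x =>
    Φ1.liftOfRightInverse_comp_apply _ _ ⟨Φ2, hker⟩ x
  refine ⟨ψ, ?_, ?_⟩
  · intro a
    obtain ⟨x, rfl⟩ := hs a
    rw [hψ, hr2, hr1]
  · intro z
    have h3 : Φ1 (0, z) = D1.j z := by
      rw [hΦ1]
      simp
    have h4 : Φ2 (0, z) = D2.j (h z) := by
      rw [hΦ2]
      simp
    rw [← h3, hψ, h4]

/-- LIFTING LEMMA -/
theorem lift_iso {V1 Z1 E1 V2 Z2 E2 : Type} [AddCommGroup V1] [AddCommGroup Z1] [AddCommGroup E1]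
    [AddCommGroup V2] [AddCommGroup Z2] [AddCommGroup E2] (D1 : Dat V1 Z1 E1) (D2 : Dat V2 Z2 E2)
    (p : ℕ) [Fact p.Prime] [Finite V1] (hV1 : ∀ v : V1, p • v = 0)
    (π1 : V1 →+ Z1) (π2 : V2 →+ Z2)
    (h1 : ∀ e, p • e = D1.j (π1 (D1.r e))) (h2 : ∀ e, p • e = D2.j (π2 (D2.r e)))
    (g : V1 ≃+ V2) (h : Z1 ≃+ Z2) (hb : ∀ u v, D2.b (g u) (g v) = h (D1.b u v))
    (hπ : ∀ v, π2 (g v) = h (π1 v)) :
    ∃ φ : Gp D1 ≃* Gp D2, (∀ e, D2.r (φ e).val = g (D1.r e.val)) ∧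
      ∀ z, φ (Gp.c D1 z) = Gp.c D2 (h z) := by
  obtain ⟨ψ, hr, hj⟩ := lift_iso_psi D1 D2 p hV1 π1 π2 h1 h2 g h hπ
  have hbij : Function.Bijective ψ := by
    constructor
    · rw [injective_iff_map_eq_zero]
      intro e he
      have h3 : g (D1.r e) = 0 := by rw [← hr, he, map_zero]
      have h4 : D1.r e = 0 := by
        apply g.injective
        rw [h3, map_zero]
      obtain ⟨z, rfl⟩ := D1.ex e h4
      rw [hj] at he
      have h5 : h z = 0 := by
        apply D2.ji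
        rw [he, map_zero]
      have h6 : z = 0 := by
        apply h.injective
        rw [h5, map_zero]
      rw [h6, map_zero]
    · intro e'
      obtain ⟨e, he⟩ := D1.rs (g.symm (D2.r e'))
      obtain ⟨z', hz'⟩ := D2.ex (e' - ψ e) (by
        rw [map_sub, hr, he, AddEquiv.apply_symm_apply, sub_self])
      refine ⟨e + D1.j (h.symm z'), ?_⟩
      rw [map_add, hj, AddEquiv.apply_symm_apply, hz']
      abel
  let φ0 : Gp D1 →* Gp D2 := MonoidHom.mk' (fun a => ⟨ψ a.val⟩) (by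
    intro a b
    apply Gp.ext'
    show ψ (a * b).val = ψ a.val + ψ b.val + D2.j (D2.b (D2.r (ψ a.val)) (D2.r (ψ b.val)))
    rw [Gp.mul_val, map_add, map_add, hj, hr, hr, hb])
  have hφ0 : Function.Bijective φ0 := by
    constructor
    · intro a b hab
      apply Gp.ext'
      apply hbij.1
      exact congrArg Gp.val hab
    · intro b
      obtain ⟨e, he⟩ := hbij.2 b.val
      refine ⟨⟨e⟩, ?_⟩
      apply Gp.ext'
      exact he
  refine ⟨MulEquiv.ofBijective φ0 hφ0, fun e => hr e.val, fun z => ?_⟩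
  apply Gp.ext'
  exact hj z


end Helper620.CM
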