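import Mathlib
import Pool.Agent.Helper620.CamMilGroup
import Pool.Agent.Helper620.CamMilModel

namespace Helper620.CM
open Polynomial

section
variable {p : ℕ} [Fact p.Prime] {f : (ZMod p)[X]}

theorem nontriv_of_rigid (l : AdjoinRoot f →ₗ[ZMod p] ZMod p) (hr : Rigid f l) :
    Nontrivial (AdjoinRoot f) := by
  by_contra hn
  rw [not_nontrivial_iff_subsingleton] at hn
  have h1 := hr 1 1 0 1 AlgEquiv.refl (by simp) (Subsingleton.elim _ _) (fun r => by
    rw [Subsingleton.elim r 0]; simp)
  exact one_ne_zero h1.2.1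

theorem frob (hf : f.Monic) (l : AdjoinRoot f →ₗ[ZMod p] ZMod p) (hl : Nondeg f l)
    (φ : AdjoinRoot f →ₗ[ZMod p] ZMod p) : ∃ θ, ∀ r, l (r * θ) = φ r := by
  have : Module.Finite (ZMod p) (AdjoinRoot f) := hf.finite_adjoinRoot
  let L : AdjoinRoot f →ₗ[ZMod p] Module.Dual (ZMod p) (AdjoinRoot f) :=
    (LinearMap.mul (ZMod p) (AdjoinRoot f)).flip.compr₂ l
  have hL : ∀ θ r, L θ r = l (r * θ) := fun θ r => rfl
  have hinj : Function.Injective L := by
    rw [injective_iff_map_eq_zero]
    intro θ hθ
    apply hl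
    intro s
    have := LinearMap.congr_fun hθ s
    rw [hL] at this
    rw [mul_comm]; exact this
  have hsurj : Function.Surjective L :=
    (LinearMap.injective_iff_surjective_of_finrank_eq_finrank Subspace.dual_finrank_eq.symm).mp hinj
  obtain ⟨θ, hθ⟩ := hsurj φ
  exact ⟨θ, fun r => by rw [← hL, hθ]⟩

theorem H1M (hp2 : p ≠ 2) (hroot : ∀ c : ZMod p, ¬ f.IsRoot c)
    (l : AdjoinRoot f →ₗ[ZMod p] ZMod p) (hl : Nondeg f l)
    (v : AdjoinRoot f × AdjoinRoot f) (hv : v ≠ 0) (z : ZMod p × ZMod p) :
    ∃ u, bM f l u v = z := by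
  let L : AdjoinRoot f × AdjoinRoot f →ₗ[ZMod p] ZMod p × ZMod p :=
    AddMonoidHom.toZModLinearMap p ((bM f l).flip v)
  have hLu : ∀ u, L u = (l (dR u v), l (AdjoinRoot.root f * dR u v)) := fun u => rfl
  have hL : LinearMap.range L = ⊤ := by
    by_contra hne
    obtain ⟨φ, hf0, hf⟩ := Submodule.exists_le_ker_of_lt_top _ (lt_top_iff_ne_top.mpr hne)
    have hfz : ∀ x y : ZMod p, φ (x, y) = x * φ (1, 0) + y * φ (0, 1) := by
      intro x y
      have h1 : ((x, y) : ZMod p × ZMod p) = x • (1, 0) + y • (0, 1) := by simp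
      rw [h1, map_add, map_smul, map_smul]; simp
    have hall : ∀ u, l ((algebraMap (ZMod p) _ (φ (1, 0)) + algebraMap (ZMod p) _ (φ (0, 1)) * AdjoinRoot.root f) * dR u v) = 0 := by
      intro u
      have h1 : L u ∈ LinearMap.ker φ := hf ⟨u, rfl⟩
      rw [LinearMap.mem_ker, hLu, hfz] at h1
      rw [l_lin]
      linear_combination h1
    have hu : IsUnit (algebraMap (ZMod p) (AdjoinRoot f) (φ (1, 0)) + algebraMap (ZMod p) _ (φ (0, 1)) * AdjoinRoot.root f) := by
      apply unit_lin hroot
      rintro ⟨q1, q2⟩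
      apply hf0
      ext
      · simpa using q1
      · simpa using q2
    have hd : ∀ u, dR u v = 0 := by
      intro u
      have h1 : (algebraMap (ZMod p) (AdjoinRoot f) (φ (1, 0)) + algebraMap (ZMod p) _ (φ (0, 1)) * AdjoinRoot.root f) * dR u v = 0 := by
        apply hl
        intro s
        have h0 := hall (s • u)
        rw [dR_smul] at h0
        have e : ∀ y D : AdjoinRoot f, y * D * s = y * (s * D) := fun y D => by ring
        rw [e]
        exact h0
      exact (hu.mul_right_eq_zero).mp h1
    apply hv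
    have h1 := hd (1, 0)
    have h2 := hd (0, 1)
    simp only [dR, one_mul, zero_mul, sub_zero, zero_sub, neg_eq_zero] at h1 h2
    exact Prod.ext h2 h1
  have hz : z ∈ LinearMap.range L := by rw [hL]; trivial
  obtain ⟨u, hu⟩ := hz
  exact ⟨u, hu⟩

theorem rigidM (hf : f.Monic) (hroot : ∀ c : ZMod p, ¬ f.IsRoot c)
    (l : AdjoinRoot f →ₗ[ZMod p] ZMod p) (hl : Nondeg f l) (hrig : Rigid f l)
    (g : AdjoinRoot f × AdjoinRoot f →+ AdjoinRoot f × AdjoinRoot f)
    (h : ZMod p × ZMod p →+ ZMod p × ZMod p)
    (hg : Function.Surjective g) (hh : Function.Injective h)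
    (hb : ∀ u v, bM f l (g u) (g v) = h (bM f l u v))
    (hP : ∀ v, PM f l (g v) = h (PM f l v)) :
    (∀ v, g v = v) ∧ (∀ z, h z = z) := by
  have hnt := nontriv_of_rigid l hrig
  have : Module.Finite (ZMod p) (AdjoinRoot f) := hf.finite_adjoinRoot
  have : Finite (AdjoinRoot f) := Module.finite_of_finite (ZMod p)
  set x := AdjoinRoot.root f with hx
  set a := (h (1, 0)).1 with ha
  set c := (h (1, 0)).2 with hc
  set b := (h (0, 1)).1 with hb'
  set d := (h (0, 1)).2 with hd
  have hform : ∀ x y : ZMod p, h (x, y) = (a * x + b * y, c * x + d * y) := h_form h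
  set A : AdjoinRoot f := algebraMap (ZMod p) _ a + algebraMap (ZMod p) _ b * x with hA
  set C' : AdjoinRoot f := algebraMap (ZMod p) _ c + algebraMap (ZMod p) _ d * x with hC
  have e1 : ∀ u v, l (dR (g u) (g v)) = l (A * dR u v) := by
    intro u v
    have := congrArg Prod.fst (hb u v)
    rw [bM_apply, bM_apply, hform] at this
    rw [hA, l_lin]; exact this
  have e2 : ∀ u v, l (x * dR (g u) (g v)) = l (C' * dR u v) := by
    intro u v
    have := congrArg Prod.snd (hb u v)
    rw [bM_apply, bM_apply, hform] at this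
    rw [hC, l_lin]; exact this
  have hdet : a * d - b * c ≠ 0 := by
    intro h0
    have k1 : h (d, -c) = h (0, 0) := by
      rw [hform, hform]
      ext
      · simp; linear_combination h0
      · simp; ring
    have k2 : h (b, -a) = h (0, 0) := by
      rw [hform, hform]
      ext
      · simp; ring
      · simp; linear_combination -h0
    have k1' := hh k1
    have k2' := hh k2
    have ha0 : a = 0 := by simpa using congrArg Prod.snd k2'
    have hc0 : c = 0 := by simpa using congrArg Prod.snd k1'
    have : h (1, 0) = h (0, 0) := by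
      rw [hform, hform, ha0, hc0]; simp
    have := congrArg Prod.fst (hh this)
    exact one_ne_zero this
  have hAu : IsUnit A := unit_lin hroot a b (fun h0 => hdet (by rw [h0.1, h0.2]; ring))
  obtain ⟨A', hA'⟩ := hAu.exists_right_inv
  have hginj : Function.Injective g := Finite.injective_iff_surjective.mpr hg
  have hst : ∀ u, g ((C' * A') • u) = x • g u := by
    intro u
    rw [← sub_eq_zero]
    apply dR_nondeg l hl
    intro w
    obtain ⟨v, hv⟩ := hg w
    have hsub : dR (g ((C' * A') • u) - x • g u) w = dR (g ((C' * A') • u)) w - x * dR (g u) w := by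
      simp only [dR, Prod.fst_sub, Prod.snd_sub, Prod.smul_fst, Prod.smul_snd, smul_eq_mul]; ring
    rw [hsub, map_sub, ← hv, e1, e2, dR_smul]
    have : A * (C' * A' * dR u v) = C' * dR u v := by linear_combination (C' * dR u v) * hA'
    rw [this, sub_self]
  have hex : ∀ k : AdjoinRoot f, ∃ k' : AdjoinRoot f, ∀ v, g (k' • v) = k • g v := by
    intro k
    have hk : k ∈ Algebra.adjoin (ZMod p) {x} := by rw [hx, AdjoinRoot.adjoinRoot_eq_top]; trivial
    induction hk using Algebra.adjoin_induction with
    | mem y hy =>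
      rw [Set.mem_singleton_iff] at hy
      subst hy
      exact ⟨_, hst⟩
    | algebraMap r =>
      refine ⟨algebraMap (ZMod p) _ r, fun v => ?_⟩
      rw [algebraMap_smul, algebraMap_smul, ZMod.map_smul]
    | add x y _ _ hx hy =>
      obtain ⟨x', hx'⟩ := hx
      obtain ⟨y', hy'⟩ := hy
      exact ⟨x' + y', fun v => by rw [add_smul, map_add, hx', hy', add_smul]⟩
    | mul x y _ _ hx hy =>
      obtain ⟨x', hx'⟩ := hx
      obtain ⟨y', hy'⟩ := hy
      exact ⟨x' * y', fun v => by rw [mul_smul, hx', hy', mul_smul]⟩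
  choose τ hτ using hex
  have huniq : ∀ k1 k2 : AdjoinRoot f, (∀ v, g (k1 • v) = g (k2 • v)) → k1 = k2 := by
    intro k1 k2 h12
    have h1 := hginj (h12 (1, 0))
    simpa using congrArg Prod.fst h1
  let τr : AdjoinRoot f →+* AdjoinRoot f :=
    { toFun := τ
      map_one' := huniq _ _ (fun v => by rw [hτ]; simp)
      map_zero' := huniq _ _ (fun v => by rw [hτ]; simp)
      map_add' := fun x y => huniq _ _ (fun v => by
        rw [hτ, add_smul (τ x), map_add, hτ, hτ, add_smul])
      map_mul' := fun x y => huniq _ _ (fun v => by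
        rw [hτ, mul_smul (τ x), hτ, hτ, mul_smul]) }
  let τA : AdjoinRoot f →ₐ[ZMod p] AdjoinRoot f :=
    { τr with
      commutes' := fun r => RingHom.congr_fun
        (Subsingleton.elim (τr.comp (algebraMap (ZMod p) _)) (algebraMap (ZMod p) _)) r }
  have hτinj : Function.Injective τA := by
    rw [injective_iff_map_eq_zero]
    intro k hk
    obtain ⟨v, hv⟩ := hg (1, 0)
    have h1 := hτ k v
    have h2 : τ k = 0 := hk
    rw [h2, zero_smul, map_zero, hv] at h1
    simpa using (congrArg Prod.fst h1).symm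
  let T : AdjoinRoot f ≃ₐ[ZMod p] AdjoinRoot f := AlgEquiv.ofBijective τA
    ⟨hτinj, Finite.surjective_of_injective hτinj⟩
  have hT : ∀ k v, g (T k • v) = k • g v := hτ
  have hTx : T x = C' * A' := huniq _ _ (fun v => by rw [hT, hst])
  set s := T.symm with hs
  have hsg : ∀ r v, g (r • v) = s r • g v := by
    intro r v
    have := hT (s r) v
    rwa [hs, AlgEquiv.apply_symm_apply] at this
  have hsA : s A = algebraMap (ZMod p) _ a + algebraMap (ZMod p) _ b * s x := by
    rw [hA, map_add, map_mul, AlgEquiv.commutes, AlgEquiv.commutes]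
  have hsC : s C' = algebraMap (ZMod p) _ c + algebraMap (ZMod p) _ d * s x := by
    rw [hC, map_add, map_mul, AlgEquiv.commutes, AlgEquiv.commutes]
  have hxA : x * s A = s C' := by
    have h1 : x = s (C' * A') := by rw [← hTx, hs, AlgEquiv.symm_apply_apply]
    have h2 : s A * s A' = 1 := by rw [← map_mul, hA', map_one]
    rw [map_mul] at h1
    calc x * s A = (s C' * s A') * s A := by rw [← h1]
      _ = s C' := by linear_combination (s C') * h2
  -- theta
  obtain ⟨θ, hθ⟩ := frob hf l hl (l.comp (T.toLinearMap))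
  have hθ' : ∀ r, l (s r * θ) = l r := by
    intro r
    rw [hθ]
    change l (T (s r)) = l r
    rw [hs, AlgEquiv.apply_symm_apply]
  set α := (g (1, 0)).1 with hα
  set γ := (g (1, 0)).2 with hγ
  set β := (g (0, 1)).1 with hβ
  set δ := (g (0, 1)).2 with hδ
  have hg1 : ∀ y z, g (y, z) = (s y * α + s z * β, s y * γ + s z * δ) := by
    intro y z
    have : (y, z) = y • ((1, 0) : AdjoinRoot f × AdjoinRoot f) + z • (0, 1) := by simp
    rw [this, map_add, hsg, hsg]
    ext <;> simp [hα, hβ, hγ, hδ]
  have hP' : ∀ y z, (l (s y * γ + s z * δ), - l (s y * α + s z * β)) =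
      (a * l z + b * (- l y), c * l z + d * (- l y)) := by
    intro y z
    have h1 := hP (y, z)
    rw [hg1, PM_apply, PM_apply, hform] at h1
    exact h1
  have heq : ∀ (κ : ZMod p) (y : AdjoinRoot f), (∀ r, l (s r * y) = κ * l r) →
      y = algebraMap (ZMod p) _ κ * θ := by
    intro κ y hy
    rw [← sub_eq_zero]
    apply hl
    intro r
    have h1 : (y - algebraMap (ZMod p) _ κ * θ) * r = s (T r) * y - κ • (s (T r) * θ) := by
      rw [hs, AlgEquiv.symm_apply_apply, Algebra.smul_def]; ring
    rw [h1, map_sub, map_smul, hy, hθ', smul_eq_mul, sub_self]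
  have hγ' : γ = algebraMap (ZMod p) _ (-b) * θ := heq _ _ (fun r => by
    have := congrArg Prod.fst (hP' r 0)
    simp only [map_zero, zero_mul, add_zero, mul_zero, zero_add] at this
    rw [this]; ring)
  have hα' : α = algebraMap (ZMod p) _ d * θ := heq _ _ (fun r => by
    have := congrArg Prod.snd (hP' r 0)
    simp only [map_zero, zero_mul, add_zero, mul_zero, zero_add] at this
    linear_combination -this)
  have hδ' : δ = algebraMap (ZMod p) _ a * θ := heq _ _ (fun r => by
    have := congrArg Prod.fst (hP' 0 r)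
    simp only [map_zero, zero_mul, neg_zero, mul_zero, zero_add, add_zero] at this
    exact this)
  have hβ' : β = algebraMap (ZMod p) _ (-c) * θ := heq _ _ (fun r => by
    have := congrArg Prod.snd (hP' 0 r)
    simp only [map_zero, zero_mul, neg_zero, mul_zero, zero_add, add_zero] at this
    linear_combination -this)
  have hdd : ∀ r, l (s r * (α * δ - γ * β)) = l (A * r) := by
    intro r
    have h1 := e1 (r, 0) (0, 1)
    rw [hg1, hg1] at h1
    simp only [dR, map_zero, map_one, zero_mul, one_mul, add_zero, zero_add, mul_zero, mul_one,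
      sub_zero] at h1
    rw [← h1]
    congr 1
    ring
  have hθA : algebraMap (ZMod p) _ (a * d - b * c) * (θ * θ) = s A * θ := by
    rw [← sub_eq_zero]
    apply hl
    intro r
    have h1 := hdd (T r)
    have h2 : (algebraMap (ZMod p) (AdjoinRoot f) (a * d - b * c) * (θ * θ) - s A * θ) * r
        = s (T r) * (α * δ - γ * β) - s (A * T r) * θ := by
      rw [map_mul, hs, AlgEquiv.symm_apply_apply, hα', hδ', hγ', hβ', map_sub, map_mul, map_mul, map_neg, map_neg]
      ring
    rw [h2, map_sub, h1, hθ', sub_self]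
  -- theta is a unit: nonzero divisor in a finite ring; cancel
  have hθreg : ∀ k, k * θ = 0 → k = 0 := by
    intro k hk
    have : T k = 0 := by
      apply hl
      intro r
      have h1 := hθ' (T k * r)
      have e : s (T k * r) = k * s r := by rw [map_mul, hs, AlgEquiv.symm_apply_apply]
      have e2 : k * s r * θ = 0 := by linear_combination (s r) * hk
      rw [e, e2, map_zero] at h1
      exact h1.symm
    exact (map_eq_zero_iff T T.injective).mp this
  have hθA' : algebraMap (ZMod p) _ (a * d - b * c) * θ = s A := by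
    rw [← sub_eq_zero]
    apply hθreg
    linear_combination hθA
  obtain ⟨ha1, hb1, hc1, hd1⟩ := hrig a b c d s hdet (by rw [← hx, ← hsA, ← hsC, hxA]) (by
    intro r
    rw [← hx, ← hsA, ← hθA']
    have : s r * (algebraMap (ZMod p) (AdjoinRoot f) (a * d - b * c) * θ)
        = (a * d - b * c) • (s r * θ) := by rw [Algebra.smul_def]; ring
    rw [this, map_smul, hθ', smul_eq_mul])
  have hsx : s x = x := by
    rw [hsA, hsC, ha1, hb1, hc1, hd1] at hxA
    simp at hxA
    exact hxA.symm
  have hsid : ∀ r, s r = r := by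
    have h2 : (s : AdjoinRoot f →ₐ[ZMod p] AdjoinRoot f) = AlgHom.id (ZMod p) _ := by
      apply AlgHom.ext_of_adjoin_eq_top (AdjoinRoot.adjoinRoot_eq_top (f := f))
      intro y hy
      rw [Set.mem_singleton_iff] at hy
      subst hy
      simpa using hsx
    intro r
    exact DFunLike.congr_fun h2 r
  have hθ1 : θ = 1 := by
    rw [hsA, ha1, hb1, hc1, hd1] at hθA'
    simpa using hθA'
  refine ⟨?_, ?_⟩
  · rintro ⟨y, z⟩
    rw [hg1, hsid, hsid, hα', hβ', hγ', hδ', ha1, hb1, hc1, hd1, hθ1]
    simp
  · rintro ⟨y, z⟩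
    rw [hform, ha1, hb1, hc1, hd1]
    simp

end
end Helper620.CM
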