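import Mathlib

namespace Helper620.CM
open Polynomial

theorem struct2_ev {F V : Type} [Field F] [AddCommGroup V] [Module F V] (T : V →ₗ[F] V) :
    ∃ ev : AdjoinRoot (minpoly F T) →ₐ[F] (V →ₗ[F] V),
      (∀ p : F[X], ev (AdjoinRoot.mk (minpoly F T) p) = aeval T p) ∧ (∀ r, ev r = 0 → r = 0) := by
  have h : ∀ a ∈ Ideal.span {minpoly F T}, (aeval T : F[X] →ₐ[F] (V →ₗ[F] V)) a = 0 := by
    intro a ha
    rw [Ideal.mem_span_singleton] at ha
    obtain ⟨b, rfl⟩ := ha
    rw [map_mul, minpoly.aeval, zero_mul]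
  refine ⟨Ideal.Quotient.liftₐ (Ideal.span {minpoly F T}) (aeval T) h, fun p => rfl, ?_⟩
  intro r
  induction r using AdjoinRoot.induction_on with
  | ih p =>
    intro hp
    have hp' : aeval T p = 0 := hp
    exact AdjoinRoot.mk_eq_zero.mpr (minpoly.dvd F T hp')

theorem struct2_pow {F V : Type} [Field F] [AddCommGroup V] [Module F V]
    (A : V →ₗ[F] V →ₗ[F] F) (T : V →ₗ[F] V) (hT : ∀ u v, A (T u) v = A u (T v)) (k : ℕ) :
    ∀ u v, A ((T ^ k) u) v = A u ((T ^ k) v) := by
  induction k with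
  | zero => intro u v; rfl
  | succ k ih =>
    intro u v
    have h1 : (T ^ (k + 1)) u = T ((T ^ k) u) := by rw [pow_succ']; rfl
    have h2 : (T ^ (k + 1)) v = (T ^ k) (T v) := by rw [pow_succ]; rfl
    rw [h1, h2, hT, ih]

theorem struct2_poly {F V : Type} [Field F] [AddCommGroup V] [Module F V]
    (A : V →ₗ[F] V →ₗ[F] F) (T : V →ₗ[F] V) (hT : ∀ u v, A (T u) v = A u (T v)) (p : F[X]) :
    ∀ u v, A (aeval T p u) v = A u (aeval T p v) := by
  induction p using Polynomial.induction_on' with
  | add p q hp hq =>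
    intro u v
    rw [map_add, LinearMap.add_apply, LinearMap.add_apply, map_add, map_add, LinearMap.add_apply,
      hp, hq]
  | monomial n a =>
    intro u v
    have h1 : ∀ w : V, (aeval T (monomial n a)) w = a • (T ^ n) w := by
      intro w
      rw [aeval_monomial]
      rfl
    rw [h1, h1, map_smul, map_smul, LinearMap.smul_apply, struct2_pow A T hT]

/-- structure theorem: if `w1, w2` generate `V` under `T` then `V ≅ R × R`, `R = F[x]/(minpoly T)`. -/
theorem struct2 {F V : Type} [Field F] [AddCommGroup V] [Module F V] [FiniteDimensional F V]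
    (A : V →ₗ[F] V →ₗ[F] F) (hA : ∀ u v, A u v = - A v u) (hnd : ∀ u, (∀ v, A u v = 0) → u = 0)
    (h2 : (2 : F) ≠ 0)
    (T : V →ₗ[F] V) (hT : ∀ u v, A (T u) v = A u (T v)) (w1 w2 : V)
    (hU : ∀ z : V, (∀ k : ℕ, A w1 ((T ^ k) z) = 0) → (∀ k : ℕ, A w2 ((T ^ k) z) = 0) → z = 0) :
    ∃ (l : AdjoinRoot (minpoly F T) →ₗ[F] F)
      (g : (AdjoinRoot (minpoly F T) × AdjoinRoot (minpoly F T)) ≃ₗ[F] V),
      (∀ u v, A (g u) (g v) = l (u.1 * v.2 - u.2 * v.1)) ∧
      (∀ u, T (g u) = g (AdjoinRoot.root (minpoly F T) * u.1, AdjoinRoot.root (minpoly F T) * u.2)) ∧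
      (∀ v, A w1 (g v) = l v.2) ∧ (∀ v, A w2 (g v) = - l v.1) ∧
      (∀ r, (∀ s, l (r * s) = 0) → r = 0) := by
  obtain ⟨ev, hev, hinj⟩ := struct2_ev T
  have hroot : ev (AdjoinRoot.root (minpoly F T)) = T := by
    rw [← AdjoinRoot.mk_X, hev, aeval_X]
  have hSA : ∀ r u v, A (ev r u) v = A u (ev r v) := by
    intro r
    induction r using AdjoinRoot.induction_on with
    | ih p => rw [hev]; exact struct2_poly A T hT p
  have hmul : ∀ r s u, ev (r * s) u = ev r (ev s u) := by
    intro r s u
    rw [map_mul]; rfl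
  have hX : ∀ (k : ℕ) (u : V), (T ^ k) u = ev ((AdjoinRoot.root (minpoly F T)) ^ k) u := by
    intro k u
    rw [map_pow, hroot]
  have hAlt : ∀ r u, A u (ev r u) = 0 := by
    intro r u
    have h1 : A u (ev r u) = - A u (ev r u) := by
      conv_lhs => rw [hA, hSA]
    have h3 : (2 : F) * A u (ev r u) = 0 := by linear_combination h1
    exact (mul_eq_zero.mp h3).resolve_left h2
  have hAlt2 : ∀ r s u, A (ev r u) (ev s u) = 0 := by
    intro r s u
    rw [hSA, ← hmul, hAlt]
  let l : AdjoinRoot (minpoly F T) →ₗ[F] F :=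
    { toFun := fun r => A w1 (ev r w2)
      map_add' := fun r s => by rw [map_add, LinearMap.add_apply, map_add]
      map_smul' := fun a r => by
        rw [map_smul, LinearMap.smul_apply, map_smul]; rfl }
  have hl : ∀ r, l r = A w1 (ev r w2) := fun r => rfl
  let g0 : (AdjoinRoot (minpoly F T) × AdjoinRoot (minpoly F T)) →ₗ[F] V :=
    { toFun := fun u => ev u.1 w1 + ev u.2 w2
      map_add' := fun r s => by
        rw [Prod.fst_add, Prod.snd_add, map_add, map_add, LinearMap.add_apply,
          LinearMap.add_apply]; abel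
      map_smul' := fun a r => by
        rw [Prod.smul_fst, Prod.smul_snd, map_smul, map_smul, LinearMap.smul_apply,
          LinearMap.smul_apply, RingHom.id_apply, smul_add] }
  have hg0 : ∀ u, g0 u = ev u.1 w1 + ev u.2 w2 := fun u => rfl
  have hAg : ∀ u v, A (g0 u) (g0 v) = l (u.1 * v.2 - u.2 * v.1) := by
    intro u v
    rw [hg0, hg0, map_sub, hl, hl, map_add, map_add, LinearMap.add_apply,
      LinearMap.add_apply, hAlt2, hAlt2, zero_add, add_zero]
    have e1 : A (ev u.1 w1) (ev v.2 w2) = A w1 (ev (u.1 * v.2) w2) := by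
      rw [hSA, ← hmul]
    have e2 : A (ev u.2 w2) (ev v.1 w1) = - A w1 (ev (u.2 * v.1) w2) := by
      rw [hA, hSA, ← hmul, mul_comm]
    rw [e1, e2]
    ring
  have hnd5 : ∀ r, (∀ s, l (r * s) = 0) → r = 0 := by
    intro r hr
    have a1 : ∀ k : ℕ, A w1 ((T ^ k) (ev r w2)) = 0 := by
      intro k
      rw [hX, ← hmul, mul_comm, ← hl]; exact hr _
    have a2 : ev r w2 = 0 := by
      refine hU _ a1 fun k => ?_
      rw [hX, ← hmul, hAlt]
    have a3 : ev r w1 = 0 := by
      refine hU _ (fun k => ?_) fun k => ?_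
      · rw [hX, ← hmul, hAlt]
      · rw [hX, ← hmul, hA, hSA, hmul, a2, map_zero, map_zero, neg_zero]
    refine hinj r ?_
    ext v
    rw [LinearMap.zero_apply]
    refine hU _ (fun k => ?_) fun k => ?_
    · rw [hX, ← hmul, ← hSA, hmul, a3, map_zero, map_zero, LinearMap.zero_apply]
    · rw [hX, ← hmul, ← hSA, hmul, a2, map_zero, map_zero, LinearMap.zero_apply]
  have hginj : Function.Injective g0 := by
    rw [← LinearMap.ker_eq_bot, LinearMap.ker_eq_bot']
    rintro ⟨r, s⟩ hrs
    have b1 : r = 0 := by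
      refine hnd5 r fun t => ?_
      have := hAg (r, s) (0, t)
      rw [hrs, map_zero, LinearMap.zero_apply] at this
      simpa using this.symm
    have b2 : s = 0 := by
      refine hnd5 s fun t => ?_
      have := hAg (r, s) (t, 0)
      rw [hrs, map_zero, LinearMap.zero_apply] at this
      simpa using this.symm
    rw [b1, b2]; rfl
  have hgsurj : Function.Surjective g0 := by
    rw [← LinearMap.range_eq_top]
    by_contra hne
    obtain ⟨φ, hφ0, hφ⟩ := Submodule.exists_le_ker_of_lt_top _ (lt_top_iff_ne_top.mpr hne)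
    have hAinj : Function.Injective A := by
      rw [← LinearMap.ker_eq_bot, LinearMap.ker_eq_bot']
      intro u hu
      exact hnd u fun v => by rw [hu, LinearMap.zero_apply]
    have hAsurj : Function.Surjective A :=
      (LinearMap.injective_iff_surjective_of_finrank_eq_finrank
        (Subspace.dual_finrank_eq (K := F) (V := V)).symm).mp hAinj
    obtain ⟨z, hz⟩ := hAsurj φ
    have hz0 : ∀ u, A z (g0 u) = 0 := by
      intro u
      rw [hz]
      exact hφ (LinearMap.mem_range_self g0 u)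
    have hzz : z = 0 := by
      refine hU z (fun k => ?_) fun k => ?_
      · have := hz0 ((AdjoinRoot.root (minpoly F T)) ^ k, 0)
        rw [hg0] at this
        simp only [map_zero, LinearMap.zero_apply, add_zero] at this
        rw [hX, ← hSA, hA, this, neg_zero]
      · have := hz0 (0, (AdjoinRoot.root (minpoly F T)) ^ k)
        rw [hg0] at this
        simp only [map_zero, LinearMap.zero_apply, zero_add] at this
        rw [hX, ← hSA, hA, this, neg_zero]
    apply hφ0
    rw [← hz, hzz, map_zero]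
  refine ⟨l, LinearEquiv.ofBijective g0 ⟨hginj, hgsurj⟩, ?_, ?_, ?_, ?_, hnd5⟩
  · intro u v
    exact hAg u v
  · intro u
    show T (g0 u) = g0 (AdjoinRoot.root (minpoly F T) * u.1, AdjoinRoot.root (minpoly F T) * u.2)
    rw [hg0, hg0, hmul, hmul, hroot, map_add]
  · intro v
    show A w1 (g0 v) = l v.2
    rw [hg0, map_add, hAlt, zero_add, hl]
  · intro v
    show A w2 (g0 v) = - l v.1
    rw [hg0, map_add, hAlt, add_zero, hl, hA, hSA]

end Helper620.CM
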