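import Mathlib

namespace Helper620.CM

/-- a nonzero nilpotent skew endomorphism commuting with a self-adjoint `T` (alternating form `A`) -/
theorem transv {F V : Type} [Field F] [AddCommGroup V] [Module F V] [FiniteDimensional F V]
    (A : V →ₗ[F] V →ₗ[F] F) (hA : ∀ u v, A u v = - A v u) (hnd : ∀ u, (∀ v, A u v = 0) → u = 0)
    (h2 : (2 : F) ≠ 0)
    (T : V →ₗ[F] V) (hT : ∀ u v, A (T u) v = A u (T v)) (z : V) (hz : z ≠ 0) :
    ∃ N : V →ₗ[F] V, (∀ v, T (N v) = N (T v)) ∧ (∀ u v, A (N u) v = - A u (N v)) ∧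
      (∀ u v, A (N u) (N v) = 0) ∧ (∀ w, (∀ k : ℕ, A w ((T ^ k) z) = 0) → N w = 0) ∧
      (∃ v, N v ≠ 0) := by
  classical
  have hex : ∃ d : ℕ, ∃ m : Polynomial F, m.Monic ∧ m.natDegree = d ∧
      (Polynomial.aeval T m) z = 0 :=
    ⟨_, minpoly F T, minpoly.monic (Algebra.IsIntegral.isIntegral T), rfl, by
      rw [minpoly.aeval]; rfl⟩
  obtain ⟨d, hd⟩ : ∃ d, d = Nat.find hex := ⟨_, rfl⟩
  obtain ⟨m, hm, hmd, hmz⟩ := Nat.find_spec hex
  rw [← hd] at hmd
  have hmin : ∀ p : Polynomial F, p.Monic → p.natDegree < d → (Polynomial.aeval T p) z ≠ 0 :=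
    fun p hp hlt h => Nat.find_min hex (hd ▸ hlt) ⟨p, hp, rfl, h⟩
  have hd1 : 1 ≤ d := by
    rcases Nat.eq_zero_or_pos d with h | h
    · exfalso
      have hm1 : m = 1 := hm.natDegree_eq_zero.mp (hmd.trans h)
      rw [hm1, map_one] at hmz
      exact hz hmz
    · exact h
  have hcoef : ∀ k, d < k → m.coeff k = 0 := fun k hk =>
    Polynomial.coeff_eq_zero_of_natDegree_lt (by omega)
  have hcd : m.coeff d = 1 := by rw [← hmd]; exact hm.coeff_natDegree
  have hsum : ∑ k ∈ Finset.range (d+1), m.coeff k • ((T^k) z) = 0 := by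
    have h := hmz
    rw [Polynomial.aeval_eq_sum_range, hmd] at h
    simpa [LinearMap.sum_apply] using h
  have hsumA : ∀ v, ∑ k ∈ Finset.range (d+1), m.coeff k * A v ((T^k) z) = 0 := by
    intro v
    have h := congrArg (A v) hsum
    simpa [map_sum, map_smul, smul_eq_mul] using h
  have hTk : ∀ k : ℕ, ∀ u v, A ((T^k) u) v = A u ((T^k) v) := by
    intro k
    induction k with
    | zero => intro u v; simp
    | succ k ih =>
      intro u v
      rw [pow_succ' T k]
      show A (T ((T^k) u)) v = A u (T ((T^k) v))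
      rw [hT, ih]
      congr 1
      have : T * T^k = T^k * T := by rw [← pow_succ', pow_succ]
      have h := congrArg (fun L : V →ₗ[F] V => L v) this
      exact h.symm
  have hzz0 : ∀ k : ℕ, A z ((T^k) z) = 0 := by
    intro k
    have h1 := hTk k z z
    have h3 := hA ((T^k) z) z
    rw [h1] at h3
    have h4 : (2:F) * A z ((T^k) z) = 0 := by
      rw [two_mul]
      nth_rewrite 1 [h3]
      ring
    exact (mul_eq_zero.mp h4).resolve_left h2
  have hzz : ∀ i j : ℕ, A ((T^i) z) ((T^j) z) = 0 := by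
    intro i j
    rw [hTk i]
    have h : (T^i) ((T^j) z) = (T^(i+j)) z := by rw [pow_add]; rfl
    rw [h]; exact hzz0 _
  obtain ⟨N, hN⟩ : ∃ N : V →ₗ[F] V, ∀ v, N v = ∑ i ∈ Finset.range d, ∑ j ∈ Finset.range d,
      (m.coeff (i+j+1) * A v ((T^j) z)) • ((T^i) z) := by
    refine ⟨∑ i ∈ Finset.range d, ∑ j ∈ Finset.range d,
      (m.coeff (i+j+1)) • ((A.flip ((T^j) z)).smulRight ((T^i) z)), fun v => ?_⟩
    simp only [LinearMap.sum_apply, LinearMap.smul_apply, LinearMap.smulRight_apply,
      LinearMap.flip_apply, smul_smul]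
  have hTs : ∀ i : ℕ, T ((T^i) z) = (T^(i+1)) z := by
    intro i; rw [pow_succ']; rfl
  refine ⟨N, ?_, ?_, ?_, ?_, ?_⟩
  · intro v
    have hW1 : T (N v) = ∑ i ∈ Finset.range (d+1), ∑ j ∈ Finset.range (d+1),
        (m.coeff (i+j) * A v ((T^j) z)) • ((T^i) z) := by
      rw [Finset.sum_range_succ', hN, map_sum]
      have h0 : ∑ j ∈ Finset.range (d+1), (m.coeff (0+j) * A v ((T^j) z)) • ((T^0) z) = 0 := by
        rw [← Finset.sum_smul]
        simp only [zero_add]
        rw [hsumA v, zero_smul]
      rw [h0, add_zero]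
      refine Finset.sum_congr rfl fun i _ => ?_
      rw [Finset.sum_range_succ, hcoef (i+1+d) (by omega), zero_mul, zero_smul, add_zero, map_sum]
      refine Finset.sum_congr rfl fun j _ => ?_
      rw [map_smul, hTs]
      rw [show i + j + 1 = i + 1 + j by ring]
    have hW2 : N (T v) = ∑ i ∈ Finset.range (d+1), ∑ j ∈ Finset.range (d+1),
        (m.coeff (i+j) * A v ((T^j) z)) • ((T^i) z) := by
      rw [Finset.sum_comm, Finset.sum_range_succ', hN, Finset.sum_comm]
      have h0 : ∑ i ∈ Finset.range (d+1), (m.coeff (i+0) * A v ((T^0) z)) • ((T^i) z) = 0 := by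
        have : ∀ i ∈ Finset.range (d+1), (m.coeff (i+0) * A v ((T^0) z)) • ((T^i) z)
            = A v ((T^0) z) • (m.coeff i • ((T^i) z)) := by
          intro i _
          rw [smul_smul, add_zero, mul_comm]
        rw [Finset.sum_congr rfl this, ← Finset.smul_sum, hsum, smul_zero]
      rw [h0, add_zero]
      refine Finset.sum_congr rfl fun j _ => ?_
      rw [Finset.sum_range_succ, hcoef (d+(j+1)) (by omega), zero_mul, zero_smul, add_zero]
      refine Finset.sum_congr rfl fun i _ => ?_
      rw [hT, hTs]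
      rw [show i + j + 1 = i + (j + 1) by ring]
    rw [hW1, hW2]
  · intro u v
    rw [hN u, hN v]
    simp only [map_sum, LinearMap.sum_apply, map_smul, LinearMap.smul_apply, smul_eq_mul]
    rw [Finset.sum_comm, ← Finset.sum_neg_distrib]
    refine Finset.sum_congr rfl fun i _ => ?_
    rw [← Finset.sum_neg_distrib]
    refine Finset.sum_congr rfl fun j _ => ?_
    rw [hA ((T^j) z) v, show j + i + 1 = i + j + 1 by ring]
    ring
  · intro u v
    rw [hN u, hN v]
    simp only [map_sum, LinearMap.sum_apply, map_smul, LinearMap.smul_apply, smul_eq_mul, hzz,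
      mul_zero, Finset.sum_const_zero]
  · intro w hw
    rw [hN w]
    simp only [hw, mul_zero, zero_smul, Finset.sum_const_zero]
  · by_contra hcon
    push_neg at hcon
    apply hz
    apply hnd
    intro v
    by_contra hv
    have hNv := hcon v
    rw [hN v] at hNv
    obtain ⟨β, hβ⟩ : ∃ β : ℕ → F, β = fun i => ∑ j ∈ Finset.range d, m.coeff (i+j+1) * A v ((T^j) z) :=
      ⟨_, rfl⟩
    have hNβ : ∑ i ∈ Finset.range d, β i • ((T^i) z) = 0 := by
      rw [← hNv]
      refine Finset.sum_congr rfl fun i _ => ?_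
      rw [hβ, Finset.sum_smul]
    have hβd : β (d-1) ≠ 0 := by
      have hval : β (d-1) = A v z := by
        rw [hβ]
        show ∑ j ∈ Finset.range d, m.coeff (d-1+j+1) * A v ((T^j) z) = A v z
        rw [Finset.sum_eq_single 0]
        · rw [show d - 1 + 0 + 1 = d by omega, hcd, one_mul]; simp
        · intro j _ hj
          rw [hcoef _ (by omega), zero_mul]
        · intro h; exact absurd (Finset.mem_range.mpr (by omega)) h
      rw [hval, hA v z]
      exact neg_ne_zero.mpr hv
    obtain ⟨p, hp⟩ : ∃ p : Polynomial F, p = ∑ i ∈ Finset.range d,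
        Polynomial.C ((β (d-1))⁻¹ * β i) * Polynomial.X ^ i := ⟨_, rfl⟩
    have hpc : ∀ k, p.coeff k = if k < d then (β (d-1))⁻¹ * β k else 0 := by
      intro k
      rw [hp, Polynomial.finset_sum_coeff]
      simp only [Polynomial.coeff_C_mul, Polynomial.coeff_X_pow]
      by_cases hk : k < d
      · rw [if_pos hk, Finset.sum_eq_single k]
        · simp
        · intro b _ hb
          simp [Ne.symm hb]
        · intro h; exact absurd (Finset.mem_range.mpr hk) h
      · rw [if_neg hk]
        apply Finset.sum_eq_zero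
        intro b hb
        have : k ≠ b := by
          have := Finset.mem_range.mp hb
          omega
        simp [this]
    have hpd : p.natDegree ≤ d - 1 := by
      rw [Polynomial.natDegree_le_iff_coeff_eq_zero]
      intro k hk
      rw [hpc, if_neg (by omega)]
    have hpm : p.Monic := by
      apply Polynomial.monic_of_natDegree_le_of_coeff_eq_one (d-1) hpd
      rw [hpc, if_pos (by omega)]
      exact inv_mul_cancel₀ hβd
    refine hmin p hpm (by omega) ?_
    rw [hp, map_sum, LinearMap.sum_apply]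
    have : ∀ i ∈ Finset.range d,
        (Polynomial.aeval T (Polynomial.C ((β (d-1))⁻¹ * β i) * Polynomial.X ^ i)) z
          = (β (d-1))⁻¹ • (β i • ((T^i) z)) := by
      intro i _
      rw [map_mul, Polynomial.aeval_C, map_pow, Polynomial.aeval_X, smul_smul]
      rw [Algebra.algebraMap_eq_smul_one, smul_mul_assoc, one_mul]
      rfl
    rw [Finset.sum_congr rfl this, ← Finset.smul_sum, hNβ, smul_zero]

end Helper620.CM
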