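import Mathlib
import Pool.Agent.Helper620.CamMilGroup
import Pool.Agent.Helper620.CamMilModel
import Pool.Agent.Helper620.CamMilRig
import Pool.Agent.Helper620.CamMilLift
import Pool.Agent.Helper620.CamMilFacts
import Pool.Agent.Helper620.CamMilTransv
import Pool.Agent.Helper620.CamMilStruct
import Pool.Agent.Helper620.CamMilBaer

namespace Helper620.CM
open Polynomial

section transport
variable {G H : Type} [Group G] [Group H]

theorem mem_comm_map (φ : G ≃* H) (x : G) : φ x ∈ commutator H ↔ x ∈ commutator G := by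
  have h : (commutator G).map φ.toMonoidHom = commutator H := by
    rw [commutator_def, commutator_def, Subgroup.map_commutator, Subgroup.map_top_of_surjective _ φ.surjective]
  rw [← h]
  constructor
  · rintro ⟨y, hy, hyx⟩
    have : y = x := φ.injective hyx
    rwa [← this]
  · intro hx
    exact ⟨x, hx, rfl⟩

theorem camina_iso (φ : G ≃* H) (h : IsCamina H) : IsCamina G := by
  intro x hx y
  have h1 := h (φ x) (by rwa [mem_comm_map]) (φ y)
  rw [← mem_comm_map φ, map_mul, map_inv, ← h1]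
  constructor
  · intro h2
    exact φ.toMonoidHom.map_isConj h2
  · intro h2
    have := φ.symm.toMonoidHom.map_isConj h2
    simpa using this

theorem miller_iso (φ : G ≃* H) (h : IsMiller H) : IsMiller G := by
  obtain ⟨⟨a, b, hab⟩, hc⟩ := h
  refine ⟨⟨φ.symm a, φ.symm b, fun h0 => hab ?_⟩, fun f g => ?_⟩
  · rw [← map_mul, ← map_mul] at h0
    exact φ.symm.injective h0
  · have h1 := hc ((φ.symm.trans f).trans φ) ((φ.symm.trans g).trans φ)
    ext x
    have h2 := congrArg (fun k : MulAut H => φ.symm (k (φ x))) h1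
    simpa using h2

theorem fix_center (φ : G ≃* H) (h6 : ∀ f : MulAut G, ∀ z ∈ Subgroup.center G, f z = z)
    (ψ : H ≃* H) (z : H) (hz : z ∈ Subgroup.center H) : ψ z = z := by
  have h1 := h6 ((φ.trans ψ).trans φ.symm) (φ.symm z) (by
    rw [Subgroup.mem_center_iff] at hz ⊢
    intro g
    have := congrArg φ.symm (hz (φ g))
    simpa using this)
  have h2 := congrArg φ h1
  simpa using h2

end transport

section lin
variable {p : ℕ} [Fact p.Prime] {f : (ZMod p)[X]}

theorem rigid_of_fix (hf : f.Monic) (l : AdjoinRoot f →ₗ[ZMod p] ZMod p) (hl : Nondeg f l)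
    (hV : ∀ v : AdjoinRoot f × AdjoinRoot f, p • v = 0)
    (hfix : ∀ ψ : GM f l ≃* GM f l, ∀ z, ψ (Gp.c _ z) = Gp.c _ z) : Rigid f l := by
  intro a b c d s hdet hx hls
  have : Module.Finite (ZMod p) (AdjoinRoot f) := hf.finite_adjoinRoot
  have : Finite (AdjoinRoot f) := Module.finite_of_finite (ZMod p)
  set x := AdjoinRoot.root f with hxdef
  set Δ := a * d - b * c with hΔ
  set θ := algebraMap (ZMod p) (AdjoinRoot f) Δ⁻¹ * (algebraMap _ _ a + algebraMap _ _ b * s x) with hθ
  have hθΔ : algebraMap (ZMod p) (AdjoinRoot f) Δ * θ = algebraMap _ _ a + algebraMap _ _ b * s x := by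
    rw [hθ, ← mul_assoc, ← map_mul, mul_inv_cancel₀ hdet, map_one, one_mul]
  have hlθ : ∀ r, l (θ * s r) = l r := by
    intro r
    have e : θ * s r = Δ⁻¹ • (s r * (algebraMap _ _ a + algebraMap _ _ b * s x)) := by
      rw [Algebra.smul_def, hθ]; ring
    rw [e, map_smul, hls, smul_eq_mul, ← mul_assoc, inv_mul_cancel₀ hdet, one_mul]
  let h1 : ZMod p × ZMod p →+ ZMod p × ZMod p :=
    AddMonoidHom.mk' (fun z => (a * z.1 + b * z.2, c * z.1 + d * z.2)) (by
      intro z w
      ext
      · simp; ring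
      · simp; ring)
  have hh1 : ∀ z, h1 z = (a * z.1 + b * z.2, c * z.1 + d * z.2) := fun _ => rfl
  have h1inj : Function.Injective h1 := by
    rw [injective_iff_map_eq_zero]
    rintro ⟨y, z⟩ h0
    rw [hh1] at h0
    have q1 : a * y + b * z = 0 := congrArg Prod.fst h0
    have q2 : c * y + d * z = 0 := congrArg Prod.snd h0
    have q3 : Δ * y = 0 := by rw [hΔ]; linear_combination d * q1 - b * q2
    have q4 : Δ * z = 0 := by rw [hΔ]; linear_combination a * q2 - c * q1
    have q5 := (mul_eq_zero.mp q3).resolve_left hdet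
    have q6 := (mul_eq_zero.mp q4).resolve_left hdet
    rw [q5, q6]; rfl
  let g1 : AdjoinRoot f × AdjoinRoot f →+ AdjoinRoot f × AdjoinRoot f :=
    AddMonoidHom.mk' (fun v => (θ * (algebraMap _ _ d * s v.1 - algebraMap _ _ c * s v.2),
      θ * (algebraMap _ _ a * s v.2 - algebraMap _ _ b * s v.1))) (by
      intro z w
      ext
      · simp only [Prod.fst_add, Prod.snd_add, map_add]; ring
      · simp only [Prod.fst_add, Prod.snd_add, map_add]; ring)
  have hg1 : ∀ v, g1 v = (θ * (algebraMap _ _ d * s v.1 - algebraMap _ _ c * s v.2),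
      θ * (algebraMap _ _ a * s v.2 - algebraMap _ _ b * s v.1)) := fun _ => rfl
  have hdR : ∀ u v, dR (g1 u) (g1 v) = θ * (algebraMap _ _ Δ * θ) * s (dR u v) := by
    intro u v
    rw [hg1, hg1, hΔ]
    simp only [dR, map_sub, map_mul]
    ring
  have hb : ∀ u v, bM f l (g1 u) (g1 v) = h1 (bM f l u v) := by
    intro u v
    rw [bM_apply, bM_apply, hh1, hdR, hθΔ]
    ext
    · have e : θ * (algebraMap _ _ a + algebraMap _ _ b * s x) * s (dR u v)
          = θ * s ((algebraMap _ _ a + algebraMap _ _ b * x) * dR u v) := by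
        rw [map_mul, map_add, map_mul, AlgEquiv.commutes, AlgEquiv.commutes]; ring
      simp only
      rw [e, hlθ, l_lin]
    · have e : x * (θ * (algebraMap _ _ a + algebraMap _ _ b * s x) * s (dR u v))
          = θ * s ((algebraMap _ _ c + algebraMap _ _ d * x) * dR u v) := by
        rw [map_mul, map_add, map_mul, AlgEquiv.commutes, AlgEquiv.commutes]
        linear_combination (θ * s (dR u v)) * hx
      simp only
      rw [e, hlθ, l_lin]
  have hP : ∀ v, PM f l (g1 v) = h1 (PM f l v) := by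
    intro v
    rw [PM_apply, PM_apply, hh1, hg1]
    have e1 : θ * (algebraMap _ _ a * s v.2 - algebraMap _ _ b * s v.1) =
        a • (θ * s v.2) - b • (θ * s v.1) := by
      rw [Algebra.smul_def, Algebra.smul_def]; ring
    have e2 : θ * (algebraMap _ _ d * s v.1 - algebraMap _ _ c * s v.2) =
        d • (θ * s v.1) - c • (θ * s v.2) := by
      rw [Algebra.smul_def, Algebra.smul_def]; ring
    simp only
    rw [e1, e2, map_sub, map_sub, map_smul, map_smul, map_smul, map_smul, hlθ, hlθ]
    ext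
    · simp; ring
    · simp; ring
  have g1inj : Function.Injective g1 := by
    rw [injective_iff_map_eq_zero]
    intro u hu
    apply dR_nondeg l hl
    intro w
    have h2 := hb u w
    rw [hu, map_zero, AddMonoidHom.zero_apply] at h2
    have h3 : bM f l u w = 0 := by
      apply h1inj
      rw [← h2, map_zero]
    exact congrArg Prod.fst h3
  let gE : (AdjoinRoot f × AdjoinRoot f) ≃+ (AdjoinRoot f × AdjoinRoot f) :=
    AddEquiv.ofBijective g1 ⟨g1inj, Finite.surjective_of_injective g1inj⟩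
  let hE : (ZMod p × ZMod p) ≃+ (ZMod p × ZMod p) :=
    AddEquiv.ofBijective h1 ⟨h1inj, Finite.surjective_of_injective h1inj⟩
  obtain ⟨ψ, _, hψ⟩ := lift_iso (DG p (PM f l) (bM f l)) (DG p (PM f l) (bM f l)) p hV
    (PM f l) (PM f l) (p_smul_G p hV (PM f l) (bM f l)) (p_smul_G p hV (PM f l) (bM f l)) gE hE
    hb hP
  have hz : ∀ z, h1 z = z := by
    intro z
    have h2 := hψ z
    rw [hfix ψ z] at h2
    exact (c_inj _ h2).symm
  have z1 := hz (1, 0)
  have z2 := hz (0, 1)
  rw [hh1] at z1 z2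
  have y1 := congrArg Prod.fst z1
  have y2 := congrArg Prod.snd z1
  have y3 := congrArg Prod.fst z2
  have y4 := congrArg Prod.snd z2
  simp at y1 y2 y3 y4
  exact ⟨y1, y3, y2, y4⟩

theorem omM (l : AdjoinRoot f →ₗ[ZMod p] ZMod p) (u v : AdjoinRoot f × AdjoinRoot f) :
    Gp.om (DG p (PM f l) (bM f l)) u v = (2 : ZMod p) • bM f l u v := by
  unfold Gp.om
  change bM f l u v - bM f l v u = _
  rw [bM_apply, bM_apply]
  have e : dR v u = - dR u v := by simp only [dR]; ring
  rw [e]
  ext
  · simp; ring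
  · simp; ring

theorem smulRR (v : AdjoinRoot f × AdjoinRoot f) : p • v = 0 := by
  have h : ∀ r : AdjoinRoot f, p • r = 0 := by
    intro r
    rw [← Nat.cast_smul_eq_nsmul (ZMod p), ZMod.natCast_self, zero_smul]
  ext
  · exact h _
  · exact h _

theorem backward (hp2 : p ≠ 2) (hf : f.Monic) (hroot : ∀ c : ZMod p, ¬ f.IsRoot c)
    (l : AdjoinRoot f →ₗ[ZMod p] ZMod p) (hl : Nondeg f l) (hrig : Rigid f l) :
    IsCamina (GM f l) ∧ IsMiller (GM f l) := by
  have hnt := nontriv_of_rigid l hrig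
  have two : (2 : ZMod p) ≠ 0 := by
    intro h0
    have h1 : ((2 : ℕ) : ZMod p) = 0 := by exact_mod_cast h0
    rw [ZMod.natCast_eq_zero_iff] at h1
    have := (Nat.prime_dvd_prime_iff_eq (Fact.out : p.Prime) Nat.prime_two).mp h1
    exact hp2 this
  have H1 : ∀ v : AdjoinRoot f × AdjoinRoot f, v ≠ 0 → ∀ z, ∃ u, Gp.om (DG p (PM f l) (bM f l)) u v = z := by
    intro v hv z
    obtain ⟨u, hu⟩ := H1M hp2 hroot l hl v hv ((2 : ZMod p)⁻¹ • z)
    refine ⟨u, ?_⟩
    rw [omM, hu, smul_smul, mul_inv_cancel₀ two, one_smul]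
  have hV : ∃ v : AdjoinRoot f × AdjoinRoot f, v ≠ 0 :=
    ⟨(1, 0), fun h => one_ne_zero (congrArg Prod.fst h)⟩
  have hZ : ∃ z : ZMod p × ZMod p, z ≠ 0 := ⟨(1, 0), fun h => one_ne_zero (congrArg Prod.fst h)⟩
  refine ⟨camina _ H1 hV, miller _ H1 hZ hV p (PM f l)
    (pow_G p smulRR hp2 (PM f l) (bM f l)) (fun g h hg hh hom hP => ?_)⟩
  refine rigidM hf hroot l hl hrig g h hg hh (fun u v => ?_) hP
  have h1 := hom u v
  rw [omM, omM, ZMod.map_smul] at h1
  have h2 := congrArg (fun z => (2 : ZMod p)⁻¹ • z) h1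
  simpa only [smul_smul, inv_mul_cancel₀ two, one_smul] using h2

end lin
end Helper620.CM
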