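import Mathlib
import Pool.Agent.Helper620.CamMilClass

namespace Helper620.CM
open Polynomial

/-- linear-algebra core of the forward direction -/
theorem fwd_core {p : ℕ} [Fact p.Prime] (hp2 : p ≠ 2) {V Z E : Type} [AddCommGroup V]
    [AddCommGroup Z] [AddCommGroup E] [Finite V] [Finite Z] [Module (ZMod p) V]
    [Module (ZMod p) Z] (D : Dat V Z E)
    (hV : ∀ v : V, p • v = 0) (π : V →+ Z)
    (hpe : ∀ e, p • e = D.j (π (D.r e))) (halt : ∀ u v, D.b u v = - D.b v u)
    (hcard : Nat.card Z = p ^ 2)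
    (hS : ∀ v : V, v ≠ 0 → ∀ z : Z, ∃ u, D.b u v = z)
    (hfix : ∀ ψ : Gp D ≃* Gp D, ∀ z, ψ (Gp.c D z) = Gp.c D z)
    (hfixr : ∀ ψ : Gp D ≃* Gp D, ∀ e, D.r (ψ e).val = D.r e.val) :
    ∃ (f : (ZMod p)[X]) (l : AdjoinRoot f →ₗ[ZMod p] ZMod p),
      f.Monic ∧ (∀ c, ¬ f.IsRoot c) ∧ Nondeg f l ∧ Nonempty (Gp D ≃* GM f l) := by
  have two : (2 : ZMod p) ≠ 0 := by
    intro h0
    have h1 : ((2 : ℕ) : ZMod p) = 0 := by exact_mod_cast h0
    rw [ZMod.natCast_eq_zero_iff] at h1
    have := (Nat.prime_dvd_prime_iff_eq (Fact.out : p.Prime) Nat.prime_two).mp h1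
    exact hp2 this
  have : Module.Finite (ZMod p) V := Module.Finite.of_finite
  have : Module.Finite (ZMod p) Z := Module.Finite.of_finite
  have hfr : Module.finrank (ZMod p) Z = 2 := by
    have h1 : Nat.card Z = Nat.card (ZMod p) ^ Module.finrank (ZMod p) Z :=
      Module.natCard_eq_pow_finrank
    rw [hcard, Nat.card_zmod] at h1
    exact (Nat.pow_right_injective (Fact.out : p.Prime).two_le h1).symm
  have hfr2 : Module.finrank (ZMod p) (ZMod p × ZMod p) = 2 := by simp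
  let κ : Z ≃ₗ[ZMod p] ZMod p × ZMod p := LinearEquiv.ofFinrankEq _ _ (hfr.trans hfr2.symm)
  have smulL : ∀ (c : ZMod p) (u v : V), D.b (c • u) v = c • D.b u v := fun c u v =>
    ZMod.map_smul (D.b.flip v) c u
  have smulR : ∀ (c : ZMod p) (u v : V), D.b u (c • v) = c • D.b u v := fun c u v =>
    ZMod.map_smul (D.b u) c v
  let A : V →ₗ[ZMod p] V →ₗ[ZMod p] ZMod p :=
    LinearMap.mk₂ (ZMod p) (fun u v => (κ (D.b u v)).1)
      (fun u u' v => by rw [map_add, AddMonoidHom.add_apply, map_add]; rfl)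
      (fun c u v => by rw [smulL, map_smul]; rfl)
      (fun u v v' => by rw [map_add, map_add]; rfl)
      (fun c u v => by rw [smulR, map_smul]; rfl)
  let B : V →ₗ[ZMod p] V →ₗ[ZMod p] ZMod p :=
    LinearMap.mk₂ (ZMod p) (fun u v => (κ (D.b u v)).2)
      (fun u u' v => by rw [map_add, AddMonoidHom.add_apply, map_add]; rfl)
      (fun c u v => by rw [smulL, map_smul]; rfl)
      (fun u v v' => by rw [map_add, map_add]; rfl)
      (fun c u v => by rw [smulR, map_smul]; rfl)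
  have hAv : ∀ u v, A u v = (κ (D.b u v)).1 := fun _ _ => rfl
  have hBv : ∀ u v, B u v = (κ (D.b u v)).2 := fun _ _ => rfl
  have hA : ∀ u v, A u v = - A v u := by
    intro u v; rw [hAv, hAv, halt, map_neg]; rfl
  have hB : ∀ u v, B u v = - B v u := by
    intro u v; rw [hBv, hBv, halt, map_neg]; rfl
  have hnd : ∀ u, (∀ v, A u v = 0) → u = 0 := by
    intro u hu
    by_contra hne
    obtain ⟨u', hu'⟩ := hS u hne (κ.symm (1, 0))
    have h1 : A u' u = 1 := by rw [hAv, hu', LinearEquiv.apply_symm_apply]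
    rw [hA, hu, neg_zero] at h1
    exact zero_ne_one h1
  have hAinj : Function.Injective A := by
    rw [injective_iff_map_eq_zero]
    intro u hu
    exact hnd u (fun v => by rw [hu]; rfl)
  have hAsurj : Function.Surjective A :=
    (LinearMap.injective_iff_surjective_of_finrank_eq_finrank
      (Subspace.dual_finrank_eq (K := ZMod p) (V := V)).symm).mp hAinj
  let Ae : V ≃ₗ[ZMod p] (V →ₗ[ZMod p] ZMod p) := LinearEquiv.ofBijective A ⟨hAinj, hAsurj⟩
  have hAe : ∀ φ v, A (Ae.symm φ) v = φ v := by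
    intro φ v
    have : Ae (Ae.symm φ) = φ := LinearEquiv.apply_symm_apply _ _
    exact LinearMap.congr_fun this v
  let T : V →ₗ[ZMod p] V := Ae.symm.toLinearMap ∘ₗ B
  have hTA : ∀ u v, A (T u) v = B u v := fun u v => hAe (B u) v
  have hT : ∀ u v, A (T u) v = A u (T v) := by
    intro u v
    rw [hTA, hA u, hTA, hB]
  let π1 : V →ₗ[ZMod p] ZMod p :=
    (LinearMap.fst (ZMod p) (ZMod p) (ZMod p)) ∘ₗ κ.toLinearMap ∘ₗ AddMonoidHom.toZModLinearMap p π
  let π2 : V →ₗ[ZMod p] ZMod p :=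
    (LinearMap.snd (ZMod p) (ZMod p) (ZMod p)) ∘ₗ κ.toLinearMap ∘ₗ AddMonoidHom.toZModLinearMap p π
  have hπ1 : ∀ v, π1 v = (κ (π v)).1 := fun _ => rfl
  have hπ2 : ∀ v, π2 v = (κ (π v)).2 := fun _ => rfl
  have hw1 : ∀ v, A (Ae.symm π1) v = (κ (π v)).1 := fun v => hAe π1 v
  have hw2 : ∀ v, A (Ae.symm π2) v = (κ (π v)).2 := fun v => hAe π2 v
  set w1 := Ae.symm π1
  set w2 := Ae.symm π2
  have hU : ∀ z : V, (∀ k : ℕ, A w1 ((T ^ k) z) = 0) → (∀ k : ℕ, A w2 ((T ^ k) z) = 0) → z = 0 := by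
    intro z hz1 hz2
    by_contra hne
    obtain ⟨N, n1, n2, n3, n4, v0, hv0⟩ := transv A hA hnd two T hT z hne
    have nw1 := n4 w1 hz1
    have nw2 := n4 w2 hz2
    have nn : ∀ v, N (N v) = 0 := by
      intro v
      apply hnd
      intro w
      rw [n2, n3, neg_zero]
    let g0 : V ≃+ V :=
      { toFun := fun v => v + N v
        invFun := fun v => v - N v
        left_inv := fun v => by
          change v + N v - N (v + N v) = v
          rw [map_add, nn]; abel
        right_inv := fun v => by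
          change v - N v + N (v - N v) = v
          rw [map_sub, nn]; abel
        map_add' := fun u v => by rw [map_add]; abel }
    have hg0 : ∀ v, g0 v = v + N v := fun _ => rfl
    have q1 : ∀ u v, A (g0 u) (g0 v) = A u v := by
      intro u v
      have e1 : A (u + N u) (v + N v) = A u v + A u (N v) + (A (N u) v + A (N u) (N v)) := by
        simp only [map_add, LinearMap.add_apply]; ring
      rw [hg0, hg0, e1, n3, n2]
      ring
    have q2 : ∀ u v, B (g0 u) (g0 v) = B u v := by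
      intro u v
      rw [← hTA, ← hTA, ← q1 (T u) v]
      congr 2
      rw [hg0, hg0, map_add, n1]
    have q3 : ∀ v, π (g0 v) = π v := by
      intro v
      apply κ.injective
      apply Prod.ext
      · rw [← hw1, ← hw1, hg0, map_add]
        have : A w1 (N v) = 0 := by
          have := n2 w1 v
          rw [nw1, map_zero, LinearMap.zero_apply] at this
          exact neg_eq_zero.mp this.symm
        rw [this, add_zero]
      · rw [← hw2, ← hw2, hg0, map_add]
        have : A w2 (N v) = 0 := by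
          have := n2 w2 v
          rw [nw2, map_zero, LinearMap.zero_apply] at this
          exact neg_eq_zero.mp this.symm
        rw [this, add_zero]
    obtain ⟨ψ, hψ, _⟩ := lift_iso D D p hV π π hpe hpe g0 (AddEquiv.refl Z) (fun u v => by
      apply κ.injective
      exact Prod.ext (q1 u v) (q2 u v)) (fun v => q3 v)
    obtain ⟨e0, he0⟩ := D.rs v0
    have h1 := hψ ⟨e0⟩
    rw [hfixr] at h1
    change D.r e0 = g0 (D.r e0) at h1
    rw [he0, hg0] at h1
    exact hv0 (by simpa using h1.symm)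
  obtain ⟨l, g, s1, s2, s3, s4, s5⟩ := struct2 A hA hnd two T hT w1 w2 hU
  refine ⟨minpoly (ZMod p) T, l, minpoly.monic (Algebra.IsIntegral.isIntegral T), ?_, s5, ?_⟩
  · intro c hc
    obtain ⟨v, hv⟩ := (Module.End.hasEigenvalue_of_isRoot hc).exists_hasEigenvector
    have hTv : T v = c • v := hv.apply_eq_smul
    have hv0 : v ≠ 0 := hv.2
    obtain ⟨u, hu⟩ := hS v hv0 (κ.symm (0, 1))
    have e1 : A u v = 0 := by rw [hAv, hu, LinearEquiv.apply_symm_apply]
    have e2 : B u v = 1 := by rw [hBv, hu, LinearEquiv.apply_symm_apply]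
    rw [← hTA, hT, hTv, map_smul, e1, smul_zero] at e2
    exact zero_ne_one e2
  · have hh : ∀ u v, bM (minpoly (ZMod p) T) l (g.symm u) (g.symm v) = κ (D.b u v) := by
      intro u v
      obtain ⟨u', rfl⟩ := g.surjective u
      obtain ⟨v', rfl⟩ := g.surjective v
      rw [LinearEquiv.symm_apply_apply, LinearEquiv.symm_apply_apply, bM_apply]
      apply Prod.ext
      · rw [← hAv, s1]; rfl
      · rw [← hBv, ← hTA, s2, s1]
        simp only [dR]
        congr 1
        ring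
    have hπ : ∀ v, PM (minpoly (ZMod p) T) l (g.symm v) = κ (π v) := by
      intro v
      obtain ⟨v', rfl⟩ := g.surjective v
      rw [LinearEquiv.symm_apply_apply, PM_apply]
      apply Prod.ext
      · rw [← hw1, s3]
      · rw [← hw2, s4]
    obtain ⟨Φ, _, _⟩ := lift_iso D (DG p (PM (minpoly (ZMod p) T) l) (bM (minpoly (ZMod p) T) l)) p hV π
      (PM (minpoly (ZMod p) T) l) hpe (p_smul_G p smulRR _ _) g.symm.toAddEquiv κ.toAddEquiv hh hπ
    exact ⟨Φ⟩

theorem forward (p : ℕ) [Fact p.Prime] (hp2 : p ≠ 2) (G : Type) [Group G] [Finite G]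
    (hG : IsPGroup p G) (hZ : Nat.card (Subgroup.center G) = p ^ 2)
    (hcam : IsCamina G) (hmil : IsMiller G) :
    ∃ (f : (ZMod p)[X]) (l : AdjoinRoot f →ₗ[ZMod p] ZMod p),
      f.Monic ∧ (∀ c, ¬ f.IsRoot c) ∧ Nondeg f l ∧ Rigid f l ∧ Nonempty (G ≃* GM f l) := by
  obtain ⟨F1, F2, F3, F4, F5, F6⟩ := cm_facts p G hG hcam hmil.1 hmil.2
  obtain ⟨V, Z, E, iV, iZ, iE, D, π, φ, finV, finZ, hV, hZp, hpe, halt, hcen, hcard⟩ :=
    baer p hp2 G F1 F2 F3
  rw [hZ] at hcard
  obtain ⟨instV⟩ : Nonempty (Module (ZMod p) V) := ⟨AddCommGroup.zmodModule hV⟩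
  obtain ⟨instZ⟩ : Nonempty (Module (ZMod p) Z) := ⟨AddCommGroup.zmodModule hZp⟩
  have hcc : ∀ z, φ.symm (Gp.c D z) ∈ Subgroup.center G := by
    intro z
    rw [hcen, MulEquiv.apply_symm_apply]
    exact D.rj z
  have hfixc : ∀ ψ : Gp D ≃* Gp D, ∀ z, ψ (Gp.c D z) = Gp.c D z := by
    intro ψ z
    apply fix_center φ F6
    rw [Subgroup.mem_center_iff]
    intro g
    exact Gp.c_comm g z
  have hfixr : ∀ ψ : Gp D ≃* Gp D, ∀ e, D.r (ψ e).val = D.r e.val := by
    intro ψ e
    let f : MulAut G := (φ.trans ψ).trans φ.symm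
    have hf : ∀ x, f x = φ.symm (ψ (φ x)) := fun _ => rfl
    have h1 : ∀ g : G, (f g)⁻¹ * g ∈ Subgroup.center G := by
      intro g
      rw [Subgroup.mem_center_iff]
      intro x
      have h2 := congrArg (fun k : MulAut G => k (f.symm x)) (hmil.2 f (MulAut.conj g))
      simp only [MulAut.mul_apply, MulAut.conj_apply, map_mul, map_inv] at h2
      have h3 : f (f.symm x) = x := MulEquiv.apply_symm_apply _ _
      rw [h3] at h2
      calc x * ((f g)⁻¹ * g) = (f g)⁻¹ * (f g * x * (f g)⁻¹) * g := by group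
        _ = (f g)⁻¹ * (g * x * g⁻¹) * g := by rw [h2]
        _ = (f g)⁻¹ * g * x := by group
    have h2 := h1 (φ.symm e)
    rw [hcen, map_mul, map_inv, hf, MulEquiv.apply_symm_apply, MulEquiv.apply_symm_apply,
      Gp.mul_val, Gp.inv_val] at h2
    simp only [map_add, map_neg, D.rj, add_zero] at h2
    have := neg_add_eq_zero.mp h2
    exact this
  have two : (2 : ZMod p) ≠ 0 := by
    intro h0
    have h1 : ((2 : ℕ) : ZMod p) = 0 := by exact_mod_cast h0
    rw [ZMod.natCast_eq_zero_iff] at h1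
    have := (Nat.prime_dvd_prime_iff_eq (Fact.out : p.Prime) Nat.prime_two).mp h1
    exact hp2 this
  have hS : ∀ v : V, v ≠ 0 → ∀ z : Z, ∃ u, D.b u v = z := by
    intro v hv z
    obtain ⟨e, he⟩ := D.rs v
    have h1 : φ.symm (⟨e⟩ : Gp D) ∉ Subgroup.center G := by
      rw [hcen, MulEquiv.apply_symm_apply]
      change ¬ D.r e = 0
      rw [he]; exact hv
    obtain ⟨y, hy⟩ := F5 _ h1 _ (hcc (z + z))
    have h2 := congrArg φ hy
    rw [map_mul, map_mul, map_mul, map_inv, MulEquiv.apply_symm_apply, MulEquiv.apply_symm_apply,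
      Gp.conj_eq] at h2
    have h3 := c_inj D (mul_left_cancel h2)
    change D.b (D.r (φ y).val) (D.r e) - D.b (D.r e) (D.r (φ y).val) = z + z at h3
    rw [halt (D.r e), sub_neg_eq_add, he] at h3
    refine ⟨D.r (φ y).val, ?_⟩
    rw [← two_smul (ZMod p), ← two_smul (ZMod p) z] at h3
    have h4 := congrArg (fun t => (2 : ZMod p)⁻¹ • t) h3
    simpa only [smul_smul, inv_mul_cancel₀ two, one_smul] using h4
  obtain ⟨f, l, t1, t2, t3, ⟨Φ⟩⟩ := fwd_core hp2 D hV π hpe halt hcard hS hfixc hfixr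
  refine ⟨f, l, t1, t2, t3, ?_, ⟨φ.trans Φ⟩⟩
  apply rigid_of_fix t1 l t3 smulRR
  intro ψ z
  apply fix_center (φ.trans Φ) F6
  rw [Subgroup.mem_center_iff]
  intro g
  exact Gp.c_comm g z

/-- the classification -/
theorem classification (p : ℕ) [Fact p.Prime] (hp2 : p ≠ 2) (G : Type) [Group G] [Finite G]
    (hG : IsPGroup p G) (hZ : Nat.card (Subgroup.center G) = p ^ 2) :
    (IsCamina G ∧ IsMiller G) ↔ ∃ (f : (ZMod p)[X]) (l : AdjoinRoot f →ₗ[ZMod p] ZMod p),
      f.Monic ∧ (∀ c, ¬ f.IsRoot c) ∧ Nondeg f l ∧ Rigid f l ∧ Nonempty (G ≃* GM f l) := by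
  constructor
  · rintro ⟨h1, h2⟩
    exact forward p hp2 G hG hZ h1 h2
  · rintro ⟨f, l, t1, t2, t3, t4, ⟨Φ⟩⟩
    obtain ⟨h1, h2⟩ := backward hp2 t1 t2 l t3 t4
    exact ⟨camina_iso Φ h1, miller_iso Φ h2⟩

end Helper620.CM
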