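import Mathlib
import Pool.Agent.Helper620.CamMilFwd

namespace Helper620.CM
open Polynomial

section
variable {V1 Z1 E1 V2 Z2 E2 : Type} [AddCommGroup V1] [AddCommGroup Z1] [AddCommGroup E1]
    [AddCommGroup V2] [AddCommGroup Z2] [AddCommGroup E2]

open Gp in
/-- an isomorphism of two groups `Gp D` induces an isomorphism of the data -/
theorem iso_data (D1 : Dat V1 Z1 E1) (D2 : Dat V2 Z2 E2)
    (H1 : ∀ v : V1, v ≠ 0 → ∀ z : Z1, ∃ u, om D1 u v = z) (hZ : ∃ z : Z1, z ≠ 0)
    (H1' : ∀ v : V2, v ≠ 0 → ∀ z : Z2, ∃ u, om D2 u v = z) (hZ' : ∃ z : Z2, z ≠ 0)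
    (p : ℕ) (P1 : V1 → Z1) (hP1 : ∀ e : Gp D1, e ^ p = c D1 (P1 (D1.r e.val)))
    (P2 : V2 → Z2) (hP2 : ∀ e : Gp D2, e ^ p = c D2 (P2 (D2.r e.val)))
    (φ : Gp D1 ≃* Gp D2) :
    ∃ (g : V1 →+ V2) (h : Z1 →+ Z2), Function.Bijective g ∧ Function.Bijective h ∧
      (∀ u v, om D2 (g u) (g v) = h (om D1 u v)) ∧ (∀ v, P2 (g v) = h (P1 v)) := by
  have hcen : ∀ x : Gp D1, x ∈ Subgroup.center (Gp D1) ↔ φ x ∈ Subgroup.center (Gp D2) := by
    intro x
    rw [Subgroup.mem_center_iff, Subgroup.mem_center_iff]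
    constructor
    · intro hx g
      have := congrArg φ (hx (φ.symm g))
      simpa using this
    · intro hx g
      have := hx (φ g)
      rw [← map_mul, ← map_mul] at this
      exact φ.injective this
  have hr0 : ∀ x : Gp D1, D1.r x.val = 0 ↔ D2.r (φ x).val = 0 := by
    intro x
    rw [← mem_center_iff D1 H1 hZ, ← mem_center_iff D2 H1' hZ', hcen]
  have hc : ∀ z, ∃ z', φ (c D1 z) = c D2 z' := by
    intro z
    have : D2.r (φ (c D1 z)).val = 0 := (hr0 _).mp (D1.rj z)
    obtain ⟨z', hz'⟩ := D2.ex _ this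
    exact ⟨z', by apply Gp.ext'; exact hz'.symm⟩
  choose h hh using hc
  have hadd : ∀ z w, h (z + w) = h z + h w := by
    intro z w
    apply c_inj D2
    rw [c_add, ← hh, ← hh, ← hh, c_add, map_mul]
  choose s0 hs0 using D1.rs
  let s : V1 → Gp D1 := fun v => ⟨s0 v⟩
  have hs : ∀ v, D1.r (s v).val = v := hs0
  have hR : ∀ e e' : Gp D1, D2.r (φ (e * e')).val = D2.r (φ e).val + D2.r (φ e').val := by
    intro e e'
    rw [map_mul, mul_val]
    simp [D2.rj]
  have hRc : ∀ z, D2.r (φ (c D1 z)).val = 0 := by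
    intro z; rw [hh]; exact D2.rj _
  have hRe : ∀ e e' : Gp D1, D1.r e.val = D1.r e'.val → D2.r (φ e).val = D2.r (φ e').val := by
    intro e e' he
    obtain ⟨z, hz⟩ := eq_of_r e e' he
    rw [hz, hR, hRc, add_zero]
  have gadd : ∀ u v, D2.r (φ (s (u + v))).val = D2.r (φ (s u)).val + D2.r (φ (s v)).val := by
    intro u v
    rw [← hR]
    apply hRe
    rw [hs, mul_val]
    simp [D1.rj, hs]
  let g : V1 →+ V2 := AddMonoidHom.mk' (fun v => D2.r (φ (s v)).val) gadd
  let h' : Z1 →+ Z2 := AddMonoidHom.mk' h hadd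
  have hg : ∀ v, g v = D2.r (φ (s v)).val := fun _ => rfl
  have hge : ∀ e : Gp D1, g (D1.r e.val) = D2.r (φ e).val := by
    intro e
    rw [hg]
    exact hRe _ _ (hs _)
  have hh' : ∀ z, h' z = h z := fun _ => rfl
  refine ⟨g, h', ⟨?_, ?_⟩, ⟨?_, ?_⟩, ?_, ?_⟩
  · rw [injective_iff_map_eq_zero]
    intro v hv
    rw [hg, ← hr0, hs] at hv
    exact hv
  · intro v
    obtain ⟨e, he⟩ := D2.rs v
    refine ⟨D1.r (φ.symm ⟨e⟩).val, ?_⟩
    rw [hge, MulEquiv.apply_symm_apply, he]
  · intro z w hzw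
    rw [hh', hh'] at hzw
    have : φ (c D1 z) = φ (c D1 w) := by rw [hh, hh, hzw]
    exact c_inj D1 (φ.injective this)
  · intro z
    have h1 : D1.r (φ.symm (c D2 z)).val = 0 := by
      rw [hr0, MulEquiv.apply_symm_apply]; exact D2.rj z
    obtain ⟨w, hw⟩ := D1.ex _ h1
    refine ⟨w, ?_⟩
    apply c_inj D2
    rw [hh', ← hh]
    have : c D1 w = φ.symm (c D2 z) := by apply Gp.ext'; exact hw
    rw [this, MulEquiv.apply_symm_apply]
  · intro u v
    apply c_inj D2
    have h1 := congrArg φ (mul_eq (s u) (s v))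
    rw [map_mul, map_mul, map_mul, hh, mul_eq (φ (s u)) (φ (s v)), hs, hs] at h1
    exact mul_left_cancel h1
  · intro v
    apply c_inj D2
    have h1 := congrArg φ (hP1 (s v))
    rw [map_pow, hP2, hh, hs] at h1
    exact h1

end

section
variable {p : ℕ} [Fact p.Prime] {f f' : (ZMod p)[X]}

/-- Equivalence of the pairs `(f, l)`, `(f', l')` under the matrix `(a b; c d) ∈ GL₂(F_p)` and the
algebra isomorphism `s : F_p[x]/(f) ≃ F_p[x']/(f')`: with `y = s x`,
`x' = (c + d y) / (a + b y)` and `l' ((a + b y) s r) = (a d - b c) l r` for all `r`. -/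
def Equi (f : (ZMod p)[X]) (l : AdjoinRoot f →ₗ[ZMod p] ZMod p)
    (f' : (ZMod p)[X]) (l' : AdjoinRoot f' →ₗ[ZMod p] ZMod p)
    (a b c d : ZMod p) (s : AdjoinRoot f ≃ₐ[ZMod p] AdjoinRoot f') : Prop :=
  a * d - b * c ≠ 0 ∧
    AdjoinRoot.root f' * (algebraMap _ _ a + algebraMap _ _ b * s (AdjoinRoot.root f))
      = algebraMap _ _ c + algebraMap _ _ d * s (AdjoinRoot.root f) ∧
    (∀ r, l' (s r * (algebraMap _ _ a + algebraMap _ _ b * s (AdjoinRoot.root f)))
      = (a * d - b * c) * l r)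

theorem equi_of_data (hf : f.Monic) (hf' : f'.Monic) (hroot : ∀ c : ZMod p, ¬ f.IsRoot c)
    (l : AdjoinRoot f →ₗ[ZMod p] ZMod p) (l' : AdjoinRoot f' →ₗ[ZMod p] ZMod p)
    (hl' : Nondeg f' l') [Nontrivial (AdjoinRoot f)] [Nontrivial (AdjoinRoot f')]
    (g : AdjoinRoot f × AdjoinRoot f →+ AdjoinRoot f' × AdjoinRoot f')
    (h : ZMod p × ZMod p →+ ZMod p × ZMod p)
    (hg : Function.Bijective g) (hh : Function.Injective h)
    (hb : ∀ u v, bM f' l' (g u) (g v) = h (bM f l u v))
    (hP : ∀ v, PM f' l' (g v) = h (PM f l v)) :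
    ∃ a b c d s, Equi f l f' l' a b c d s := by
  have : Module.Finite (ZMod p) (AdjoinRoot f) := hf.finite_adjoinRoot
  have : Finite (AdjoinRoot f) := Module.finite_of_finite (ZMod p)
  have : Module.Finite (ZMod p) (AdjoinRoot f') := hf'.finite_adjoinRoot
  have : Finite (AdjoinRoot f') := Module.finite_of_finite (ZMod p)
  set x := AdjoinRoot.root f with hx
  set x' := AdjoinRoot.root f' with hx'
  set a := (h (1, 0)).1 with ha
  set c := (h (1, 0)).2 with hc
  set b := (h (0, 1)).1 with hb'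
  set d := (h (0, 1)).2 with hd
  have hform : ∀ x y : ZMod p, h (x, y) = (a * x + b * y, c * x + d * y) := h_form h
  set A : AdjoinRoot f := algebraMap (ZMod p) _ a + algebraMap (ZMod p) _ b * x with hA
  set C' : AdjoinRoot f := algebraMap (ZMod p) _ c + algebraMap (ZMod p) _ d * x with hC
  have e1 : ∀ u v, l' (dR (g u) (g v)) = l (A * dR u v) := by
    intro u v
    have := congrArg Prod.fst (hb u v)
    rw [bM_apply, bM_apply, hform] at this
    rw [hA, l_lin]; exact this
  have e2 : ∀ u v, l' (x' * dR (g u) (g v)) = l (C' * dR u v) := by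
    intro u v
    have := congrArg Prod.snd (hb u v)
    rw [bM_apply, bM_apply, hform] at this
    rw [hC, l_lin]; exact this
  have hdet : a * d - b * c ≠ 0 := by
    intro h0
    have k1 : h (d, -c) = h (0, 0) := by
      rw [hform, hform]
      ext
      · simp; linear_combination h0
      · simp; ring
    have k2 : h (b, -a) = h (0, 0) := by
      rw [hform, hform]
      ext
      · simp; ring
      · simp; linear_combination -h0
    have k1' := hh k1
    have k2' := hh k2
    have ha0 : a = 0 := by simpa using congrArg Prod.snd k2'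
    have hc0 : c = 0 := by simpa using congrArg Prod.snd k1'
    have : h (1, 0) = h (0, 0) := by
      rw [hform, hform, ha0, hc0]; simp
    have := congrArg Prod.fst (hh this)
    exact one_ne_zero this
  have hAu : IsUnit A := unit_lin hroot a b (fun h0 => hdet (by rw [h0.1, h0.2]; ring))
  obtain ⟨A', hA'⟩ := hAu.exists_right_inv
  have hginj : Function.Injective g := hg.1
  have hst : ∀ u, g ((C' * A') • u) = x' • g u := by
    intro u
    rw [← sub_eq_zero]
    apply dR_nondeg l' hl'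
    intro w
    obtain ⟨v, hv⟩ := hg.2 w
    have hsub : dR (g ((C' * A') • u) - x' • g u) w = dR (g ((C' * A') • u)) w - x' * dR (g u) w := by
      simp only [dR, Prod.fst_sub, Prod.snd_sub, Prod.smul_fst, Prod.smul_snd, smul_eq_mul]; ring
    rw [hsub, map_sub, ← hv, e1, e2, dR_smul]
    have : A * (C' * A' * dR u v) = C' * dR u v := by linear_combination (C' * dR u v) * hA'
    rw [this, sub_self]
  have hex : ∀ k : AdjoinRoot f', ∃ k' : AdjoinRoot f, ∀ v, g (k' • v) = k • g v := by
    intro k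
    have hk : k ∈ Algebra.adjoin (ZMod p) {x'} := by rw [hx', AdjoinRoot.adjoinRoot_eq_top]; trivial
    induction hk using Algebra.adjoin_induction with
    | mem y hy =>
      rw [Set.mem_singleton_iff] at hy
      subst hy
      exact ⟨_, hst⟩
    | algebraMap r =>
      refine ⟨algebraMap (ZMod p) _ r, fun v => ?_⟩
      rw [algebraMap_smul, algebraMap_smul, ZMod.map_smul]
    | add x y _ _ hx hy =>
      obtain ⟨x', hx'⟩ := hx
      obtain ⟨y', hy'⟩ := hy
      exact ⟨x' + y', fun v => by rw [add_smul, map_add, hx', hy', add_smul]⟩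
    | mul x y _ _ hx hy =>
      obtain ⟨x', hx'⟩ := hx
      obtain ⟨y', hy'⟩ := hy
      exact ⟨x' * y', fun v => by rw [mul_smul, hx', hy', mul_smul]⟩
  choose τ hτ using hex
  have huniq : ∀ k1 k2 : AdjoinRoot f, (∀ v, g (k1 • v) = g (k2 • v)) → k1 = k2 := by
    intro k1 k2 h12
    have h1 := hginj (h12 (1, 0))
    simpa using congrArg Prod.fst h1
  let τr : AdjoinRoot f' →+* AdjoinRoot f :=
    { toFun := τ
      map_one' := huniq _ _ (fun v => by rw [hτ]; simp)
      map_zero' := huniq _ _ (fun v => by rw [hτ]; simp)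
      map_add' := fun x y => huniq _ _ (fun v => by
        rw [hτ, add_smul (τ x), map_add, hτ, hτ, add_smul])
      map_mul' := fun x y => huniq _ _ (fun v => by
        rw [hτ, mul_smul (τ x), hτ, hτ, mul_smul]) }
  let τA : AdjoinRoot f' →ₐ[ZMod p] AdjoinRoot f :=
    { τr with
      commutes' := fun r => RingHom.congr_fun
        (Subsingleton.elim (τr.comp (algebraMap (ZMod p) _)) (algebraMap (ZMod p) _)) r }
  have hτinj : Function.Injective τA := by
    rw [injective_iff_map_eq_zero]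
    intro k hk
    obtain ⟨v, hv⟩ := hg.2 (1, 0)
    have h1 := hτ k v
    have h2 : τ k = 0 := hk
    rw [h2, zero_smul, map_zero, hv] at h1
    simpa using (congrArg Prod.fst h1).symm
  have hcardR : Nat.card (AdjoinRoot f) = Nat.card (AdjoinRoot f') := by
    have h1 : Nat.card (AdjoinRoot f × AdjoinRoot f) = Nat.card (AdjoinRoot f' × AdjoinRoot f') :=
      Nat.card_congr (Equiv.ofBijective g hg)
    rw [Nat.card_prod, Nat.card_prod] at h1
    exact Nat.mul_self_inj.mp h1
  have hτbij : Function.Bijective τA :=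
    (Nat.bijective_iff_injective_and_card τA).mpr ⟨hτinj, hcardR.symm⟩
  let T : AdjoinRoot f' ≃ₐ[ZMod p] AdjoinRoot f := AlgEquiv.ofBijective τA hτbij
  have hT : ∀ k v, g (T k • v) = k • g v := hτ
  have hTx : T x' = C' * A' := huniq _ _ (fun v => by rw [hT, hst])
  set s := T.symm with hs
  have hsg : ∀ r v, g (r • v) = s r • g v := by
    intro r v
    have := hT (s r) v
    rwa [hs, AlgEquiv.apply_symm_apply] at this
  have hsA : s A = algebraMap (ZMod p) _ a + algebraMap (ZMod p) _ b * s x := by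
    rw [hA, map_add, map_mul, AlgEquiv.commutes, AlgEquiv.commutes]
  have hsC : s C' = algebraMap (ZMod p) _ c + algebraMap (ZMod p) _ d * s x := by
    rw [hC, map_add, map_mul, AlgEquiv.commutes, AlgEquiv.commutes]
  have hxA : x' * s A = s C' := by
    have h1 : x' = s (C' * A') := by rw [← hTx, hs, AlgEquiv.symm_apply_apply]
    have h2 : s A * s A' = 1 := by rw [← map_mul, hA', map_one]
    rw [map_mul] at h1
    calc x' * s A = (s C' * s A') * s A := by rw [← h1]
      _ = s C' := by linear_combination (s C') * h2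
  -- theta
  obtain ⟨θ, hθ⟩ := frob hf' l' hl' (l.comp (T.toLinearMap))
  have hθ' : ∀ r, l' (s r * θ) = l r := by
    intro r
    rw [hθ]
    change l (T (s r)) = l r
    rw [hs, AlgEquiv.apply_symm_apply]
  set α := (g (1, 0)).1 with hα
  set γ := (g (1, 0)).2 with hγ
  set β := (g (0, 1)).1 with hβ
  set δ := (g (0, 1)).2 with hδ
  have hg1 : ∀ y z, g (y, z) = (s y * α + s z * β, s y * γ + s z * δ) := by
    intro y z
    have : (y, z) = y • ((1, 0) : AdjoinRoot f × AdjoinRoot f) + z • (0, 1) := by simp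
    rw [this, map_add, hsg, hsg]
    ext <;> simp [hα, hβ, hγ, hδ]
  have hP' : ∀ y z, (l' (s y * γ + s z * δ), - l' (s y * α + s z * β)) =
      (a * l z + b * (- l y), c * l z + d * (- l y)) := by
    intro y z
    have h1 := hP (y, z)
    rw [hg1, PM_apply, PM_apply, hform] at h1
    exact h1
  have heq : ∀ (κ : ZMod p) (y : AdjoinRoot f'), (∀ r, l' (s r * y) = κ * l r) →
      y = algebraMap (ZMod p) _ κ * θ := by
    intro κ y hy
    rw [← sub_eq_zero]
    apply hl'
    intro r
    have h1 : (y - algebraMap (ZMod p) _ κ * θ) * r = s (T r) * y - κ • (s (T r) * θ) := by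
      rw [hs, AlgEquiv.symm_apply_apply, Algebra.smul_def]; ring
    rw [h1, map_sub, map_smul, hy, hθ', smul_eq_mul, sub_self]
  have hγ' : γ = algebraMap (ZMod p) _ (-b) * θ := heq _ _ (fun r => by
    have := congrArg Prod.fst (hP' r 0)
    simp only [map_zero, zero_mul, add_zero, mul_zero, zero_add] at this
    rw [this]; ring)
  have hα' : α = algebraMap (ZMod p) _ d * θ := heq _ _ (fun r => by
    have := congrArg Prod.snd (hP' r 0)
    simp only [map_zero, zero_mul, add_zero, mul_zero, zero_add] at this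
    linear_combination -this)
  have hδ' : δ = algebraMap (ZMod p) _ a * θ := heq _ _ (fun r => by
    have := congrArg Prod.fst (hP' 0 r)
    simp only [map_zero, zero_mul, neg_zero, mul_zero, zero_add, add_zero] at this
    exact this)
  have hβ' : β = algebraMap (ZMod p) _ (-c) * θ := heq _ _ (fun r => by
    have := congrArg Prod.snd (hP' 0 r)
    simp only [map_zero, zero_mul, neg_zero, mul_zero, zero_add, add_zero] at this
    linear_combination -this)
  have hdd : ∀ r, l' (s r * (α * δ - γ * β)) = l (A * r) := by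
    intro r
    have h1 := e1 (r, 0) (0, 1)
    rw [hg1, hg1] at h1
    simp only [dR, map_zero, map_one, zero_mul, one_mul, add_zero, zero_add, mul_zero, mul_one,
      sub_zero] at h1
    rw [← h1]
    congr 1
    ring
  have hθA : algebraMap (ZMod p) _ (a * d - b * c) * (θ * θ) = s A * θ := by
    rw [← sub_eq_zero]
    apply hl'
    intro r
    have h1 := hdd (T r)
    have h2 : (algebraMap (ZMod p) (AdjoinRoot f') (a * d - b * c) * (θ * θ) - s A * θ) * r
        = s (T r) * (α * δ - γ * β) - s (A * T r) * θ := by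
      rw [map_mul, hs, AlgEquiv.symm_apply_apply, hα', hδ', hγ', hβ', map_sub, map_mul, map_mul, map_neg, map_neg]
      ring
    rw [h2, map_sub, h1, hθ', sub_self]
  have hθreg : ∀ k, k * θ = 0 → k = 0 := by
    intro k hk
    -- s, T bijective; use nondegeneracy of l' and bijectivity of g
    have hgz : ∀ y z, k • g (y, z) = 0 := by
      intro y z
      rw [hg1, hα', hβ', hγ', hδ']
      apply Prod.ext
      · change k * _ = 0
        linear_combination (s y * algebraMap (ZMod p) _ d + s z * algebraMap (ZMod p) _ (-c)) * hk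
      · change k * _ = 0
        linear_combination (s y * algebraMap (ZMod p) _ (-b) + s z * algebraMap (ZMod p) _ a) * hk
    obtain ⟨⟨y, z⟩, hyz⟩ := hg.2 (1, 0)
    have h1 := hgz y z
    rw [hyz] at h1
    simpa using congrArg Prod.fst h1
  have hθA' : algebraMap (ZMod p) _ (a * d - b * c) * θ = s A := by
    rw [← sub_eq_zero]
    apply hθreg
    linear_combination hθA
  refine ⟨a, b, c, d, s, hdet, by rw [← hx, ← hx', ← hsA, ← hsC, hxA], ?_⟩
  intro r
  rw [← hx, ← hsA, ← hθA']
  have : s r * (algebraMap (ZMod p) (AdjoinRoot f') (a * d - b * c) * θ)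
      = (a * d - b * c) • (s r * θ) := by rw [Algebra.smul_def]; ring
  rw [this, map_smul, hθ', smul_eq_mul]

theorem iso_of_equi (hf : f.Monic) (hf' : f'.Monic)
    (l : AdjoinRoot f →ₗ[ZMod p] ZMod p) (l' : AdjoinRoot f' →ₗ[ZMod p] ZMod p)
    (hl : Nondeg f l)
    (a b c d : ZMod p) (s : AdjoinRoot f ≃ₐ[ZMod p] AdjoinRoot f')
    (hE : Equi f l f' l' a b c d s) : Nonempty (GM f l ≃* GM f' l') := by
  obtain ⟨hdet, hx, hls⟩ := hE
  have : Module.Finite (ZMod p) (AdjoinRoot f) := hf.finite_adjoinRoot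
  have : Finite (AdjoinRoot f) := Module.finite_of_finite (ZMod p)
  have : Module.Finite (ZMod p) (AdjoinRoot f') := hf'.finite_adjoinRoot
  have : Finite (AdjoinRoot f') := Module.finite_of_finite (ZMod p)
  set x := AdjoinRoot.root f with hxdef
  set x' := AdjoinRoot.root f' with hxdef'
  set Δ := a * d - b * c with hΔ
  set θ := algebraMap (ZMod p) (AdjoinRoot f') Δ⁻¹ * (algebraMap _ _ a + algebraMap _ _ b * s x) with hθ
  have hθΔ : algebraMap (ZMod p) (AdjoinRoot f') Δ * θ = algebraMap _ _ a + algebraMap _ _ b * s x := by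
    rw [hθ, ← mul_assoc, ← map_mul, mul_inv_cancel₀ hdet, map_one, one_mul]
  have hlθ : ∀ r, l' (θ * s r) = l r := by
    intro r
    have e : θ * s r = Δ⁻¹ • (s r * (algebraMap _ _ a + algebraMap _ _ b * s x)) := by
      rw [Algebra.smul_def, hθ]; ring
    rw [e, map_smul, hls, smul_eq_mul, ← mul_assoc, inv_mul_cancel₀ hdet, one_mul]
  let h1 : ZMod p × ZMod p →+ ZMod p × ZMod p :=
    AddMonoidHom.mk' (fun z => (a * z.1 + b * z.2, c * z.1 + d * z.2)) (by
      intro z w
      ext
      · simp; ring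
      · simp; ring)
  have hh1 : ∀ z, h1 z = (a * z.1 + b * z.2, c * z.1 + d * z.2) := fun _ => rfl
  have h1inj : Function.Injective h1 := by
    rw [injective_iff_map_eq_zero]
    rintro ⟨y, z⟩ h0
    rw [hh1] at h0
    have q1 : a * y + b * z = 0 := congrArg Prod.fst h0
    have q2 : c * y + d * z = 0 := congrArg Prod.snd h0
    have q3 : Δ * y = 0 := by rw [hΔ]; linear_combination d * q1 - b * q2
    have q4 : Δ * z = 0 := by rw [hΔ]; linear_combination a * q2 - c * q1
    have q5 := (mul_eq_zero.mp q3).resolve_left hdet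
    have q6 := (mul_eq_zero.mp q4).resolve_left hdet
    rw [q5, q6]; rfl
  let g1 : AdjoinRoot f × AdjoinRoot f →+ AdjoinRoot f' × AdjoinRoot f' :=
    AddMonoidHom.mk' (fun v => (θ * (algebraMap _ _ d * s v.1 - algebraMap _ _ c * s v.2),
      θ * (algebraMap _ _ a * s v.2 - algebraMap _ _ b * s v.1))) (by
      intro z w
      ext
      · simp only [Prod.fst_add, Prod.snd_add, map_add]; ring
      · simp only [Prod.fst_add, Prod.snd_add, map_add]; ring)
  have hg1 : ∀ v, g1 v = (θ * (algebraMap _ _ d * s v.1 - algebraMap _ _ c * s v.2),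
      θ * (algebraMap _ _ a * s v.2 - algebraMap _ _ b * s v.1)) := fun _ => rfl
  have hdR : ∀ u v, dR (g1 u) (g1 v) = θ * (algebraMap _ _ Δ * θ) * s (dR u v) := by
    intro u v
    rw [hg1, hg1, hΔ]
    simp only [dR, map_sub, map_mul]
    ring
  have hb : ∀ u v, bM f' l' (g1 u) (g1 v) = h1 (bM f l u v) := by
    intro u v
    rw [bM_apply, bM_apply, hh1, hdR, hθΔ]
    ext
    · have e : θ * (algebraMap _ _ a + algebraMap _ _ b * s x) * s (dR u v)
          = θ * s ((algebraMap _ _ a + algebraMap _ _ b * x) * dR u v) := by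
        rw [map_mul, map_add, map_mul, AlgEquiv.commutes, AlgEquiv.commutes]; ring
      simp only
      rw [e, hlθ, l_lin]
    · have e : x' * (θ * (algebraMap _ _ a + algebraMap _ _ b * s x) * s (dR u v))
          = θ * s ((algebraMap _ _ c + algebraMap _ _ d * x) * dR u v) := by
        rw [map_mul, map_add, map_mul, AlgEquiv.commutes, AlgEquiv.commutes]
        linear_combination (θ * s (dR u v)) * hx
      simp only
      rw [e, hlθ, l_lin]
  have hP : ∀ v, PM f' l' (g1 v) = h1 (PM f l v) := by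
    intro v
    rw [PM_apply, PM_apply, hh1, hg1]
    have e1 : θ * (algebraMap _ _ a * s v.2 - algebraMap _ _ b * s v.1) =
        a • (θ * s v.2) - b • (θ * s v.1) := by
      rw [Algebra.smul_def, Algebra.smul_def]; ring
    have e2 : θ * (algebraMap _ _ d * s v.1 - algebraMap _ _ c * s v.2) =
        d • (θ * s v.1) - c • (θ * s v.2) := by
      rw [Algebra.smul_def, Algebra.smul_def]; ring
    simp only
    rw [e1, e2, map_sub, map_sub, map_smul, map_smul, map_smul, map_smul, hlθ, hlθ]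
    ext
    · simp; ring
    · simp; ring
  have g1inj : Function.Injective g1 := by
    rw [injective_iff_map_eq_zero]
    intro u hu
    apply dR_nondeg l hl
    intro w
    have h2 := hb u w
    rw [hu, map_zero, AddMonoidHom.zero_apply] at h2
    have h3 : bM f l u w = 0 := by
      apply h1inj
      rw [← h2, map_zero]
    exact congrArg Prod.fst h3
  have hcardR : Nat.card (AdjoinRoot f × AdjoinRoot f) = Nat.card (AdjoinRoot f' × AdjoinRoot f') := by
    rw [Nat.card_prod, Nat.card_prod, Nat.card_congr s.toEquiv]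
  let gE : (AdjoinRoot f × AdjoinRoot f) ≃+ (AdjoinRoot f' × AdjoinRoot f') :=
    AddEquiv.ofBijective g1 ((Nat.bijective_iff_injective_and_card g1).mpr ⟨g1inj, hcardR⟩)
  let hE : (ZMod p × ZMod p) ≃+ (ZMod p × ZMod p) :=
    AddEquiv.ofBijective h1 ⟨h1inj, Finite.surjective_of_injective h1inj⟩
  obtain ⟨ψ, _, _⟩ := lift_iso (DG p (PM f l) (bM f l)) (DG p (PM f' l') (bM f' l')) p smulRR
    (PM f l) (PM f' l') (p_smul_G p smulRR (PM f l) (bM f l))
    (p_smul_G p smulRR (PM f' l') (bM f' l')) gE hE hb hP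
  exact ⟨ψ⟩

theorem two_ne (hp2 : p ≠ 2) : (2 : ZMod p) ≠ 0 := by
  intro h0
  have h1 : ((2 : ℕ) : ZMod p) = 0 := by exact_mod_cast h0
  rw [ZMod.natCast_eq_zero_iff] at h1
  have := (Nat.prime_dvd_prime_iff_eq (Fact.out : p.Prime) Nat.prime_two).mp h1
  exact hp2 this

/-- isomorphism criterion -/
theorem iso_iff (hp2 : p ≠ 2) (hf : f.Monic) (hf' : f'.Monic)
    (hroot : ∀ c : ZMod p, ¬ f.IsRoot c) (hroot' : ∀ c : ZMod p, ¬ f'.IsRoot c)
    (l : AdjoinRoot f →ₗ[ZMod p] ZMod p) (l' : AdjoinRoot f' →ₗ[ZMod p] ZMod p)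
    (hl : Nondeg f l) (hl' : Nondeg f' l')
    [Nontrivial (AdjoinRoot f)] [Nontrivial (AdjoinRoot f')] :
    Nonempty (GM f l ≃* GM f' l') ↔ ∃ a b c d s, Equi f l f' l' a b c d s := by
  constructor
  · rintro ⟨φ⟩
    have two := two_ne hp2
    have H1 : ∀ v : AdjoinRoot f × AdjoinRoot f, v ≠ 0 → ∀ z, ∃ u, Gp.om (DG p (PM f l) (bM f l)) u v = z := by
      intro v hv z
      obtain ⟨u, hu⟩ := H1M hp2 hroot l hl v hv ((2 : ZMod p)⁻¹ • z)
      refine ⟨u, ?_⟩
      rw [omM, hu, smul_smul, mul_inv_cancel₀ two, one_smul]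
    have H1' : ∀ v : AdjoinRoot f' × AdjoinRoot f', v ≠ 0 → ∀ z, ∃ u, Gp.om (DG p (PM f' l') (bM f' l')) u v = z := by
      intro v hv z
      obtain ⟨u, hu⟩ := H1M hp2 hroot' l' hl' v hv ((2 : ZMod p)⁻¹ • z)
      refine ⟨u, ?_⟩
      rw [omM, hu, smul_smul, mul_inv_cancel₀ two, one_smul]
    have hZ : ∃ z : ZMod p × ZMod p, z ≠ 0 := ⟨(1, 0), fun h => one_ne_zero (congrArg Prod.fst h)⟩
    obtain ⟨g, h, hg, hh, hom, hP⟩ := iso_data _ _ H1 hZ H1' hZ p (PM f l)
      (pow_G p smulRR hp2 (PM f l) (bM f l)) (PM f' l') (pow_G p smulRR hp2 (PM f' l') (bM f' l')) φ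
    refine equi_of_data hf hf' hroot l l' hl' g h hg hh.1 (fun u v => ?_) hP
    have h1 := hom u v
    rw [omM, omM, ZMod.map_smul] at h1
    have h2 := congrArg (fun z => (2 : ZMod p)⁻¹ • z) h1
    simpa only [smul_smul, inv_mul_cancel₀ two, one_smul] using h2
  · rintro ⟨a, b, c, d, s, hE⟩
    exact iso_of_equi hf hf' l l' hl a b c d s hE

end
end Helper620.CM
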