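import Mathlib
import Pool.Agent.Helper620.CamMilIso

namespace Helper620.CM
open Polynomial

end Helper620.CM

namespace Helper620.CM

/-- counting lemma over a finite field -/
theorem count_lemma (p : ℕ) [Fact p.Prime] (K : Type) [Field K] [Finite K] [Algebra (ZMod p) K]
    (hn : 3 ≤ Module.finrank (ZMod p) K) (t : (K ≃ₐ[ZMod p] K) → K) :
    ∃ δ : K, δ ≠ 0 ∧ ∀ s : K ≃ₐ[ZMod p] K, s ≠ 1 → ∀ μ : ZMod p,
      s δ ≠ (algebraMap (ZMod p) K μ * t s) * δ := by
  classical
  have : Fintype K := Fintype.ofFinite K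
  have : FiniteDimensional (ZMod p) K := inferInstance
  have : Fintype (K ≃ₐ[ZMod p] K) := Fintype.ofFinite _
  by_contra hcon
  push Not at hcon
  have hp : p.Prime := Fact.out
  have hp2 := hp.two_le
  set n := Module.finrank (ZMod p) K with hndef
  have hcardK : Fintype.card K = p ^ n := by
    rw [Module.card_eq_pow_finrank (K := ZMod p) (V := K), ZMod.card]
  have hG : Fintype.card (K ≃ₐ[ZMod p] K) = n := by
    rw [← Nat.card_eq_fintype_card]; exact IsGalois.card_aut_eq_finrank _ _
  have hW : ∀ s : K ≃ₐ[ZMod p] K, s ≠ 1 → ∀ c : K,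
      (Finset.univ.filter (fun δ : K => δ ≠ 0 ∧ s δ = c * δ)).card ≤ p ^ (n/2) - 1 := by
    intro s hs c
    by_cases hne : ∃ d0 : K, d0 ≠ 0 ∧ s d0 = c * d0
    · obtain ⟨d0, hd0, hsd0⟩ := hne
      have hc : c ≠ 0 := by
        rintro rfl
        rw [zero_mul] at hsd0
        exact hd0 (by simpa using hsd0)
      let F := IntermediateField.fixedField (Subgroup.zpowers s)
      have hFm : ∀ x : K, s x = x → x ∈ F := by
        intro x hx
        rw [IntermediateField.mem_fixedField_iff]
        have : Subgroup.zpowers s ≤ MulAction.stabilizer (K ≃ₐ[ZMod p] K) x := by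
          rw [Subgroup.zpowers_le, MulAction.mem_stabilizer_iff]
          exact hx
        intro f hf
        exact MulAction.mem_stabilizer_iff.mp (this hf)
      have hfr : Module.finrank (ZMod p) F ≤ n / 2 := by
        have h1 := Module.finrank_mul_finrank (ZMod p) F K
        have h2 : Module.finrank F K = Nat.card (Subgroup.zpowers s) :=
          IntermediateField.finrank_fixedField_eq_card _
        have h3 : 1 < Nat.card (Subgroup.zpowers s) := by
          rw [Subgroup.one_lt_card_iff_ne_bot]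
          rwa [Ne, Subgroup.zpowers_eq_bot]
        rw [Nat.le_div_iff_mul_le (by norm_num)]
        rw [hndef, ← h1, h2]
        exact Nat.mul_le_mul_left _ h3
      have hcF : (Finset.univ.filter (fun x : K => x ∈ F)).card ≤ p ^ (n/2) := by
        have h1 : (Finset.univ.filter (fun x : K => x ∈ F)).card = Fintype.card F := by
          rw [Fintype.card_subtype]
        rw [h1, Module.card_eq_pow_finrank (K := ZMod p) (V := F), ZMod.card]
        exact Nat.pow_le_pow_right (by omega) hfr
      have hle : (Finset.univ.filter (fun δ : K => δ ≠ 0 ∧ s δ = c * δ)).card ≤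
          ((Finset.univ.filter (fun x : K => x ∈ F)).erase 0).card := by
        apply Finset.card_le_card_of_injOn (fun δ => δ / d0)
        · intro δ hδ
          simp only [Finset.coe_filter, Finset.mem_univ, true_and, Set.mem_setOf_eq] at hδ
          simp only [Finset.coe_erase, Finset.coe_filter, Finset.mem_univ, true_and,
            Set.mem_diff, Set.mem_setOf_eq, Set.mem_singleton_iff]
          refine ⟨hFm _ ?_, div_ne_zero hδ.1 hd0⟩
          rw [map_div₀, hδ.2, hsd0, mul_div_mul_left _ _ hc]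
        · intro a _ b _ hab
          simpa [div_left_inj' hd0] using hab
      refine hle.trans ?_
      rw [Finset.card_erase_of_mem (by simp)]
      omega
    · rw [Finset.filter_eq_empty_iff.mpr]
      · simp
      · intro x _ hx
        exact hne ⟨x, hx⟩
  have hsub : (Finset.univ.erase (0 : K)) ⊆
      (Finset.univ.erase (1 : K ≃ₐ[ZMod p] K)).biUnion (fun s =>
        (Finset.univ.erase (0 : ZMod p)).biUnion (fun μ =>
          Finset.univ.filter (fun δ : K => δ ≠ 0 ∧ s δ = (algebraMap (ZMod p) K μ * t s) * δ))) := by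
    intro δ hδ
    have hδ0 : δ ≠ 0 := by simpa using hδ
    obtain ⟨s, hs, μ, hμ⟩ := hcon δ hδ0
    simp only [Finset.mem_biUnion, Finset.mem_erase, Finset.mem_univ, and_true,
      Finset.mem_filter, true_and]
    refine ⟨s, hs, μ, ?_, hδ0, hμ⟩
    rintro rfl
    rw [map_zero, zero_mul, zero_mul] at hμ
    exact hδ0 (by simpa using hμ)
  have hcard := Finset.card_le_card hsub
  rw [Finset.card_erase_of_mem (Finset.mem_univ _), Finset.card_univ, hcardK] at hcard
  have hb : ((Finset.univ.erase (1 : K ≃ₐ[ZMod p] K)).biUnion (fun s =>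
        (Finset.univ.erase (0 : ZMod p)).biUnion (fun μ =>
          Finset.univ.filter (fun δ : K => δ ≠ 0 ∧ s δ = (algebraMap (ZMod p) K μ * t s) * δ)))).card
      ≤ (n - 1) * ((p - 1) * (p ^ (n/2) - 1)) := by
    have e1 : (Finset.univ.erase (1 : K ≃ₐ[ZMod p] K)).card = n - 1 := by
      rw [Finset.card_erase_of_mem (Finset.mem_univ _), Finset.card_univ, hG]
    have e2 : (Finset.univ.erase (0 : ZMod p)).card = p - 1 := by
      rw [Finset.card_erase_of_mem (Finset.mem_univ _), Finset.card_univ, ZMod.card]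
    rw [← e1, ← e2]
    apply Finset.card_biUnion_le_card_mul
    intro s hs
    apply Finset.card_biUnion_le_card_mul
    intro μ _
    exact hW s (by simpa using hs) _
  have hfin := hcard.trans hb
  -- arithmetic
  obtain ⟨m, hm⟩ : ∃ m, m = n - n / 2 := ⟨_, rfl⟩
  have hm2 : 2 ≤ m := by omega
  have hnm : n = m + n / 2 := by omega
  have a1 : ∀ k : ℕ, 2 * (k + 2) - 1 ≤ 2 ^ (k + 2) := by
    intro k
    induction k with
    | zero => norm_num
    | succ k ih =>
      rw [show k + 1 + 2 = (k + 2) + 1 from rfl, pow_succ]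
      have : 4 ≤ 2 ^ (k + 2) := by
        calc 4 = 2 ^ 2 := by norm_num
          _ ≤ 2 ^ (k+2) := Nat.pow_le_pow_right (by norm_num) (by omega)
      omega
  have a2 : n - 1 ≤ 2 ^ m := by
    have := a1 (m - 2)
    rw [show m - 2 + 2 = m by omega] at this
    omega
  have a3 : ∀ k : ℕ, 2 ^ (k + 2) * (p - 1) ≤ p ^ (k + 2) := by
    intro k
    induction k with
    | zero =>
      obtain ⟨q, rfl⟩ : ∃ q, p = q + 2 := ⟨p - 2, by omega⟩
      simp only [zero_add]
      rw [show q + 2 - 1 = q + 1 by omega]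
      nlinarith
    | succ k ih =>
      rw [show k + 1 + 2 = (k + 2) + 1 from rfl, pow_succ, pow_succ]
      calc 2 ^ (k + 2) * 2 * (p - 1) = (2 ^ (k + 2) * (p - 1)) * 2 := by ring
        _ ≤ p ^ (k + 2) * p := Nat.mul_le_mul ih hp2
  have a4 : (n - 1) * (p - 1) ≤ p ^ m := by
    have := a3 (m - 2)
    rw [show m - 2 + 2 = m by omega] at this
    exact (Nat.mul_le_mul_right _ a2).trans this
  have a5 : (n - 1) * ((p - 1) * (p ^ (n/2) - 1)) ≤ p ^ m * (p ^ (n/2) - 1) := by
    rw [← mul_assoc]
    exact Nat.mul_le_mul_right _ a4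
  have a6 : p ^ m * (p ^ (n/2) - 1) = p ^ n - p ^ m := by
    rw [Nat.mul_sub, ← pow_add, ← hnm, mul_one]
  have a7 : 2 ≤ p ^ m := by
    calc 2 ≤ p := hp2
      _ = p ^ 1 := (pow_one p).symm
      _ ≤ p ^ m := Nat.pow_le_pow_right (by omega) (by omega)
  have a8 : p ^ m ≤ p ^ n := Nat.pow_le_pow_right (by omega) (by omega)
  rw [a6] at a5
  omega

end Helper620.CM

namespace Helper620.CM
open Polynomial

theorem card_adj {p : ℕ} [Fact p.Prime] {f : (ZMod p)[X]} (hf : f.Monic) :
    Nat.card (AdjoinRoot f) = p ^ f.natDegree := by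
  have : Module.Finite (ZMod p) (AdjoinRoot f) := hf.finite_adjoinRoot
  have h1 : Nat.card (AdjoinRoot f) = Nat.card (ZMod p) ^ Module.finrank (ZMod p) (AdjoinRoot f) :=
    Module.natCard_eq_pow_finrank
  rw [h1, Nat.card_zmod, (AdjoinRoot.powerBasis' hf).finrank, AdjoinRoot.powerBasis'_dim]

theorem exists_rigid (p : ℕ) [Fact p.Prime] (n : ℕ) (hn : 3 ≤ n) :
    ∃ (f : (ZMod p)[X]) (l : AdjoinRoot f →ₗ[ZMod p] ZMod p),
      f.Monic ∧ (∀ c, ¬ f.IsRoot c) ∧ Nondeg f l ∧ Rigid f l ∧ f.natDegree = n := by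
  obtain ⟨t0, h1, h2⟩ := exists_gen p n (by omega)
  have hfn : Module.finrank (ZMod p) (GaloisField p n) = n := GaloisField.finrank p (by omega)
  rw [hfn] at h2
  set f := minpoly (ZMod p) t0 with hf
  have hmonic : f.Monic := minpoly.monic (Algebra.IsIntegral.isIntegral t0)
  have hirr : Irreducible f := minpoly.irreducible (Algebra.IsIntegral.isIntegral t0)
  have hroot : ∀ c, ¬ f.IsRoot c := by
    intro c hc
    have h7 : f.natDegree = 1 :=
      natDegree_eq_of_degree_eq_some (degree_eq_one_of_irreducible_of_root hirr hc)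
    rw [h2] at h7
    rw [h7] at hn
    exact absurd hn (by decide)
  have : Fact (Irreducible f) := ⟨hirr⟩
  have hmf : Module.Finite (ZMod p) (AdjoinRoot f) := hmonic.finite_adjoinRoot
  have hfin : Finite (AdjoinRoot f) := Module.finite_of_finite (ZMod p)
  have hfr : Module.finrank (ZMod p) (AdjoinRoot f) = n := by
    rw [(AdjoinRoot.powerBasis' hmonic).finrank, AdjoinRoot.powerBasis'_dim, h2]
  set x := AdjoinRoot.root f with hx
  have hquad : ∀ u v w : ZMod p, algebraMap (ZMod p) (AdjoinRoot f) u * x ^ 2 +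
      algebraMap _ _ v * x + algebraMap _ _ w = 0 → u = 0 ∧ v = 0 ∧ w = 0 := by
    intro u v w h0
    have h3 : AdjoinRoot.mk f (C u * X ^ 2 + C v * X + C w) = 0 := by
      rw [map_add, map_add, map_mul, map_mul, map_pow, AdjoinRoot.mk_X, AdjoinRoot.mk_C,
        AdjoinRoot.mk_C, AdjoinRoot.mk_C]
      exact h0
    rw [AdjoinRoot.mk_eq_zero] at h3
    have h4 : (C u * X ^ 2 + C v * X + C w : (ZMod p)[X]) = 0 := by
      by_contra hne
      have h5 := natDegree_le_of_dvd h3 hne
      have h6 : (C u * X ^ 2 + C v * X + C w : (ZMod p)[X]).natDegree ≤ 2 := natDegree_quadratic_le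
      omega
    refine ⟨?_, ?_, ?_⟩
    · have := congrArg (fun q => q.coeff 2) h4
      simpa [coeff_X, coeff_C] using this
    · have := congrArg (fun q => q.coeff 1) h4
      simpa [coeff_X_pow, coeff_C] using this
    · have := congrArg (fun q => q.coeff 0) h4
      simpa using this
  classical
  let Good : (AdjoinRoot f ≃ₐ[ZMod p] AdjoinRoot f) → ZMod p × ZMod p × ZMod p × ZMod p → Prop :=
    fun s q => q.1 * q.2.2.2 - q.2.1 * q.2.2.1 ≠ 0 ∧
      x * (algebraMap _ _ q.1 + algebraMap _ _ q.2.1 * s x)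
        = algebraMap _ _ q.2.2.1 + algebraMap _ _ q.2.2.2 * s x
  let t : (AdjoinRoot f ≃ₐ[ZMod p] AdjoinRoot f) → AdjoinRoot f := fun s =>
    if h : ∃ q, Good s q then
      (algebraMap _ _ h.choose.1 + algebraMap _ _ h.choose.2.1 * s x) *
        algebraMap (ZMod p) _ (h.choose.1 * h.choose.2.2.2 - h.choose.2.1 * h.choose.2.2.1)⁻¹
    else 0
  obtain ⟨δ, hδ0, hδ⟩ := count_lemma p (AdjoinRoot f) (by rw [hfr]; exact hn) t
  let l : AdjoinRoot f →ₗ[ZMod p] ZMod p := (Tr p (AdjoinRoot f)) ∘ₗ (LinearMap.mulLeft (ZMod p) δ)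
  have hl : ∀ r, l r = Tr p (AdjoinRoot f) (δ * r) := fun _ => rfl
  refine ⟨f, l, hmonic, hroot, ?_, ?_, h2⟩
  · intro r hr
    have h3 : δ * r = 0 := by
      apply tr_nondeg (p := p)
      intro y
      have := hr y
      rw [hl] at this
      rw [← this]
      congr 1
      ring
    exact (mul_eq_zero.mp h3).resolve_left hδ0
  · intro a b c d s hdet h1x h2l
    rw [← hx] at h1x h2l
    have key : δ * (algebraMap _ _ a + algebraMap _ _ b * s x) = algebraMap _ _ (a * d - b * c) * s δ := by
      rw [← sub_eq_zero]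
      apply tr_nondeg (p := p)
      intro y
      obtain ⟨r, rfl⟩ := s.surjective y
      have h3 := h2l r
      rw [hl, hl] at h3
      have e1 : s r * (δ * (algebraMap _ _ a + algebraMap _ _ b * s x) - algebraMap _ _ (a * d - b * c) * s δ)
          = δ * (s r * (algebraMap _ _ a + algebraMap _ _ b * s x)) - (a * d - b * c) • s (δ * r) := by
        rw [map_mul, Algebra.smul_def]; ring
      rw [e1, map_sub, h3, map_smul, Algebra.trace_eq_of_algEquiv, smul_eq_mul, sub_self]
    by_cases hs : s = 1
    · subst hs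
      rw [AlgEquiv.one_apply] at h1x key
      rw [AlgEquiv.one_apply] at key
      obtain ⟨q1, q2, q3⟩ := hquad b (a - d) (-c) (by
        rw [map_sub, map_neg]; linear_combination h1x)
      have q3' : c = 0 := neg_eq_zero.mp q3
      have q2' : a = d := sub_eq_zero.mp q2
      subst q1 q3' q2'
      have h4 : algebraMap (ZMod p) (AdjoinRoot f) a = algebraMap _ _ (a * a) := by
        apply mul_left_cancel₀ hδ0
        have := key
        simp only [map_zero, zero_mul, add_zero, mul_zero, sub_zero] at this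
        rw [this]; ring
      have h5 : a = a * a := (algebraMap (ZMod p) (AdjoinRoot f)).injective h4
      have ha : a ≠ 0 := by
        rintro rfl
        simp at hdet
      have h6 : a = 1 := by
        apply mul_left_cancel₀ ha
        rw [← h5, mul_one]
      exact ⟨h6, rfl, rfl, h6⟩
    · exfalso
      have hex : ∃ q, Good s q := ⟨(a, b, c, d), hdet, h1x⟩
      have ht : t s = (algebraMap _ _ hex.choose.1 + algebraMap _ _ hex.choose.2.1 * s x) *
        algebraMap (ZMod p) _ (hex.choose.1 * hex.choose.2.2.2 - hex.choose.2.1 * hex.choose.2.2.1)⁻¹ := by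
        simp only [t]
        rw [dif_pos hex]
      obtain ⟨g1, g2⟩ := hex.choose_spec
      set a0 := hex.choose.1
      set b0 := hex.choose.2.1
      set c0 := hex.choose.2.2.1
      set d0 := hex.choose.2.2.2
      set y := algebraMap (ZMod p) (AdjoinRoot f) a + algebraMap _ _ b * s x with hy
      set y0 := algebraMap (ZMod p) (AdjoinRoot f) a0 + algebraMap _ _ b0 * s x with hy0
      have i1 : algebraMap (ZMod p) (AdjoinRoot f) (a0 * d0 - b0 * c0) =
          (algebraMap _ _ d0 - algebraMap _ _ b0 * x) * y0 := by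
        rw [map_sub, map_mul, map_mul]
        linear_combination (algebraMap (ZMod p) (AdjoinRoot f) b0) * g2 + (-algebraMap (ZMod p) (AdjoinRoot f) d0) * hy0
      have i2 : algebraMap (ZMod p) (AdjoinRoot f) (a0 * d0 - b0 * c0) * s x =
          (algebraMap _ _ a0 * x - algebraMap _ _ c0) * y0 := by
        rw [map_sub, map_mul, map_mul]
        linear_combination (-algebraMap (ZMod p) (AdjoinRoot f) a0) * g2 + (algebraMap (ZMod p) (AdjoinRoot f) c0) * hy0
      have hmapne : ∀ u : ZMod p, u ≠ 0 → algebraMap (ZMod p) (AdjoinRoot f) u ≠ 0 := by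
        intro u hu h0
        exact hu ((algebraMap (ZMod p) (AdjoinRoot f)).injective (by rw [h0, map_zero]))
      have hy0ne : y0 ≠ 0 := by
        intro h0
        rw [h0, mul_zero] at i1
        exact hmapne _ g1 i1
      have i3 : algebraMap (ZMod p) (AdjoinRoot f) (a0 * d0 - b0 * c0) * y =
          (algebraMap _ _ (a * d0 - b * c0) + algebraMap _ _ (b * a0 - a * b0) * x) * y0 := by
        rw [map_sub (algebraMap (ZMod p) (AdjoinRoot f)) (a * d0), map_sub (algebraMap (ZMod p) (AdjoinRoot f)) (b * a0), map_mul _ a, map_mul _ b, map_mul _ b, map_mul _ a]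
        linear_combination (algebraMap (ZMod p) (AdjoinRoot f) (a0 * d0 - b0 * c0)) * hy +
          (algebraMap (ZMod p) (AdjoinRoot f) a) * i1 + (algebraMap (ZMod p) (AdjoinRoot f) b) * i2
      have i4 : algebraMap (ZMod p) (AdjoinRoot f) (a0 * d0 - b0 * c0) * (x * y) =
          (algebraMap _ _ (c * d0 - d * c0) + algebraMap _ _ (d * a0 - c * b0) * x) * y0 := by
        rw [map_sub (algebraMap (ZMod p) (AdjoinRoot f)) (c * d0), map_sub (algebraMap (ZMod p) (AdjoinRoot f)) (d * a0), map_mul _ c, map_mul _ d, map_mul _ d, map_mul _ c]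
        linear_combination (algebraMap (ZMod p) (AdjoinRoot f) (a0 * d0 - b0 * c0)) * h1x +
          (algebraMap (ZMod p) (AdjoinRoot f) c) * i1 + (algebraMap (ZMod p) (AdjoinRoot f) d) * i2
      have i5 : x * (algebraMap _ _ (a * d0 - b * c0) + algebraMap _ _ (b * a0 - a * b0) * x)
          = algebraMap _ _ (c * d0 - d * c0) + algebraMap _ _ (d * a0 - c * b0) * x := by
        apply mul_right_cancel₀ hy0ne
        linear_combination i4 - x * i3
      obtain ⟨j1, j2, j3⟩ := hquad (b * a0 - a * b0) ((a * d0 - b * c0) - (d * a0 - c * b0))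
        (-(c * d0 - d * c0)) (by
          rw [map_sub _ (a * d0 - b * c0), map_neg]
          linear_combination i5)
      have j3' : c * d0 - d * c0 = 0 := neg_eq_zero.mp j3
      set N := a * d0 - b * c0 with hN
      have hdd : (a * d - b * c) * (a0 * d0 - b0 * c0) = N * N := by
        have e : (a * d - b * c) * (a0 * d0 - b0 * c0) =
            N * (d * a0 - c * b0) - (b * a0 - a * b0) * (c * d0 - d * c0) := by rw [hN]; ring
        rw [e, j1, j3']
        linear_combination (-N) * j2
      have hN0 : N ≠ 0 := by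
        intro h0
        rw [h0, mul_zero] at hdd
        exact (mul_ne_zero hdet g1) hdd
      rw [j1, map_zero, zero_mul, add_zero] at i3
      apply hδ s hs ((a0 * d0 - b0 * c0) * N⁻¹)
      rw [ht]
      apply mul_left_cancel₀ (hmapne _ hdet)
      rw [← key]
      apply mul_left_cancel₀ (hmapne _ g1)
      have k1 : algebraMap (ZMod p) (AdjoinRoot f) (a0 * d0 - b0 * c0) *
          algebraMap (ZMod p) (AdjoinRoot f) (a0 * d0 - b0 * c0)⁻¹ = 1 := by
        rw [← map_mul, mul_inv_cancel₀ g1, map_one]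
      have k2 : algebraMap (ZMod p) (AdjoinRoot f) (a * d - b * c) *
          algebraMap (ZMod p) (AdjoinRoot f) (a0 * d0 - b0 * c0) *
          algebraMap (ZMod p) (AdjoinRoot f) N⁻¹ = algebraMap _ _ N := by
        rw [← map_mul, hdd, ← map_mul, mul_assoc, mul_inv_cancel₀ hN0, mul_one]
      rw [map_mul _ (a0 * d0 - b0 * c0) N⁻¹]
      linear_combination δ * i3 - (δ * y0) * k2 -
        (algebraMap (ZMod p) (AdjoinRoot f) (a * d - b * c) *
          algebraMap (ZMod p) (AdjoinRoot f) (a0 * d0 - b0 * c0) *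
          algebraMap (ZMod p) (AdjoinRoot f) N⁻¹ * y0 * δ) * k1

end Helper620.CM
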