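import Mathlib
import Pool.Agent.Helper620.CamMilIso
import Pool.Agent.Helper620.CamMilExist
import Pool.Agent.Helper620.CamMilDegTwo

namespace Helper620.CM
open Polynomial

section
variable {p : ℕ} [Fact p.Prime] {f : (ZMod p)[X]}

/-- Admissible pairs `(f, l)`: `f ∈ F_p[x]` is monic without roots in `F_p`, the linear functional
`l` on `F_p[x]/(f)` is nondegenerate (its kernel contains no nonzero ideal), and the stabiliser of
`(f, l)` in `GL₂(F_p)` is trivial. -/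
def Adm (f : (ZMod p)[X]) (l : AdjoinRoot f →ₗ[ZMod p] ZMod p) : Prop :=
  f.Monic ∧ (∀ c : ZMod p, ¬ f.IsRoot c) ∧ (∀ r, (∀ s, l (r * s) = 0) → r = 0) ∧
    ∀ (a b c d : ZMod p) (s : AdjoinRoot f ≃ₐ[ZMod p] AdjoinRoot f),
      Equi f l f l a b c d s → a = 1 ∧ b = 0 ∧ c = 0 ∧ d = 1

theorem adm_iff (l : AdjoinRoot f →ₗ[ZMod p] ZMod p) :
    Adm f l ↔ f.Monic ∧ (∀ c : ZMod p, ¬ f.IsRoot c) ∧ Nondeg f l ∧ Rigid f l := by
  unfold Adm Nondeg Rigid Equi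
  constructor
  · rintro ⟨h1, h2, h3, h4⟩
    exact ⟨h1, h2, h3, fun a b c d s t1 t2 t3 => h4 a b c d s ⟨t1, t2, t3⟩⟩
  · rintro ⟨h1, h2, h3, h4⟩
    exact ⟨h1, h2, h3, fun a b c d s t => h4 a b c d s t.1 t.2.1 t.2.2⟩

theorem partB (hp2 : p ≠ 2) (l : AdjoinRoot f →ₗ[ZMod p] ZMod p) (h : Adm f l) :
    3 ≤ f.natDegree ∧ Nat.card (GM f l) = p ^ (2 * f.natDegree + 2) ∧
      Nat.card (Subgroup.center (GM f l)) = p ^ 2 ∧ IsCamina (GM f l) ∧ IsMiller (GM f l) := by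
  rw [adm_iff] at h
  obtain ⟨hf, hroot, hl, hrig⟩ := h
  have hnt := nontriv_of_rigid l hrig
  have hmf : Module.Finite (ZMod p) (AdjoinRoot f) := hf.finite_adjoinRoot
  have hfin : Finite (AdjoinRoot f) := Module.finite_of_finite (ZMod p)
  have two := two_ne hp2
  have H1 : ∀ v : AdjoinRoot f × AdjoinRoot f, v ≠ 0 → ∀ z, ∃ u, Gp.om (DG p (PM f l) (bM f l)) u v = z := by
    intro v hv z
    obtain ⟨u, hu⟩ := H1M hp2 hroot l hl v hv ((2 : ZMod p)⁻¹ • z)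
    refine ⟨u, ?_⟩
    rw [omM, hu, smul_smul, mul_inv_cancel₀ two, one_smul]
  have hZ : ∃ z : ZMod p × ZMod p, z ≠ 0 := ⟨(1, 0), fun h => one_ne_zero (congrArg Prod.fst h)⟩
  have hcz : Nat.card (ZMod p × ZMod p) = p ^ 2 := by
    rw [Nat.card_prod, Nat.card_zmod, pow_two]
  obtain ⟨c1, c2⟩ := backward hp2 hf hroot l hl hrig
  refine ⟨?_, ?_, ?_, c1, c2⟩
  · by_contra hlt
    have h3 : f.natDegree = 0 ∨ f.natDegree = 1 ∨ f.natDegree = 2 := by omega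
    rcases h3 with h3 | h3 | h3
    · have h4 := card_adj hf
      rw [h3, pow_zero] at h4
      have h5 : 1 < Nat.card (AdjoinRoot f) := Finite.one_lt_card
      omega
    · have h4 : f = X + C (f.coeff 0) := by
        have := eq_X_add_C_of_natDegree_le_one (le_of_eq h3)
        have h5 : f.coeff 1 = 1 := by
          have := hf.coeff_natDegree
          rwa [h3] at this
        rwa [h5, map_one, one_mul] at this
      apply hroot (-(f.coeff 0))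
      rw [h4]
      simp [IsRoot]
    · exact not_rigid_two hp2 f hf h3 hroot l hl hrig
  · rw [card_gp, Nat.card_prod, card_adj hf, hcz]
    ring
  · rw [card_center _ H1 hZ, hcz]

theorem partC (hp2 : p ≠ 2) {f' : (ZMod p)[X]} (l : AdjoinRoot f →ₗ[ZMod p] ZMod p)
    (l' : AdjoinRoot f' →ₗ[ZMod p] ZMod p) (h : Adm f l) (h' : Adm f' l') :
    Nonempty (GM f l ≃* GM f' l') ↔ ∃ a b c d s, Equi f l f' l' a b c d s := by
  rw [adm_iff] at h h'
  obtain ⟨hf, hroot, hl, hrig⟩ := h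
  obtain ⟨hf', hroot', hl', hrig'⟩ := h'
  have hnt := nontriv_of_rigid l hrig
  have hnt' := nontriv_of_rigid l' hrig'
  exact iso_iff hp2 hf hf' hroot hroot' l l' hl hl'

end

theorem final (p : ℕ) [Fact p.Prime] (hp2 : p ≠ 2) :
    (∀ (G : Type) [Group G] [Finite G], IsPGroup p G → Nat.card (Subgroup.center G) = p ^ 2 →
      ((IsCamina G ∧ IsMiller G) ↔ ∃ (f : (ZMod p)[X]) (l : AdjoinRoot f →ₗ[ZMod p] ZMod p),
        Adm f l ∧ Nonempty (G ≃* GM f l))) ∧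
    (∀ (f : (ZMod p)[X]) (l : AdjoinRoot f →ₗ[ZMod p] ZMod p), Adm f l →
      3 ≤ f.natDegree ∧ Nat.card (GM f l) = p ^ (2 * f.natDegree + 2) ∧
      Nat.card (Subgroup.center (GM f l)) = p ^ 2 ∧ IsCamina (GM f l) ∧ IsMiller (GM f l)) ∧
    (∀ (f : (ZMod p)[X]) (l : AdjoinRoot f →ₗ[ZMod p] ZMod p)
      (f' : (ZMod p)[X]) (l' : AdjoinRoot f' →ₗ[ZMod p] ZMod p), Adm f l → Adm f' l' →
      (Nonempty (GM f l ≃* GM f' l') ↔ ∃ a b c d s, Equi f l f' l' a b c d s)) ∧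
    (∀ n : ℕ, 3 ≤ n → ∃ (f : (ZMod p)[X]) (l : AdjoinRoot f →ₗ[ZMod p] ZMod p),
      Adm f l ∧ f.natDegree = n) := by
  refine ⟨?_, fun f l h => partB hp2 l h, fun f l f' l' h h' => partC hp2 l l' h h', ?_⟩
  · intro G _ _ hG hZ
    rw [classification p hp2 G hG hZ]
    constructor
    · rintro ⟨f, l, t1, t2, t3, t4, t5⟩
      exact ⟨f, l, (adm_iff l).mpr ⟨t1, t2, t3, t4⟩, t5⟩
    · rintro ⟨f, l, h, t5⟩
      obtain ⟨t1, t2, t3, t4⟩ := (adm_iff l).mp h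
      exact ⟨f, l, t1, t2, t3, t4, t5⟩
  · intro n hn
    obtain ⟨f, l, t1, t2, t3, t4, t5⟩ := exists_rigid p n hn
    exact ⟨f, l, (adm_iff l).mpr ⟨t1, t2, t3, t4⟩, t5⟩

end Helper620.CM
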