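import Mathlib
import Pool.Agent.Helper620.CamMilFinal
import Pool.Agent.Helper620.CamMilDefs

namespace Helper620.CM
open Polynomial

section
variable {p : ℕ} [Fact p.Prime] {f : (ZMod p)[X]}

theorem comm_val {V Z E : Type} [AddCommGroup V] [AddCommGroup Z] [AddCommGroup E] {D : Dat V Z E}
    (a b : Gp D) : a * b * a⁻¹ * b⁻¹ = Gp.c D (Gp.om D (D.r a.val) (D.r b.val)) := by
  rw [Gp.conj_eq, Gp.c_comm, mul_assoc]
  simp

theorem r_mul {V Z E : Type} [AddCommGroup V] [AddCommGroup Z] [AddCommGroup E] (D : Dat V Z E)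
    (a b : Gp D) : D.r (a * b).val = D.r a.val + D.r b.val := by
  rw [Gp.mul_val]
  simp [D.rj]

/-- a group of form `(f, l)` is isomorphic to `GM f l` -/
theorem iso_of_form (hp2 : p ≠ 2) (G : Type) [Group G] [Finite G]
    (l : AdjoinRoot f →ₗ[ZMod p] ZMod p) (h : CMD.HasForm G f l) : Nonempty (G ≃* GM f l) := by
  obtain ⟨r, k, rs, radd, rcen, kadd, kbij, kcomm, kpow⟩ := h
  have two := two_ne hp2
  have r1 : r 1 = 0 := (rcen 1).mpr (Subgroup.one_mem _)
  have rinv : ∀ x, r x⁻¹ = - r x := by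
    intro x
    have := radd x x⁻¹
    rw [mul_inv_cancel, r1] at this
    exact (neg_eq_of_add_eq_zero_right this.symm).symm
  have rpow : ∀ (x : G) (n : ℕ), r (x ^ n) = n • r x := by
    intro x n
    induction n with
    | zero => rw [pow_zero, r1, zero_smul]
    | succ n ih => rw [pow_succ, radd, ih, succ_nsmul]
  have k1 : k 1 = 0 := by
    have := kadd 1 (Subgroup.one_mem _) 1 (Subgroup.one_mem _)
    rw [mul_one] at this
    simpa using this.symm
  have kpw : ∀ z ∈ Subgroup.center G, ∀ n : ℕ, k (z ^ n) = n • k z := by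
    intro z hz n
    induction n with
    | zero => rw [pow_zero, k1, zero_smul]
    | succ n ih => rw [pow_succ, kadd _ (Subgroup.pow_mem _ hz n) _ hz, ih, succ_nsmul]
  have F1 : ∀ x y : G, x * y * x⁻¹ * y⁻¹ ∈ Subgroup.center G := by
    intro x y
    rw [← rcen, radd, radd, radd, rinv, rinv]
    abel
  have F2 : ∀ x : G, x ^ p ∈ Subgroup.center G := by
    intro x
    rw [← rcen, rpow, smulRR]
  have F3 : ∀ z ∈ Subgroup.center G, z ^ p = 1 := by
    intro z hz
    apply kbij.injOn (Subgroup.pow_mem _ hz p) (Subgroup.one_mem _)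
    rw [kpw z hz, k1]
    ext
    · simp
    · simp
  obtain ⟨V, Z, E, iV, iZ, iE, D, π, φ, finV, finZ, hV, hZp, hpe, halt, hcen, hcard⟩ :=
    baer p hp2 G F1 F2 F3
  obtain ⟨instZ⟩ : Nonempty (Module (ZMod p) Z) := ⟨AddCommGroup.zmodModule hZp⟩
  have hre : ∀ x y : G, D.r (φ x).val = D.r (φ y).val → r x = r y := by
    intro x y hxy
    have h1 : x⁻¹ * y ∈ Subgroup.center G := by
      rw [hcen, map_mul, map_inv, Gp.mul_val, Gp.inv_val]
      simp only [map_add, map_neg, D.rj, add_zero]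
      rw [hxy]; abel
    rw [← rcen, radd, rinv] at h1
    exact neg_add_eq_zero.mp h1
  choose s0 hs0 using D.rs
  let s : V → G := fun v => φ.symm ⟨s0 v⟩
  have hs : ∀ v, D.r (φ (s v)).val = v := by
    intro v
    change D.r (φ (φ.symm ⟨s0 v⟩)).val = v
    rw [MulEquiv.apply_symm_apply]
    exact hs0 v
  have gadd : ∀ u v, (2 : ZMod p)⁻¹ • r (s (u + v)) = (2 : ZMod p)⁻¹ • r (s u) + (2 : ZMod p)⁻¹ • r (s v) := by
    intro u v
    rw [← smul_add, ← radd]
    congr 1
    apply hre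
    rw [hs, map_mul, Gp.mul_val]
    simp only [map_add, D.rj, add_zero, hs]
  let g : V →+ AdjoinRoot f × AdjoinRoot f := AddMonoidHom.mk' (fun v => (2 : ZMod p)⁻¹ • r (s v)) gadd
  have hg : ∀ v, g v = (2 : ZMod p)⁻¹ • r (s v) := fun _ => rfl
  have hg2 : ∀ v, r (s v) = (2 : ZMod p) • g v := by
    intro v
    rw [hg, smul_smul, mul_inv_cancel₀ two, one_smul]
  have gbij : Function.Bijective g := by
    constructor
    · rw [injective_iff_map_eq_zero]
      intro v hv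
      have h1 : r (s v) = 0 := by rw [hg2, hv, smul_zero]
      rw [rcen, hcen, hs] at h1
      exact h1
    · intro w
      obtain ⟨x, hx⟩ := rs ((2 : ZMod p) • w)
      refine ⟨D.r (φ x).val, ?_⟩
      rw [hg, hre (s (D.r (φ x).val)) x (hs _), hx, smul_smul, inv_mul_cancel₀ two, one_smul]
  have hcc : ∀ z, φ.symm (Gp.c D z) ∈ Subgroup.center G := by
    intro z
    rw [hcen, MulEquiv.apply_symm_apply]
    exact D.rj z
  let κ : Z →+ ZMod p × ZMod p := AddMonoidHom.mk' (fun z => (2 : ZMod p)⁻¹ • k (φ.symm (Gp.c D z))) (by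
    intro z w
    rw [← smul_add, ← kadd _ (hcc z) _ (hcc w), ← map_mul, Gp.c_add])
  have hκ : ∀ z, κ z = (2 : ZMod p)⁻¹ • k (φ.symm (Gp.c D z)) := fun _ => rfl
  have hκ2 : ∀ z, k (φ.symm (Gp.c D z)) = (2 : ZMod p) • κ z := by
    intro z
    rw [hκ, smul_smul, mul_inv_cancel₀ two, one_smul]
  have κbij : Function.Bijective κ := by
    constructor
    · intro z w hzw
      have h1 : k (φ.symm (Gp.c D z)) = k (φ.symm (Gp.c D w)) := by rw [hκ2, hκ2, hzw]
      have h2 := kbij.injOn (hcc z) (hcc w) h1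
      exact c_inj D (φ.symm.injective h2)
    · intro w
      obtain ⟨z0, hz0, hk0⟩ := kbij.surjOn (Set.mem_univ ((2 : ZMod p) • w))
      have h1 : D.r (φ z0).val = 0 := (hcen z0).mp hz0
      obtain ⟨z, hz⟩ := D.ex _ h1
      refine ⟨z, ?_⟩
      have h2 : φ.symm (Gp.c D z) = z0 := by
        rw [MulEquiv.symm_apply_eq]
        apply Gp.ext'
        exact hz
      rw [hκ, h2, hk0, smul_smul, inv_mul_cancel₀ two, one_smul]
  have hcan : ∀ u v : ZMod p × ZMod p, (2 : ZMod p) • u = (2 : ZMod p) • v → u = v := by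
    intro u v huv
    have := congrArg (fun t => (2 : ZMod p)⁻¹ • t) huv
    simpa only [smul_smul, inv_mul_cancel₀ two, one_smul] using this
  have hb : ∀ u v, bM f l (g u) (g v) = κ (D.b u v) := by
    intro u v
    have h1 := kcomm (s u) (s v)
    have h2 : s u * s v * (s u)⁻¹ * (s v)⁻¹ = φ.symm (Gp.c D (Gp.om D u v)) := by
      rw [eq_comm, MulEquiv.symm_apply_eq]
      rw [map_mul, map_mul, map_mul, map_inv, map_inv, comm_val, hs, hs]
    have h3 : Gp.om D u v = (2 : ZMod p) • D.b u v := by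
      unfold Gp.om
      rw [halt v u, sub_neg_eq_add, two_smul]
    rw [h2, hκ2, h3, ZMod.map_smul κ, hg2, hg2] at h1
    have e : CMD.det2 ((2 : ZMod p) • g u) ((2 : ZMod p) • g v) = (2 : ZMod p) • ((2 : ZMod p) • dR (g u) (g v)) := by
      simp only [CMD.det2, dR, Prod.smul_fst, Prod.smul_snd]
      rw [smul_mul_smul_comm, smul_mul_smul_comm, smul_smul, smul_sub]
    have e2 : AdjoinRoot.root f * (2 : ZMod p) • ((2 : ZMod p) • dR (g u) (g v)) =
        (2 : ZMod p) • ((2 : ZMod p) • (AdjoinRoot.root f * dR (g u) (g v))) := by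
      rw [mul_smul_comm, mul_smul_comm]
    rw [e, e2, map_smul, map_smul, map_smul, map_smul] at h1
    apply hcan
    apply hcan
    rw [h1, bM_apply]
    rfl
  have hπ : ∀ v, PM f l (g v) = κ (π v) := by
    intro v
    have h1 := kpow (s v)
    have hbz : ∀ u, D.b u u = 0 := by
      intro u
      have h3 : (2 : ZMod p) • D.b u u = 0 := by
        rw [two_smul]
        nth_rewrite 1 [halt u u]
        rw [neg_add_cancel]
      have := congrArg (fun t => (2 : ZMod p)⁻¹ • t) h3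
      simpa only [smul_smul, inv_mul_cancel₀ two, one_smul, smul_zero] using this
    have h2 : s v ^ p = φ.symm (Gp.c D (π v)) := by
      rw [eq_comm, MulEquiv.symm_apply_eq, map_pow]
      apply Gp.ext'
      rw [pow_val, hbz, map_zero, smul_zero, add_zero, hpe, hs]
      rfl
    rw [h2, hκ2, hg2] at h1
    apply hcan
    rw [h1, PM_apply]
    ext
    · simp
    · simp
  obtain ⟨Φ, _, _⟩ := lift_iso D (DG p (PM f l) (bM f l)) p hV π
    (PM f l) hpe (p_smul_G p smulRR _ _) (AddEquiv.ofBijective g gbij) (AddEquiv.ofBijective κ κbij) hb hπ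
  exact ⟨φ.trans Φ⟩

theorem form_of_iso (hp2 : p ≠ 2) (G : Type) [Group G] (l : AdjoinRoot f →ₗ[ZMod p] ZMod p)
    (hroot : ∀ c : ZMod p, ¬ f.IsRoot c) (hl : Nondeg f l)
    (Φ : G ≃* GM f l) : CMD.HasForm G f l := by
  classical
  have two := two_ne hp2
  have H1 : ∀ v : AdjoinRoot f × AdjoinRoot f, v ≠ 0 → ∀ z, ∃ u, Gp.om (DG p (PM f l) (bM f l)) u v = z := by
    intro v hv z
    obtain ⟨u, hu⟩ := H1M hp2 hroot l hl v hv ((2 : ZMod p)⁻¹ • z)
    refine ⟨u, ?_⟩
    rw [omM, hu, smul_smul, mul_inv_cancel₀ two, one_smul]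
  have hZ : ∃ z : ZMod p × ZMod p, z ≠ 0 := ⟨(1, 0), fun h => one_ne_zero (congrArg Prod.fst h)⟩
  set D := DG p (PM f l) (bM f l) with hD
  have hcen : ∀ x : G, x ∈ Subgroup.center G ↔ D.r (Φ x).val = 0 := by
    intro x
    rw [← mem_center_iff D H1 hZ, Subgroup.mem_center_iff, Subgroup.mem_center_iff]
    constructor
    · intro hx g
      have := congrArg Φ (hx (Φ.symm g))
      simpa using this
    · intro hx g
      have := hx (Φ g)
      rw [← map_mul, ← map_mul] at this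
      exact Φ.injective this
  let k : G → ZMod p × ZMod p := fun x =>
    if h : ∃ z, Φ x = Gp.c D z then (2 : ZMod p) • h.choose else 0
  have hk : ∀ x z, Φ x = Gp.c D z → k x = (2 : ZMod p) • z := by
    intro x z hx
    have hex : ∃ z, Φ x = Gp.c D z := ⟨z, hx⟩
    simp only [k]
    rw [dif_pos hex]
    have h3 : Gp.c D hex.choose = Gp.c D z := hex.choose_spec.symm.trans hx
    rw [c_inj D h3]
  have hcz : ∀ x ∈ Subgroup.center G, ∃ z, Φ x = Gp.c D z := by
    intro x hx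
    rw [hcen] at hx
    obtain ⟨z, hz⟩ := D.ex _ hx
    exact ⟨z, by apply Gp.ext'; exact hz.symm⟩
  refine ⟨fun x => (2 : ZMod p) • D.r (Φ x).val, k, ?_, ?_, ?_, ?_, ?_, ?_, ?_⟩
  · intro w
    obtain ⟨e, he⟩ := D.rs ((2 : ZMod p)⁻¹ • w)
    refine ⟨Φ.symm ⟨e⟩, ?_⟩
    simp only [MulEquiv.apply_symm_apply, he]
    rw [smul_smul, mul_inv_cancel₀ two, one_smul]
  · intro x y
    change (2 : ZMod p) • D.r (Φ (x * y)).val =
      (2 : ZMod p) • D.r (Φ x).val + (2 : ZMod p) • D.r (Φ y).val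
    rw [← smul_add, map_mul]
    exact congrArg _ (r_mul D (Φ x) (Φ y))
  · intro x
    rw [hcen]
    constructor
    · intro h0
      have := congrArg (fun t => (2 : ZMod p)⁻¹ • t) h0
      simpa only [smul_smul, inv_mul_cancel₀ two, one_smul, smul_zero] using this
    · intro h0
      simp only [h0, smul_zero]
  · intro x hx y hy
    obtain ⟨z, hz⟩ := hcz x hx
    obtain ⟨w, hw⟩ := hcz y hy
    rw [hk x z hz, hk y w hw, hk (x * y) (z + w) (by rw [map_mul, hz, hw, Gp.c_add]), smul_add]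
  · refine ⟨fun _ _ => Set.mem_univ _, ?_, ?_⟩
    · intro x hx y hy hxy
      obtain ⟨z, hz⟩ := hcz x hx
      obtain ⟨w, hw⟩ := hcz y hy
      rw [hk x z hz, hk y w hw] at hxy
      have h2 : z = w := by
        have := congrArg (fun t => (2 : ZMod p)⁻¹ • t) hxy
        simpa only [smul_smul, inv_mul_cancel₀ two, one_smul] using this
      apply Φ.injective
      rw [hz, hw, h2]
    · intro w _
      refine ⟨Φ.symm (Gp.c D ((2 : ZMod p)⁻¹ • w)), ?_, ?_⟩
      · change _ ∈ Subgroup.center G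
        rw [hcen, MulEquiv.apply_symm_apply]
        exact D.rj _
      · rw [hk _ ((2 : ZMod p)⁻¹ • w) (by rw [MulEquiv.apply_symm_apply]), smul_smul,
          mul_inv_cancel₀ two, one_smul]
  · intro x y
    rw [hk _ _ (by rw [map_mul, map_mul, map_mul, map_inv, map_inv, comm_val]), omM, bM_apply]
    have e : CMD.det2 ((2 : ZMod p) • D.r (Φ x).val) ((2 : ZMod p) • D.r (Φ y).val) =
        (2 : ZMod p) • ((2 : ZMod p) • dR (D.r (Φ x).val) (D.r (Φ y).val)) := by
      simp only [CMD.det2, dR, Prod.smul_fst, Prod.smul_snd]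
      rw [smul_mul_smul_comm, smul_mul_smul_comm, smul_smul, smul_sub]
    have e2 : ∀ t : AdjoinRoot f, AdjoinRoot.root f * (2 : ZMod p) • ((2 : ZMod p) • t) =
        (2 : ZMod p) • ((2 : ZMod p) • (AdjoinRoot.root f * t)) := by
      intro t
      rw [mul_smul_comm, mul_smul_comm]
    rw [e, e2, map_smul, map_smul, map_smul, map_smul]
    rfl
  · intro x
    rw [hk _ _ (by rw [map_pow, pow_G p smulRR hp2 (PM f l) (bM f l)]), PM_apply]
    ext
    · simp [hD]
    · simp [hD]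


theorem adm_to (l : AdjoinRoot f →ₗ[ZMod p] ZMod p) (h : CMD.Adm f l) : Adm f l := h

theorem adm_from (l : AdjoinRoot f →ₗ[ZMod p] ZMod p) (h : Adm f l) : CMD.Adm f l := h

theorem form_iff (hp2 : p ≠ 2) (G : Type) [Group G] [Finite G]
    (l : AdjoinRoot f →ₗ[ZMod p] ZMod p) (h : CMD.Adm f l) :
    CMD.HasForm G f l ↔ Nonempty (G ≃* GM f l) :=
  ⟨fun hF => iso_of_form hp2 G l hF, fun ⟨Φ⟩ => form_of_iso hp2 G l h.2.1 h.2.2.1 Φ⟩

end

theorem final_form (p : ℕ) [Fact p.Prime] (hp2 : p ≠ 2) :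
    (∀ (G : Type) [Group G] [Finite G], IsPGroup p G → Nat.card (Subgroup.center G) = p ^ 2 →
      ((IsCamina G ∧ IsMiller G) ↔ ∃ (f : (ZMod p)[X]) (l : AdjoinRoot f →ₗ[ZMod p] ZMod p),
        CMD.Adm f l ∧ CMD.HasForm G f l)) ∧
    (∀ (f : (ZMod p)[X]) (l : AdjoinRoot f →ₗ[ZMod p] ZMod p), CMD.Adm f l →
      3 ≤ f.natDegree ∧ ∃ (G : Type) (_ : Group G), CMD.HasForm G f l ∧
        Nat.card G = p ^ (2 * f.natDegree + 2) ∧ Nat.card (Subgroup.center G) = p ^ 2) ∧
    (∀ (G G' : Type) [Group G] [Finite G] [Group G'] [Finite G']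
      (f : (ZMod p)[X]) (l : AdjoinRoot f →ₗ[ZMod p] ZMod p)
      (f' : (ZMod p)[X]) (l' : AdjoinRoot f' →ₗ[ZMod p] ZMod p), CMD.Adm f l → CMD.Adm f' l' →
      CMD.HasForm G f l → CMD.HasForm G' f' l' →
      (Nonempty (G ≃* G') ↔ ∃ (a b c d : ZMod p) (s : AdjoinRoot f ≃ₐ[ZMod p] AdjoinRoot f'),
        CMD.Equi f l f' l' a b c d s)) ∧
    (∀ n : ℕ, 3 ≤ n → ∃ (f : (ZMod p)[X]) (l : AdjoinRoot f →ₗ[ZMod p] ZMod p),
      CMD.Adm f l ∧ f.natDegree = n) := by
  obtain ⟨A, B, C', D'⟩ := final p hp2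
  refine ⟨?_, ?_, ?_, D'⟩
  · intro G _ _ hG hZ
    rw [A G hG hZ]
    constructor
    · rintro ⟨f, l, h, t⟩
      exact ⟨f, l, h, (form_iff hp2 G l h).mpr t⟩
    · rintro ⟨f, l, h, t⟩
      exact ⟨f, l, h, (form_iff hp2 G l h).mp t⟩
  · intro f l h
    obtain ⟨b1, b2, b3, _⟩ := B f l h
    exact ⟨b1, GM f l, inferInstance,
      form_of_iso hp2 (GM f l) l h.2.1 h.2.2.1 (MulEquiv.refl _), b2, b3⟩
  · intro G G' _ _ _ _ f l f' l' h h' hF hF'
    obtain ⟨Φ⟩ := (form_iff hp2 G l h).mp hF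
    obtain ⟨Φ'⟩ := (form_iff hp2 G' l' h').mp hF'
    constructor
    · rintro ⟨Ψ⟩
      exact (C' f l f' l' h h').mp ⟨(Φ.symm.trans Ψ).trans Φ'⟩
    · intro hE
      obtain ⟨Ψ⟩ := (C' f l f' l' h h').mpr hE
      exact ⟨(Φ.trans Ψ).trans Φ'.symm⟩

end Helper620.CM
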