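import Mathlib
import Pool.Agent.Helper620.CamMilForm

namespace Helper620.CM
open Polynomial
open scoped commutatorElement

/-- class 2, elementary abelian centre: `Aut(G) = Aut_c(G)` iff `G` is Camina and Miller -/
theorem autc_iff (p : ℕ) [Fact p.Prime] (hp2 : p ≠ 2) (G : Type) [Group G] [Finite G]
    (hG : IsPGroup p G) (hna : ∃ a b : G, a * b ≠ b * a) (hcl : commutator G ≤ Subgroup.center G)
    (F3 : ∀ z ∈ Subgroup.center G, z ^ p = 1) :
    (∀ φ : MulAut G, ∀ x : G, IsConj x (φ x)) ↔ (IsCamina G ∧ IsMiller G) := by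
  constructor
  · intro hA
    have F1 : ∀ x y : G, x * y * x⁻¹ * y⁻¹ ∈ Subgroup.center G := by
      intro x y
      apply hcl
      have : ⁅x, y⁆ ∈ ⁅(⊤ : Subgroup G), (⊤ : Subgroup G)⁆ :=
        Subgroup.commutator_mem_commutator (Subgroup.mem_top _) (Subgroup.mem_top _)
      rw [← commutator_def, commutatorElement_def] at this
      exact this
    have F2 : ∀ x : G, x ^ p ∈ Subgroup.center G := by
      intro x
      rw [Subgroup.mem_center_iff]
      intro y
      have h1 : y * x * y⁻¹ * x⁻¹ ∈ Subgroup.center G := F1 y x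
      set w := y * x * y⁻¹ * x⁻¹ with hw
      have h2 : y * x * y⁻¹ = w * x := by rw [hw]; group
      have h3 : y * x ^ p * y⁻¹ = x ^ p := by
        rw [← conj_pow, h2]
        have hc : Commute w x := (Subgroup.mem_center_iff.mp h1 x).symm
        rw [hc.mul_pow, F3 w h1, one_mul]
      calc y * x ^ p = (y * x ^ p * y⁻¹) * y := by group
        _ = x ^ p * y := by rw [h3]
    obtain ⟨V, Z, E, iV, iZ, iE, D, π, φ, finV, finZ, hV, hZp, hpe, halt, hcen, hcard⟩ :=
      baer p hp2 G F1 F2 F3
    obtain ⟨instV⟩ : Nonempty (Module (ZMod p) V) := ⟨AddCommGroup.zmodModule hV⟩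
    obtain ⟨instZ⟩ : Nonempty (Module (ZMod p) Z) := ⟨AddCommGroup.zmodModule hZp⟩
    have finG : Finite (Gp D) := Finite.of_equiv G φ.toEquiv
    have hb : ∀ x : G, x ∉ Subgroup.center G → ∀ z ∈ Subgroup.center G, ∃ y : G, y * x * y⁻¹ = x * z := by
      intro x hx z hz
      have hv0 : D.r (φ x).val ≠ 0 := fun h0 => hx ((hcen x).mpr h0)
      obtain ⟨z', hz'⟩ := D.ex _ ((hcen z).mp hz)
      have hzc : φ z = Gp.c D z' := by apply Gp.ext'; exact hz'.symm
      obtain ⟨χ, hχ⟩ : ∃ χ : Module.Dual (ZMod p) V, χ (D.r (φ x).val) ≠ 0 := by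
        by_contra hcon
        push Not at hcon
        exact hv0 ((Module.forall_dual_apply_eq_zero_iff (ZMod p) _).mp hcon)
      let K : V →+ Z :=
        { toFun := fun v => (χ v * (χ (D.r (φ x).val))⁻¹) • z'
          map_zero' := by simp
          map_add' := fun u v => by rw [map_add, add_mul, add_smul] }
      have hK : K (D.r (φ x).val) = z' := by
        change (χ (D.r (φ x).val) * (χ (D.r (φ x).val))⁻¹) • z' = z'
        rw [mul_inv_cancel₀ hχ, one_smul]
      let Ψ0 : Gp D →* Gp D := MonoidHom.mk' (fun e => e * Gp.c D (K (D.r e.val))) (by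
        intro a b
        rw [r_mul, map_add, Gp.c_add]
        have h1 : b * Gp.c D (K (D.r a.val)) = Gp.c D (K (D.r a.val)) * b := Gp.c_comm _ _
        calc a * b * (Gp.c D (K (D.r a.val)) * Gp.c D (K (D.r b.val)))
            = a * (b * Gp.c D (K (D.r a.val))) * Gp.c D (K (D.r b.val)) := by
              simp only [mul_assoc]
          _ = _ := by rw [h1]; simp only [mul_assoc])
      have hΨ0 : ∀ e, Ψ0 e = e * Gp.c D (K (D.r e.val)) := fun _ => rfl
      have hinj : Function.Injective Ψ0 := by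
        intro a b hab
        rw [hΨ0, hΨ0] at hab
        have h1 := congrArg (fun e : Gp D => D.r e.val) hab
        simp only [r_mul] at h1
        have h2 : ∀ z, D.r (Gp.c D z).val = 0 := fun z => D.rj z
        rw [h2, h2, add_zero, add_zero] at h1
        rw [h1] at hab
        exact mul_right_cancel hab
      let Ψ : Gp D ≃* Gp D := MulEquiv.ofBijective Ψ0
        ⟨hinj, Finite.surjective_of_injective hinj⟩
      have h1 := hA ((φ.trans Ψ).trans φ.symm) x
      have h2 : ((φ.trans Ψ).trans φ.symm) x = x * z := by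
        change φ.symm (Ψ0 (φ x)) = x * z
        rw [hΨ0, hK, MulEquiv.symm_apply_eq, map_mul, hzc]
      rw [isConj_iff] at h1
      obtain ⟨y, hy⟩ := h1
      refine ⟨y, ?_⟩
      rw [hy]
      exact h2
    obtain ⟨a0, b0, hab⟩ := hna
    have ha0 : a0 ∉ Subgroup.center G := fun h => hab ((Subgroup.mem_center_iff.mp h b0).symm)
    have hle : Subgroup.center G ≤ commutator G := by
      intro z hz
      obtain ⟨y, hy⟩ := hb a0 ha0 z hz
      have h1 : z = ⁅a0⁻¹, y⁆ := by
        rw [commutatorElement_def, inv_inv]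
        have : a0⁻¹ * y * a0 * y⁻¹ = a0⁻¹ * (y * a0 * y⁻¹) := by group
        rw [this, hy]; group
      rw [h1, commutator_def]
      exact Subgroup.commutator_mem_commutator (Subgroup.mem_top _) (Subgroup.mem_top _)
    have heq : commutator G = Subgroup.center G := le_antisymm hcl hle
    refine ⟨?_, ⟨a0, b0, hab⟩, ?_⟩
    · intro x hx y
      rw [heq] at hx ⊢
      constructor
      · intro h1
        rw [isConj_iff] at h1
        obtain ⟨g, hg⟩ := h1
        have h2 : x⁻¹ * y = x⁻¹ * g * (x⁻¹)⁻¹ * g⁻¹ := by rw [← hg]; group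
        rw [h2]
        exact F1 _ _
      · intro h1
        obtain ⟨g, hg⟩ := hb x hx _ h1
        rw [isConj_iff]
        exact ⟨g, by rw [hg]; group⟩
    · intro f g
      have hz : ∀ (k : MulAut G) (x : G), x⁻¹ * k x ∈ Subgroup.center G := by
        intro k x
        have h1 := hA k x
        rw [isConj_iff] at h1
        obtain ⟨y, hy⟩ := h1
        have h2 : x⁻¹ * k x = x⁻¹ * y * (x⁻¹)⁻¹ * y⁻¹ := by rw [← hy]; group
        rw [h2]
        exact F1 _ _
      have hfix : ∀ (k : MulAut G), ∀ z ∈ Subgroup.center G, k z = z := by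
        intro k z hzc
        have h1 := hA k z
        rw [isConj_iff] at h1
        obtain ⟨y, hy⟩ := h1
        rw [← hy, Subgroup.mem_center_iff.mp hzc y]
        group
      ext x
      rw [MulAut.mul_apply, MulAut.mul_apply]
      have e1 : f (g x) = f x * (x⁻¹ * g x) := by
        have h1 : g x = x * (x⁻¹ * g x) := by group
        conv_lhs => rw [h1]
        rw [map_mul, hfix f _ (hz g x)]
      have e2 : g (f x) = g x * (x⁻¹ * f x) := by
        have h1 : f x = x * (x⁻¹ * f x) := by group
        conv_lhs => rw [h1]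
        rw [map_mul, hfix g _ (hz f x)]
      rw [e1, e2]
      have h3 := Subgroup.mem_center_iff.mp (hz f x) (x⁻¹ * g x)
      calc f x * (x⁻¹ * g x) = x * ((x⁻¹ * f x) * (x⁻¹ * g x)) := by group
        _ = x * ((x⁻¹ * g x) * (x⁻¹ * f x)) := by rw [h3]
        _ = g x * (x⁻¹ * f x) := by group
  · rintro ⟨hcam, hmil⟩ f x
    obtain ⟨_, _, _, _, F5, F6⟩ := cm_facts p G hG hcam hmil.1 hmil.2
    by_cases hx : x ∈ Subgroup.center G
    · rw [F6 f x hx]
    · have h1 : (f x)⁻¹ * x ∈ Subgroup.center G := by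
        rw [Subgroup.mem_center_iff]
        intro y
        have h2 := congrArg (fun k : MulAut G => k (f.symm y)) (hmil.2 f (MulAut.conj x))
        simp only [MulAut.mul_apply, MulAut.conj_apply, map_mul, map_inv] at h2
        have h3 : f (f.symm y) = y := MulEquiv.apply_symm_apply _ _
        rw [h3] at h2
        calc y * ((f x)⁻¹ * x) = (f x)⁻¹ * (f x * y * (f x)⁻¹) * x := by group
          _ = (f x)⁻¹ * (x * y * x⁻¹) * x := by rw [h2]
          _ = (f x)⁻¹ * x * y := by group
      have h2 : x⁻¹ * f x ∈ Subgroup.center G := by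
        have := Subgroup.inv_mem _ h1
        rwa [mul_inv_rev, inv_inv] at this
      obtain ⟨y, hy⟩ := F5 x hx _ h2
      rw [isConj_iff]
      exact ⟨y, by rw [hy]; group⟩

theorem final_autc (p : ℕ) [Fact p.Prime] (hp2 : p ≠ 2) :
    (∀ (G : Type) [Group G] [Finite G], IsPGroup p G → (∃ a b : G, a * b ≠ b * a) →
      commutator G ≤ Subgroup.center G → Nat.card (Subgroup.center G) = p ^ 2 →
      (∀ z ∈ Subgroup.center G, z ^ p = 1) →
      ((∀ φ : MulAut G, ∀ x : G, IsConj x (φ x)) ↔
        ∃ (f : (ZMod p)[X]) (l : AdjoinRoot f →ₗ[ZMod p] ZMod p),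
          CMD.Adm f l ∧ CMD.HasForm G f l)) := by
  intro G _ _ hG hna hcl hZ hZp
  rw [autc_iff p hp2 G hG hna hcl hZp]
  exact (final_form p hp2).1 G hG hZ

end Helper620.CM
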