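import Mathlib
import Pool.Agent.Helper620.CamMilAutc

namespace Helper620.CM
open Polynomial

/-- full statement for the problem on class-preserving automorphisms -/
theorem final_autc2 (p : ℕ) [Fact p.Prime] (hp2 : p ≠ 2) :
    (∀ (G : Type) [Group G] [Finite G], IsPGroup p G → (∃ a b : G, a * b ≠ b * a) →
      commutator G ≤ Subgroup.center G → Nat.card (Subgroup.center G) = p ^ 2 →
      (∀ z ∈ Subgroup.center G, z ^ p = 1) →
      ((∀ φ : MulAut G, ∀ x : G, IsConj x (φ x)) ↔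
        ∃ (f : (ZMod p)[X]) (l : AdjoinRoot f →ₗ[ZMod p] ZMod p),
          CMD.Adm f l ∧ CMD.HasForm G f l)) ∧
    (∀ (f : (ZMod p)[X]) (l : AdjoinRoot f →ₗ[ZMod p] ZMod p), CMD.Adm f l →
      3 ≤ f.natDegree ∧ ∃ (G : Type) (_ : Group G), CMD.HasForm G f l ∧
        Nat.card G = p ^ (2 * f.natDegree + 2) ∧ Nat.card (Subgroup.center G) = p ^ 2) ∧
    (∀ (G G' : Type) [Group G] [Finite G] [Group G'] [Finite G']
      (f : (ZMod p)[X]) (l : AdjoinRoot f →ₗ[ZMod p] ZMod p)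
      (f' : (ZMod p)[X]) (l' : AdjoinRoot f' →ₗ[ZMod p] ZMod p), CMD.Adm f l → CMD.Adm f' l' →
      CMD.HasForm G f l → CMD.HasForm G' f' l' →
      (Nonempty (G ≃* G') ↔ ∃ (a b c d : ZMod p) (s : AdjoinRoot f ≃ₐ[ZMod p] AdjoinRoot f'),
        CMD.Equi f l f' l' a b c d s)) ∧
    (∀ n : ℕ, 3 ≤ n → ∃ (f : (ZMod p)[X]) (l : AdjoinRoot f →ₗ[ZMod p] ZMod p),
      CMD.Adm f l ∧ f.natDegree = n) :=
  ⟨final_autc p hp2, (final_form p hp2).2⟩

end Helper620.CM
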