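import Mathlib
import Pool.Agent.Helper620.CamMilAutc2

set_option autoImplicit false

namespace Helper620.CM

open scoped commutatorElement in
theorem NCC_cm_mul {G : Type} [Group G] (hz : ∀ g h : G, ⁅g, h⁆ ∈ Subgroup.center G) (a b c : G) :
    ⁅a * b, c⁆ = ⁅a, c⁆ * ⁅b, c⁆ := by
  have h1 : ∀ x, x * ⁅b, c⁆ = ⁅b, c⁆ * x := fun x => Subgroup.mem_center_iff.1 (hz b c) x
  calc ⁅a * b, c⁆ = a * ⁅b, c⁆ * (c * a⁻¹ * c⁻¹) := by simp only [commutatorElement_def]; group
    _ = ⁅b, c⁆ * a * (c * a⁻¹ * c⁻¹) := by rw [h1 a]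
    _ = ⁅b, c⁆ * ⁅a, c⁆ := by simp only [commutatorElement_def]; group
    _ = ⁅a, c⁆ * ⁅b, c⁆ := (h1 _).symm

open scoped commutatorElement in
theorem NCC_cm_pow {G : Type} [Group G] (hz : ∀ g h : G, ⁅g, h⁆ ∈ Subgroup.center G) (a c : G)
    (n : ℕ) : ⁅a ^ n, c⁆ = ⁅a, c⁆ ^ n := by
  induction n with
  | zero => simp
  | succ n ih => rw [pow_succ, NCC_cm_mul hz, ih, pow_succ]

open scoped commutatorElement in
theorem NCC_cm_pow' {G : Type} [Group G] (hz : ∀ g h : G, ⁅g, h⁆ ∈ Subgroup.center G) (a c : G)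
    (n : ℕ) : ⁅a, c ^ n⁆ = ⁅a, c⁆ ^ n := by
  rw [← commutatorElement_inv, NCC_cm_pow hz, ← inv_pow, commutatorElement_inv]

open scoped commutatorElement in
theorem NCC_swap {G : Type} [Group G] (a c : G) : a * c = ⁅a, c⁆ * c * a := by
  simp only [commutatorElement_def]; group

open scoped commutatorElement in
theorem NCC_mulpow {G : Type} [Group G] (hz : ∀ g h : G, ⁅g, h⁆ ∈ Subgroup.center G) (w x : G)
    (n : ℕ) : (w * x) ^ n = w ^ n * x ^ n * ⁅x, w⁆ ^ (n.choose 2) := by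
  have h1 : ∀ (k : ℕ) y, y * ⁅x, w⁆ ^ k = ⁅x, w⁆ ^ k * y := fun k y =>
    Subgroup.mem_center_iff.1 (Subgroup.pow_mem _ (hz x w) k) y
  induction n with
  | zero => simp
  | succ n ih =>
    have e : (n + 1).choose 2 = n + n.choose 2 := by
      rw [Nat.choose_succ_succ' n 1, Nat.choose_one_right]
    have e2 : x ^ n * w = ⁅x, w⁆ ^ n * w * x ^ n := by
      rw [← NCC_cm_pow hz]; exact NCC_swap _ _
    calc (w * x) ^ (n + 1) = w ^ n * x ^ n * ⁅x, w⁆ ^ (n.choose 2) * (w * x) := by rw [pow_succ, ih]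
      _ = w ^ n * x ^ n * (w * x) * ⁅x, w⁆ ^ (n.choose 2) := by
          rw [mul_assoc, ← h1, ← mul_assoc]
      _ = w ^ n * (x ^ n * w) * x * ⁅x, w⁆ ^ (n.choose 2) := by simp only [mul_assoc]
      _ = w ^ n * (⁅x, w⁆ ^ n * w * x ^ n) * x * ⁅x, w⁆ ^ (n.choose 2) := by rw [e2]
      _ = w ^ n * (⁅x, w⁆ ^ n * (w * x ^ n * x)) * ⁅x, w⁆ ^ (n.choose 2) := by simp only [mul_assoc]
      _ = w ^ n * ((w * x ^ n * x) * ⁅x, w⁆ ^ n) * ⁅x, w⁆ ^ (n.choose 2) := by
          rw [← h1 n (w * x ^ n * x)]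
      _ = w ^ (n + 1) * x ^ (n + 1) * ⁅x, w⁆ ^ ((n + 1).choose 2) := by
          rw [e, pow_add ⁅x, w⁆, pow_succ w, pow_succ x]
          simp only [mul_assoc]

theorem NCC_cyc (p : ℕ) (hp : p.Prime) {G : Type} [Group G] [Finite G]
    (hcyc : IsCyclic (Subgroup.center G)) (u : G) (hu : u ∈ Subgroup.center G) (hu1 : u ≠ 1)
    (hup : u ^ p = 1) (x : G) (hx : x ∈ Subgroup.center G) (hxp : x ^ p = 1) : ∃ n : ℕ, x = u ^ n := by
  classical
  have : Fact p.Prime := ⟨hp⟩
  let _ : Fintype (Subgroup.center G) := Fintype.ofFinite _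
  have hord : orderOf (⟨u, hu⟩ : Subgroup.center G) = p := by
    apply orderOf_eq_prime
    · ext; exact hup
    · intro h; apply hu1; exact congrArg Subtype.val h
  have hcard := IsCyclic.card_pow_eq_one_le (α := Subgroup.center G) (n := p) hp.pos
  have hsub : (Finset.range p).image (fun i => (⟨u, hu⟩ : Subgroup.center G) ^ i) ⊆
      Finset.univ.filter (fun a : Subgroup.center G => a ^ p = 1) := by
    intro y hy
    rw [Finset.mem_image] at hy
    obtain ⟨i, -, rfl⟩ := hy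
    rw [Finset.mem_filter]
    refine ⟨Finset.mem_univ _, ?_⟩
    rw [← pow_mul, mul_comm, pow_mul]
    have : (⟨u, hu⟩ : Subgroup.center G) ^ p = 1 := by ext; exact hup
    rw [this, one_pow]
  have hc2 : ((Finset.range p).image (fun i => (⟨u, hu⟩ : Subgroup.center G) ^ i)).card = p := by
    rw [Finset.card_image_of_injOn, Finset.card_range]
    intro i hi j hj hij
    have hi' : i < orderOf (⟨u, hu⟩ : Subgroup.center G) := by rw [hord]; simpa using hi
    have hj' : j < orderOf (⟨u, hu⟩ : Subgroup.center G) := by rw [hord]; simpa using hj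
    exact pow_injOn_Iio_orderOf hi' hj' hij
  have heq := Finset.eq_of_subset_of_card_le hsub (by rw [hc2]; exact hcard)
  have hxm : (⟨x, hx⟩ : Subgroup.center G) ∈ Finset.univ.filter (fun a : Subgroup.center G => a ^ p = 1) := by
    rw [Finset.mem_filter]
    exact ⟨Finset.mem_univ _, by ext; exact hxp⟩
  rw [← heq, Finset.mem_image] at hxm
  obtain ⟨i, -, hi⟩ := hxm
  exact ⟨i, (congrArg Subtype.val hi).symm⟩

open scoped commutatorElement in
theorem NCC_w (p : ℕ) [Fact p.Prime] (hp2 : p ≠ 2) (G : Type) [Group G] [Finite G]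
    (hG : IsPGroup p G) (hna : ∃ a b : G, a * b ≠ b * a)
    (hz : ∀ g h : G, ⁅g, h⁆ ∈ Subgroup.center G)
    (hcyc : IsCyclic (Subgroup.center G)) : ∃ w : G, w ∉ Subgroup.center G ∧ w ^ p = 1 := by
  classical
  have hpp : p.Prime := Fact.out
  have hp1 : 1 < p := hpp.one_lt
  have hpodd : Odd p := hpp.odd_of_ne_two hp2
  obtain ⟨a0, b0, hab⟩ := hna
  have hne : ∃ m : ℕ, ∃ w : G, w ∉ Subgroup.center G ∧ orderOf w = m :=
    ⟨orderOf b0, b0, fun h => hab (Subgroup.mem_center_iff.1 h a0), rfl⟩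
  obtain ⟨w, hw, hwm⟩ := Nat.find_spec hne
  have hmin : ∀ v : G, v ∉ Subgroup.center G → orderOf w ≤ orderOf v := by
    intro v hv
    rw [hwm]
    exact Nat.find_min' hne ⟨v, hv, rfl⟩
  refine ⟨w, hw, ?_⟩
  by_contra hwp
  obtain ⟨k, hk⟩ := (IsPGroup.iff_orderOf.1 hG) w
  have hk2 : 2 ≤ k := by
    by_contra hlt
    have : k = 0 ∨ k = 1 := by omega
    rcases this with rfl | rfl
    · rw [pow_zero, orderOf_eq_one_iff] at hk
      exact hw (hk ▸ Subgroup.one_mem _)
    · rw [pow_one] at hk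
      exact hwp (hk ▸ pow_orderOf_eq_one w)
  -- elements of smaller order are central
  have hsmall : ∀ v : G, ∀ N : ℕ, 0 < N → N < p ^ k → v ^ N = 1 → v ∈ Subgroup.center G := by
    intro v N hN0 hN hvN
    by_contra hv
    have h1 := hmin v hv
    have h2 := Nat.le_of_dvd hN0 (orderOf_dvd_of_pow_eq_one hvN)
    omega
  obtain ⟨g, hg⟩ : ∃ g, g * w ≠ w * g := by
    by_contra hcon
    push Not at hcon
    exact hw (Subgroup.mem_center_iff.2 hcon)
  have hgc : g ∉ Subgroup.center G := fun h => hg (Subgroup.mem_center_iff.1 h w).symm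
  obtain ⟨n, hn⟩ := (IsPGroup.iff_orderOf.1 hG) g
  have hkn : k ≤ n := by
    have := hmin g hgc
    rw [hk, hn] at this
    exact (Nat.pow_le_pow_iff_right hp1).1 this
  have hpk1 : p ^ (k - 1) < p ^ k := Nat.pow_lt_pow_right hp1 (by omega)
  have hppk : p < p ^ k := by
    calc p = p ^ 1 := (pow_one p).symm
      _ < p ^ k := Nat.pow_lt_pow_right hp1 (by omega)
  have hwpZ : w ^ p ∈ Subgroup.center G := by
    apply hsmall _ (p ^ (k - 1)) (by positivity) hpk1
    rw [← pow_mul, ← pow_succ', show k - 1 + 1 = k by omega, ← hk, pow_orderOf_eq_one]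
  have hwN : w ^ (p ^ (k - 1)) ∈ Subgroup.center G := by
    have : p ^ (k - 1) = p * p ^ (k - 2) := by rw [← pow_succ']; congr 1; omega
    rw [this, pow_mul]
    exact Subgroup.pow_mem _ hwpZ _
  have hbp : (g ^ (p ^ (n - 1))) ^ p = 1 := by
    rw [← pow_mul, ← pow_succ, show n - 1 + 1 = n by omega, ← hn, pow_orderOf_eq_one]
  have hb1 : g ^ (p ^ (n - 1)) ≠ 1 := by
    intro h
    have h1 := orderOf_dvd_of_pow_eq_one h
    rw [hn] at h1
    have h2 := Nat.le_of_dvd (by positivity) h1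
    have h3 : p ^ (n - 1) < p ^ n := Nat.pow_lt_pow_right hp1 (by omega)
    omega
  have hbZ : g ^ (p ^ (n - 1)) ∈ Subgroup.center G := hsmall _ p hpp.pos hppk hbp
  have hap : (w ^ (p ^ (k - 1))) ^ p = 1 := by
    rw [← pow_mul, ← pow_succ, show k - 1 + 1 = k by omega, ← hk, pow_orderOf_eq_one]
  obtain ⟨t, ht⟩ := NCC_cyc p hpp hcyc _ hbZ hb1 hbp _ hwN hap
  obtain ⟨x, hx⟩ : ∃ x : G, x = g ^ (p ^ (n - k) * ((p - 1) * t)) := ⟨_, rfl⟩
  have hxN : w ^ (p ^ (k - 1)) * x ^ (p ^ (k - 1)) = 1 := by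
    have e1 : p ^ (n - k) * ((p - 1) * t) * p ^ (k - 1) = p ^ (n - 1) * ((p - 1) * t) := by
      have : p ^ (n - 1) = p ^ (n - k) * p ^ (k - 1) := by
        rw [← pow_add]; congr 1; omega
      rw [this]; ring
    rw [ht, hx, ← pow_mul g (p ^ (n - k) * ((p - 1) * t)) (p ^ (k - 1)), e1,
      pow_mul g (p ^ (n - 1)) ((p - 1) * t), ← pow_add]
    have e2 : t + (p - 1) * t = p * t := by
      obtain ⟨q, hq⟩ : ∃ q, p = q + 1 := ⟨p - 1, by omega⟩
      rw [hq, Nat.add_sub_cancel]; ring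
    rw [e2, pow_mul, hbp, one_pow]
  have hch : p ^ (k - 1) ∣ (p ^ (k - 1)).choose 2 := by
    rw [Nat.choose_two_right]
    have hodd : Odd (p ^ (k - 1)) := hpodd.pow
    obtain ⟨r, hr⟩ := hodd
    rw [hr, Nat.add_sub_cancel, Nat.mul_div_assoc _ (Dvd.intro r rfl)]
    exact Dvd.intro _ rfl
  have hcc : ⁅x, w⁆ ^ ((p ^ (k - 1)).choose 2) = 1 := by
    obtain ⟨r, hr⟩ := hch
    rw [hr, pow_mul, ← NCC_cm_pow' hz]
    have : ⁅x, w ^ p ^ (k - 1)⁆ = 1 := by
      rw [commutatorElement_eq_one_iff_mul_comm]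
      exact Subgroup.mem_center_iff.1 hwN x
    rw [this, one_pow]
  have hw' : (w * x) ^ (p ^ (k - 1)) = 1 := by
    rw [NCC_mulpow hz, hxN, hcc, one_mul]
  have hcen := hsmall _ _ (by positivity) hpk1 hw'
  apply hg
  have h1 := Subgroup.mem_center_iff.1 hcen g
  have h2 : g * x = x * g := by rw [hx]; exact (pow_mul_comm' g _).symm
  have h3 : g * w * x = w * g * x := by
    rw [mul_assoc, h1, mul_assoc, ← h2, mul_assoc]
  exact mul_right_cancel h3

/-- a finite p-group of class 2 (p odd) with cyclic centre has an automorphism that is not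
class-preserving -/
theorem no_cyclic_centre (p : ℕ) [Fact p.Prime] (hp2 : p ≠ 2) (G : Type) [Group G] [Finite G]
    (hG : IsPGroup p G) (hna : ∃ a b : G, a * b ≠ b * a) (hcl : commutator G ≤ Subgroup.center G)
    (hcyc : IsCyclic (Subgroup.center G))
    (hA : ∀ φ : MulAut G, ∀ x : G, IsConj x (φ x)) : False := by
  classical
  have hpp : p.Prime := Fact.out
  have hp1 : 1 < p := hpp.one_lt
  have hz : ∀ g h : G, g * h * g⁻¹ * h⁻¹ ∈ Subgroup.center G := fun g h =>
    hcl (Subgroup.commutator_mem_commutator (Subgroup.mem_top g) (Subgroup.mem_top h))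
  obtain ⟨w, hw, hwp⟩ := NCC_w p hp2 G hG hna hz hcyc
  obtain ⟨g0, hg0⟩ : ∃ g, g * w ≠ w * g := by
    by_contra hcon
    push Not at hcon
    exact hw (Subgroup.mem_center_iff.2 hcon)
  obtain ⟨u, hu⟩ : ∃ u : G, u = g0 * w * g0⁻¹ * w⁻¹ := ⟨_, rfl⟩
  have huZ : u ∈ Subgroup.center G := hu ▸ hz g0 w
  have hu1 : u ≠ 1 := by
    intro h
    apply hg0
    rw [hu] at h
    have h1 : g0 * w * g0⁻¹ = w := mul_inv_eq_one.1 h
    exact mul_inv_eq_iff_eq_mul.1 h1
  have hcp : ∀ g : G, (g * w * g⁻¹ * w⁻¹) ^ p = 1 := by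
    intro g
    have h := NCC_cm_pow' hz g w p
    rw [hwp] at h
    have h2 : g * 1 * g⁻¹ * (1 : G)⁻¹ = (g * w * g⁻¹ * w⁻¹) ^ p := h
    rw [← h2]
    group
  have hup : u ^ p = 1 := hu ▸ hcp g0
  have hord : orderOf u = p := orderOf_eq_prime hup hu1
  have hex : ∀ g : G, ∃ n : ℕ, g * w * g⁻¹ * w⁻¹ = u ^ n := fun g =>
    NCC_cyc p hpp hcyc u huZ hu1 hup _ (hz g w) (hcp g)
  choose e' he' using hex
  obtain ⟨e, hee⟩ : ∃ e : G → ZMod p, e = fun g => (e' g : ZMod p) := ⟨_, rfl⟩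
  have he : ∀ g, g * w * g⁻¹ * w⁻¹ = u ^ (e g).val := by
    intro g
    rw [he' g, hee, ZMod.val_natCast, ← pow_eq_pow_mod _ hup]
  have huinj : ∀ a b : ZMod p, u ^ a.val = u ^ b.val → a = b := by
    intro a b hab
    have h := pow_inj_mod.1 hab
    rw [hord, Nat.mod_eq_of_lt (ZMod.val_lt a), Nat.mod_eq_of_lt (ZMod.val_lt b)] at h
    exact ZMod.val_injective p h
  have hadd : ∀ (x : G), x ^ p = 1 → ∀ a b : ZMod p, x ^ (a + b).val = x ^ a.val * x ^ b.val := by
    intro x hx a b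
    rw [ZMod.val_add, ← pow_eq_pow_mod _ hx, pow_add]
  have hmul : ∀ g h : G, e (g * h) = e g + e h := by
    intro g h
    apply huinj
    rw [hadd u hup, ← he, ← he, ← he]
    exact NCC_cm_mul hz g h w
  have huc : ∀ (n : ℕ) (y : G), y * u ^ n = u ^ n * y := fun n y =>
    Subgroup.mem_center_iff.1 (Subgroup.pow_mem _ huZ n) y
  have hone : e 1 = 0 := by
    have h := hmul 1 1
    rw [mul_one] at h
    simpa using h
  have hew : e w = 0 := by
    apply huinj
    rw [← he, ZMod.val_zero, pow_zero]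
    group
  have hewn : ∀ n : ℕ, e (w ^ n) = 0 := by
    intro n
    induction n with
    | zero => rw [pow_zero, hone]
    | succ n ih => rw [pow_succ, hmul, ih, hew, add_zero]
  have heZ : ∀ z ∈ Subgroup.center G, e z = 0 := by
    intro z hzz
    apply huinj
    rw [← he, ZMod.val_zero, pow_zero]
    have : w * z = z * w := Subgroup.mem_center_iff.1 hzz w
    rw [← this]
    group
  have heg0 : e g0 = 1 := by
    apply huinj
    rw [← he, ZMod.val_one, pow_one, hu]
  -- moving powers of w to the right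
  have hmove : ∀ (a : ZMod p) (h : G), w ^ a.val * h = h * w ^ a.val * u ^ (-(a * e h)).val := by
    intro a h
    have h1 : h * w ^ a.val = u ^ (a * e h).val * w ^ a.val * h := by
      have h2 := NCC_cm_pow' hz h w a.val
      have h3 : h * w ^ a.val * h⁻¹ * (w ^ a.val)⁻¹ = (u ^ (e h).val) ^ a.val := by
        rw [← he]
        exact h2
      have h4 : (u ^ (e h).val) ^ a.val = u ^ (a * e h).val := by
        rw [← pow_mul, ZMod.val_mul, ← pow_eq_pow_mod _ hup, mul_comm]
      rw [← h4, ← h3]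
      group
    rw [h1]
    have h5 : u ^ (a * e h).val * u ^ (-(a * e h)).val = 1 := by
      rw [← hadd u hup, add_neg_cancel, ZMod.val_zero, pow_zero]
    calc w ^ a.val * h = (u ^ (a * e h).val * u ^ (-(a * e h)).val) * (w ^ a.val * h) := by rw [h5, one_mul]
      _ = u ^ (a * e h).val * (u ^ (-(a * e h)).val * (w ^ a.val * h)) := by rw [mul_assoc]
      _ = u ^ (a * e h).val * ((w ^ a.val * h) * u ^ (-(a * e h)).val) := by rw [huc]
      _ = u ^ (a * e h).val * w ^ a.val * h * u ^ (-(a * e h)).val := by simp only [mul_assoc]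
  have h2ne : (2 : ZMod p) ≠ 0 := by
    intro h
    have h1 : ((2 : ℕ) : ZMod p) = 0 := by exact_mod_cast h
    rw [ZMod.natCast_eq_zero_iff] at h1
    have := Nat.le_of_dvd (by norm_num) h1
    omega
  obtain ⟨s, hs⟩ : ∃ s : ZMod p → ZMod p, s = fun a => -(a ^ 2) / 2 := ⟨_, rfl⟩
  have hsadd : ∀ a b : ZMod p, s (a + b) = -(a * b) + s a + s b := by
    intro a b
    rw [hs]
    field_simp
    ring
  let τ : G →* G :=
    { toFun := fun g => g * w ^ (e g).val * u ^ (s (e g)).val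
      map_one' := by
        have hs0 : s 0 = 0 := by rw [hs]; simp
        rw [hone, hs0, ZMod.val_zero, pow_zero, pow_zero, one_mul, one_mul]
      map_mul' := by
        intro g h
        rw [hmul, hadd w hwp, hsadd, hadd u hup, hadd u hup]
        have hm := hmove (e g) h
        symm
        calc g * w ^ (e g).val * u ^ (s (e g)).val * (h * w ^ (e h).val * u ^ (s (e h)).val)
            = g * w ^ (e g).val * (u ^ (s (e g)).val * (h * w ^ (e h).val)) * u ^ (s (e h)).val := by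
              simp only [mul_assoc]
          _ = g * w ^ (e g).val * ((h * w ^ (e h).val) * u ^ (s (e g)).val) * u ^ (s (e h)).val := by
              rw [huc _ (h * w ^ (e h).val)]
          _ = g * (w ^ (e g).val * h) * w ^ (e h).val * u ^ (s (e g)).val * u ^ (s (e h)).val := by
              simp only [mul_assoc]
          _ = g * (h * w ^ (e g).val * u ^ (-(e g * e h)).val) * w ^ (e h).val * u ^ (s (e g)).val * u ^ (s (e h)).val := by
              rw [hm]
          _ = g * h * w ^ (e g).val * (u ^ (-(e g * e h)).val * w ^ (e h).val) * u ^ (s (e g)).val * u ^ (s (e h)).val := by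
              simp only [mul_assoc]
          _ = g * h * w ^ (e g).val * (w ^ (e h).val * u ^ (-(e g * e h)).val) * u ^ (s (e g)).val * u ^ (s (e h)).val := by
              rw [huc _ (w ^ (e h).val)]
          _ = g * h * (w ^ (e g).val * w ^ (e h).val) * (u ^ (-(e g * e h)).val * u ^ (s (e g)).val * u ^ (s (e h)).val) := by
              simp only [mul_assoc] }
  have hτ : ∀ g, τ g = g * w ^ (e g).val * u ^ (s (e g)).val := fun g => rfl
  have hinj : Function.Injective τ := by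
    rw [injective_iff_map_eq_one]
    intro g hg
    have h1 : e (τ g) = e g := by
      rw [hτ, hmul, hmul, hewn, heZ _ (Subgroup.pow_mem _ huZ _), add_zero, add_zero]
    rw [hg, hone] at h1
    rw [hτ, ← h1] at hg
    have hs0 : s 0 = 0 := by rw [hs]; simp
    rw [hs0, ZMod.val_zero, pow_zero, pow_zero, mul_one, mul_one] at hg
    exact hg
  have hbij : Function.Bijective τ := ⟨hinj, Finite.surjective_of_injective hinj⟩
  have hconj := hA (MulEquiv.ofBijective τ hbij) g0
  rw [isConj_iff] at hconj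
  obtain ⟨c, hc⟩ := hconj
  have hc' : c * g0 * c⁻¹ = g0 * w * u ^ (s 1).val := by
    rw [hc]
    show τ g0 = _
    rw [hτ, heg0, ZMod.val_one, pow_one]
  have h1 : c * g0 * c⁻¹ * g0⁻¹ ∈ Subgroup.center G := hz c g0
  rw [hc'] at h1
  -- g0 * w * u^s * g0⁻¹ is central, hence w is
  have h2 : g0 * w * u ^ (s 1).val * g0⁻¹ = (u ^ (s 1).val * u) * w := by
    have h3 : g0 * w * g0⁻¹ = u * w := by rw [hu]; group
    calc g0 * w * u ^ (s 1).val * g0⁻¹ = u ^ (s 1).val * (g0 * w) * g0⁻¹ := by rw [huc]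
      _ = u ^ (s 1).val * (g0 * w * g0⁻¹) := by simp only [mul_assoc]
      _ = _ := by rw [h3, mul_assoc]
  rw [h2] at h1
  apply hw
  have h4 : u ^ (s 1).val * u ∈ Subgroup.center G := Subgroup.mul_mem _ (Subgroup.pow_mem _ huZ _) huZ
  exact (Subgroup.mul_mem_cancel_left _ h4).1 h1

end Helper620.CM

namespace Helper620.CM
open Polynomial

theorem form_exp {p : ℕ} [Fact p.Prime] {f : (ZMod p)[X]} {G : Type} [Group G]
    {l : AdjoinRoot f →ₗ[ZMod p] ZMod p} (h : CMD.HasForm G f l) :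
    ∀ z ∈ Subgroup.center G, z ^ p = 1 := by
  obtain ⟨r, k, rs, radd, rcen, kadd, kbij, kcomm, kpow⟩ := h
  have k1 : k 1 = 0 := by
    have := kadd 1 (Subgroup.one_mem _) 1 (Subgroup.one_mem _)
    rw [mul_one] at this
    simpa using this.symm
  have kpw : ∀ z ∈ Subgroup.center G, ∀ n : ℕ, k (z ^ n) = n • k z := by
    intro z hz n
    induction n with
    | zero => rw [pow_zero, k1, zero_smul]
    | succ n ih => rw [pow_succ, kadd _ (Subgroup.pow_mem _ hz n) _ hz, ih, succ_nsmul]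
  intro z hz
  apply kbij.injOn (Subgroup.pow_mem _ hz p) (Subgroup.one_mem _)
  rw [kpw z hz, k1]
  ext
  · simp
  · simp

theorem final_autc3 (p : ℕ) [Fact p.Prime] (hp2 : p ≠ 2) :
    (∀ (G : Type) [Group G] [Finite G], IsPGroup p G → (∃ a b : G, a * b ≠ b * a) →
      commutator G ≤ Subgroup.center G → Nat.card (Subgroup.center G) = p ^ 2 →
      ((∀ φ : MulAut G, ∀ x : G, IsConj x (φ x)) ↔
        ∃ (f : (ZMod p)[X]) (l : AdjoinRoot f →ₗ[ZMod p] ZMod p),
          CMD.Adm f l ∧ CMD.HasForm G f l)) := by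
  intro G _ _ hG hna hcl hZ
  by_cases hZp : ∀ z ∈ Subgroup.center G, z ^ p = 1
  · exact final_autc p hp2 G hG hna hcl hZ hZp
  · constructor
    · intro hA
      exfalso
      push Not at hZp
      obtain ⟨z, hz, hzp⟩ := hZp
      apply no_cyclic_centre p hp2 G hG hna hcl ?_ hA
      have h1 : orderOf (⟨z, hz⟩ : Subgroup.center G) ∣ p ^ 2 := by
        rw [← hZ]; exact orderOf_dvd_natCard _
      obtain ⟨i, hi, hio⟩ := (Nat.dvd_prime_pow (Fact.out : p.Prime)).mp h1
      have h2 : i = 2 := by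
        by_contra hne
        have h3 : i ≤ 1 := by omega
        apply hzp
        have h4 : (⟨z, hz⟩ : Subgroup.center G) ^ p = 1 := by
          rw [← orderOf_dvd_iff_pow_eq_one, hio]
          calc p ^ i ∣ p ^ 1 := pow_dvd_pow p h3
            _ = p := pow_one p
        exact congrArg Subtype.val h4
      rw [h2] at hio
      exact isCyclic_of_orderOf_eq_card _ (by rw [hio, hZ])
    · rintro ⟨f, l, h1, h2⟩
      exact (hZp (form_exp h2)).elim

end Helper620.CM
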